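import Pool.Agent.K6.H44.VT.AS0

/-!
# Families of covers of degree `p` near a point of a curve
-/

set_option autoImplicit false
set_option linter.unusedVariables false
set_option linter.unusedSimpArgs false
set_option linter.unusedSectionVars false

universe u v

open Pool.Agent.W558 Pool.Agent.W973.CUT MvPolynomial

namespace Pool.Agent.K6.H44.VT

section asF

variable {S : Type u} [CommRing S] {ι Λ J : Type} [Fintype ι] [DecidableEq ι] [Fintype Λ]
  [Fintype J]

/-- The polynomial `e z ^ p + g z + q (x) + ∑ c_j y ^ b_j`. -/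
noncomputable def asF (p : ℕ) (e g : S) (q : MvPolynomial ι S) (c : J → S) (b : J → Λ → ℕ) :
    MvPolynomial (ι ⊕ Option Λ) S :=
  C e * X (Sum.inr none) ^ p + C g * X (Sum.inr none) + rename Sum.inl q +
    ∑ j, C (c j) * ∏ l, X (Sum.inr (some l)) ^ b j l

lemma el_rename {Λ' : Type} [Fintype Λ'] [DecidableEq (ι ⊕ Λ')] (l : Λ') (r : MvPolynomial (ι ⊕ Λ') S)
    (q : MvPolynomial ι S) : el (Sum.inr l) r (rename Sum.inl q) = rename Sum.inl q := by
  have h1 : (el (Sum.inr l) r).comp (rename (Sum.inl : ι → ι ⊕ Λ')) =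
      (rename Sum.inl : MvPolynomial ι S →ₐ[S] MvPolynomial (ι ⊕ Λ') S) := by
    apply algHom_ext
    intro i
    rw [AlgHom.comp_apply, rename_X, el_X, if_neg (by simp), add_zero]
  exact AlgHom.congr_fun h1 q

/-- The coordinates adapted to the normal form and to the translation of `z`. -/
lemma exists_Xi2 (θ : MvPolynomial ι S ≃ₐ[S] MvPolynomial ι S) (P : Finset ι) (β : S) :
    ∃ Ξ : MvPolynomial ({i // i ∈ P} ⊕ Option Λ) (MvPolynomial {i // i ∉ P} S) ≃ₐ[S]
        MvPolynomial (ι ⊕ Option Λ) S,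
      (∀ i : {i // i ∈ P}, Ξ (X (Sum.inl i)) = rename Sum.inl (θ (X i.1))) ∧
      (∀ l, Ξ (X (Sum.inr (some l))) = X (Sum.inr (some l))) ∧
      (Ξ (X (Sum.inr none)) = X (Sum.inr none) - C β) ∧
      (∀ i : {i // i ∉ P}, Ξ (C (X i)) = rename Sum.inl (θ (X i.1))) ∧
      ∀ s : S, Ξ (C (C s)) = C s := by
  classical
  obtain ⟨Ξ0, h1, h2, h3, h4⟩ := exists_Xi θ P (Option Λ)
  refine ⟨Ξ0.trans (elE (Sum.inr none) (C (-β)) (NI.cst _ _)), ?_, ?_, ?_, ?_, ?_⟩
  · intro i
    rw [AlgEquiv.trans_apply, h1, elE_apply, el_rename]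
  · intro l
    rw [AlgEquiv.trans_apply, h2, elE_apply, el_X, if_neg (by simp), add_zero]
  · rw [AlgEquiv.trans_apply, h2, elE_apply, el_X, if_pos rfl, map_neg]
    ring
  · intro i
    rw [AlgEquiv.trans_apply, h3, elE_apply, el_rename]
  · intro s
    rw [AlgEquiv.trans_apply, h4, elE_apply, el_C]

/-- The exponents of `t`. -/
def aJ (P : Finset ι) (ex : ι → ℕ) (v : J → ℕ) (ae ag : ℕ) : {i // i ∈ P} ⊕ (J ⊕ Bool) → ℕ
  | Sum.inl i => ex i.1
  | Sum.inr (Sum.inl j) => v j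
  | Sum.inr (Sum.inr x) => if x = true then ae else ag

/-- The exponents of the variables. -/
def bJ (P : Finset ι) (p : ℕ) (b : J → Λ → ℕ) :
    {i // i ∈ P} ⊕ (J ⊕ Bool) → {i // i ∈ P} ⊕ Option Λ → ℕ
  | Sum.inl i, Sum.inl i' => if i' = i then 2 else 0
  | Sum.inl _, Sum.inr _ => 0
  | Sum.inr _, Sum.inl _ => 0
  | Sum.inr (Sum.inl _), Sum.inr none => 0
  | Sum.inr (Sum.inl j), Sum.inr (some l) => b j l
  | Sum.inr (Sum.inr x), Sum.inr none => if x = true then p else 1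
  | Sum.inr (Sum.inr _), Sum.inr (some _) => 0

/-- The coefficients. -/
noncomputable def uJ (P : Finset ι) (u : ι → S) (c' : J → S) (e' g' : S) :
    {i // i ∈ P} ⊕ (J ⊕ Bool) → MvPolynomial {i // i ∉ P} S
  | Sum.inl i => C (u i.1)
  | Sum.inr (Sum.inl j) => C (c' j)
  | Sum.inr (Sum.inr x) => C (if x = true then e' else g')

/-- The linear form and the constant. -/
noncomputable def gJ (P : Finset ι) (B : ι → S) (c0 : S) : MvPolynomial {i // i ∉ P} S :=
  ∑ i : {i // i ∉ P}, C (B i.1) * X i + C c0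

lemma eqn_zero2 {S' I' J' : Type*} [CommRing S'] [IsDomain S'] [Fintype I'] [Fintype J']
    {t : S'} {a : J' → ℕ} {b : J' → I' → ℕ} {u : J' → S'} {N : ℕ} {G0 : S'}
    {G1 : MvPolynomial I' S'} (ht0 : t ≠ 0) (hb : ∀ j, ∃ i, b j i ≠ 0) (hG0 : ¬ t ∣ G0) :
    MvPolynomial.aeval (fun _ : I' => (0 : S')) (∑ j, MvPolynomial.C (u j * t ^ a j) *
      ∏ i, MvPolynomial.X i ^ b j i +
      MvPolynomial.C (t ^ N) * (MvPolynomial.C G0 + MvPolynomial.C t * G1)) ≠ 0 := by
  classical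
  rw [map_add, map_sum, Finset.sum_eq_zero, zero_add, map_mul, map_add, map_mul]
  · simp only [MvPolynomial.aeval_C, Algebra.algebraMap_self, RingHom.id_apply]
    intro h2
    have h3 := (mul_eq_zero.1 h2).resolve_left (pow_ne_zero N ht0)
    exact hG0 ⟨-aeval (fun _ : I' => (0 : S')) G1, by linear_combination h3⟩
  · intro j _
    obtain ⟨i, hi⟩ := hb j
    rw [map_mul, map_prod, Finset.prod_eq_zero (Finset.mem_univ i), mul_zero]
    rw [map_pow, MvPolynomial.aeval_X, zero_pow hi]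

/-- The equation in the adapted coordinates. -/
theorem as_eqn (p : ℕ) [Fact p.Prime] [CharP S p] (t : S) (e g : S) (q : MvPolynomial ι S)
    (c : J → S) (b : J → Λ → ℕ) (β : S) (θ : MvPolynomial ι S ≃ₐ[S] MvPolynomial ι S)
    (P : Finset ι) (u : ι → S) (ex : ι → ℕ) (s : ℕ) (B : ι → S) (c0 : S) (E : MvPolynomial ι S)
    (hBP : ∀ i ∈ P, B i = 0)
    (hqE : q + C (e * β ^ p + g * β) =
      θ (sq t P u ex + C (t ^ s) * ((lf (fun i => C (B i)) X + C c0) + C t * E)))
    (Ξ : MvPolynomial ({i // i ∈ P} ⊕ Option Λ) (MvPolynomial {i // i ∉ P} S) ≃ₐ[S]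
        MvPolynomial (ι ⊕ Option Λ) S)
    (hΞ1 : ∀ i : {i // i ∈ P}, Ξ (X (Sum.inl i)) = rename Sum.inl (θ (X i.1)))
    (hΞ2 : ∀ l, Ξ (X (Sum.inr (some l))) = X (Sum.inr (some l)))
    (hΞz : Ξ (X (Sum.inr none)) = X (Sum.inr none) - C β)
    (hΞ3 : ∀ i : {i // i ∉ P}, Ξ (C (X i)) = rename Sum.inl (θ (X i.1)))
    (hΞ4 : ∀ s : S, Ξ (C (C s)) = C s) (v : J → ℕ) (c' : J → S) (hcc : ∀ j, c j = t ^ v j * c' j)
    (ae ag : ℕ) (e' g' : S) (hee : e = t ^ ae * e') (hgg : g = t ^ ag * g') :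
    Ξ (eqn (C t) (aJ P ex v ae ag) (bJ P p b) (uJ P u c' e' g') s (gJ P B c0)
      (Ξ.symm (rename Sum.inl (θ E)))) = asF p e g q c b := by
  classical
  have hθC : ∀ a : S, θ (C a) = C a := fun a => AlgEquiv.commutes θ a
  have e1 : ∀ i : {i // i ∈ P}, Ξ (C (uJ P u c' e' g' (Sum.inl i) *
      C t ^ aJ P ex v ae ag (Sum.inl i)) * ∏ i', X i' ^ bJ P p b (Sum.inl i) i') =
      C (u i.1 * t ^ ex i.1) * rename Sum.inl (θ (X i.1)) ^ 2 := by
    intro i
    have h1 : (C (uJ P u c' e' g' (Sum.inl i) * C t ^ aJ P ex v ae ag (Sum.inl i)) :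
        MvPolynomial ({i // i ∈ P} ⊕ Option Λ) (MvPolynomial {i // i ∉ P} S)) =
        C (C (u i.1 * t ^ ex i.1)) := by
      rw [map_mul, map_pow]
      simp only [uJ, aJ, map_mul, map_pow]
    rw [map_mul, h1, hΞ4, Fintype.prod_sum_type]
    congr 1
    have h3 : ∏ l : Option Λ, (X (Sum.inr l) : MvPolynomial ({i // i ∈ P} ⊕ Option Λ)
        (MvPolynomial {i // i ∉ P} S)) ^ bJ P p b (Sum.inl i) (Sum.inr l) = 1 := by
      refine Finset.prod_eq_one fun l _ => ?_
      change _ ^ (0 : ℕ) = 1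
      rw [pow_zero]
    rw [h3, mul_one, Finset.prod_eq_single i]
    · change Ξ (X (Sum.inl i) ^ (if i = i then 2 else 0)) = _
      rw [if_pos rfl, map_pow, hΞ1]
    · intro i' _ hi'
      change X (Sum.inl i') ^ (if i' = i then 2 else 0) = _
      rw [if_neg hi', pow_zero]
    · intro h; exact absurd (Finset.mem_univ _) h
  have e2 : ∀ j : J, Ξ (C (uJ P u c' e' g' (Sum.inr (Sum.inl j)) *
      C t ^ aJ P ex v ae ag (Sum.inr (Sum.inl j))) *
      ∏ i', X i' ^ bJ P p b (Sum.inr (Sum.inl j)) i') =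
      C (c j) * ∏ l, X (Sum.inr (some l)) ^ b j l := by
    intro j
    have h1 : (C (uJ P u c' e' g' (Sum.inr (Sum.inl j)) *
        C t ^ aJ P ex v ae ag (Sum.inr (Sum.inl j))) :
        MvPolynomial ({i // i ∈ P} ⊕ Option Λ) (MvPolynomial {i // i ∉ P} S)) =
        C (C (c j)) := by
      rw [hcc j, mul_comm (t ^ v j)]
      simp only [uJ, aJ, map_mul, map_pow]
    rw [map_mul, h1, hΞ4, Fintype.prod_sum_type]
    congr 1
    have h3 : ∏ i : {i // i ∈ P}, (X (Sum.inl i) : MvPolynomial ({i // i ∈ P} ⊕ Option Λ)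
        (MvPolynomial {i // i ∉ P} S)) ^ bJ P p b (Sum.inr (Sum.inl j)) (Sum.inl i) = 1 := by
      refine Finset.prod_eq_one fun l _ => ?_
      change _ ^ (0 : ℕ) = 1
      rw [pow_zero]
    rw [h3, one_mul, Fintype.prod_option]
    have h4 : (X (Sum.inr none) : MvPolynomial ({i // i ∈ P} ⊕ Option Λ)
        (MvPolynomial {i // i ∉ P} S)) ^ bJ P p b (Sum.inr (Sum.inl j)) (Sum.inr none) = 1 := by
      change _ ^ (0 : ℕ) = 1
      rw [pow_zero]
    rw [h4, one_mul, map_prod]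
    refine Finset.prod_congr rfl fun l _ => ?_
    rw [map_pow, hΞ2]
    rfl
  have e3 : ∀ x : Bool, Ξ (C (uJ P u c' e' g' (Sum.inr (Sum.inr x)) *
      C t ^ aJ P ex v ae ag (Sum.inr (Sum.inr x))) *
      ∏ i', X i' ^ bJ P p b (Sum.inr (Sum.inr x)) i') =
      C (if x = true then e else g) * (X (Sum.inr none) - C β) ^ (if x = true then p else 1) := by
    intro x
    have h1 : (C (uJ P u c' e' g' (Sum.inr (Sum.inr x)) *
        C t ^ aJ P ex v ae ag (Sum.inr (Sum.inr x))) :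
        MvPolynomial ({i // i ∈ P} ⊕ Option Λ) (MvPolynomial {i // i ∉ P} S)) =
        C (C (if x = true then e else g)) := by
      cases x
      · simp only [uJ, aJ, Bool.false_eq_true, if_false]
        rw [hgg, mul_comm (t ^ ag)]
        simp only [map_mul, map_pow]
      · simp only [uJ, aJ, if_true]
        rw [hee, mul_comm (t ^ ae)]
        simp only [map_mul, map_pow]
    rw [map_mul, h1, hΞ4, Fintype.prod_sum_type]
    congr 1
    have h3 : ∏ i : {i // i ∈ P}, (X (Sum.inl i) : MvPolynomial ({i // i ∈ P} ⊕ Option Λ)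
        (MvPolynomial {i // i ∉ P} S)) ^ bJ P p b (Sum.inr (Sum.inr x)) (Sum.inl i) = 1 := by
      refine Finset.prod_eq_one fun l _ => ?_
      change _ ^ (0 : ℕ) = 1
      rw [pow_zero]
    rw [h3, one_mul, Fintype.prod_option]
    have h4 : ∏ l : Λ, (X (Sum.inr (some l)) : MvPolynomial ({i // i ∈ P} ⊕ Option Λ)
        (MvPolynomial {i // i ∉ P} S)) ^ bJ P p b (Sum.inr (Sum.inr x)) (Sum.inr (some l)) =
        1 := by
      refine Finset.prod_eq_one fun l _ => ?_
      change _ ^ (0 : ℕ) = 1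
      rw [pow_zero]
    rw [h4, mul_one, map_pow, hΞz]
    rfl
  have e4 : Ξ (C (gJ P B c0)) = rename Sum.inl (θ (lf (fun i => C (B i)) X + C c0)) := by
    have h1 : lf (fun i => (C (B i) : MvPolynomial ι S)) X =
        ∑ i : {i // i ∉ P}, C (B i.1) * X i.1 := by
      unfold lf
      rw [← Fintype.sum_subtype_add_sum_subtype (fun i => i ∈ P)
        (fun i => (C (B i) : MvPolynomial ι S) * X i), Finset.sum_eq_zero, zero_add]
      intro i _
      rw [hBP i.1 i.2, map_zero, zero_mul]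
    unfold gJ
    rw [h1]
    simp only [map_add, map_sum, map_mul, hΞ4, hΞ3, hθC, rename_C]
  have e5 : Ξ (C (C t ^ s)) = C (t ^ s) := by
    rw [← map_pow, hΞ4]
  have e6 : rename Sum.inl (θ (sq t P u ex)) = ∑ i : {i // i ∈ P},
      C (u i.1 * t ^ ex i.1) * rename (Sum.inl : ι → ι ⊕ Option Λ) (θ (X i.1)) ^ 2 := by
    unfold sq
    rw [← Finset.sum_coe_sort P (fun i => (C (u i * t ^ ex i) : MvPolynomial ι S) * X i ^ 2)]
    simp only [map_sum, map_mul, map_pow, hθC, rename_C]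
  have e7 : rename (Sum.inl : ι → ι ⊕ Option Λ) q = rename (Sum.inl : ι → ι ⊕ Option Λ)
      (θ (sq t P u ex + C (t ^ s) * ((lf (fun i => C (B i)) X + C c0) + C t * E))) -
        C (e * β ^ p + g * β) := by
    rw [← hqE, map_add, rename_C]
    ring
  unfold eqn asF
  rw [map_add, map_sum, Fintype.sum_sum_type, Finset.sum_congr rfl fun i _ => e1 i,
    Fintype.sum_sum_type, Finset.sum_congr rfl fun j _ => e2 j,
    Finset.sum_congr rfl fun x _ => e3 x, Fintype.sum_bool, map_mul, map_add, map_mul, e4,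
    AlgEquiv.apply_symm_apply, e5, hΞ4, e7, ← e6]
  simp only [if_true, Bool.false_eq_true, if_false, pow_one]
  rw [sub_pow_char]
  simp only [map_add, map_mul, map_pow, hθC, rename_C]
  ring

end asF

end Pool.Agent.K6.H44.VT
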