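import Pool.Agent.K6.H44.VT.Quad

/-!
# Normal forms of quadratic polynomials modulo a set of constants
-/

set_option autoImplicit false
set_option linter.unusedVariables false
set_option linter.unusedSimpArgs false
set_option linter.unusedSectionVars false

universe u v

open MvPolynomial

namespace Pool.Agent.K6.H44.VT

variable {S : Type u} [CommRing S] {ι : Type} [Fintype ι] [DecidableEq ι]

/-- The normal form up to a constant in `Z`, or a sum of squares modulo `t ^ M`. -/
def NFz (t : S) (M : ℕ) (Z : Set S) (Tm : ℕ → Prop) (q : MvPolynomial ι S) : Prop :=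
  ∃ (δ : S) (θ : MvPolynomial ι S ≃ₐ[S] MvPolynomial ι S) (P : Finset ι) (u : ι → S) (e : ι → ℕ),
    δ ∈ Z ∧ (∀ i ∈ P, ¬ t ∣ u i) ∧ ((∃ (s : ℕ) (B : ι → S) (c : S) (E : MvPolynomial ι S),
      (∀ i ∈ P, B i = 0) ∧ ((∃ i, ¬ t ∣ B i) ∨ ¬ t ∣ c ∧ (∀ i, t ∣ B i) ∧ Tm s) ∧
      q + C δ = θ (sq t P u e + C (t ^ s) * ((lf (fun i => C (B i)) X + C c) + C t * E))) ∨
      ∃ E : MvPolynomial ι S, q + C δ = θ (sq t P u e + C (t ^ M) * E))

/-- The induction for the normal form. -/
theorem nfz_aux [IsDomain S] (t : S) (ht0 : t ≠ 0) (hmax : ∀ a : S, ¬ t ∣ a → ∃ b, t ∣ 1 - a * b)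
    (h2 : S) (hh : 2 * h2 = 1) (M : ℕ) (Z : Set S) (Tm : ℕ → Prop)
    (hZ : ∀ δ ∈ Z, ∀ m < M, ∀ c : S, ¬ t ∣ c → ¬ Tm m → ∃ r, δ + t ^ m * r ∈ Z ∧ t ∣ c + r)
    (q : MvPolynomial ι S) :
    ∀ (n : ℕ) (P : Finset ι) (m : ℕ) (A : ι → ι → S) (B : ι → S) (c : S) (E : MvPolynomial ι S)
      (u : ι → S) (e : ι → ℕ) (θ : MvPolynomial ι S ≃ₐ[S] MvPolynomial ι S) (δ : S),
      δ ∈ Z → Pᶜ.card + (M - m) ≤ n → (∀ i ∈ P, ∀ j, A i j = 0 ∧ A j i = 0) → (∀ i ∈ P, B i = 0) →
      (∀ i ∈ P, ¬ t ∣ u i) →
      q + C δ = θ (sq t P u e + (C (t ^ m) * qd A B c + C (t ^ M) * E)) → NFz t M Z Tm q := by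
  intro n
  induction n with
  | zero =>
    intro P m A B c E u e θ δ hδ hn hA hB hu hq
    have hm : M ≤ m := by omega
    refine ⟨δ, θ, P, u, e, hδ, hu, Or.inr ⟨C (t ^ (m - M)) * qd A B c + E, ?_⟩⟩
    have h1 : t ^ m = t ^ M * t ^ (m - M) := by rw [← pow_add, Nat.add_sub_cancel' hm]
    have h5 : C (t ^ m) * qd A B c + C (t ^ M) * E =
        C (t ^ M) * (C (t ^ (m - M)) * qd A B c + E) := by
      rw [h1, map_mul]
      ring
    rw [hq, h5]
  | succ n ih =>
    intro P m A B c E u e θ δ hδ hn hA hB hu hq
    by_cases hm : M ≤ m
    · refine ⟨δ, θ, P, u, e, hδ, hu, Or.inr ⟨C (t ^ (m - M)) * qd A B c + E, ?_⟩⟩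
      have h1 : t ^ m = t ^ M * t ^ (m - M) := by rw [← pow_add, Nat.add_sub_cancel' hm]
      have h5 : C (t ^ m) * qd A B c + C (t ^ M) * E =
          C (t ^ M) * (C (t ^ (m - M)) * qd A B c + E) := by
        rw [h1, map_mul]
        ring
      rw [hq, h5]
    · -- completing a square
      have hstep : ∀ (A : ι → ι → S) (B : ι → S) (E : MvPolynomial ι S)
          (θ : MvPolynomial ι S ≃ₐ[S] MvPolynomial ι S),
          (∀ i ∈ P, ∀ j, A i j = 0 ∧ A j i = 0) → (∀ i ∈ P, B i = 0) →
          q + C δ = θ (sq t P u e + (C (t ^ m) * qd A B c + C (t ^ M) * E)) →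
          (∃ i0, ¬ t ∣ A i0 i0) → NFz t M Z Tm q := by
        intro A B E θ hA hB hq hex
        obtain ⟨i0, hi0⟩ := hex
        have hi0P : i0 ∉ P := fun h => hi0 (by rw [(hA i0 h i0).1]; exact dvd_zero t)
        obtain ⟨b, hb⟩ := hmax _ hi0
        have hcop : IsCoprime (A i0 i0) t := by
          obtain ⟨z, hz⟩ := hb
          exact ⟨b, z, by linear_combination -hz⟩
        obtain ⟨w, v, hwv⟩ := (IsCoprime.pow_right hcop : IsCoprime (A i0 i0) (t ^ M))
        obtain ⟨A', B', c', p, E', hp, hA', hB', hA'', hB'', heq⟩ := alpha t M A B c i0 (h2 * w) v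
          (by linear_combination A i0 i0 * w * hh + hwv)
        refine ih (insert i0 P) m A' B' c' (C (t ^ m) * E' + (elE i0 p hp).symm E)
          (fun i => if i = i0 then A i0 i0 else u i) (fun i => if i = i0 then m else e i)
          ((elE i0 p hp).trans θ) δ hδ ?_ ?_ ?_ ?_ ?_
        · have h3 : (insert i0 P)ᶜ.card < Pᶜ.card := by
            apply Finset.card_lt_card
            rw [Finset.ssubset_iff_of_subset]
            · exact ⟨i0, by simpa using hi0P, by simp⟩
            · intro x hx
              simp only [Finset.mem_compl, Finset.mem_insert, not_or] at hx ⊢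
              exact hx.2
          omega
        · intro i hi j
          rcases Finset.mem_insert.1 hi with rfl | hi
          · exact ⟨hA' _ _ (Or.inl rfl), hA' _ _ (Or.inr rfl)⟩
          · exact hA'' i (hA i hi) j
        · intro i hi
          rcases Finset.mem_insert.1 hi with rfl | hi
          · exact hB'
          · exact hB'' i (hA i hi) (hB i hi)
        · intro i hi
          rcases Finset.mem_insert.1 hi with h | hi'
          · rw [if_pos h]
            exact hi0
          · rw [if_neg]
            · exact hu i hi'
            · intro h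
              exact hi0P (h ▸ hi')
        · have h3 : sq t (insert i0 P) (fun i => if i = i0 then A i0 i0 else u i)
              (fun i => if i = i0 then m else e i) =
              C (t ^ m) * (C (A i0 i0) * X i0 ^ 2) + sq t P u e := by
            unfold sq
            rw [Finset.sum_insert hi0P]
            beta_reduce
            rw [if_pos rfl, if_pos rfl]
            congr 1
            · rw [map_mul]
              ring
            · refine Finset.sum_congr rfl fun i hi => ?_
              have : i ≠ i0 := by
                rintro rfl
                exact hi0P hi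
              rw [if_neg this, if_neg this]
          rw [h3, AlgEquiv.trans_apply, hq, heq]
          congr 1
          have h4 : elE i0 p hp (sq t P u e) = sq t P u e := map_sq t P u e hi0P p
          have h5 : ∀ a : S, elE i0 p hp (C a) = C a := fun a => el_C _ _ a
          have h6 : elE i0 p hp ((elE i0 p hp).symm E) = E := AlgEquiv.apply_symm_apply _ _
          rw [map_add (elE i0 p hp), map_add (elE i0 p hp), map_mul (elE i0 p hp), h5,
            map_mul (elE i0 p hp) (C (t ^ M)), h5]
          simp only [map_add, map_mul, map_pow, h4, h5, h6]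
          ring
      by_cases hα : ∃ i0, ¬ t ∣ A i0 i0
      · exact hstep A B E θ hA hB hq hα
      · push Not at hα
        by_cases hβ : ∃ i j, ¬ t ∣ A i j + A j i
        · obtain ⟨i, j, hij⟩ := hβ
          have hne : i ≠ j := by
            rintro rfl
            exact hij (dvd_add (hα i) (hα i))
          have hiP : i ∉ P := fun h => hij (by rw [(hA i h j).1, (hA i h j).2]; simp)
          have hjP : j ∉ P := fun h => hij (by rw [(hA j h i).1, (hA j h i).2]; simp)
          have hNI : NI j (X i : MvPolynomial ι S) := NI.var hne
          refine hstep (fun k l => A k l - (if l = i then A k j + A j k else 0) +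
            (if k = i then if l = i then A j j else 0 else 0))
            (fun l => B l - if l = i then B j else 0) ((elE j (X i) hNI).symm E)
            ((elE j (X i) hNI).trans θ) ?_ ?_ ?_ ⟨i, ?_⟩
          · intro k hk l
            have hki : k ≠ i := by
              rintro rfl
              exact hiP hk
            constructor
            · change A k l - (if l = i then A k j + A j k else 0) +
                (if k = i then if l = i then A j j else 0 else 0) = 0
              rw [(hA k hk l).1, (hA k hk j).1, (hA k hk j).2, if_neg hki]
              simp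
            · change A l k - (if k = i then A l j + A j l else 0) +
                (if l = i then if k = i then A j j else 0 else 0) = 0
              rw [(hA k hk l).2, if_neg hki, if_neg hki]
              simp
          · intro k hk
            have hki : k ≠ i := by
              rintro rfl
              exact hiP hk
            change B k - (if k = i then B j else 0) = 0
            rw [if_neg hki, hB k hk, sub_zero]
          · rw [← beta A B c hne, AlgEquiv.trans_apply, hq]
            congr 1
            have h4 : elE j (X i) hNI (sq t P u e) = sq t P u e := map_sq t P u e hjP _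
            have h5 : ∀ a : S, elE j (X i) hNI (C a) = C a := fun a => el_C _ _ a
            have h6 : elE j (X i) hNI ((elE j (X i) hNI).symm E) = E :=
              AlgEquiv.apply_symm_apply _ _
            have h7 : elE j (X i) hNI (el j (-(X i)) (qd A B c)) = qd A B c :=
              (elE j (X i) hNI).apply_symm_apply _
            simp only [map_add, map_mul, h4, h5, h6, h7]
          · change ¬ t ∣ A i i - (if i = i then A i j + A j i else 0) +
              (if i = i then if i = i then A j j else 0 else 0)
            rw [if_pos rfl, if_pos rfl, if_pos rfl]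
            intro h
            apply hij
            have h1 := dvd_sub (dvd_add (hα i) (hα j)) h
            have h3 : A i i + A j j - (A i i - (A i j + A j i) + A j j) = A i j + A j i := by ring
            rwa [h3] at h1
        · push Not at hβ
          choose A1 hA1 using hβ
          have hA1P : ∀ i ∈ P, ∀ j, A1 i j = 0 ∧ A1 j i = 0 := by
            intro i hi j
            constructor
            · have h1 := hA1 i j
              rw [(hA i hi j).1, (hA i hi j).2, add_zero] at h1
              exact (mul_eq_zero.1 h1.symm).resolve_left ht0
            · have h1 := hA1 j i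
              rw [(hA i hi j).1, (hA i hi j).2, add_zero] at h1
              exact (mul_eq_zero.1 h1.symm).resolve_left ht0
          have hqf : qf (fun i j => (C (A i j) : MvPolynomial ι S)) X =
              C t * qf (fun i j => C (h2 * A1 i j)) X := by
            have e1 : (fun i j => (C (A i j) + C (A j i) : MvPolynomial ι S)) =
                fun i j => C t * C (A1 i j) := by
              funext i j
              rw [← map_add, hA1, map_mul]
            have e2 := qf_symm (fun i j => (C (A i j) : MvPolynomial ι S)) X
            rw [e1, qf_smul] at e2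
            have e3 : (fun i j => (C (h2 * A1 i j) : MvPolynomial ι S)) =
                fun i j => C h2 * C (A1 i j) := by
              funext i j
              rw [map_mul]
            rw [e3, qf_smul]
            have e4 : (2 * C h2 : MvPolynomial ι S) = 1 := by
              rw [← map_ofNat (C : S →+* MvPolynomial ι S) 2, ← map_mul, ← map_one C]
              congr 1
            linear_combination (-qf (fun i j => (C (A i j) : MvPolynomial ι S)) X) * e4 -
              C h2 * e2
          -- the case in which everything is divisible by `t`
          have hall : ∀ (c : S) (δ : S), δ ∈ Z → t ∣ c → (∀ i, t ∣ B i) →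
              q + C δ = θ (sq t P u e + (C (t ^ m) * qd A B c + C (t ^ M) * E)) →
              NFz t M Z Tm q := by
            intro c δ hδ hct hBt hq
            obtain ⟨c1, hc1⟩ := hct
            choose B1 hB1 using hBt
            refine ih P (m + 1) (fun i j => h2 * A1 i j) B1 c1 E u e θ δ hδ (by omega) ?_ ?_ hu ?_
            · intro i hi j
              rw [(hA1P i hi j).1, (hA1P i hi j).2, mul_zero]
              exact ⟨rfl, rfl⟩
            · intro i hi
              have h1 := hB1 i
              rw [hB i hi] at h1
              exact (mul_eq_zero.1 h1.symm).resolve_left ht0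
            · have h1 : qd A B c = C t * qd (fun i j => h2 * A1 i j) B1 c1 := by
                unfold qd
                rw [hqf]
                have e1 : lf (fun i => (C (B i) : MvPolynomial ι S)) X =
                    C t * lf (fun i => C (B1 i)) X := by
                  rw [← lf_smul]
                  congr 1
                  funext i
                  rw [hB1, map_mul]
                rw [e1, hc1, map_mul]
                ring
              have h5 : C (t ^ m) * qd A B c =
                  C (t ^ (m + 1)) * qd (fun i j => h2 * A1 i j) B1 c1 := by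
                rw [h1, pow_succ, map_mul]
                ring
              rw [hq, h5]
          -- the terminal case
          have hterm : ((∃ i, ¬ t ∣ B i) ∨ ¬ t ∣ c ∧ (∀ i, t ∣ B i) ∧ Tm m) → NFz t M Z Tm q := by
            intro hBc
            refine ⟨δ, θ, P, u, e, hδ, hu, Or.inl ⟨m, B, c, qf (fun i j => C (h2 * A1 i j)) X +
              C (t ^ (M - m - 1)) * E, hB, hBc, ?_⟩⟩
            have h1 : t ^ M = t ^ m * (t * t ^ (M - m - 1)) := by
              rw [← pow_succ', ← pow_add]
              congr 1
              omega
            have h5 : C (t ^ m) * qd A B c + C (t ^ M) * E = C (t ^ m) *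
                ((lf (fun i => C (B i)) X + C c) + C t * (qf (fun i j => C (h2 * A1 i j)) X +
                  C (t ^ (M - m - 1)) * E)) := by
              rw [h1, qd, hqf]
              simp only [map_mul]
              ring
            rw [hq, h5]
          by_cases hB' : ∀ i, t ∣ B i
          · by_cases hc' : t ∣ c
            · exact hall c δ hδ hc' hB' hq
            · by_cases hT : Tm m
              · exact hterm (Or.inr ⟨hc', hB', hT⟩)
              · obtain ⟨r, hr1, hr2⟩ := hZ δ hδ m (by omega) c hc' hT
                refine hall (c + r) (δ + t ^ m * r) hr1 hr2 hB' ?_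
                have h1 : qd A B (c + r) = qd A B c + C r := by
                  unfold qd
                  rw [map_add]
                  ring
                have h3 : ∀ a : S, θ (C a) = C a := fun a => AlgEquiv.commutes θ a
                have h4 : sq t P u e + (C (t ^ m) * qd A B (c + r) + C (t ^ M) * E) =
                    (sq t P u e + (C (t ^ m) * qd A B c + C (t ^ M) * E)) + C (t ^ m * r) := by
                  rw [h1, map_mul]
                  ring
                rw [h4, map_add, map_add θ, h3, ← hq]
                ring
          · push Not at hB'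
            exact hterm (Or.inl hB')

/-- The normal form of a polynomial of degree at most two. -/
theorem exists_nfz [IsDomain S] (t : S) (ht0 : t ≠ 0)
    (hmax : ∀ a : S, ¬ t ∣ a → ∃ b, t ∣ 1 - a * b) (h2 : S) (hh : 2 * h2 = 1) (M : ℕ)
    (Z : Set S) (Tm : ℕ → Prop)
    (hZ : ∀ δ ∈ Z, ∀ m < M, ∀ c : S, ¬ t ∣ c → ¬ Tm m → ∃ r, δ + t ^ m * r ∈ Z ∧ t ∣ c + r)
    (hZ0 : (0 : S) ∈ Z)
    (q : MvPolynomial ι S) (hq : q.totalDegree ≤ 2) : NFz t M Z Tm q := by
  obtain ⟨A, B, c, rfl⟩ := exists_qd q hq
  refine nfz_aux t ht0 hmax h2 hh M Z Tm hZ _ _ ∅ 0 A B c 0 (fun _ => 0) (fun _ => 0)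
    AlgEquiv.refl 0 hZ0 le_rfl (by simp) (by simp) (by simp) ?_
  rw [sq, Finset.sum_empty, pow_zero, map_one, one_mul, mul_zero, add_zero, zero_add, map_zero,
    add_zero]
  rfl

end Pool.Agent.K6.H44.VT
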