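import Pool.Agent.K6.H44.VT.Global2
import Pool.Agent.K6.H44.VT.Quad2

/-!
# Nondegeneracy of sums with one exceptional monomial
-/

set_option autoImplicit false
set_option linter.unusedVariables false
set_option linter.unusedSimpArgs false
set_option linter.unusedSectionVars false

universe u v

open Pool.Agent.W558 Pool.Agent.W973.CUT

namespace Pool.Agent.K6.H44.VT

theorem hw_core {k S : Type u} [Field k] [CommRing S] [Algebra k S] {I J : Type} [Fintype I]
    [Fintype J] [DecidableEq J] (t : S) (a : J → ℕ) (b : J → I → ℕ) (u : J → S) (N : ℕ) (G0 : S)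
    (κ : Type u) [Field κ] [Algebra k κ] (φ : S →ₐ[k] κ) (zp : J)
    (hu : ∀ j, φ (u j) ≠ 0 ∨ N < a j) (huz : φ (u zp) ≠ 0)
    (hsep : ∀ j, j ≠ zp → ∃ e : I → κ, ∑ i, (b j i : κ) * e i ≠ 0 ∧
      ∀ j', j' ≠ j → ∑ i, (b j' i : κ) * e i = 0)
    (hG : (∃ D : TV φ, D.D t = 0 ∧ (∀ j, D.D (u j) = 0) ∧ D.D G0 ≠ 0) ∨
      (φ G0 ≠ 0 ∧ ∀ (w0 : ℕ) (w : I → ℕ), 0 < w0 → w0 * a zp + ∑ i, w i * b zp i = N * w0 →
        (∀ j, j ≠ zp → N * w0 < w0 * a j + ∑ i, w i * b j i) → ((a zp : ℕ) : κ) ≠ ((N : ℕ) : κ)))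
    (w0 : ℕ) (w : I → ℕ) (c0 : κ) (c : I → κ) (hw0 : 0 < w0) (hc0 : c0 ≠ 0) (hc : ∀ i, c i ≠ 0)
    (m : ℕ) (hm1 : ∀ j, m ≤ w0 * a j + ∑ i, w i * b j i) (hm2 : m ≤ N * w0)
    (hm3 : (∃ j, w0 * a j + ∑ i, w i * b j i = m) ∨ N * w0 = m)
    (hsum : (∑ j, if w0 * a j + ∑ i, w i * b j i = m then
        φ (u j) * (c0 ^ a j * ∏ i, c i ^ b j i) else 0) +
      (if N * w0 = m then φ G0 * c0 ^ N else 0) = 0) :
    ∃ (D : TV φ) (e0 : κ) (e : I → κ), D.D t = 0 ∧
      (∑ j, if w0 * a j + ∑ i, w i * b j i = m then (c0 ^ a j * ∏ i, c i ^ b j i) *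
        (D.D (u j) + φ (u j) * ((a j : κ) * e0 + ∑ i, (b j i : κ) * e i)) else 0) +
      (if N * w0 = m then c0 ^ N * (D.D G0 + φ G0 * (N * e0)) else 0) ≠ 0 := by
  classical
  have hT0 : ∀ j, c0 ^ a j * ∏ i, c i ^ b j i ≠ 0 := fun j =>
    mul_ne_zero (pow_ne_zero _ hc0) (Finset.prod_ne_zero_iff.2 fun i _ => pow_ne_zero _ (hc i))
  by_cases hex : ∃ j, j ≠ zp ∧ w0 * a j + ∑ i, w i * b j i = m
  · obtain ⟨j, hj, hjm⟩ := hex
    have huj : φ (u j) ≠ 0 := by
      rcases hu j with h1 | h1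
      · exact h1
      · exfalso
        have h2 : N * w0 < w0 * a j := by
          rw [mul_comm]
          exact Nat.mul_lt_mul_of_pos_left h1 hw0
        omega
    obtain ⟨e, he1, he2⟩ := hsep j hj
    refine ⟨TV.zero _, 0, e, TV.zero_D _, ?_⟩
    have h3 : (∑ j, if w0 * a j + ∑ i, w i * b j i = m then (c0 ^ a j * ∏ i, c i ^ b j i) *
        ((TV.zero φ).D (u j) + φ (u j) * ((a j : κ) * 0 + ∑ i, (b j i : κ) * e i)) else 0) =
        (c0 ^ a j * ∏ i, c i ^ b j i) * (φ (u j) * ∑ i, (b j i : κ) * e i) := by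
      rw [Finset.sum_eq_single j]
      · rw [if_pos hjm, TV.zero_D, mul_zero, zero_add, zero_add]
      · intro j' _ hj'
        rw [he2 j' hj', TV.zero_D]
        simp
      · intro h; exact absurd (Finset.mem_univ _) h
    have h4 : (if N * w0 = m then c0 ^ N * ((TV.zero φ).D G0 + φ G0 * (N * 0)) else 0) = 0 := by
      rw [TV.zero_D]
      simp
    rw [h3, h4, add_zero]
    exact mul_ne_zero (hT0 j) (mul_ne_zero huj he1)
  · push Not at hex
    have hred : ∀ f : J → κ, (∑ j, if w0 * a j + ∑ i, w i * b j i = m then f j else 0) =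
        if w0 * a zp + ∑ i, w i * b zp i = m then f zp else 0 := by
      intro f
      rw [Finset.sum_eq_single zp]
      · intro j _ hj
        rw [if_neg (hex j hj)]
      · intro h; exact absurd (Finset.mem_univ _) h
    rw [hred] at hsum
    by_cases hN : N * w0 = m
    · rw [if_pos hN] at hsum
      rcases hG with ⟨D, hDt, hDu, hDG⟩ | ⟨hG0, hG1⟩
      · refine ⟨D, 0, fun _ => 0, hDt, ?_⟩
        have h3 : ∀ j, (c0 ^ a j * ∏ i, c i ^ b j i) *
            (D.D (u j) + φ (u j) * ((a j : κ) * 0 + ∑ i, (b j i : κ) * (fun _ => (0 : κ)) i)) =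
            0 := by
          intro j
          rw [hDu j]
          simp
        rw [hred, h3, if_pos hN]
        simp only [mul_zero, add_zero, ite_self, zero_add]
        exact mul_ne_zero (pow_ne_zero _ hc0) hDG
      · by_cases hz : w0 * a zp + ∑ i, w i * b zp i = m
        · rw [if_pos hz] at hsum
          have h1 := hG1 w0 w hw0 (hz.trans hN.symm) (fun j hj => by
            have h2 := hm1 j
            have h3 := hex j hj
            omega)
          refine ⟨TV.zero _, 1, fun _ => 0, TV.zero_D _, ?_⟩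
          rw [hred, if_pos hN, if_pos hz, TV.zero_D, TV.zero_D]
          simp only [mul_zero, add_zero, zero_add, mul_one, Finset.sum_const_zero]
          have h2 : (c0 ^ a zp * ∏ i, c i ^ b zp i) * (φ (u zp) * (a zp : κ)) +
              c0 ^ N * (φ G0 * (N : κ)) = (φ G0 * c0 ^ N) * ((N : κ) - (a zp : κ)) := by
            linear_combination (a zp : κ) * hsum
          rw [h2]
          exact mul_ne_zero (mul_ne_zero hG0 (pow_ne_zero _ hc0)) (sub_ne_zero.2 h1.symm)
        · rw [if_neg hz, zero_add] at hsum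
          exact absurd hsum (mul_ne_zero hG0 (pow_ne_zero _ hc0))
    · rw [if_neg hN, add_zero] at hsum
      rcases hm3 with ⟨j, hj⟩ | h1
      · have hjz : j = zp := by
          by_contra h1
          exact hex j h1 hj
        rw [hjz] at hj
        rw [if_pos hj] at hsum
        exact absurd hsum (mul_ne_zero huz (hT0 zp))
      · exact absurd h1 hN

end Pool.Agent.K6.H44.VT
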