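import Pool.Agent.K6.H44.VT.AS

/-!
# Families of covers of degree `p` near a point of a curve: the local resolution
-/

set_option autoImplicit false
set_option linter.unusedVariables false
set_option linter.unusedSimpArgs false
set_option linter.unusedSectionVars false

universe u v

open Pool.Agent.W558 Pool.Agent.W973.CUT MvPolynomial

namespace Pool.Agent.K6.H44.VT

variable {k S : Type u} [Field k] [PerfectField k] [CommRing S] [IsDomain S] [Algebra k S]
  [Algebra.Smooth k S] {ι Λ J : Type} [Fintype ι] [DecidableEq ι] [Fintype Λ] [Fintype J]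

/-- The local resolution of the hypersurface `e z ^ p + g z + q (x) + ∑ c_j y ^ b_j`. -/
theorem as_locRes (p : ℕ) [Fact p.Prime] [CharP k p] (h2k : (2 : k) ≠ 0) (t : S) (ht0 : t ≠ 0)
    (hm : (Ideal.span {t}).IsMaximal) (e g : S) (q : MvPolynomial ι S) (c : J → S)
    (hc : ∀ j, c j ≠ 0) (b : J → Λ → ℕ)
    (hind : ∀ (κ : Type u) [Field κ] [Algebra k κ] (c : J → κ), ∃ w : Λ → κ, ∀ j,
      ∑ i, (b j i : κ) * w i = c j)
    (ae : ℕ) (e' : S) (hee : e = t ^ ae * e') (he' : ¬ t ∣ e')
    (β : S) (θ : MvPolynomial ι S ≃ₐ[S] MvPolynomial ι S)
    (P : Finset ι) (u : ι → S) (ex : ι → ℕ) (s : ℕ) (B : ι → S) (c0 : S) (E : MvPolynomial ι S)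
    (hu : ∀ i ∈ P, ¬ t ∣ u i) (hBP : ∀ i ∈ P, B i = 0)
    (hBc : (∃ i, ¬ t ∣ B i) ∨ (¬ t ∣ c0 ∧ (∀ i, t ∣ B i) ∧
      ∀ n, s = ae + p * n → ¬ t ^ (s + 1) ∣ g * t ^ n))
    (hqE : q + C (e * β ^ p + g * β) =
      θ (sq t P u ex + C (t ^ s) * ((lf (fun i => C (B i)) X + C c0) + C t * E)))
    (hgen : ∀ (κ : Type u) [Field κ] [Algebra k κ] (φ : MvPolynomial (ι ⊕ Option Λ) S →ₐ[k] κ),
      φ (asF p e g q c b) = 0 → φ (C t) ≠ 0 → ∃ D : TV φ, D.D (asF p e g q c b) ≠ 0) :
    LocRes k (asF p e g q c b) (C t) := by
  classical
  have hp : p.Prime := Fact.out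
  have hcS : CharP S p := charP_of_injective_algebraMap (algebraMap k S).injective p
  have hnoeth : IsNoetherianRing S := Algebra.FiniteType.isNoetherianRing k S
  have htu : ¬ IsUnit t := fun hu => hm.ne_top (Ideal.span_singleton_eq_top.2 hu)
  have hmax : ∀ a : S, ¬ t ∣ a → ∃ b, t ∣ 1 - a * b := by
    intro a ha
    obtain ⟨y, i, hi, hy⟩ := hm.exists_inv (x := a) (fun h => ha (Ideal.mem_span_singleton.1 h))
    obtain ⟨z, rfl⟩ := Ideal.mem_span_singleton.1 hi
    exact ⟨y, z, by linear_combination -hy⟩
  have hfac : ∀ j, ∃ (n : ℕ) (a : S), ¬ t ∣ a ∧ c j = t ^ n * a := fun j =>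
    WfDvdMonoid.max_power_factor' (hc j) htu
  choose v c' hc' hcc using hfac
  -- the coefficient of `z`
  obtain ⟨ag, g', hgg, hg'⟩ : ∃ (ag : ℕ) (g' : S), g = t ^ ag * g' ∧ (¬ t ∣ g' ∨ g' = 0 ∧ s < ag) := by
    by_cases hg0 : g = 0
    · exact ⟨s + 1, 0, by rw [hg0, mul_zero], Or.inr ⟨rfl, by omega⟩⟩
    · obtain ⟨n, a, ha, hga⟩ := WfDvdMonoid.max_power_factor' hg0 htu
      exact ⟨n, a, hga, Or.inl ha⟩
  obtain ⟨Ξ, hΞ1, hΞ2, hΞz, hΞ3, hΞ4⟩ := exists_Xi2 (Λ := Λ) θ P β
  have heq := as_eqn p t e g q c b β θ P u ex s B c0 E hBP hqE Ξ hΞ1 hΞ2 hΞz hΞ3 hΞ4 v c' hcc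
    ae ag e' g' hee hgg
  -- values at the points of the divisor
  have hval : ∀ (κ : Type u) [Field κ] [Algebra k κ] (φ : S →ₐ[k] κ), φ t = 0 →
      ∀ a, ¬ t ∣ a → φ a ≠ 0 := by
    intro κ _ _ φ hφ a ha h0
    obtain ⟨b, z, hz⟩ := hmax a ha
    have h1 : φ (1 - a * b) = φ (t * z) := by rw [hz]
    rw [map_sub, map_one, map_mul, map_mul, hφ, h0, zero_mul, zero_mul, sub_zero] at h1
    exact one_ne_zero h1
  have hsmS' : Algebra.Smooth k (MvPolynomial {i // i ∉ P} S) := smooth_mv
  have hN : EqN (k := k) (C t) (aJ P ex v ae ag) (bJ P p b) (uJ P u c' e' g') s (gJ P B c0)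
      (Ξ.symm (rename Sum.inl (θ E))) := by
    refine
      { t0 := by rw [ne_eq, C_eq_zero]; exact ht0
        hT := ?_
        hw := ?_
        hF0 := ?_
        hgen := ?_ }
    · intro κ _ _ φ hφ
      obtain ⟨D, hD⟩ := exists_tv t ht0 hm κ (φ.comp (cS k S _)) hφ
      obtain ⟨E', hE1, hE2⟩ := TV.mv φ D (fun _ => 0)
      exact ⟨E', by rw [hE1]; exact hD⟩
    · intro κ _ _ φ hφ
      have hpκ : CharP κ p := charP_of_injective_algebraMap (algebraMap k κ).injective p
      have hp0 : (p : κ) = 0 := CharP.cast_eq_zero κ p
      have h2κ : (2 : κ) ≠ 0 := by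
        have h1 : algebraMap k κ 2 = 2 := map_ofNat _ _
        rw [← h1]
        exact fun h0 => h2k ((map_eq_zero _).1 h0)
      have hvC : ∀ a, ¬ t ∣ a → φ (C a) ≠ 0 := fun a ha => hval κ (φ.comp (cS k S _)) hφ a ha
      refine hw_core (C t) (aJ P ex v ae ag) (bJ P p b) (uJ P u c' e' g') s (gJ P B c0) κ φ
        (Sum.inr (Sum.inr true)) ?_ ?_ ?_ ?_
      · rintro (i | j | x)
        · exact Or.inl (hvC _ (hu i.1 i.2))
        · exact Or.inl (hvC _ (hc' j))
        · cases x
          · rcases hg' with h1 | ⟨h1, h2⟩
            · left
              change φ (C (if false = true then e' else g')) ≠ 0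
              rw [if_neg (by simp)]
              exact hvC _ h1
            · right
              exact h2
          · left
            change φ (C (if true = true then e' else g')) ≠ 0
            rw [if_pos rfl]
            exact hvC _ he'
      · change φ (C (if true = true then e' else g')) ≠ 0
        rw [if_pos rfl]
        exact hvC _ he'
      · have hsingle : ∀ (i0 : {i // i ∈ P} ⊕ Option Λ) (j : {i // i ∈ P} ⊕ (J ⊕ Bool)),
            ∑ i, (bJ P p b j i : κ) * (Pi.single i0 1 : {i // i ∈ P} ⊕ Option Λ → κ) i =
              (bJ P p b j i0 : κ) := by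
          intro i0 j
          rw [Finset.sum_eq_single i0]
          · rw [Pi.single_eq_same, mul_one]
          · intro i _ hi
            rw [Pi.single_eq_of_ne hi, mul_zero]
          · intro h; exact absurd (Finset.mem_univ _) h
        rintro (i | j | x) hj
        · refine ⟨Pi.single (Sum.inl i) 1, ?_, ?_⟩
          · rw [hsingle]
            change (((if i = i then 2 else 0 : ℕ)) : κ) ≠ 0
            rw [if_pos rfl]
            exact_mod_cast h2κ
          · rintro (i' | j' | x') hne
            · rw [hsingle]
              change (((if i = i' then 2 else 0 : ℕ)) : κ) = 0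
              rw [if_neg, Nat.cast_zero]
              intro h
              exact hne (by rw [h])
            · rw [hsingle]
              change ((0 : ℕ) : κ) = 0
              rw [Nat.cast_zero]
            · rw [hsingle]
              change ((0 : ℕ) : κ) = 0
              rw [Nat.cast_zero]
        · obtain ⟨w, hw⟩ := hind κ (Pi.single j 1)
          have hsw : ∀ j', ∑ i, (bJ P p b j' i : κ) *
              (Sum.elim (fun _ => 0) (fun o : Option Λ => o.elim 0 w) :
                {i // i ∈ P} ⊕ Option Λ → κ) i =
              ∑ l, (bJ P p b j' (Sum.inr (some l)) : κ) * w l := by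
            intro j'
            rw [Fintype.sum_sum_type, Fintype.sum_option]
            simp only [Sum.elim_inl, Sum.elim_inr, mul_zero, Finset.sum_const_zero, zero_add,
              Option.elim_none, Option.elim_some]
          refine ⟨Sum.elim (fun _ => 0) (fun o : Option Λ => o.elim 0 w), ?_, ?_⟩
          · rw [hsw]
            change ∑ l, (b j l : κ) * w l ≠ 0
            rw [hw, Pi.single_eq_same]
            exact one_ne_zero
          · rintro (i' | j' | x') hne
            · rw [hsw]
              refine Finset.sum_eq_zero fun l _ => ?_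
              change ((0 : ℕ) : κ) * _ = 0
              rw [Nat.cast_zero, zero_mul]
            · rw [hsw]
              change ∑ l, (b j' l : κ) * w l = 0
              rw [hw, Pi.single_eq_of_ne]
              intro h
              exact hne (by rw [h])
            · rw [hsw]
              refine Finset.sum_eq_zero fun l _ => ?_
              change ((0 : ℕ) : κ) * _ = 0
              rw [Nat.cast_zero, zero_mul]
        · have hx : x = false := by
            cases x
            · rfl
            · exact absurd rfl hj
          subst hx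
          refine ⟨Pi.single (Sum.inr none) 1, ?_, ?_⟩
          · rw [hsingle]
            change (((if false = true then p else 1 : ℕ)) : κ) ≠ 0
            rw [if_neg (by simp), Nat.cast_one]
            exact one_ne_zero
          · rintro (i' | j' | x') hne
            · rw [hsingle]
              change ((0 : ℕ) : κ) = 0
              rw [Nat.cast_zero]
            · rw [hsingle]
              change ((0 : ℕ) : κ) = 0
              rw [Nat.cast_zero]
            · have hx : x' = true := by
                cases x'
                · exact absurd rfl hne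
                · rfl
              subst hx
              rw [hsingle]
              change (((if true = true then p else 1 : ℕ)) : κ) = 0
              rw [if_pos rfl, hp0]
      · rcases hBc with ⟨i, hi⟩ | ⟨hc0, hBt, hTm⟩
        · left
          have hiP : i ∉ P := fun h => hi (by rw [hBP i h]; exact dvd_zero t)
          obtain ⟨E', hE1, hE2⟩ := TV.mv φ (TV.zero _) (Pi.single ⟨i, hiP⟩ 1)
          refine ⟨E', by rw [hE1, TV.zero_D], ?_, ?_⟩
          · rintro (i | j | x)
            · change E'.D (C _) = 0
              rw [hE1, TV.zero_D]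
            · change E'.D (C _) = 0
              rw [hE1, TV.zero_D]
            · change E'.D (C _) = 0
              rw [hE1, TV.zero_D]
          · have h3 : E'.D (gJ P B c0) = φ (C (B i)) := by
              change E'.D (∑ i : {i // i ∉ P}, C (B i.1) * X i + C c0) = _
              rw [map_add, map_sum, hE1, TV.zero_D, add_zero, Finset.sum_eq_single ⟨i, hiP⟩]
              · rw [E'.leib, hE1, TV.zero_D, hE2, Pi.single_eq_same]
                ring
              · intro j _ hj
                rw [E'.leib, hE1, TV.zero_D, hE2, Pi.single_eq_of_ne hj]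
                ring
              · intro h; exact absurd (Finset.mem_univ _) h
            rw [h3]
            exact hvC _ hi
        · right
          refine ⟨?_, ?_⟩
          · have h1 : φ (gJ P B c0) = φ (C c0) := by
              change φ (∑ i : {i // i ∉ P}, C (B i.1) * X i + C c0) = _
              rw [map_add, map_sum, Finset.sum_eq_zero, zero_add]
              intro i _
              obtain ⟨z, hz⟩ := hBt i.1
              rw [map_mul, hz, map_mul, map_mul, hφ]
              ring
            rw [h1]
            exact hvC _ hc0
          · intro w0 w hw0 h1 h2 h3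
            have h4 : ∑ i, w i * bJ P p b (Sum.inr (Sum.inr true)) i = w (Sum.inr none) * p := by
              rw [Finset.sum_eq_single (Sum.inr none)]
              · rfl
              · rintro (i | _ | l) _ hi
                · change _ * 0 = 0
                  rw [mul_zero]
                · exact absurd rfl hi
                · change _ * 0 = 0
                  rw [mul_zero]
              · intro h; exact absurd (Finset.mem_univ _) h
            have h5 : ∑ i, w i * bJ P p b (Sum.inr (Sum.inr false)) i = w (Sum.inr none) := by
              rw [Finset.sum_eq_single (Sum.inr none)]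
              · exact mul_one _
              · rintro (i | _ | l) _ hi
                · change _ * 0 = 0
                  rw [mul_zero]
                · exact absurd rfl hi
                · change _ * 0 = 0
                  rw [mul_zero]
              · intro h; exact absurd (Finset.mem_univ _) h
            have h6 := h2 (Sum.inr (Sum.inr false)) (by simp)
            rw [h5] at h6
            rw [h4] at h1
            change s * w0 < w0 * ag + w (Sum.inr none) at h6
            change w0 * ae + w (Sum.inr none) * p = s * w0 at h1
            change ((ae : ℕ) : κ) = (s : κ) at h3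
            have h7 : ae ≤ s := by
              by_contra hcon
              push Not at hcon
              have := Nat.mul_lt_mul_of_pos_left hcon hw0
              have h8 : w0 * s = s * w0 := mul_comm _ _
              omega
            obtain ⟨d, rfl⟩ := Nat.exists_eq_add_of_le h7
            have h8 : (d : κ) = 0 := by
              rw [Nat.cast_add] at h3
              linear_combination -h3
            obtain ⟨n, rfl⟩ := (CharP.cast_eq_zero_iff κ p d).1 h8
            apply hTm n rfl
            have h9 : w (Sum.inr none) = n * w0 := by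
              apply Nat.eq_of_mul_eq_mul_right hp.pos
              nlinarith [h1]
            have h10 : ae + p * n < ag + n := by
              rw [h9] at h6
              have : (ae + p * n) * w0 < (ag + n) * w0 := by nlinarith [h6]
              exact Nat.lt_of_mul_lt_mul_right this
            rw [hgg, mul_right_comm, ← pow_add]
            exact Dvd.dvd.mul_right (pow_dvd_pow t (by omega)) g'
    · refine eqn_zero2 (by rw [ne_eq, C_eq_zero]; exact ht0) ?_ ?_
      · rintro (i | j | x)
        · refine ⟨Sum.inl i, ?_⟩
          change (if i = i then 2 else 0) ≠ 0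
          rw [if_pos rfl]
          norm_num
        · by_contra hcon
          push Not at hcon
          obtain ⟨w, hw⟩ := hind k (fun _ => 1)
          have := hw j
          rw [Finset.sum_eq_zero] at this
          · exact zero_ne_one this
          · intro l _
            have h1 : b j l = 0 := hcon (Sum.inr (some l))
            rw [h1]
            simp
        · refine ⟨Sum.inr none, ?_⟩
          cases x
          · change (if false = true then p else 1) ≠ 0
            simp
          · change (if true = true then p else 1) ≠ 0
            rw [if_pos rfl]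
            exact hp.ne_zero
      · rintro ⟨G, hG⟩
        have hev : ∀ f : {i // i ∉ P} → S, aeval f (gJ P B c0) = ∑ i, B i.1 * f i + c0 := by
          intro f
          unfold gJ
          rw [map_add, map_sum]
          simp only [map_mul, aeval_C, aeval_X, Algebra.algebraMap_self, RingHom.id_apply]
        have hdv : ∀ f : {i // i ∉ P} → S, t ∣ ∑ i, B i.1 * f i + c0 := by
          intro f
          rw [← hev, hG, map_mul, aeval_C]
          exact ⟨_, rfl⟩
        have h1 : t ∣ c0 := by
          have := hdv (fun _ => 0)
          simpa using this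
        rcases hBc with ⟨i, hi⟩ | ⟨hc0, -⟩
        · apply hi
          have hiP : i ∉ P := fun h => hi (by rw [hBP i h]; exact dvd_zero t)
          have h2 := hdv (Pi.single ⟨i, hiP⟩ 1)
          rw [Finset.sum_eq_single ⟨i, hiP⟩, Pi.single_eq_same, mul_one] at h2
          · exact (dvd_add_left h1).1 h2
          · intro j _ hj
            rw [Pi.single_eq_of_ne hj, mul_zero]
          · intro h; exact absurd (Finset.mem_univ _) h
        · exact hc0 h1
    · intro κ _ _ φ hφ hφt
      let Ξk := Ξ.restrictScalars k
      let φ' : MvPolynomial (ι ⊕ Option Λ) S →ₐ[k] κ := φ.comp (Ξk.symm : _ →ₐ[k] _)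
      have h3 : ∀ p, φ' (Ξ p) = φ p := fun p => by
        change φ (Ξ.symm (Ξ p)) = φ p
        rw [AlgEquiv.symm_apply_apply]
      have h4 : φ' (asF p e g q c b) = 0 := by rw [← heq, h3, hφ]
      have h5 : φ' (C t) ≠ 0 := by
        rw [← hΞ4, h3]
        exact hφt
      obtain ⟨D', hD'⟩ := hgen κ φ' h4 h5
      refine ⟨(TV.restr (Ξk : _ →ₐ[k] _) D').cast (fun p => h3 p), ?_⟩
      change D'.D (Ξ (eqn (C t) (aJ P ex v ae ag) (bJ P p b) (uJ P u c' e' g') s (gJ P B c0)
        (Ξ.symm (rename Sum.inl (θ E))))) ≠ 0
      rw [heq]
      exact hD'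
  have hfin := (hN.locRes (C t) _ _ _ _ _ _).equiv (Ξ.restrictScalars k)
  have h1 : (Ξ.restrictScalars k) (eqn (C t) (aJ P ex v ae ag) (bJ P p b) (uJ P u c' e' g') s
      (gJ P B c0) (Ξ.symm (rename Sum.inl (θ E)))) = asF p e g q c b := heq
  have h2 : (Ξ.restrictScalars k) (C (C t)) = C t := hΞ4 t
  rw [h1, h2] at hfin
  exact hfin

end Pool.Agent.K6.H44.VT
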