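import Pool.Agent.K6.H44.VT.AS2

/-!
# Resolution of singularities for Artin-Schreier covers of quadratic type over a curve
-/

set_option autoImplicit false
set_option linter.unusedVariables false
set_option linter.unusedSimpArgs false
set_option linter.unusedSectionVars false

universe u v

open Pool.Agent.W558 Pool.Agent.W973.CUT MvPolynomial

namespace Pool.Agent.K6.H44.VT

section prel

variable {S : Type u} [CommRing S] {ι Λ J : Type} [Fintype ι] [DecidableEq ι] [Fintype Λ]
  [Fintype J]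

lemma map_asF {R' S : Type u} [CommRing R'] [CommRing S] (f : R' →+* S) (p : ℕ) (e g : R')
    (q : MvPolynomial ι R') (c : J → R') (b : J → Λ → ℕ) :
    map f (asF p e g q c b) = asF p (f e) (f g) (map f q) (fun j => f (c j)) b := by
  unfold asF
  simp only [map_add, map_sum, map_mul, map_C, map_prod, map_pow, map_X, map_rename]

lemma pderiv_asF (p : ℕ) [CharP S p] (e g : S) (q : MvPolynomial ι S) (c : J → S)
    (b : J → Λ → ℕ) : pderiv (Sum.inr none) (asF p e g q c b) = C g := by
  classical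
  have hp0 : (p : MvPolynomial (ι ⊕ Option Λ) S) = 0 := CharP.cast_eq_zero _ p
  have h1 : ∀ j, pderiv (Sum.inr none) (C (c j) * ∏ l, X (Sum.inr (some l)) ^ b j l :
      MvPolynomial (ι ⊕ Option Λ) S) = 0 := by
    intro j
    have h2 : (C (c j) * ∏ l, X (Sum.inr (some l)) ^ b j l : MvPolynomial (ι ⊕ Option Λ) S) =
        monomial (∑ l, Finsupp.single (Sum.inr (some l)) (b j l)) (c j) := by
      rw [monomial_sum_index]
      congr 1
      exact Finset.prod_congr rfl fun l _ => X_pow_eq_monomial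
    rw [h2, pderiv_monomial]
    have h3 : (∑ l, Finsupp.single (Sum.inr (some l) : ι ⊕ Option Λ) (b j l))
        (Sum.inr none) = 0 := by
      rw [Finsupp.finsetSum_apply, Finset.sum_eq_zero]
      intro l _
      rw [Finsupp.single_eq_of_ne]
      simp
    rw [h3]
    simp
  unfold asF
  rw [map_add, map_add, map_add, map_sum, Finset.sum_eq_zero fun j _ => h1 j, pderiv_inr,
    pderiv_C_mul, pderiv_C_mul, pderiv_pow, pderiv_X_self, hp0]
  simp

/-- Residue fields are perfect. -/
lemma exists_root {k : Type u} [Field k] [PerfectField k] [Algebra k S] [Algebra.FiniteType k S]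
    (p : ℕ) [Fact p.Prime] [CharP k p] (t : S) (hm : (Ideal.span {t}).IsMaximal) (a c : S)
    (ha : ¬ t ∣ a) : ∃ β : S, t ∣ c + a * β ^ p := by
  let _ : Field (S ⧸ Ideal.span {t}) := Ideal.Quotient.field _
  have h1 : Module.Finite k (S ⧸ Ideal.span {t}) := finite_of_finite_type_of_isJacobsonRing k _
  have h2 : Algebra.IsAlgebraic k (S ⧸ Ideal.span {t}) := Algebra.IsAlgebraic.of_finite k _
  have h3 : PerfectField (S ⧸ Ideal.span {t}) := Algebra.IsAlgebraic.perfectField k
  have h4 : CharP (S ⧸ Ideal.span {t}) p :=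
    charP_of_injective_algebraMap (algebraMap k (S ⧸ Ideal.span {t})).injective p
  have h5 : PerfectRing (S ⧸ Ideal.span {t}) p := inferInstance
  let m := Ideal.Quotient.mk (Ideal.span {t})
  have ha0 : m a ≠ 0 := by
    intro h
    exact ha (Ideal.mem_span_singleton.1 (Ideal.Quotient.eq_zero_iff_mem.1 h))
  obtain ⟨x, hx⟩ := (PerfectRing.bijective_frobenius (R := S ⧸ Ideal.span {t}) (p := p)).2
    (-(m c) / m a)
  obtain ⟨β, rfl⟩ := Ideal.Quotient.mk_surjective x
  refine ⟨β, ?_⟩
  rw [← Ideal.mem_span_singleton, ← Ideal.Quotient.eq_zero_iff_mem]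
  change m (c + a * β ^ p) = 0
  rw [map_add, map_mul, map_pow]
  have hx' : m β ^ p = -(m c) / m a := hx
  rw [hx']
  field_simp
  ring

end prel

section as_local

variable {k S : Type u} [Field k] [PerfectField k] [CommRing S] [IsDomain S] [Algebra k S]
  [Algebra.Smooth k S] {ι Λ J : Type} [Fintype ι] [DecidableEq ι] [Fintype Λ] [Fintype J]

/-- The set of constants by which `q` changes. -/
def asZ (p : ℕ) (e g : S) : Set S := {δ | ∃ β, δ = e * β ^ p + g * β}

theorem as_hZ (p : ℕ) [Fact p.Prime] [CharP k p] (t : S) (hm : (Ideal.span {t}).IsMaximal)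
    (e g : S) (ae : ℕ) (e' : S) (hee : e = t ^ ae * e') (he' : ¬ t ∣ e') (M : ℕ) :
    ∀ δ ∈ asZ p e g, ∀ m < M, ∀ c : S, ¬ t ∣ c →
      ¬ (∀ n, m = ae + p * n → ¬ t ^ (m + 1) ∣ g * t ^ n) →
      ∃ r, δ + t ^ m * r ∈ asZ p e g ∧ t ∣ c + r := by
  rintro δ ⟨β, rfl⟩ m _ c hc hT
  have hcS : CharP S p := charP_of_injective_algebraMap (algebraMap k S).injective p
  push Not at hT
  obtain ⟨n, rfl, y, hy⟩ := hT
  obtain ⟨β0, hβ0⟩ := exists_root (k := k) p t hm e' c he'
  refine ⟨e' * β0 ^ p + t * y * β0, ⟨β + β0 * t ^ n, ?_⟩, ?_⟩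
  · rw [add_pow_char, mul_pow, ← pow_mul, mul_comm n p]
    have h1 : e * (β0 ^ p * t ^ (p * n)) = t ^ (ae + p * n) * (e' * β0 ^ p) := by
      rw [hee, pow_add]
      ring
    have h2 : g * (β0 * t ^ n) = t ^ (ae + p * n) * (t * y * β0) := by
      have h3 : g * (β0 * t ^ n) = (g * t ^ n) * β0 := by ring
      rw [h3, hy, pow_succ]
      ring
    rw [mul_add, mul_add, mul_add, h1, h2]
    ring
  · rw [← add_assoc]
    exact dvd_add hβ0 (Dvd.dvd.mul_right (Dvd.dvd.mul_right dvd_rfl _) _)

/-- The local resolution in the separable case. -/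
theorem as_locRes_sep (p : ℕ) [Fact p.Prime] [CharP k p] (h2k : (2 : k) ≠ 0) (t : S) (ht0 : t ≠ 0)
    (hm : (Ideal.span {t}).IsMaximal) (e g : S) (he : e ≠ 0) (hg : g ≠ 0) (q : MvPolynomial ι S)
    (hq : q.totalDegree ≤ 2) (c : J → S)
    (hc : ∀ j, c j ≠ 0) (b : J → Λ → ℕ)
    (hind : ∀ (κ : Type u) [Field κ] [Algebra k κ] (c : J → κ), ∃ w : Λ → κ, ∀ j,
      ∑ i, (b j i : κ) * w i = c j)
    (hht : ∀ (κ : Type u) [Field κ] [Algebra k κ] (φ : S →ₐ[k] κ), φ g = 0 → φ t = 0) :
    LocRes k (asF p e g q c b) (C t) := by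
  classical
  have hp : p.Prime := Fact.out
  have hcS : CharP S p := charP_of_injective_algebraMap (algebraMap k S).injective p
  have hnoeth : IsNoetherianRing S := Algebra.FiniteType.isNoetherianRing k S
  have htu : ¬ IsUnit t := fun hu => hm.ne_top (Ideal.span_singleton_eq_top.2 hu)
  have hmax : ∀ a : S, ¬ t ∣ a → ∃ b, t ∣ 1 - a * b := by
    intro a ha
    obtain ⟨y, i, hi, hy⟩ := hm.exists_inv (x := a) (fun h => ha (Ideal.mem_span_singleton.1 h))
    obtain ⟨z, rfl⟩ := Ideal.mem_span_singleton.1 hi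
    exact ⟨y, z, by linear_combination -hy⟩
  have hh2 : (2 : S) * algebraMap k S (1 / 2) = 1 := by
    have h1 : (2 : S) = algebraMap k S 2 := (map_ofNat _ _).symm
    rw [h1, ← map_mul, mul_one_div_cancel h2k, map_one]
  obtain ⟨ae, e', he', hee⟩ := WfDvdMonoid.max_power_factor' he htu
  obtain ⟨ag, g', hg', hgg⟩ := WfDvdMonoid.max_power_factor' hg htu
  have hgen : ∀ (κ : Type u) [Field κ] [Algebra k κ] (φ : MvPolynomial (ι ⊕ Option Λ) S →ₐ[k] κ),
      φ (asF p e g q c b) = 0 → φ (C t) ≠ 0 → ∃ D : TV φ, D.D (asF p e g q c b) ≠ 0 := by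
    intro κ _ _ φ _ hφt
    refine ⟨TV.ofDer φ (fun a => pderiv (Sum.inr none) a) (fun _ _ => map_add _ _ _)
      (fun c a => by
        rw [← algebraMap_smul S c a, ← algebraMap_smul S c (pderiv (Sum.inr none) a),
          Derivation.map_smul])
      (fun a b => by rw [Derivation.leibniz]; rfl), ?_⟩
    change φ (pderiv (Sum.inr none) (asF p e g q c b)) ≠ 0
    rw [pderiv_asF]
    intro h1
    exact hφt (hht κ (φ.comp (cS k S _)) h1)
  obtain ⟨δ, θ, P, u, ex, ⟨β, hδ⟩, hu, hcase⟩ := exists_nfz t ht0 hmax (algebraMap k S (1 / 2)) hh2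
    (2 * ag + 2) (asZ p e g) (fun m => ∀ n, m = ae + p * n → ¬ t ^ (m + 1) ∣ g * t ^ n)
    (as_hZ (k := k) p t hm e g ae e' hee he' _) ⟨0, by rw [zero_pow hp.ne_zero]; ring⟩ q hq
  rcases hcase with ⟨s, B, c0, E, hBP, hBc, hqE⟩ | ⟨E, hqE⟩
  · rw [hδ] at hqE
    exact as_locRes p h2k t ht0 hm e g q c hc b hind ae e' hee he' β θ P u ex s B c0 E hu hBP hBc
      hqE hgen
  · -- a translation of `z` creates a constant
    have h2p : 2 ≤ p := hp.two_le
    let z : S := e * t ^ ((p - 2) * (ag + 1))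
    have hz : e * (t ^ (ag + 1)) ^ p = t ^ (2 * ag + 1) * (t * z) := by
      have h1 : (ag + 1) * p = (2 * ag + 1) + 1 + (p - 2) * (ag + 1) := by
        obtain ⟨p', rfl⟩ := Nat.exists_eq_add_of_le h2p
        rw [Nat.add_sub_cancel_left]
        ring
      rw [← pow_mul, h1, pow_add, pow_succ]
      ring
    have hg1 : g * t ^ (ag + 1) = t ^ (2 * ag + 1) * g' := by
      rw [hgg, mul_right_comm, ← pow_add]
      congr 2
      ring
    refine as_locRes p h2k t ht0 hm e g q c hc b hind ae e' hee he' (β + t ^ (ag + 1)) θ P u ex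
      (2 * ag + 1) (fun _ => 0) g' (E + C z) hu (fun _ _ => rfl)
      (Or.inr ⟨hg', fun _ => dvd_zero t, ?_⟩) ?_ hgen
    · intro n hn hdv
      have h1 : 2 * n ≤ p * n := Nat.mul_le_mul_right n h2p
      have h2 : g * t ^ n = t ^ (ag + n) * g' := by
        rw [hgg, mul_right_comm, ← pow_add]
      rw [h2] at hdv
      have h3 : 2 * ag + 1 + 1 = (ag + n) + (ag + 1 - n) + 1 := by omega
      rw [h3, pow_succ, pow_add, mul_assoc] at hdv
      have h4 := (mul_dvd_mul_iff_left (pow_ne_zero (ag + n) ht0)).1 hdv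
      exact hg' (dvd_trans (dvd_mul_left t _) h4)
    · have h1 : ∀ a : S, θ (C a) = C a := fun a => AlgEquiv.commutes θ a
      have h2 : e * (β + t ^ (ag + 1)) ^ p + g * (β + t ^ (ag + 1)) =
          δ + t ^ (2 * ag + 1) * (g' + t * z) := by
        rw [add_pow_char, mul_add, mul_add, hz, hg1, hδ]
        ring
      have h3 : (lf (fun i => (C (0 : S) : MvPolynomial ι S)) X : MvPolynomial ι S) = 0 := by
        unfold lf
        simp
      rw [h2, h3, map_add, ← add_assoc, hqE, ← h1 (t ^ (2 * ag + 1) * (g' + t * z)), ← map_add]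
      congr 1
      have h4 : (2 * ag + 2) = (2 * ag + 1) + 1 := by ring
      rw [h4, pow_succ]
      simp only [map_add, map_mul]
      ring

end as_local

/-- Resolution of singularities for Artin-Schreier covers of quadratic type over a curve. -/
theorem as_main {k R : Type u} [Field k] [PerfectField k] (p : ℕ) [Fact p.Prime] [CharP k p]
    (h2k : (2 : k) ≠ 0) [CommRing R]
    [IsDedekindDomain R] [Algebra k R] [Algebra.Smooth k R] {ι Λ J : Type} [Fintype ι]
    [Fintype Λ] [Fintype J] (e g : R) (he : e ≠ 0) (hg : g ≠ 0) (q : MvPolynomial ι R)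
    (hq : q.totalDegree ≤ 2) (c : J → R)
    (hc : ∀ j, c j ≠ 0) (b : J → Λ → ℕ)
    (hind : ∀ (κ : Type u) [Field κ] [Algebra k κ] (c : J → κ), ∃ w : Λ → κ, ∀ j,
      ∑ i, (b j i : κ) * w i = c j)
    (hprime : (Ideal.span {asF p e g q c b}).IsPrime) :
    Pool.Agent.H920R2.HasResolution
      (X := AlgebraicGeometry.Spec (CommRingCat.of (MvPolynomial (ι ⊕ Option Λ) R ⧸
        Ideal.span {asF p e g q c b})))
      (AlgebraicGeometry.Spec.map (CommRingCat.ofHom (algebraMap k _))) := by
  classical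
  have hcR : CharP R p := charP_of_injective_algebraMap (algebraMap k R).injective p
  refine global_main (asF p e g q c b) hprime ?_ g hg ?_ ?_
  · intro r hr
    have h1 := pderiv_asF p e g q c b
    rw [hr, pderiv_C] at h1
    exact hg (C_injective (ι ⊕ Option Λ) R (by rw [← h1, map_zero]))
  · intro κ _ _ φ _ hφ
    have hcS : CharP (Localization.Away g) p := by
      have hM : Submonoid.powers g ≤ nonZeroDivisors R := by
        rintro _ ⟨n, rfl⟩
        exact mem_nonZeroDivisors_of_ne_zero (pow_ne_zero n hg)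
      exact charP_of_injective_algebraMap (IsLocalization.injective (Localization.Away g) hM) p
    rw [map_asF]
    refine ⟨TV.ofDer φ (fun a => pderiv (Sum.inr none) a) (fun _ _ => map_add _ _ _)
      (fun c a => by
        rw [← algebraMap_smul (Localization.Away g) c a,
          ← algebraMap_smul (Localization.Away g) c (pderiv (Sum.inr none) a),
          Derivation.map_smul])
      (fun a b => by rw [Derivation.leibniz]; rfl), ?_⟩
    change φ (pderiv (Sum.inr none) (asF p _ _ _ _ b)) ≠ 0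
    rw [pderiv_asF]
    exact hφ
  · intro g0 t hg0 hd hs hinj ht0 hmax hht
    rw [map_asF]
    exact as_locRes_sep p h2k t ht0 hmax _ _
      (fun h1 => he (hinj (h1.trans (map_zero _).symm)))
      (fun h1 => hg (hinj (h1.trans (map_zero _).symm))) _
      ((totalDegree_map_le _ _).trans hq) _
      (fun j h1 => hc j (hinj (h1.trans (map_zero _).symm))) b hind hht

end Pool.Agent.K6.H44.VT
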