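import Pool.Agent.K6.H44.VT.Curve

/-!
# Localizations of polynomial rings
-/

set_option autoImplicit false
set_option linter.unusedVariables false
set_option linter.unusedSimpArgs false
set_option linter.unusedSectionVars false

universe u v

open Pool.Agent.W558 Pool.Agent.W973.CUT MvPolynomial

namespace Pool.Agent.K6.H44.VT

section away

variable {k R : Type u} [Field k] [CommRing R] [IsDomain R] [Algebra k R] {σ : Type}
  {L : Type u} [Field L] [Algebra k L] [Algebra (MvPolynomial σ R) L]
  [IsFractionRing (MvPolynomial σ R) L] [IsScalarTower k (MvPolynomial σ R) L]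

attribute [local instance] MvPolynomial.algebraMvPolynomial

/-- The localization of the polynomial ring at a constant as a subalgebra of the field of
fractions. -/
theorem exists_away (g : R) (hg : g ≠ 0) :
    ∃ (A0 : Subalgebra k L) (e : MvPolynomial σ (Localization.Away g) ≃ₐ[k] A0),
      (∀ p : MvPolynomial σ R, ((e (map (algebraMap R (Localization.Away g)) p) : A0) : L) =
        algebraMap _ L p) ∧
      ∀ x, x ∈ A0 ↔ ∃ (n : ℕ) (p : MvPolynomial σ R),
        algebraMap (MvPolynomial σ R) L (C g) ^ n * x = algebraMap _ L p := by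
  let S := Localization.Away g
  let Pol := MvPolynomial σ R
  let M : Submonoid Pol := (Submonoid.powers g).map (C (σ := σ))
  have hloc : IsLocalization M (MvPolynomial σ S) := inferInstance
  have hinj : Function.Injective (algebraMap Pol L) := IsFractionRing.injective Pol L
  have hCg : ∀ n : ℕ, algebraMap Pol L (C g) ^ n ≠ 0 := by
    intro n
    apply pow_ne_zero
    intro h0
    have h1 := hinj (h0.trans (map_zero _).symm)
    rw [C_eq_zero] at h1
    exact hg h1
  have hM : ∀ y : M, ∃ n : ℕ, (y : Pol) = C g ^ n := by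
    rintro ⟨y, z, ⟨n, rfl⟩, rfl⟩
    exact ⟨n, map_pow C g n⟩
  have hu : ∀ y : M, IsUnit (algebraMap Pol L y) := by
    intro y
    obtain ⟨n, hn⟩ := hM y
    rw [hn, map_pow]
    exact isUnit_iff_ne_zero.2 (hCg n)
  let f : MvPolynomial σ S →+* L := IsLocalization.lift hu
  have hf : ∀ p : Pol, f (algebraMap Pol (MvPolynomial σ S) p) = algebraMap Pol L p := fun p =>
    IsLocalization.lift_eq hu p
  have hf' : ∀ p : Pol, f (map (algebraMap R S) p) = algebraMap Pol L p := fun p => hf p
  have hsurj : ∀ x : MvPolynomial σ S, ∃ (n : ℕ) (p : Pol),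
      algebraMap Pol (MvPolynomial σ S) (C g ^ n) * x = algebraMap Pol (MvPolynomial σ S) p := by
    intro x
    obtain ⟨⟨p, y⟩, hy⟩ := IsLocalization.surj M x
    obtain ⟨n, hn⟩ := hM y
    exact ⟨n, p, by rw [mul_comm, ← hn]; exact hy⟩
  have hfinj : Function.Injective f := by
    rw [injective_iff_map_eq_zero]
    intro x hx
    obtain ⟨n, p, hp⟩ := hsurj x
    have h1 : algebraMap Pol L p = 0 := by
      rw [← hf, ← hp, map_mul, hx, mul_zero]
    have h2 : p = 0 := hinj (h1.trans (map_zero _).symm)
    rw [h2, map_zero] at hp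
    have h3 : IsUnit (algebraMap Pol (MvPolynomial σ S) (C g ^ n)) := by
      have h4 : C g ^ n ∈ M := ⟨g ^ n, ⟨n, rfl⟩, by rw [map_pow]⟩
      exact IsLocalization.map_units (MvPolynomial σ S) (⟨C g ^ n, h4⟩ : M)
    exact (IsUnit.mul_right_eq_zero h3).1 hp
  let F : MvPolynomial σ S →ₐ[k] L :=
    { f with
      commutes' := by
        intro r
        change f (algebraMap k (MvPolynomial σ S) r) = _
        have h1 : algebraMap k (MvPolynomial σ S) r = map (algebraMap R S) (algebraMap k Pol r) := by
          rw [IsScalarTower.algebraMap_apply k R Pol, algebraMap_eq, map_C,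
            IsScalarTower.algebraMap_apply k S (MvPolynomial σ S), algebraMap_eq,
            ← IsScalarTower.algebraMap_apply k R S]
        rw [h1, hf', ← IsScalarTower.algebraMap_apply k Pol L] }
  have hFinj : Function.Injective F := hfinj
  refine ⟨F.range, AlgEquiv.ofInjective F hFinj, fun p => hf' p, fun x => ?_⟩
  constructor
  · rintro ⟨y, rfl⟩
    obtain ⟨n, p, hp⟩ := hsurj y
    refine ⟨n, p, ?_⟩
    rw [← hf p, ← hp, map_mul, hf, map_pow]
  · rintro ⟨n, p, hp⟩
    have h4 : C g ^ n ∈ M := ⟨g ^ n, ⟨n, rfl⟩, by rw [map_pow]⟩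
    refine ⟨IsLocalization.mk' (MvPolynomial σ S) p (⟨C g ^ n, h4⟩ : M), ?_⟩
    apply mul_left_cancel₀ (hCg n)
    rw [hp]
    have h5 : algebraMap Pol (MvPolynomial σ S) (C g ^ n) *
        IsLocalization.mk' (MvPolynomial σ S) p (⟨C g ^ n, h4⟩ : M) =
        algebraMap Pol (MvPolynomial σ S) p := IsLocalization.mk'_spec' _ p (⟨C g ^ n, h4⟩ : M)
    rw [← hf p, ← h5, map_mul, hf, map_pow]

end away

end Pool.Agent.K6.H44.VT
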