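import Pool.Agent.K6.H44.VT.State

/-!
# Vertical toroidal modifications: blowups and localizations
-/

set_option autoImplicit false
set_option linter.unusedVariables false
set_option linter.unusedSimpArgs false
set_option linter.unusedSectionVars false

universe u v

open Polynomial Pool.Agent.W558

namespace Pool.Agent.K6.H44.VT

section blow

variable {k L : Type u} [Field k] [Field L] [Algebra k L] {A0 : Subalgebra k L} {T I G : Type}
  [Fintype I] [DecidableEq I] {M : LM A0 A0 T I} {g : G → L} {t0 : G} {Γ : G → I → ℤ}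

lemma wf_blow {i j : I} (hij : i ≠ j) (p : T × Bool) (a : G) :
    wf (bX M i j) g (fun a => bΓ i j (Γ a)) p a = wf M.x g Γ p.1 a := by
  unfold wf
  rw [prod_bX M hij p]

lemma bΓ_none (i j : I) (γ : I → ℤ) : bΓ i j γ none = γ i + γ j := rfl

lemma bΓ_some (i j : I) (γ : I → ℤ) (l : I) : bΓ i j γ (some l) = γ l := rfl

lemma bΓ_nonneg {i j : I} {γ : I → ℤ} (h : ∀ l, 0 ≤ γ l) (o : Option I) : 0 ≤ bΓ i j γ o := by
  cases o with
  | none => rw [bΓ_none]; exact add_nonneg (h i) (h j)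
  | some l => exact h l

lemma sum_blow {κ : Type u} [Field κ] {i j : I} (hij : i ≠ j) (b : Bool) (γ : I → ℤ) (e : I → κ) :
    ∑ o, ((bΓ i j γ o : ℤ) : κ) * (Option.elim o (e (de i j b)) fun l =>
      if l = nu i j b then e (nu i j b) - e (de i j b) else if l = de i j b then 0 else e l) =
    ∑ l, (γ l : κ) * e l := by
  rw [Fintype.sum_option]
  have h1 : ∀ l, ((bΓ i j γ (some l) : ℤ) : κ) * (Option.elim (some l) (e (de i j b)) fun l =>
      if l = nu i j b then e (nu i j b) - e (de i j b) else if l = de i j b then 0 else e l) =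
      (γ l : κ) * e l - ((if l = nu i j b then (γ (nu i j b) : κ) * e (de i j b) else 0) +
        (if l = de i j b then (γ (de i j b) : κ) * e (de i j b) else 0)) := by
    intro l
    rw [bΓ_some]
    simp only [Option.elim]
    have hne := nu_ne_de i j hij b
    by_cases h1 : l = nu i j b
    · subst h1
      rw [if_pos rfl, if_pos rfl, if_neg hne]
      ring
    · by_cases h2 : l = de i j b
      · subst h2
        rw [if_neg h1, if_neg h1, if_pos rfl, if_pos rfl]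
        ring
      · rw [if_neg h1, if_neg h1, if_neg h2, if_neg h2]
        ring
  rw [Finset.sum_congr rfl fun l _ => h1 l, Finset.sum_sub_distrib, Finset.sum_add_distrib,
    Finset.sum_ite_eq' Finset.univ, Finset.sum_ite_eq' Finset.univ, if_pos (Finset.mem_univ _),
    if_pos (Finset.mem_univ _), bΓ_none]
  have h2 : (γ i + γ j : ℤ) = γ (nu i j b) + γ (de i j b) := by
    cases b
    · simp only [nu, de]
      rw [if_neg (by simp), if_neg (by simp)]
      ring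
    · simp [nu, de]
  rw [h2]
  simp only [Option.elim]
  push_cast
  ring

lemma alg1 {κ : Type u} [Field κ] (y v a b : κ) (hy : y ≠ 0) :
    y * ((a - v * b) / y) + v * b = a := by
  field_simp
  ring

lemma alg2 {κ : Type u} [Field κ] (y v a b x e e' : κ) (ha : a = x * e) (hb : b = y * e')
    (hx : y * v = x) : y * (v * (e - e')) + v * b = a := by
  rw [ha, hb, ← hx]
  ring

/-- Vertical blowups. -/
theorem VB.blow (hg : ∀ a, g a ≠ 0) (h : VB A0 M.A M.x M.H g t0 Γ) {i j : I} (hij : i ≠ j)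
    (hv : 0 < Γ t0 i ∨ 0 < Γ t0 j) (H' : T × Bool → L)
    (hH : ∃ N : ℕ, ∀ p : T × Bool, H' p = M.H p.1 ^ N * M.x p.1 (de i j p.2)) :
    VB A0 (bA M i j) (bX M i j) H' g t0 (fun a => bΓ i j (Γ a)) := by
  have hvd : ∀ b : Bool, 0 < Γ t0 (nu i j b) ∨ 0 < Γ t0 (de i j b) := by
    intro b
    cases b
    · simp only [nu, de]
      rw [if_neg (by simp), if_neg (by simp)]
      exact hv.symm
    · simpa [nu, de] using hv
  have hxy : ∀ (p : T × Bool), M.x p.1 (de i j p.2) * vv M i j p.1 p.2 =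
      M.x p.1 (nu i j p.2) := by
    intro p
    have := M.x0 p.1 (de i j p.2)
    rw [vv]
    field_simp
  refine
    { base := fun p => (h.base p.1).trans (le_bA M i j p)
      wA := ?_
      wA' := ?_
      Γ0 := fun a => bΓ_nonneg (h.Γ0 a)
      vH := ?_
      lift := ?_
      llift := ?_ }
  · intro p a
    rw [wf_blow hij]
    exact le_bA M i j p (h.wA _ _)
  · intro p a
    rw [wf_blow hij]
    exact le_bA M i j p (h.wA' _ _)
  · intro p
    obtain ⟨N, hN⟩ := hH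
    obtain ⟨n, hn⟩ := h.vH p.1
    have h1 : g t0 / M.x p.1 (de i j p.2) ∈ bA M i j p := by
      rcases hvd p.2 with h1 | h1
      · have h2 := vx hg h h1 p.1
        have h3 : g t0 / M.x p.1 (de i j p.2) =
            g t0 / M.x p.1 (nu i j p.2) * vv M i j p.1 p.2 := by
          rw [← hxy p]
          have e1 := M.x0 p.1 (de i j p.2)
          have e2 : vv M i j p.1 p.2 ≠ 0 := div_ne_zero (M.x0 _ _) (M.x0 _ _)
          field_simp
        rw [h3]
        exact (bA M i j p).mul_mem (le_bA M i j p h2) (vv_mem M i j p)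
      · exact le_bA M i j p (vx hg h h1 p.1)
    refine ⟨n * N + 1, ?_⟩
    rw [hN]
    have : g t0 ^ (n * N + 1) / (M.H p.1 ^ N * M.x p.1 (de i j p.2)) =
        (g t0 ^ n / M.H p.1) ^ N * (g t0 / M.x p.1 (de i j p.2)) := by
      rw [pow_succ, pow_mul, div_pow, div_mul_div_comm]
    rw [this]
    exact (bA M i j p).mul_mem (le_bA M i j p ((M.A p.1).pow_mem hn N)) h1
  · intro p κ _ _ φ hgA hφ D0
    have hsm := M.sm p.1
    let φ0 : M.A p.1 →ₐ[k] κ := rs (le_bA M i j p) φ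
    have hg0 : g t0 ∈ M.A p.1 := by
      obtain ⟨h1, h2⟩ := wf_eq (M := M) (Γ := Γ) hg p.1 t0
      rw [h2]
      refine (M.A p.1).mul_mem (h.wA _ _) ((M.A p.1).prod_mem fun l _ => ?_)
      obtain ⟨m, hm⟩ := Int.eq_ofNat_of_zero_le (h.Γ0 t0 l)
      rw [hm, zpow_natCast]
      exact (M.A p.1).pow_mem (M.xA _ _) m
    obtain ⟨D1, hD1⟩ := h.lift p.1 κ φ0 hg0 hφ (D0.cast fun a => rfl)
    have htr := (M.snc p.1).trans (nu_ne_de i j hij p.2) (M.xA p.1 _) (M.xA p.1 _)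
    have hrel : φ0 ⟨M.x p.1 (de i j p.2), M.xA _ _⟩ * φ ⟨vv M i j p.1 p.2, vv_mem M i j p⟩ =
        φ0 ⟨M.x p.1 (nu i j p.2), M.xA _ _⟩ := by
      change φ ⟨M.x p.1 (de i j p.2), _⟩ * _ = φ ⟨M.x p.1 (nu i j p.2), _⟩
      rw [← map_mul]
      congr 1
      exact Subtype.ext (hxy p)
    have hunit : ∀ l, 0 < Γ t0 l → φ0 ⟨M.x p.1 l, M.xA _ _⟩ ≠ 0 := by
      intro l hl h0
      apply hφ
      have h2 := vx hg h hl p.1
      have h3 : φ ⟨g t0, hgA⟩ = φ0 ⟨M.x p.1 l, M.xA _ _⟩ * φ0 ⟨g t0 / M.x p.1 l, h2⟩ := by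
        rw [← map_mul]
        change _ = φ _
        congr 1
        apply Subtype.ext
        change g t0 = M.x p.1 l * (g t0 / M.x p.1 l)
        have := M.x0 p.1 l
        field_simp
      rw [h3, h0, zero_mul]
    have hy : φ0 ⟨M.x p.1 (de i j p.2), M.xA _ _⟩ ≠ 0 := by
      rcases hvd p.2 with h1 | h1
      · intro h0
        apply hunit _ h1
        rw [← hrel, h0, zero_mul]
      · exact hunit _ h1
    obtain ⟨E, hE1, hE2⟩ := TV.ext_adj (x := ⟨M.x p.1 (nu i j p.2), M.xA _ _⟩)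
      (y := ⟨M.x p.1 (de i j p.2), M.xA _ _⟩) (M.x0 _ _) htr φ φ0 (fun a => rfl) D1
      ((D1.D ⟨M.x p.1 (nu i j p.2), M.xA _ _⟩ - φ ⟨vv M i j p.1 p.2, vv_mem M i j p⟩ *
        D1.D ⟨M.x p.1 (de i j p.2), M.xA _ _⟩) / φ0 ⟨M.x p.1 (de i j p.2), M.xA _ _⟩)
      (alg1 _ _ _ _ hy)
    refine ⟨E, fun a ha => ?_⟩
    have h4 := hE1 ⟨a, h.base p.1 ha⟩
    exact h4.trans (hD1 a ha)
  · intro p κ _ _ φ D0 e0 he0
    have hsm := M.sm p.1
    let φ0 : M.A p.1 →ₐ[k] κ := rs (le_bA M i j p) φ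
    obtain ⟨D1, e, hD1, hx, hw⟩ := h.llift p.1 κ φ0 (D0.cast fun a => rfl) e0 (fun a => by
      obtain ⟨hz, h1⟩ := he0 a
      exact ⟨hz, h1⟩)
    have htr := (M.snc p.1).trans (nu_ne_de i j hij p.2) (M.xA p.1 _) (M.xA p.1 _)
    have hrel : φ0 ⟨M.x p.1 (de i j p.2), M.xA _ _⟩ * φ ⟨vv M i j p.1 p.2, vv_mem M i j p⟩ =
        φ0 ⟨M.x p.1 (nu i j p.2), M.xA _ _⟩ := by
      change φ ⟨M.x p.1 (de i j p.2), _⟩ * _ = φ ⟨M.x p.1 (nu i j p.2), _⟩
      rw [← map_mul]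
      congr 1
      exact Subtype.ext (hxy p)
    have hxe : ∀ l, D1.D ⟨M.x p.1 l, M.xA _ _⟩ = φ0 ⟨M.x p.1 l, M.xA _ _⟩ * e l := fun l => by
      obtain ⟨hz, h1⟩ := hx l
      exact h1
    obtain ⟨E, hE1, hE2⟩ := TV.ext_adj (x := ⟨M.x p.1 (nu i j p.2), M.xA _ _⟩)
      (y := ⟨M.x p.1 (de i j p.2), M.xA _ _⟩) (M.x0 _ _) htr φ φ0 (fun a => rfl) D1
      (φ ⟨vv M i j p.1 p.2, vv_mem M i j p⟩ * (e (nu i j p.2) - e (de i j p.2)))
      (alg2 _ _ _ _ _ _ _ (hxe _) (hxe _) hrel)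
    have hE1' : ∀ a (ha : a ∈ M.A p.1), E.D ⟨a, le_bA M i j p ha⟩ = D1.D ⟨a, ha⟩ :=
      fun a ha => hE1 ⟨a, ha⟩
    refine ⟨E, fun o => Option.elim o (e (de i j p.2)) fun l =>
      if l = nu i j p.2 then e (nu i j p.2) - e (de i j p.2) else if l = de i j p.2 then 0 else e l,
      ?_, ?_, ?_⟩
    · intro a ha
      exact (hE1' a (h.base p.1 ha)).trans (hD1 a ha)
    · intro o
      cases o with
      | none => exact LE.ext (D := D1) (le_bA M i j p) hE1' (hx (de i j p.2))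
      | some l =>
        simp only [bX, bx, Option.elim]
        split_ifs with h1 h2
        · exact ⟨vv_mem M i j p, hE2⟩
        · exact LE.one
        · exact LE.ext (D := D1) (le_bA M i j p) hE1' (hx l)
    · intro a
      rw [wf_blow hij]
      refine (LE.ext (D := D1) (le_bA M i j p) hE1' (hw a)).congr ?_
      rw [sum_blow hij]

end blow

section refine

variable {k L : Type u} [Field k] [Field L] [Algebra k L] {A0 : Subalgebra k L} {T I G : Type}
  [Fintype I] {M : LM A0 A0 T I} {g : G → L} {t0 : G} {Γ : G → I → ℤ} {J : Type}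

/-- Localizations. -/
theorem VB.refine (hg : ∀ a, g a ≠ 0) (h : VB A0 M.A M.x M.H g t0 Γ) (h' : T → J → L)
    (hmem : ∀ t b, h' t b ∈ M.A t) (hne : ∀ t b, h' t b ≠ 0) (H' : T × J → L)
    (hH : ∃ N : ℕ, ∀ p : T × J, H' p = M.H p.1 ^ N * h' p.1 p.2) :
    VB A0 (rA M h') (fun p => M.x p.1) H' g t0 Γ := by
  refine
    { base := fun p => (h.base p.1).trans (le_rA M h' p)
      wA := fun p a => le_rA M h' p (h.wA p.1 a)
      wA' := fun p a => le_rA M h' p (h.wA' p.1 a)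
      Γ0 := h.Γ0
      vH := ?_
      lift := ?_
      llift := ?_ }
  · intro p
    obtain ⟨N, hN⟩ := hH
    obtain ⟨n, hn⟩ := h.vH p.1
    refine ⟨n * N, ?_⟩
    rw [hN]
    have : g t0 ^ (n * N) / (M.H p.1 ^ N * h' p.1 p.2) =
        (g t0 ^ n / M.H p.1) ^ N * (h' p.1 p.2)⁻¹ := by
      rw [pow_mul, div_pow, div_eq_mul_inv, mul_inv]
      ring
    rw [this]
    exact (rA M h' p).mul_mem (le_rA M h' p ((M.A p.1).pow_mem hn N)) (inv_mem_rA M h' p)
  · intro p κ _ _ φ hgA hφ D0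
    let φ0 : M.A p.1 →ₐ[k] κ := rs (le_rA M h' p) φ
    have hg0 : g t0 ∈ M.A p.1 := by
      obtain ⟨h1, h2⟩ := wf_eq (M := M) (Γ := Γ) hg p.1 t0
      rw [h2]
      refine (M.A p.1).mul_mem (h.wA _ _) ((M.A p.1).prod_mem fun l _ => ?_)
      obtain ⟨m, hm⟩ := Int.eq_ofNat_of_zero_le (h.Γ0 t0 l)
      rw [hm, zpow_natCast]
      exact (M.A p.1).pow_mem (M.xA _ _) m
    obtain ⟨D1, hD1⟩ := h.lift p.1 κ φ0 hg0 hφ (D0.cast fun a => rfl)
    obtain ⟨E, hE⟩ := TV.ext_loc (hmem p.1 p.2) (hne p.1 p.2) φ φ0 (fun a => rfl) D1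
    exact ⟨E, fun a ha => (hE a (h.base p.1 ha) _).trans (hD1 a ha)⟩
  · intro p κ _ _ φ D0 e0 he0
    let φ0 : M.A p.1 →ₐ[k] κ := rs (le_rA M h' p) φ
    obtain ⟨D1, e, hD1, hx, hw⟩ := h.llift p.1 κ φ0 (D0.cast fun a => rfl) e0 (fun a => by
      obtain ⟨hz, h1⟩ := he0 a
      exact ⟨hz, h1⟩)
    obtain ⟨E, hE⟩ := TV.ext_loc (hmem p.1 p.2) (hne p.1 p.2) φ φ0 (fun a => rfl) D1
    have hE1' : ∀ a (ha : a ∈ M.A p.1), E.D ⟨a, le_rA M h' p ha⟩ = D1.D ⟨a, ha⟩ :=
      fun a ha => hE a ha _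
    exact ⟨E, e, fun a ha => (hE1' a (h.base p.1 ha)).trans (hD1 a ha),
      fun i => LE.ext (D := D1) (le_rA M h' p) hE1' (hx i),
      fun a => LE.ext (D := D1) (le_rA M h' p) hE1' (hw a)⟩

end refine

end Pool.Agent.K6.H44.VT
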