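import Pool.Agent.K6.H44.VT.Local

/-!
# Families of quadrics over a curve near a point
-/

set_option autoImplicit false
set_option linter.unusedVariables false
set_option linter.unusedSimpArgs false
set_option linter.unusedSectionVars false

universe u v

open Pool.Agent.W558 Pool.Agent.W973.CUT MvPolynomial

namespace Pool.Agent.K6.H44.VT

section xi

variable {S : Type u} [CommRing S] {ι : Type} [Fintype ι] [DecidableEq ι]

/-- Extension of an automorphism to more variables. -/
lemma exists_ext (θ : MvPolynomial ι S ≃ₐ[S] MvPolynomial ι S) (Λ : Type) :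
    ∃ Θ : MvPolynomial (ι ⊕ Λ) S ≃ₐ[S] MvPolynomial (ι ⊕ Λ) S,
      (∀ i, Θ (X (Sum.inl i)) = rename Sum.inl (θ (X i))) ∧
      ∀ l, Θ (X (Sum.inr l)) = X (Sum.inr l) := by
  let f : (MvPolynomial ι S ≃ₐ[S] MvPolynomial ι S) →
      (MvPolynomial (ι ⊕ Λ) S →ₐ[S] MvPolynomial (ι ⊕ Λ) S) := fun θ =>
    aeval (Sum.elim (fun i => rename Sum.inl (θ (X i))) (fun l => X (Sum.inr l)))
  have hf1 : ∀ θ i, f θ (X (Sum.inl i)) = rename Sum.inl (θ (X i)) := fun θ i => by
    rw [aeval_X]; rfl
  have hf2 : ∀ θ l, f θ (X (Sum.inr l)) = X (Sum.inr l) := fun θ i => by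
    rw [aeval_X]; rfl
  have hf3 : ∀ θ p, f θ (rename Sum.inl p) = rename Sum.inl (θ p) := by
    intro θ p
    have : (f θ).comp (rename Sum.inl) = (rename Sum.inl).comp (θ : MvPolynomial ι S →ₐ[S] _) := by
      apply algHom_ext
      intro i
      rw [AlgHom.comp_apply, rename_X, hf1]
      rfl
    exact AlgHom.congr_fun this p
  refine ⟨AlgEquiv.ofAlgHom (f θ) (f θ.symm) ?_ ?_, hf1 θ, hf2 θ⟩
  · apply algHom_ext
    rintro (i | l)
    · rw [AlgHom.comp_apply, hf1, hf3, AlgEquiv.apply_symm_apply, rename_X]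
      rfl
    · rw [AlgHom.comp_apply, hf2, hf2]
      rfl
  · apply algHom_ext
    rintro (i | l)
    · rw [AlgHom.comp_apply, hf1, hf3, AlgEquiv.symm_apply_apply, rename_X]
      rfl
    · rw [AlgHom.comp_apply, hf2, hf2]
      rfl

/-- The coordinates adapted to the normal form. -/
lemma exists_Xi (θ : MvPolynomial ι S ≃ₐ[S] MvPolynomial ι S) (P : Finset ι) (Λ : Type) :
    ∃ Ξ : MvPolynomial ({i // i ∈ P} ⊕ Λ) (MvPolynomial {i // i ∉ P} S) ≃ₐ[S]
        MvPolynomial (ι ⊕ Λ) S,
      (∀ i : {i // i ∈ P}, Ξ (X (Sum.inl i)) = rename Sum.inl (θ (X i.1))) ∧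
      (∀ l, Ξ (X (Sum.inr l)) = X (Sum.inr l)) ∧
      (∀ i : {i // i ∉ P}, Ξ (C (X i)) = rename Sum.inl (θ (X i.1))) ∧
      ∀ s : S, Ξ (C (C s)) = C s := by
  obtain ⟨Θ, hΘ1, hΘ2⟩ := exists_ext θ Λ
  let f : ({i // i ∈ P} ⊕ Λ) ⊕ {i // i ∉ P} → ι ⊕ Λ :=
    Sum.elim (Sum.elim (fun i => Sum.inl i.1) Sum.inr) (fun i => Sum.inl i.1)
  have hf : Function.Bijective f := by
    constructor
    · rintro ((⟨i, hi⟩ | l) | ⟨i, hi⟩) ((⟨j, hj⟩ | m) | ⟨j, hj⟩) h
      · have : i = j := Sum.inl_injective h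
        subst this
        rfl
      · exact absurd h (by simp [f])
      · have : i = j := Sum.inl_injective h
        subst this
        exact absurd hi hj
      · exact absurd h (by simp [f])
      · have : l = m := Sum.inr_injective h
        subst this
        rfl
      · exact absurd h (by simp [f])
      · have : i = j := Sum.inl_injective h
        subst this
        exact absurd hj hi
      · exact absurd h (by simp [f])
      · have : i = j := Sum.inl_injective h
        subst this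
        rfl
    · rintro (i | l)
      · by_cases hi : i ∈ P
        · exact ⟨Sum.inl (Sum.inl ⟨i, hi⟩), rfl⟩
        · exact ⟨Sum.inr ⟨i, hi⟩, rfl⟩
      · exact ⟨Sum.inl (Sum.inr l), rfl⟩
  let σ : ({i // i ∈ P} ⊕ Λ) ⊕ {i // i ∉ P} ≃ ι ⊕ Λ := Equiv.ofBijective f hf
  let Ξ := (sumAlgEquiv S ({i // i ∈ P} ⊕ Λ) {i // i ∉ P}).symm.trans
    ((renameEquiv S σ).trans Θ)
  have hΞ : ∀ p, Ξ p = Θ (rename σ ((sumAlgEquiv S ({i // i ∈ P} ⊕ Λ) {i // i ∉ P}).symm p)) :=
    fun p => rfl
  refine ⟨Ξ, ?_, ?_, ?_, ?_⟩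
  · intro i
    rw [hΞ, sumAlgEquiv_symm_X, rename_X]
    exact hΘ1 i.1
  · intro l
    rw [hΞ, sumAlgEquiv_symm_X, rename_X]
    exact hΘ2 l
  · intro i
    rw [hΞ, sumAlgEquiv_symm_C_X, rename_X]
    exact hΘ1 i.1
  · intro s
    rw [hΞ, sumAlgEquiv_symm_C_C, rename_C, ← algebraMap_eq]
    exact AlgEquiv.commutes _ _

end xi

section big

variable {S : Type u} [CommRing S] {ι Λ J : Type} [Fintype ι] [DecidableEq ι] [Fintype Λ]
  [Fintype J]

/-- The sum of a polynomial in one set of variables and of monomials in the other variables. -/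
noncomputable def bigF (q : MvPolynomial ι S) (c : J → S) (b : J → Λ → ℕ) :
    MvPolynomial (ι ⊕ Λ) S :=
  rename Sum.inl q + ∑ j, C (c j) * ∏ l, X (Sum.inr l) ^ b j l

/-- A sum of squares modulo `t ^ M` is not smooth modulo `t ^ M`. -/
theorem pure_case (q : MvPolynomial ι S) (t : S) (M : ℕ) (P : Finset ι) (u : ι → S) (e : ι → ℕ)
    (θ : MvPolynomial ι S ≃ₐ[S] MvPolynomial ι S) (E : MvPolynomial ι S)
    (hq : q = θ (sq t P u e + C (t ^ M) * E)) (h : S)
    (hh : C h ∈ Ideal.span ({q} ∪ Set.range fun i => pderiv i q)) :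
    t ^ M ∣ h := by
  classical
  let W := S ⧸ Ideal.span {t ^ M}
  have htW : algebraMap S W (t ^ M) = 0 :=
    Ideal.Quotient.eq_zero_iff_mem.2 (Ideal.mem_span_singleton_self _)
  -- the point
  let ψ : MvPolynomial ι S →ₐ[S] W := (aeval (fun _ => (0 : W))).comp
    (θ.symm : MvPolynomial ι S →ₐ[S] MvPolynomial ι S)
  -- the tangent vectors
  have key : ∀ i, ψ q = 0 ∧ ψ (pderiv i q) = 0 := by
    intro i
    let Ψ : MvPolynomial ι S →ₐ[S] TrivSqZeroExt W W :=
      { toFun := fun p => TrivSqZeroExt.inl (ψ p) + TrivSqZeroExt.inr (ψ (pderiv i p))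
        map_one' := by
          rw [pderiv_one, map_zero, map_one, TrivSqZeroExt.inr_zero, add_zero,
            TrivSqZeroExt.inl_one]
        map_mul' := fun p p' => by
          rw [pderiv_mul, map_mul, map_add, map_mul, map_mul]
          ext
          · simp
            try ring
          · simp
            try ring
        map_zero' := by simp
        map_add' := fun p p' => by
          ext
          · simp
            try ring
          · simp
            try ring
        commutes' := fun s => by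
          rw [algebraMap_eq, pderiv_C, map_zero, TrivSqZeroExt.inr_zero, add_zero]
          have : ψ (C s) = algebraMap S W s := ψ.commutes s
          rw [this]
          rfl }
    have hfst : ∀ p, (Ψ p).fst = ψ p := by
      intro p
      change (TrivSqZeroExt.inl (ψ p) + TrivSqZeroExt.inr (ψ (pderiv i p))).fst = _
      simp
    have hsnd : ∀ p, (Ψ p).snd = ψ (pderiv i p) := by
      intro p
      change (TrivSqZeroExt.inl (ψ p) + TrivSqZeroExt.inr (ψ (pderiv i p))).snd = _
      simp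
    have hsq : ∀ x y : TrivSqZeroExt W W, x.fst = 0 → y.fst = 0 → x * y = 0 := by
      intro x y hx hy
      ext
      · simp [hx]
      · simp [hx, hy]
    have htE : algebraMap S (TrivSqZeroExt W W) (t ^ M) = 0 := by
      change TrivSqZeroExt.inl (algebraMap S W (t ^ M)) = 0
      rw [htW, TrivSqZeroExt.inl_zero]
    let Φ : MvPolynomial ι S →ₐ[S] TrivSqZeroExt W W :=
      Ψ.comp (θ : MvPolynomial ι S →ₐ[S] MvPolynomial ι S)
    have hΦ : ∀ i, (Φ (X i)).fst = 0 := by
      intro i
      change (Ψ (θ (X i))).fst = 0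
      rw [hfst]
      change aeval (fun _ => (0 : W)) (θ.symm (θ (X i))) = 0
      rw [AlgEquiv.symm_apply_apply, aeval_X]
    have h1 : Ψ q = 0 := by
      rw [hq]
      change Φ (sq t P u e + C (t ^ M) * E) = 0
      have h2 : Φ (C (t ^ M)) = 0 := (Φ.commutes (t ^ M)).trans htE
      rw [map_add, map_mul, h2, zero_mul, add_zero]
      unfold sq
      rw [map_sum]
      refine Finset.sum_eq_zero fun i _ => ?_
      rw [map_mul, map_pow, pow_two, hsq _ _ (hΦ i) (hΦ i), mul_zero]
    constructor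
    · rw [← hfst, h1]
      rfl
    · rw [← hsnd, h1]
      rfl
  by_cases hne : Nonempty ι
  · obtain ⟨i0⟩ := hne
    have h5 : ψ (C h) = 0 := by
      have hle : Ideal.span ({q} ∪ Set.range fun i => pderiv i q) ≤ RingHom.ker ψ := by
        rw [Ideal.span_le]
        rintro x (hx | ⟨i, rfl⟩)
        · rw [Set.mem_singleton_iff] at hx
          rw [hx]
          exact (key i0).1
        · exact (key i).2
      exact hle hh
    have h6 : algebraMap S W h = 0 := (ψ.commutes h).symm.trans h5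
    exact Ideal.mem_span_singleton.1 (Ideal.Quotient.eq_zero_iff_mem.1 h6)
  · -- no variables
    rw [not_nonempty_iff] at hne
    have h1 : q = C (t ^ M) * θ E := by
      rw [hq]
      have hP : P = ∅ := Finset.eq_empty_of_isEmpty P
      rw [hP, sq, Finset.sum_empty, zero_add, map_mul]
      congr 1
      exact AlgEquiv.commutes _ _
    have h2 : Ideal.span ({q} ∪ Set.range fun i => pderiv i q) ≤ Ideal.span {C (t ^ M)} := by
      rw [Ideal.span_le]
      rintro x (hx | ⟨i, rfl⟩)
      · rw [Set.mem_singleton_iff] at hx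
        rw [hx, h1]
        exact Ideal.mul_mem_right _ _ (Ideal.mem_span_singleton_self _)
      · exact hne.elim i
    have h3 := Ideal.mem_span_singleton.1 (h2 hh)
    rw [C_dvd_iff_dvd_coeff] at h3
    have h4 := h3 0
    rwa [coeff_C, if_pos rfl] at h4

omit [Fintype ι] [DecidableEq ι] [Fintype Λ] in
lemma pderiv_inr (q : MvPolynomial ι S) (l : Λ) :
    pderiv (Sum.inr l) (rename Sum.inl q : MvPolynomial (ι ⊕ Λ) S) = 0 := by
  induction q using MvPolynomial.induction_on with
  | C a => rw [rename_C, pderiv_C]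
  | add p q hp hq => rw [map_add, map_add, hp, hq, add_zero]
  | mul_X p i hp => rw [map_mul, rename_X, pderiv_mul, hp, pderiv_X_of_ne (by simp)]; simp

/-- The Jacobian ideal of the sum contains that of the quadratic part. -/
theorem mem_bigF {k : Type u} [Field k] [Algebra k S] (q : MvPolynomial ι S) (c : J → S)
    (b : J → Λ → ℕ) (hind : ∀ c : J → k, ∃ w : Λ → k, ∀ j, ∑ i, (b j i : k) * w i = c j) :
    ∀ p ∈ Ideal.span ({q} ∪ Set.range fun i => pderiv i q),
      (rename Sum.inl p : MvPolynomial (ι ⊕ Λ) S) ∈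
        Ideal.span ({bigF q c b} ∪ Set.range fun i => pderiv i (bigF q c b)) := by
  classical
  let I := Ideal.span ({bigF q c b} ∪ Set.range fun i => pderiv i (bigF q c b))
  have hF : bigF q c b ∈ I := Ideal.subset_span (Or.inl rfl)
  have hdF : ∀ i, pderiv i (bigF q c b) ∈ I := fun i => Ideal.subset_span (Or.inr ⟨i, rfl⟩)
  let mon : J → MvPolynomial (ι ⊕ Λ) S := fun j => C (c j) * ∏ l, X (Sum.inr l) ^ b j l
  let ex : J → (ι ⊕ Λ →₀ ℕ) := fun j => ∑ l, Finsupp.single (Sum.inr l) (b j l)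
  have hmon : ∀ j, mon j = monomial (ex j) (c j) := by
    intro j
    change C (c j) * ∏ l, X (Sum.inr l) ^ b j l = _
    rw [monomial_sum_index]
    congr 1
    exact Finset.prod_congr rfl fun l _ => X_pow_eq_monomial
  have hexr : ∀ j l, ex j (Sum.inr l) = b j l := by
    intro j l
    change (∑ l', Finsupp.single (Sum.inr l') (b j l')) (Sum.inr l) = _
    rw [Finsupp.finsetSum_apply, Finset.sum_eq_single l]
    · rw [Finsupp.single_eq_same]
    · intro l' _ hl'
      rw [Finsupp.single_eq_of_ne]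
      intro h
      exact hl' (Sum.inr_injective h).symm
    · intro h; exact absurd (Finset.mem_univ _) h
  have hexl : ∀ j i, ex j (Sum.inl i) = 0 := by
    intro j i
    change (∑ l', Finsupp.single (Sum.inr l') (b j l')) (Sum.inl i) = _
    rw [Finsupp.finsetSum_apply, Finset.sum_eq_zero]
    intro l' _
    rw [Finsupp.single_eq_of_ne]
    simp
  have hFq : bigF q c b = rename Sum.inl q + ∑ j, mon j := rfl
  have hd0 : ∀ l, pderiv (Sum.inr l) (rename Sum.inl q : MvPolynomial (ι ⊕ Λ) S) = 0 :=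
    fun l => pderiv_inr q l
  have hdr : ∀ l, X (Sum.inr l) * pderiv (Sum.inr l) (bigF q c b) = ∑ j, C ((b j l : ℕ) : S) * mon j := by
    intro l
    rw [hFq, map_add, hd0, zero_add, map_sum, Finset.mul_sum]
    refine Finset.sum_congr rfl fun j _ => ?_
    rw [hmon, X_mul_pderiv_monomial, hexr, nsmul_eq_mul]
    simp
  have hmI : ∀ j, mon j ∈ I := by
    intro j0
    obtain ⟨w, hw⟩ := hind (Pi.single j0 1)
    have h1 : mon j0 = ∑ l, C (algebraMap k S (w l)) *
        (X (Sum.inr l) * pderiv (Sum.inr l) (bigF q c b)) := by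
      have h2 : ∀ l, (C (algebraMap k S (w l)) : MvPolynomial (ι ⊕ Λ) S) *
          (X (Sum.inr l) * pderiv (Sum.inr l) (bigF q c b)) =
          ∑ j, C (algebraMap k S (b j l * w l)) * mon j := by
        intro l
        rw [hdr, Finset.mul_sum]
        refine Finset.sum_congr rfl fun j _ => ?_
        have h4 : algebraMap k S ((b j l : ℕ) : k) = ((b j l : ℕ) : S) := map_natCast _ _
        rw [map_mul (algebraMap k S), h4, map_mul]
        ring
      rw [Finset.sum_congr rfl fun l _ => h2 l, Finset.sum_comm]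
      have h3 : ∀ j, ∑ l, (C (algebraMap k S (b j l * w l)) : MvPolynomial (ι ⊕ Λ) S) * mon j =
          C (algebraMap k S ((Pi.single j0 1 : J → k) j)) * mon j := by
        intro j
        rw [← hw j, ← Finset.sum_mul, map_sum, map_sum]
      rw [Finset.sum_congr rfl fun j _ => h3 j, Finset.sum_eq_single j0]
      · rw [Pi.single_eq_same, map_one, map_one, one_mul]
      · intro j _ hj
        rw [Pi.single_eq_of_ne hj, map_zero, map_zero, zero_mul]
      · intro h; exact absurd (Finset.mem_univ _) h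
    rw [h1]
    exact I.sum_mem fun l _ => I.mul_mem_left _ (I.mul_mem_left _ (hdF _))
  have hle : Ideal.span ({q} ∪ Set.range fun i => pderiv i q) ≤
      Ideal.comap (rename (Sum.inl : ι → ι ⊕ Λ) : MvPolynomial ι S →ₐ[S] _) I := by
    rw [Ideal.span_le]
    rintro x (hx | ⟨i, rfl⟩)
    · rw [Set.mem_singleton_iff] at hx
      change rename Sum.inl x ∈ I
      have h1 : (rename Sum.inl x : MvPolynomial (ι ⊕ Λ) S) = bigF q c b - ∑ j, mon j := by
        rw [hFq, hx]
        ring
      rw [h1]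
      exact I.sub_mem hF (I.sum_mem fun j _ => hmI j)
    · change rename Sum.inl (pderiv i q) ∈ I
      have h1 : (rename Sum.inl (pderiv i q) : MvPolynomial (ι ⊕ Λ) S) =
          pderiv (Sum.inl i) (bigF q c b) := by
        rw [hFq, map_add, pderiv_rename Sum.inl_injective, map_sum, Finset.sum_eq_zero, add_zero]
        intro j _
        rw [hmon, pderiv_monomial, hexl]
        simp
      rw [h1]
      exact hdF _
  exact fun p hp => hle hp

end big

section curve

variable {k S : Type u} [Field k] [PerfectField k] [CommRing S] [IsDomain S] [Algebra k S]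
  [Algebra.Smooth k S] {ι Λ J : Type} [Fintype ι] [DecidableEq ι] [Fintype Λ] [Fintype J]

/-- The normal form of a family of quadrics near a point of a curve. -/
theorem curve_local (t : S) (ht0 : t ≠ 0) (hm : (Ideal.span {t}).IsMaximal) (h2 : S)
    (hh2 : 2 * h2 = 1) (q : MvPolynomial ι S) (hq : q.totalDegree ≤ 2) (c : J → S)
    (hc : ∀ j, c j ≠ 0) (b : J → Λ → ℕ)
    (hind : ∀ (κ : Type u) [Field κ] [Algebra k κ] (c : J → κ), ∃ w : Λ → κ, ∀ j,
      ∑ i, (b j i : κ) * w i = c j) (h : S) (h0 : h ≠ 0)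
    (hhq : C h ∈ Ideal.span ({q} ∪ Set.range fun i => pderiv i q))
    (hht : ∀ (κ : Type u) [Field κ] [Algebra k κ] (φ : S →ₐ[k] κ), φ h = 0 → φ t = 0) :
    ∃ (P : Finset ι) (Ξ : MvPolynomial ({i // i ∈ P} ⊕ Λ) (MvPolynomial {i // i ∉ P} S) ≃ₐ[S]
        MvPolynomial (ι ⊕ Λ) S) (a : {i // i ∈ P} ⊕ J → ℕ)
      (b' : {i // i ∈ P} ⊕ J → {i // i ∈ P} ⊕ Λ → ℕ)
      (u : {i // i ∈ P} ⊕ J → MvPolynomial {i // i ∉ P} S) (N : ℕ)
      (G0 : MvPolynomial {i // i ∉ P} S)
      (G1 : MvPolynomial ({i // i ∈ P} ⊕ Λ) (MvPolynomial {i // i ∉ P} S)),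
      (∀ s : S, Ξ (C (C s)) = C s) ∧ EqH (k := k) (C t) a b' u N G0 G1 ∧
        Ξ (eqn (C t) a b' u N G0 G1) = bigF q c b := by
  classical
  have hh : C h ∈ Ideal.span ({bigF q c b} ∪ Set.range fun i => pderiv i (bigF q c b)) := by
    have h1 := mem_bigF (k := k) q c b (hind k) _ hhq
    rwa [rename_C] at h1
  have hnoeth : IsNoetherianRing S := Algebra.FiniteType.isNoetherianRing k S
  have htu : ¬ IsUnit t := fun hu => hm.ne_top (Ideal.span_singleton_eq_top.2 hu)
  have hmax : ∀ a : S, ¬ t ∣ a → ∃ b, t ∣ 1 - a * b := by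
    intro a ha
    obtain ⟨y, i, hi, hy⟩ := hm.exists_inv (x := a) (fun h => ha (Ideal.mem_span_singleton.1 h))
    obtain ⟨z, rfl⟩ := Ideal.mem_span_singleton.1 hi
    exact ⟨y, z, by linear_combination -hy⟩
  obtain ⟨M0, h', hh', hM0⟩ := WfDvdMonoid.max_power_factor' h0 htu
  have hM : ¬ t ^ (M0 + 1) ∣ h := by
    rintro ⟨z, hz⟩
    apply hh'
    refine ⟨z, ?_⟩
    apply mul_left_cancel₀ (pow_ne_zero M0 ht0)
    rw [← hM0, hz, pow_succ]
    ring
  obtain ⟨θ, P, u, e, hu, hcase⟩ := exists_nf t ht0 hmax h2 hh2 (M0 + 1) q hq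
  rcases hcase with ⟨s, B, c0, E, hBP, hBc, hqE⟩ | ⟨E, hqE⟩
  swap
  · exact absurd (pure_case q t (M0 + 1) P u e θ E hqE h hhq) hM
  have hfac : ∀ j, ∃ (n : ℕ) (a : S), ¬ t ∣ a ∧ c j = t ^ n * a := fun j =>
    WfDvdMonoid.max_power_factor' (hc j) htu
  choose v c' hc' hcc using hfac
  obtain ⟨Ξ, hΞ1, hΞ2, hΞ3, hΞ4⟩ := exists_Xi θ P Λ
  let a' : {i // i ∈ P} ⊕ J → ℕ := Sum.elim (fun i => e i.1) v
  let b' : {i // i ∈ P} ⊕ J → {i // i ∈ P} ⊕ Λ → ℕ :=
    Sum.elim (fun i => Sum.elim (fun i' => if i' = i then 2 else 0) (fun _ => 0))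
      (fun j => Sum.elim (fun _ => 0) (b j))
  let u' : {i // i ∈ P} ⊕ J → MvPolynomial {i // i ∉ P} S :=
    Sum.elim (fun i => C (u i.1)) (fun j => C (c' j))
  let G0 : MvPolynomial {i // i ∉ P} S := ∑ i : {i // i ∉ P}, C (B i.1) * X i + C c0
  let G1 : MvPolynomial ({i // i ∈ P} ⊕ Λ) (MvPolynomial {i // i ∉ P} S) :=
    Ξ.symm (rename Sum.inl (θ E))
  -- the equation
  have heq : Ξ (eqn (C t) a' b' u' s G0 G1) = bigF q c b := by
    have e1 : ∀ i : {i // i ∈ P}, Ξ (C (u' (Sum.inl i) * C t ^ a' (Sum.inl i)) *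
        ∏ i', X i' ^ b' (Sum.inl i) i') =
        C (u i.1 * t ^ e i.1) * rename Sum.inl (θ (X i.1)) ^ 2 := by
      intro i
      have h1 : (C (u' (Sum.inl i) * C t ^ a' (Sum.inl i)) : MvPolynomial ({i // i ∈ P} ⊕ Λ)
          (MvPolynomial {i // i ∉ P} S)) = C (C (u i.1 * t ^ e i.1)) := by
        rw [map_mul, map_pow]
        simp only [u', a', Sum.elim_inl, map_mul, map_pow]
      rw [map_mul, h1, hΞ4, Fintype.prod_sum_type]
      congr 1
      have h3 : ∏ l : Λ, (X (Sum.inr l) : MvPolynomial ({i // i ∈ P} ⊕ Λ)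
          (MvPolynomial {i // i ∉ P} S)) ^ b' (Sum.inl i) (Sum.inr l) = 1 := by
        refine Finset.prod_eq_one fun l _ => ?_
        change _ ^ (0 : ℕ) = 1
        rw [pow_zero]
      rw [h3, mul_one, Finset.prod_eq_single i]
      · change Ξ (X (Sum.inl i) ^ (if i = i then 2 else 0)) = _
        rw [if_pos rfl, map_pow, hΞ1]
      · intro i' _ hi'
        change X (Sum.inl i') ^ (if i' = i then 2 else 0) = _
        rw [if_neg hi', pow_zero]
      · intro h; exact absurd (Finset.mem_univ _) h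
    have e2 : ∀ j : J, Ξ (C (u' (Sum.inr j) * C t ^ a' (Sum.inr j)) *
        ∏ i', X i' ^ b' (Sum.inr j) i') = C (c j) * ∏ l, X (Sum.inr l) ^ b j l := by
      intro j
      have h1 : (C (u' (Sum.inr j) * C t ^ a' (Sum.inr j)) : MvPolynomial ({i // i ∈ P} ⊕ Λ)
          (MvPolynomial {i // i ∉ P} S)) = C (C (c j)) := by
        rw [hcc j, mul_comm (t ^ v j)]
        simp only [u', a', Sum.elim_inr, map_mul, map_pow]
      rw [map_mul, h1, hΞ4, Fintype.prod_sum_type]
      congr 1
      have h3 : ∏ i : {i // i ∈ P}, (X (Sum.inl i) : MvPolynomial ({i // i ∈ P} ⊕ Λ)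
          (MvPolynomial {i // i ∉ P} S)) ^ b' (Sum.inr j) (Sum.inl i) = 1 := by
        refine Finset.prod_eq_one fun l _ => ?_
        change _ ^ (0 : ℕ) = 1
        rw [pow_zero]
      rw [h3, one_mul, map_prod]
      refine Finset.prod_congr rfl fun l _ => ?_
      rw [map_pow, hΞ2]
      rfl
    have e3 : Ξ (C G0) = rename Sum.inl (θ (lf (fun i => C (B i)) X + C c0)) := by
      have h1 : lf (fun i => (C (B i) : MvPolynomial ι S)) X =
          ∑ i : {i // i ∉ P}, C (B i.1) * X i.1 := by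
        unfold lf
        rw [← Fintype.sum_subtype_add_sum_subtype (fun i => i ∈ P)
          (fun i => (C (B i) : MvPolynomial ι S) * X i), Finset.sum_eq_zero, zero_add]
        intro i _
        rw [hBP i.1 i.2, map_zero, zero_mul]
      have hθC : ∀ a : S, θ (C a) = C a := fun a => AlgEquiv.commutes θ a
      change Ξ (C (∑ i : {i // i ∉ P}, C (B i.1) * X i + C c0)) = _
      rw [h1]
      simp only [map_add, map_sum, map_mul, hΞ4, hΞ3, hθC, rename_C]
    have e4 : Ξ G1 = rename Sum.inl (θ E) := Ξ.apply_symm_apply _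
    have hθC : ∀ a : S, θ (C a) = C a := fun a => AlgEquiv.commutes θ a
    unfold eqn bigF
    rw [map_add, map_sum, Fintype.sum_sum_type, Finset.sum_congr rfl fun i _ => e1 i,
      Finset.sum_congr rfl fun j _ => e2 j, map_mul, map_add, map_mul, e3, e4]
    have e5 : Ξ (C (C t ^ s)) = C (t ^ s) := by
      rw [← map_pow, hΞ4]
    have e6 : rename Sum.inl (θ (sq t P u e)) = ∑ i : {i // i ∈ P},
        C (u i.1 * t ^ e i.1) * rename (Sum.inl : ι → ι ⊕ Λ) (θ (X i.1)) ^ 2 := by
      unfold sq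
      rw [← Finset.sum_coe_sort P (fun i => (C (u i * t ^ e i) : MvPolynomial ι S) * X i ^ 2)]
      simp only [map_sum, map_mul, map_pow, hθC, rename_C]
    rw [e5, hΞ4, hqE, ← e6]
    simp only [map_add, map_mul, hθC, rename_C]
    ring
  refine ⟨P, Ξ, a', b', u', s, G0, G1, hΞ4, ?_, heq⟩
  -- values at the points of the divisor
  have hval : ∀ (κ : Type u) [Field κ] [Algebra k κ] (φ : S →ₐ[k] κ), φ t = 0 →
      ∀ a, ¬ t ∣ a → φ a ≠ 0 := by
    intro κ _ _ φ hφ a ha h0
    obtain ⟨b, z, hz⟩ := hmax a ha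
    have h1 : φ (1 - a * b) = φ (t * z) := by rw [hz]
    rw [map_sub, map_one, map_mul, map_mul, hφ, h0, zero_mul, zero_mul, sub_zero] at h1
    exact one_ne_zero h1
  have h2k : (2 : k) ≠ 0 := by
    intro h0
    have h1 : algebraMap k S 2 = 2 := map_ofNat _ _
    rw [h0, map_zero] at h1
    rw [← h1, zero_mul] at hh2
    exact zero_ne_one hh2
  refine
    { t0 := by rw [ne_eq, C_eq_zero]; exact ht0
      tu := ?_
      hT := ?_
      hu := ?_
      hG := ?_
      hind := ?_
      hgen := ?_ }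
  · intro hun
    apply htu
    have := hun.map (aeval (fun _ => (0 : S)) : MvPolynomial {i // i ∉ P} S →ₐ[S] S)
    rwa [aeval_C] at this
  · intro κ _ _ φ hφ
    obtain ⟨D, hD⟩ := exists_tv t ht0 hm κ (φ.comp (cS k S _)) hφ
    obtain ⟨E', hE1, hE2⟩ := TV.mv φ D (fun _ => 0)
    exact ⟨E', by rw [hE1]; exact hD⟩
  · intro κ _ _ φ hφ j
    rcases j with i | j
    · exact hval κ (φ.comp (cS k S _)) hφ _ (hu i.1 i.2)
    · exact hval κ (φ.comp (cS k S _)) hφ _ (hc' j)
  · intro κ _ _ φ hφ hφG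
    by_cases hB : ∃ i, ¬ t ∣ B i
    · obtain ⟨i, hi⟩ := hB
      have hiP : i ∉ P := fun h => hi (by rw [hBP i h]; exact dvd_zero t)
      obtain ⟨E', hE1, hE2⟩ := TV.mv φ (TV.zero _) (Pi.single ⟨i, hiP⟩ 1)
      refine ⟨E', by rw [hE1, TV.zero_D], ?_⟩
      have h3 : E'.D G0 = φ (C (B i)) := by
        change E'.D (∑ i : {i // i ∉ P}, C (B i.1) * X i + C c0) = _
        rw [map_add, map_sum, hE1, TV.zero_D, add_zero, Finset.sum_eq_single ⟨i, hiP⟩]
        · rw [E'.leib, hE1, TV.zero_D, hE2, Pi.single_eq_same]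
          ring
        · intro j _ hj
          rw [E'.leib, hE1, TV.zero_D, hE2, Pi.single_eq_of_ne hj]
          ring
        · intro h; exact absurd (Finset.mem_univ _) h
      rw [h3]
      exact hval κ (φ.comp (cS k S _)) hφ _ hi
    · exfalso
      have hc0 : ¬ t ∣ c0 := hBc.resolve_right hB
      push Not at hB
      apply hval κ (φ.comp (cS k S _)) hφ _ hc0
      change φ (C c0) = 0
      rw [← hφG]
      change _ = φ (∑ i : {i // i ∉ P}, C (B i.1) * X i + C c0)
      rw [map_add, map_sum, Finset.sum_eq_zero, zero_add]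
      intro i _
      obtain ⟨z, hz⟩ := hB i.1
      rw [map_mul, hz, map_mul, map_mul, show φ (C t) = 0 from hφ]
      ring
  · intro κ _ _ c1
    obtain ⟨w, hw⟩ := hind κ (fun j => c1 (Sum.inr j))
    have h2κ : (2 : κ) ≠ 0 := by
      have h1 : algebraMap k κ 2 = 2 := map_ofNat _ _
      rw [← h1]
      exact fun h0 => h2k ((map_eq_zero _).1 h0)
    refine ⟨Sum.elim (fun i => c1 (Sum.inl i) / 2) w, ?_⟩
    rintro (i | j)
    · rw [Fintype.sum_sum_type]
      have h3 : ∑ l : Λ, ((b' (Sum.inl i) (Sum.inr l) : ℕ) : κ) *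
          Sum.elim (fun i => c1 (Sum.inl i) / 2) w (Sum.inr l) = 0 := by
        refine Finset.sum_eq_zero fun l _ => ?_
        change ((0 : ℕ) : κ) * _ = 0
        rw [Nat.cast_zero, zero_mul]
      rw [h3, add_zero, Finset.sum_eq_single i]
      · change (((if i = i then 2 else 0 : ℕ)) : κ) * (c1 (Sum.inl i) / 2) = _
        rw [if_pos rfl]
        push_cast
        field_simp
      · intro i' _ hi'
        change (((if i' = i then 2 else 0 : ℕ)) : κ) * (c1 (Sum.inl i') / 2) = _
        rw [if_neg hi']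
        simp
      · intro h; exact absurd (Finset.mem_univ _) h
    · rw [Fintype.sum_sum_type]
      have h3 : ∑ i : {i // i ∈ P}, ((b' (Sum.inr j) (Sum.inl i) : ℕ) : κ) *
          Sum.elim (fun i => c1 (Sum.inl i) / 2) w (Sum.inl i) = 0 := by
        refine Finset.sum_eq_zero fun l _ => ?_
        change ((0 : ℕ) : κ) * _ = 0
        rw [Nat.cast_zero, zero_mul]
      rw [h3, zero_add]
      exact hw j
  · intro κ _ _ φ hφ hφt
    -- the point in the original coordinates
    let Ξk := Ξ.restrictScalars k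
    let φ' : MvPolynomial (ι ⊕ Λ) S →ₐ[k] κ := φ.comp (Ξk.symm : _ →ₐ[k] _)
    have h3 : ∀ p, φ' (Ξ p) = φ p := fun p => by
      change φ (Ξ.symm (Ξ p)) = φ p
      rw [AlgEquiv.symm_apply_apply]
    have h4 : φ' (bigF q c b) = 0 := by rw [← heq, h3, hφ]
    have h5 : φ' (C h) ≠ 0 := by
      intro h6
      apply hφt
      rw [← h3 (C (C t)), hΞ4]
      exact hht κ (φ'.comp (cS k S _)) h6
    have h6 : ∃ i, φ' (pderiv i (bigF q c b)) ≠ 0 := by
      by_contra hcon
      push Not at hcon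
      apply h5
      have hle : Ideal.span ({bigF q c b} ∪ Set.range fun i => pderiv i (bigF q c b)) ≤
          RingHom.ker φ' := by
        rw [Ideal.span_le]
        rintro x (hx | ⟨i, rfl⟩)
        · rw [Set.mem_singleton_iff] at hx
          rw [hx]
          exact h4
        · exact hcon i
      exact hle hh
    obtain ⟨i, hi⟩ := h6
    let D' : TV φ' := TV.ofDer φ' (fun p => pderiv i p) (fun _ _ => map_add _ _ _)
      (fun c a => by
        rw [← algebraMap_smul S c a, ← algebraMap_smul S c (pderiv i a), Derivation.map_smul])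
      (fun a b => by rw [Derivation.leibniz]; rfl)
    refine ⟨(TV.restr (Ξk : _ →ₐ[k] _) D').cast (fun p => h3 p), ?_⟩
    change φ' (pderiv i (Ξ (eqn (C t) a' b' u' s G0 G1))) ≠ 0
    rw [heq]
    exact hi

end curve

end Pool.Agent.K6.H44.VT
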