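import Pool.Agent.K6.H44.VT.Strict
import Pool.Agent.W973.CUT

/-!
# Nondegenerate hypersurfaces: smooth charts
-/

set_option autoImplicit false
set_option linter.unusedVariables false
set_option linter.unusedSimpArgs false
set_option linter.unusedSectionVars false

universe u v

open Polynomial Pool.Agent.W558 Pool.Agent.W973.CUT

namespace Pool.Agent.K6.H44.VT

/-- An atlas of smooth charts of a modification of `Spec A` which is an isomorphism over the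
complement of the divisor of `s`. -/
structure VAtl {k K : Type u} [Field k] [Field K] [Algebra k K] (A : Subalgebra k K) (s : K)
    (T : Type) (C : T → Subalgebra k K) (H : T → K) : Prop where
  sm : ∀ t, Algebra.Smooth k (C t)
  base : ∀ t, A ≤ C t
  H0 : ∀ t, H t ≠ 0
  HA : ∀ t, H t ∈ A
  rt : ∀ t t', H t' / H t ∈ C t
  gl : ∀ t t', ∀ x ∈ C t', ∃ n : ℕ, (H t' / H t) ^ n * x ∈ C t
  dn : ∀ t, ∀ x ∈ C t, ∃ n : ℕ, H t ^ n * x ∈ A
  cv : ∀ V : ValuationSubring K, (∀ a ∈ A, a ∈ V) → ∃ t, ∀ x ∈ C t, x ∈ V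
  vs : ∀ t, ∃ n : ℕ, s ^ n / H t ∈ C t

/-- The equation `f` is nondegenerate along the divisor of `g t0`. -/
structure Nd {k L : Type u} [Field k] [Field L] [Algebra k L] (A0 : Subalgebra k L) {G J : Type}
    [Fintype G] [DecidableEq G] [Fintype J] (g : G → L) (t0 : G) (f : L) (μ : J → G → ℕ) (N : ℕ)
    (u : J → L) (G0 G1 : L) : Prop where
  gA : ∀ a, g a ∈ A0
  uA : ∀ j, u j ∈ A0
  G0A : G0 ∈ A0
  G1A : G1 ∈ A0
  f_eq : f = ∑ j, u j * mo g (fun a => (μ j a : ℤ)) + mo g (nuN t0 N) * (G0 + g t0 * G1)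
  hu : ∀ (κ : Type u) [Field κ] [Algebra k κ] (φ : A0 →ₐ[k] κ), φ ⟨g t0, gA t0⟩ = 0 →
    ∀ j, φ ⟨u j, uA j⟩ ≠ 0
  ha : ∀ (κ : Type u) [Field κ] [Algebra k κ] (φ : A0 →ₐ[k] κ), φ ⟨g t0, gA t0⟩ = 0 →
    ∀ c : J → κ, ∃ (D : TV φ) (e0 : G → κ), (∀ a, LE D (g a) (e0 a)) ∧ e0 t0 = 0 ∧
      (∀ j, ∑ a, (μ j a : κ) * e0 a = c j) ∧ (∀ j, D.D ⟨u j, uA j⟩ = 0) ∧ D.D ⟨G0, G0A⟩ = 0
  hb : ∀ (κ : Type u) [Field κ] [Algebra k κ] (φ : A0 →ₐ[k] κ), φ ⟨g t0, gA t0⟩ = 0 →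
    φ ⟨G0, G0A⟩ = 0 → ∃ (D : TV φ) (e0 : G → κ), (∀ a, LE D (g a) (e0 a)) ∧ e0 t0 = 0 ∧
      D.D ⟨G0, G0A⟩ ≠ 0
  hgen : ∀ (κ : Type u) [Field κ] [Algebra k κ] (φ : A0 →ₐ[k] κ) (hf : f ∈ A0),
    φ ⟨f, hf⟩ = 0 → φ ⟨g t0, gA t0⟩ ≠ 0 → ∃ D : TV φ, D.D ⟨f, hf⟩ ≠ 0

section

variable {k L : Type u} [Field k] [Field L] [Algebra k L] {A0 : Subalgebra k L} {G J : Type}
  [Fintype G] [DecidableEq G] [Fintype J] {g : G → L} {t0 : G} {f : L} {μ : J → G → ℕ} {N : ℕ}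
  {u : J → L} {G0 G1 : L}

lemma mo_memA0 (hgA : ∀ a, g a ∈ A0) {ν : G → ℤ} (hν : ∀ a, 0 ≤ ν a) : mo g ν ∈ A0 := by
  unfold mo
  refine A0.prod_mem fun a _ => zpow_mem' (hgA a) _ (Or.inl (hν a))

lemma Nd.fA (h : Nd A0 g t0 f μ N u G0 G1) : f ∈ A0 := by
  rw [h.f_eq]
  refine A0.add_mem (A0.sum_mem fun j _ => A0.mul_mem (h.uA j)
    (mo_memA0 h.gA fun a => by positivity)) (A0.mul_mem (mo_memA0 h.gA fun a => ?_)
      (A0.add_mem h.G0A (A0.mul_mem (h.gA t0) h.G1A)))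
  unfold nuN
  split_ifs <;> positivity

/-- The equation of the strict transform. -/
theorem exists_y (hg : ∀ a, g a ≠ 0) (h : Nd A0 g t0 f μ N u G0 G1) (S : St A0 g t0) (t : S.T)
    {ν : G → ℤ} (hν : ν = nuN t0 N ∨ ∃ m, ν = fun a => (μ m a : ℤ))
    (h1 : ∀ j, Rg S.M.A S.M.x t (co ((fun a => (μ j a : ℤ)) - ν) S.Γ))
    (h2 : Rg S.M.A S.M.x t (co (nuN t0 N - ν) S.Γ)) :
    ∃ (y : L) (hy : y ∈ S.M.A t), f = y * mo g ν ∧ (∀ a, 0 ≤ ν a) ∧
      (∀ (κ : Type u) [Field κ] [Algebra k κ] (φ : S.M.A t →ₐ[k] κ), φ ⟨y, hy⟩ = 0 →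
        ∃ D : TV φ, D.D ⟨y, hy⟩ ≠ 0) ∧
      (∀ (κ : Type u) [Field κ] [Algebra k κ] (φ : S.M.A t →ₐ[k] κ), φ ⟨y, hy⟩ = 0 →
        φ ⟨g t0, S.vb.base t (h.gA t0)⟩ = 0 →
        ∃ (D : TV φ) (e : S.I → κ), (∀ l, LE D (S.M.x t l) (e l)) ∧ D.D ⟨y, hy⟩ ≠ 0) := by
  classical
  have hν0 : ∀ a, 0 ≤ ν a := by
    rcases hν with rfl | ⟨m, rfl⟩
    · intro a
      unfold nuN
      split_ifs <;> positivity
    · intro a
      positivity
  let A := S.M.A t
  have hAA : A0 ≤ A := S.vb.base t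
  let R : J → A := fun j => ⟨mo g ((fun a => (μ j a : ℤ)) - ν), mo_mem hg S.vb (h1 j)⟩
  let RN : A := ⟨mo g (nuN t0 N - ν), mo_mem hg S.vb h2⟩
  let u' : J → A := fun j => ⟨u j, hAA (h.uA j)⟩
  let s' : A := ⟨g t0, hAA (h.gA t0)⟩
  let G0' : A := ⟨G0, hAA h.G0A⟩
  let G1' : A := ⟨G1, hAA h.G1A⟩
  let y' : A := ∑ j, u' j * R j + RN * (G0' + s' * G1')
  have hyv : (y' : L) = ∑ j, u j * mo g ((fun a => (μ j a : ℤ)) - ν) +
      mo g (nuN t0 N - ν) * (G0 + g t0 * G1) := by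
    simp only [y', Subalgebra.coe_add, Subalgebra.coe_mul]
    congr 1
    rw [AddSubmonoidClass.coe_finsetSum]
    rfl
  have hfy : f = (y' : L) * mo g ν := by
    rw [hyv, add_mul, Finset.sum_mul, h.f_eq]
    congr 1
    · refine Finset.sum_congr rfl fun j _ => ?_
      rw [mul_assoc, mo_sub hg]
    · rw [mul_right_comm, mo_sub hg]
  -- the value of a tangent vector at `y'`
  have key : ∀ (κ : Type u) [Field κ] [Algebra k κ] (φ : A →ₐ[k] κ), φ y' = 0 → φ s' = 0 →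
      ∃ (D : TV φ) (e : S.I → κ), (∀ l, LE D (S.M.x t l) (e l)) ∧ D.D y' ≠ 0 := by
    intro κ _ _ φ hφ hφs
    by_cases hex : ∃ j0, φ (R j0) ≠ 0
    · obtain ⟨j0, hj0⟩ := hex
      obtain ⟨D0, e0, he0, het, hec, hDu, hDG⟩ := h.ha κ (rs hAA φ) hφs (Pi.single j0 1)
      obtain ⟨D, e, hD, hx, hw⟩ := S.vb.llift t κ φ D0 e0 he0
      refine ⟨D, e, hx, ?_⟩
      have hR : ∀ j, D.D (R j) = φ (R j) *
          ((Pi.single j0 1 : J → κ) j - ∑ a, (ν a : κ) * e0 a) := by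
        intro j
        obtain ⟨hz, h3⟩ := mo_LE hg S.vb (h1 j) hx hw
        refine h3.trans ?_
        congr 1
        rw [← hec j, ← Finset.sum_sub_distrib]
        refine Finset.sum_congr rfl fun a _ => ?_
        rw [Pi.sub_apply]
        push_cast
        ring
      have hRN : D.D RN = φ RN * (-∑ a, (ν a : κ) * e0 a) := by
        obtain ⟨hz, h3⟩ := mo_LE hg S.vb h2 hx hw
        refine h3.trans ?_
        congr 1
        have h4 : ∑ a, (nuN t0 N a : κ) * e0 a = 0 := by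
          refine Finset.sum_eq_zero fun a _ => ?_
          unfold nuN
          by_cases ha : a = t0
          · rw [ha, het, mul_zero]
          · rw [if_neg ha]; simp
        rw [← zero_sub, ← h4, ← Finset.sum_sub_distrib]
        refine Finset.sum_congr rfl fun a _ => ?_
        rw [Pi.sub_apply]
        push_cast
        ring
      have hu0 : ∀ j, D.D (u' j) = 0 := fun j => (hD (u j) (h.uA j)).trans (hDu j)
      have hG0 : D.D G0' = 0 := (hD G0 h.G0A).trans hDG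
      have hs0 : D.D s' = 0 := by
        obtain ⟨hz, h3⟩ := he0 t0
        refine (hD (g t0) (h.gA t0)).trans (h3.trans ?_)
        rw [het, mul_zero]
      have hG : D.D (G0' + s' * G1') = 0 := by
        rw [map_add, D.leib, hG0, hs0, hφs, zero_mul, mul_zero, add_zero, add_zero]
      have h5 : D.D y' = ∑ j, φ (u' j) * φ (R j) * (Pi.single j0 1 : J → κ) j -
          φ y' * ∑ a, (ν a : κ) * e0 a := by
        have e1 : φ y' = ∑ j, φ (u' j) * φ (R j) + φ RN * φ (G0' + s' * G1') := by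
          simp only [y', map_add, map_sum, map_mul]
        rw [e1]
        change D.D (∑ j, u' j * R j + RN * (G0' + s' * G1')) = _
        rw [map_add, D.leib, hG, hRN, map_sum]
        have e2 : ∀ j, D.D (u' j * R j) = φ (u' j) * φ (R j) * (Pi.single j0 1 : J → κ) j -
            φ (u' j) * φ (R j) * ∑ a, (ν a : κ) * e0 a := by
          intro j
          rw [D.leib, hu0, hR]
          ring
        rw [Finset.sum_congr rfl fun j _ => e2 j, Finset.sum_sub_distrib, ← Finset.sum_mul]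
        ring
      rw [h5, hφ, zero_mul, sub_zero, Finset.sum_eq_single j0]
      · rw [Pi.single_eq_same, mul_one]
        exact mul_ne_zero (h.hu κ (rs hAA φ) hφs j0) hj0
      · intro j _ hj
        rw [Pi.single_eq_of_ne hj, mul_zero]
      · intro h; exact absurd (Finset.mem_univ _) h
    · push Not at hex
      have hνN : ν = nuN t0 N := by
        rcases hν with h3 | ⟨m, hm⟩
        · exact h3
        · exfalso
          have h4 : R m = 1 := by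
            apply Subtype.ext
            change mo g ((fun a => (μ m a : ℤ)) - ν) = 1
            rw [hm, sub_self, mo_zero]
          have h5 := hex m
          rw [h4, map_one] at h5
          exact one_ne_zero h5
      have hRN : RN = 1 := by
        apply Subtype.ext
        change mo g (nuN t0 N - ν) = 1
        rw [hνN, sub_self, mo_zero]
      have hφG : φ G0' = 0 := by
        have e1 : φ y' = ∑ j, φ (u' j) * φ (R j) + φ RN * (φ G0' + φ s' * φ G1') := by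
          simp only [y', map_add, map_sum, map_mul]
        rw [e1, hRN, hφs, map_one, zero_mul, add_zero, one_mul,
          Finset.sum_eq_zero (fun j _ => by rw [hex j, mul_zero]), zero_add] at hφ
        exact hφ
      obtain ⟨D0, e0, he0, het, hDG⟩ := h.hb κ (rs hAA φ) hφs hφG
      obtain ⟨D, e, hD, hx, hw⟩ := S.vb.llift t κ φ D0 e0 he0
      refine ⟨D, e, hx, ?_⟩
      have hR : ∀ j, D.D (R j) = 0 := by
        intro j
        obtain ⟨hz, h3⟩ := mo_LE hg S.vb (h1 j) hx hw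
        refine h3.trans ?_
        have h4 : φ (R j) = 0 := hex j
        change φ (R j) * _ = 0
        rw [h4, zero_mul]
      have hs0 : D.D s' = 0 := by
        obtain ⟨hz, h3⟩ := he0 t0
        refine (hD (g t0) (h.gA t0)).trans (h3.trans ?_)
        rw [het, mul_zero]
      change D.D (∑ j, u' j * R j + RN * (G0' + s' * G1')) ≠ 0
      have e2 : ∀ j, D.D (u' j * R j) = 0 := by
        intro j
        rw [D.leib, hR, hex j, mul_zero, zero_mul, add_zero]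
      rw [map_add, map_sum, Finset.sum_eq_zero fun j _ => e2 j, zero_add, hRN, one_mul, map_add,
        D.leib, hs0, hφs, zero_mul, mul_zero, add_zero, add_zero]
      rw [show D.D G0' = D0.D ⟨G0, h.G0A⟩ from hD G0 h.G0A]
      exact hDG
  refine ⟨y', y'.2, hfy, hν0, ?_, fun κ _ _ φ hφ hφs => key κ φ hφ hφs⟩
  intro κ _ _ φ hφ
  by_cases hφs : φ s' = 0
  · obtain ⟨D, e, -, hD⟩ := key κ φ hφ hφs
    exact ⟨D, hD⟩
  · have hfA := h.fA
    have e1 : (⟨f, hAA hfA⟩ : A) = y' * ⟨mo g ν, hAA (mo_memA0 h.gA hν0)⟩ := Subtype.ext hfy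
    have h3 : rs hAA φ ⟨f, hfA⟩ = 0 := by
      change φ ⟨f, hAA hfA⟩ = 0
      rw [e1, map_mul]
      have : φ y' = 0 := hφ
      rw [this, zero_mul]
    obtain ⟨D0, hD0⟩ := h.hgen κ (rs hAA φ) hfA h3 hφs
    obtain ⟨D, hD⟩ := S.vb.lift t κ φ (hAA (h.gA t0)) hφs D0
    refine ⟨D, fun h4 => hD0 ?_⟩
    rw [← hD f hfA, e1, D.leib]
    have h5 : φ y' = 0 := hφ
    have h6 : D.D y' = 0 := h4
    rw [h5, h6, zero_mul, mul_zero, add_zero]

/-- Vertical components are not zero divisors modulo the equation of the strict transform. -/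
theorem cancel_vert (hg : ∀ a, g a ≠ 0) (S : St A0 g t0) (t : S.T) (hsA : g t0 ∈ S.M.A t)
    (y : S.M.A t)
    (hi : ∀ (κ : Type u) [Field κ] [Algebra k κ] (φ : S.M.A t →ₐ[k] κ), φ y = 0 →
        ∃ D : TV φ, D.D y ≠ 0)
    (hii : ∀ (κ : Type u) [Field κ] [Algebra k κ] (φ : S.M.A t →ₐ[k] κ), φ y = 0 →
        φ ⟨g t0, hsA⟩ = 0 →
        ∃ (D : TV φ) (e : S.I → κ), (∀ l, LE D (S.M.x t l) (e l)) ∧ D.D y ≠ 0)
    (n : ℕ) (b : S.M.A t) (hb : y ∣ ⟨g t0, hsA⟩ ^ n * b) : y ∣ b := by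
  classical
  have hsm := S.M.sm t
  -- one component
  have h1 : ∀ l, 0 < S.Γ t0 l → ∀ b : S.M.A t, y ∣ ⟨S.M.x t l, S.M.xA t l⟩ * b → y ∣ b := by
    intro l hl b hb
    refine dvd_of_dvd_mul _ y hi ?_ b hb
    intro κ _ _ φ hφy hφx
    have hs : φ ⟨g t0, hsA⟩ = 0 := by
      have h2 := vx (M := S.M) hg S.vb hl t
      have h3 : (⟨g t0, hsA⟩ : S.M.A t) = ⟨S.M.x t l, S.M.xA t l⟩ * ⟨g t0 / S.M.x t l, h2⟩ := by
        apply Subtype.ext
        change g t0 = S.M.x t l * (g t0 / S.M.x t l)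
        have := S.M.x0 t l
        field_simp
      rw [h3, map_mul, hφx, zero_mul]
    obtain ⟨D1, e, hx, hy⟩ := hii κ φ hφy hs
    obtain ⟨D2, hD2, -⟩ := S.M.snc t κ φ l (S.M.xA t l) hφx
    refine ⟨TV.comb 1 (-(D2.D y / D1.D y)) D2 D1, ?_, ?_⟩
    · rw [TV.comb_D, hD2]
      obtain ⟨hz, h4⟩ := hx l
      have h5 : D1.D ⟨S.M.x t l, S.M.xA t l⟩ = 0 := by
        refine h4.trans ?_
        rw [show φ ⟨S.M.x t l, hz⟩ = 0 from hφx, zero_mul]
      rw [h5]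
      simp
    · rw [TV.comb_D]
      field_simp
      ring
  have h1' : ∀ l, 0 < S.Γ t0 l → ∀ (m : ℕ) (b : S.M.A t),
      y ∣ ⟨S.M.x t l, S.M.xA t l⟩ ^ m * b → y ∣ b := by
    intro l hl m
    induction m with
    | zero => intro b hb; simpa using hb
    | succ m ih =>
      intro b hb
      rw [pow_succ', mul_assoc] at hb
      exact ih b (h1 l hl _ hb)
  -- products
  have h2 : ∀ (s : Finset S.I) (b : S.M.A t),
      y ∣ (∏ l ∈ s, (⟨S.M.x t l, S.M.xA t l⟩ : S.M.A t) ^ (S.Γ t0 l).toNat) * b → y ∣ b := by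
    intro s
    induction s using Finset.induction_on with
    | empty => intro b hb; simpa using hb
    | insert l s hl ih =>
      intro b hb
      rw [Finset.prod_insert hl, mul_assoc] at hb
      by_cases h3 : 0 < S.Γ t0 l
      · exact ih b (h1' l h3 _ _ hb)
      · have h4 : (S.Γ t0 l).toNat = 0 := Int.toNat_of_nonpos (by omega)
        rw [h4, pow_zero, one_mul] at hb
        exact ih b hb
  -- the function `g t0`
  have h3 : ∀ b : S.M.A t, y ∣ ⟨g t0, hsA⟩ * b → y ∣ b := by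
    intro b hb
    obtain ⟨h4, h5⟩ := wf_eq (M := S.M) (Γ := S.Γ) hg t t0
    have h6 : (⟨g t0, hsA⟩ : S.M.A t) = ⟨wf S.M.x g S.Γ t t0, S.vb.wA t t0⟩ *
        ∏ l, (⟨S.M.x t l, S.M.xA t l⟩ : S.M.A t) ^ (S.Γ t0 l).toNat := by
      apply Subtype.ext
      rw [Subalgebra.coe_mul, SubmonoidClass.coe_finsetProd]
      change g t0 = wf S.M.x g S.Γ t t0 * ∏ l, (S.M.x t l) ^ (S.Γ t0 l).toNat
      conv_lhs => rw [h5]
      congr 1
      refine Finset.prod_congr rfl fun l _ => ?_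
      rw [← zpow_natCast, Int.toNat_of_nonneg (S.vb.Γ0 t0 l)]
    rw [h6, mul_assoc] at hb
    have h7 : y ∣ (∏ l, (⟨S.M.x t l, S.M.xA t l⟩ : S.M.A t) ^ (S.Γ t0 l).toNat) * b := by
      have h8 := Dvd.dvd.mul_left hb ⟨(wf S.M.x g S.Γ t t0)⁻¹, S.vb.wA' t t0⟩
      rw [← mul_assoc] at h8
      have h9 : (⟨(wf S.M.x g S.Γ t t0)⁻¹, S.vb.wA' t t0⟩ : S.M.A t) *
          ⟨wf S.M.x g S.Γ t t0, S.vb.wA t t0⟩ = 1 := Subtype.ext (inv_mul_cancel₀ h4)
      rwa [h9, one_mul] at h8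
    exact h2 _ b h7
  induction n generalizing b with
  | zero => simpa using hb
  | succ n ih =>
    rw [pow_succ', mul_assoc] at hb
    exact ih b (h3 _ hb)

end

section cut

variable {k L K : Type u} [Field k] [Field L] [Algebra k L] [Field K] [Algebra k K]
  {A0 : Subalgebra k L} {G J : Type}
  [Fintype G] [DecidableEq G] [Fintype J] {g : G → L} {t0 : G} {f : L} {μ : J → G → ℕ} {N : ℕ}
  {u : J → L} {G0 G1 : L} {Q : Subalgebra k L} (π : Q →ₐ[k] K)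

/-- Smooth charts for nondegenerate hypersurfaces. -/
theorem exists_vatl (hg : ∀ a, g a ≠ 0) (h : Nd A0 g t0 f μ N u G0 G1) (S0 : St A0 g t0)
    (hA0Q : A0 ≤ Q) (hπg : ∀ a, pq π (g a) ≠ 0) (hf0 : f ≠ 0) (hf : pq π f = 0)
    (hker0 : ∀ a ∈ A0, pq π a = 0 → ∃ b ∈ A0, a = f * b)
    (hQ : ∀ x : L, x ∈ Q ∨ x⁻¹ ∈ Q) (hQ' : ∀ b ∈ Q, pq π b ≠ 0 → b⁻¹ ∈ Q) :
    ∃ (T : Type) (_ : Finite T) (C : T → Subalgebra k K) (H : T → K),
      VAtl (im π A0 hA0Q) (pq π (g t0)) T C H := by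
  classical
  obtain ⟨S, hS⟩ := exists_min hg μ N S0
  let T := {t : S.T // S.M.A t ≤ Q}
  have hgQ : ∀ a, g a ∈ Q := fun a => hA0Q (h.gA a)
  have hHQ : ∀ t : S.T, S.M.H t ∈ Q := fun t => hA0Q (S.M.HR t)
  have hH0 : ∀ t : T, pq π (S.M.H t.1) ≠ 0 := by
    rintro ⟨t, ht⟩ h0
    obtain ⟨n, hn⟩ := S.vb.vH t
    have h1 : pq π (g t0 ^ n) = pq π (g t0 ^ n / S.M.H t) * pq π (S.M.H t) := by
      rw [← pq_mul π (ht hn) (hHQ t)]
      congr 1
      have := S.M.H0 t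
      field_simp
    rw [h0, mul_zero, pq_pow π (hgQ t0)] at h1
    exact pow_ne_zero n (hπg t0) h1
  have hHi : ∀ t : T, (S.M.H t.1)⁻¹ ∈ Q := fun t => hQ' _ (hHQ _) (hH0 t)
  have hHd : ∀ (t : T) (z : L), z ∈ Q → pq π (z / S.M.H t.1) = pq π z / pq π (S.M.H t.1) :=
    fun t z hz => pq_div π hz (S.M.H0 _) (hHQ _) (hHi t)
  have hK : ∀ x : L, (∃ a b : Q, π b ≠ 0 ∧ x * b = a) ∨ (∃ a b : Q, π b ≠ 0 ∧ x⁻¹ * b = a) := by
    intro x
    rcases hQ x with h1 | h1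
    · exact Or.inl ⟨⟨x, h1⟩, 1, by rw [map_one]; exact one_ne_zero, by simp⟩
    · exact Or.inr ⟨⟨x⁻¹, h1⟩, 1, by rw [map_one]; exact one_ne_zero, by simp⟩
  refine ⟨T, inferInstance, fun t => im π (S.M.A t.1) t.2, fun t => pq π (S.M.H t.1),
    { sm := ?_
      base := ?_
      H0 := hH0
      HA := fun t => pq_mem π hA0Q (S.M.HR t.1)
      rt := ?_
      gl := ?_
      dn := ?_
      cv := ?_
      vs := ?_ }⟩
  · rintro ⟨t, ht⟩
    have hsm := S.M.sm t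
    obtain ⟨ν, hν, h1, h2⟩ := hS t
    obtain ⟨y, hy, hfy, hν0, hi, hii⟩ := exists_y hg h S t hν h1 h2
    have hmo : mo g ν ∈ A0 := mo_memA0 h.gA hν0
    have hmoπ : pq π (mo g ν) ≠ 0 := by
      unfold mo
      rw [pq_prod π _ _ fun a _ => zpow_mem' (hgQ a) _ (Or.inl (hν0 a))]
      refine Finset.prod_ne_zero_iff.2 fun a _ => ?_
      obtain ⟨m, hm⟩ := Int.eq_ofNat_of_zero_le (hν0 a)
      rw [hm, zpow_natCast, pq_pow π (hgQ a)]
      exact pow_ne_zero _ (hπg a)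
    have hy0 : y ≠ 0 := by
      rintro rfl
      rw [zero_mul] at hfy
      exact hf0 hfy
    have hyπ : pq π y = 0 := by
      rw [hfy, pq_mul π (ht hy) (hA0Q hmo)] at hf
      exact (mul_eq_zero.1 hf).resolve_right hmoπ
    refine smooth_im π ht hy hy0 hyπ ?_ hi
    intro a ha haπ
    obtain ⟨n, hn⟩ := S.M.dn t a ha
    have h3 : pq π (S.M.H t ^ n * a) = 0 := by
      rw [pq_mul π (Q.pow_mem (hHQ t) n) (ht ha), haπ, mul_zero]
    obtain ⟨b, hb, hb'⟩ := hker0 _ hn h3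
    obtain ⟨m, hm⟩ := S.vb.vH t
    have hsA : g t0 ∈ S.M.A t := S.vb.base t (h.gA t0)
    have h4 : (⟨y, hy⟩ : S.M.A t) ∣ ⟨g t0, hsA⟩ ^ (m * n) * ⟨a, ha⟩ := by
      refine ⟨⟨(g t0 ^ m / S.M.H t) ^ n * (mo g ν * b), (S.M.A t).mul_mem
        ((S.M.A t).pow_mem hm n) ((S.M.A t).mul_mem (S.vb.base t hmo) (S.vb.base t hb))⟩,
        Subtype.ext ?_⟩
      change g t0 ^ (m * n) * a = y * ((g t0 ^ m / S.M.H t) ^ n * (mo g ν * b))
      have h5 := S.M.H0 t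
      have h6 : y * ((g t0 ^ m / S.M.H t) ^ n * (mo g ν * b)) =
          (g t0 ^ m / S.M.H t) ^ n * (S.M.H t ^ n * a) := by
        rw [hb', hfy]; ring
      rw [h6, div_pow, pow_mul]
      field_simp
    obtain ⟨c, hc⟩ := cancel_vert hg S t hsA ⟨y, hy⟩ hi hii _ _ h4
    have h5 : a = y * c := congrArg Subtype.val hc
    rw [h5, mul_div_cancel_left₀ _ hy0]
    exact c.2
  · rintro ⟨t, ht⟩ z hz
    obtain ⟨a, ha, rfl⟩ := (mem_im π).1 hz
    exact pq_mem π ht (S.vb.base t ha)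
  · intro t t'
    rw [← hHd t _ (hHQ _)]
    exact pq_mem π t.2 (S.M.rt _ _)
  · intro t t' z hz
    obtain ⟨a, ha, rfl⟩ := (mem_im π).1 hz
    obtain ⟨n, hn⟩ := S.M.gl t.1 t'.1 a ha
    refine ⟨n, ?_⟩
    have h1 : S.M.H t'.1 / S.M.H t.1 ∈ Q := t.2 (S.M.rt _ _)
    rw [← hHd t _ (hHQ _), ← pq_pow π h1, ← pq_mul π (Q.pow_mem h1 n) (t'.2 ha)]
    exact pq_mem π t.2 hn
  · intro t z hz
    obtain ⟨a, ha, rfl⟩ := (mem_im π).1 hz
    obtain ⟨n, hn⟩ := S.M.dn t.1 a ha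
    refine ⟨n, ?_⟩
    rw [← pq_pow π (hHQ _), ← pq_mul π (Q.pow_mem (hHQ _) n) (t.2 ha)]
    exact pq_mem π hA0Q hn
  · intro V hV
    obtain ⟨t, ht⟩ := S.M.cv (pullV π hK V) (by
      intro a ha
      refine ⟨⟨a, hA0Q ha⟩, 1, by rw [map_one]; exact one_ne_zero, by simp, ?_⟩
      rw [map_one, div_one, ← pq_of π (hA0Q ha)]
      exact hV _ (pq_mem π hA0Q ha))
    have htQ : S.M.A t ≤ Q := by
      intro z hz
      obtain ⟨a, b, hb, h1, -⟩ := ht z hz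
      have h2 : (b : L)⁻¹ ∈ Q := hQ' b b.2 (by rw [pq_coe]; exact hb)
      have hb0 : (b : L) ≠ 0 := by
        intro h0
        apply hb
        have : b = 0 := Subtype.ext h0
        rw [this, map_zero]
      have h3 : z = a * (b : L)⁻¹ := by
        rw [← h1]
        field_simp
      rw [h3]
      exact Q.mul_mem a.2 h2
    refine ⟨⟨t, htQ⟩, fun z hz => ?_⟩
    obtain ⟨a, ha, rfl⟩ := (mem_im π).1 hz
    exact pullV_pq π (htQ ha) (ht a ha)
  · intro t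
    obtain ⟨n, hn⟩ := S.vb.vH t.1
    refine ⟨n, ?_⟩
    rw [← pq_pow π (hgQ t0), ← hHd t _ (Q.pow_mem (hgQ t0) n)]
    exact pq_mem π t.2 hn

end cut

end Pool.Agent.K6.H44.VT
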