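import Pool.Agent.K6.H44.VT.Cut

/-!
# Newton nondegenerate hypersurfaces: smooth charts
-/

set_option autoImplicit false
set_option linter.unusedVariables false
set_option linter.unusedSimpArgs false
set_option linter.unusedSectionVars false

universe u v

open Polynomial Pool.Agent.W558 Pool.Agent.W973.CUT

namespace Pool.Agent.K6.H44.VT

/-- The weight of a monomial. -/
def wt' {G : Type} [Fintype G] (w : G → ℕ) (μ : G → ℕ) : ℕ := ∑ a, w a * μ a

/-- The equation `f` is Newton nondegenerate along the divisor of `g t0`. -/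
structure Nn {k L : Type u} [Field k] [Field L] [Algebra k L] (A0 : Subalgebra k L) {G J : Type}
    [Fintype G] [DecidableEq G] [Fintype J] (g : G → L) (t0 : G) (f : L) (μ : J → G → ℕ) (N : ℕ)
    (u : J → L) (G0 G1 : L) : Prop where
  gA : ∀ a, g a ∈ A0
  uA : ∀ j, u j ∈ A0
  G0A : G0 ∈ A0
  G1A : G1 ∈ A0
  f_eq : f = ∑ j, u j * mo g (fun a => (μ j a : ℤ)) + mo g (nuN t0 N) * (G0 + g t0 * G1)
  hw : ∀ (κ : Type u) [Field κ] [Algebra k κ] (φ : A0 →ₐ[k] κ) (w : G → ℕ) (c : G → κ),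
    (∀ a, c a ≠ 0) → (∀ a, w a = 0 → φ ⟨g a, gA a⟩ = c a) → (∀ a, 0 < w a → φ ⟨g a, gA a⟩ = 0) →
    0 < w t0 → ∀ m : ℕ, (∀ j, m ≤ wt' w (μ j)) → m ≤ N * w t0 →
    ((∃ j, wt' w (μ j) = m) ∨ N * w t0 = m) →
    (∑ j, if wt' w (μ j) = m then φ ⟨u j, uA j⟩ * ∏ a, c a ^ μ j a else 0) +
      (if N * w t0 = m then φ ⟨G0, G0A⟩ * c t0 ^ N else 0) = 0 →
    ∃ (D : TV φ) (e0 : G → κ), (∀ a, LE D (g a) (e0 a)) ∧
      (∑ j, if wt' w (μ j) = m then (∏ a, c a ^ μ j a) *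
        (D.D ⟨u j, uA j⟩ + φ ⟨u j, uA j⟩ * ∑ a, (μ j a : κ) * e0 a) else 0) +
      (if N * w t0 = m then c t0 ^ N * (D.D ⟨G0, G0A⟩ + φ ⟨G0, G0A⟩ * (N * e0 t0)) else 0) ≠ 0
  hgen : ∀ (κ : Type u) [Field κ] [Algebra k κ] (φ : A0 →ₐ[k] κ) (hf : f ∈ A0),
    φ ⟨f, hf⟩ = 0 → φ ⟨g t0, gA t0⟩ ≠ 0 → ∃ D : TV φ, D.D ⟨f, hf⟩ ≠ 0

section

variable {k L : Type u} [Field k] [Field L] [Algebra k L] {A0 : Subalgebra k L} {G J : Type}
  [Fintype G] [DecidableEq G] [Fintype J] {g : G → L} {t0 : G} {f : L} {μ : J → G → ℕ} {N : ℕ}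
  {u : J → L} {G0 G1 : L}

lemma Nn.fA (h : Nn A0 g t0 f μ N u G0 G1) : f ∈ A0 := by
  rw [h.f_eq]
  refine A0.add_mem (A0.sum_mem fun j _ => A0.mul_mem (h.uA j)
    (mo_memA0 h.gA fun a => by positivity)) (A0.mul_mem (mo_memA0 h.gA fun a => ?_)
      (A0.add_mem h.G0A (A0.mul_mem (h.gA t0) h.G1A)))
  unfold nuN
  split_ifs <;> positivity

section point

variable {κ : Type u} [Field κ] [Algebra k κ] (S : St A0 g t0) (t : S.T) (φ : S.M.A t →ₐ[k] κ)

open Classical in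
/-- The torus point of a point of a chart. -/
noncomputable def tp (a : G) : κ :=
  φ ⟨wf S.M.x g S.Γ t a, S.vb.wA t a⟩ *
    ∏ l, if φ ⟨S.M.x t l, S.M.xA t l⟩ = 0 then 1 else φ ⟨S.M.x t l, S.M.xA t l⟩ ^ (S.Γ a l).toNat

open Classical in
/-- The weight of a point of a chart. -/
noncomputable def tw (a : G) : ℕ :=
  ∑ l, if φ ⟨S.M.x t l, S.M.xA t l⟩ = 0 then (S.Γ a l).toNat else 0

lemma wf_ne (hg : ∀ a, g a ≠ 0) (a : G) : φ ⟨wf S.M.x g S.Γ t a, S.vb.wA t a⟩ ≠ 0 := by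
  have h1 : (⟨wf S.M.x g S.Γ t a, S.vb.wA t a⟩ : S.M.A t) *
      ⟨(wf S.M.x g S.Γ t a)⁻¹, S.vb.wA' t a⟩ = 1 :=
    Subtype.ext (mul_inv_cancel₀ (wf_eq (M := S.M) (Γ := S.Γ) hg t a).1)
  have h2 := congrArg φ h1
  rw [map_mul, map_one] at h2
  exact left_ne_zero_of_mul_eq_one h2

lemma tp_ne (hg : ∀ a, g a ≠ 0) (a : G) : tp S t φ a ≠ 0 := by
  unfold tp
  refine mul_ne_zero (wf_ne S t φ hg a) (Finset.prod_ne_zero_iff.2 fun l _ => ?_)
  split_ifs with h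
  · exact one_ne_zero
  · exact pow_ne_zero _ h

lemma phi_g (hg : ∀ a, g a ≠ 0) (a : G) (hga : g a ∈ S.M.A t) :
    φ ⟨g a, hga⟩ = φ ⟨wf S.M.x g S.Γ t a, S.vb.wA t a⟩ *
      ∏ l, φ ⟨S.M.x t l, S.M.xA t l⟩ ^ (S.Γ a l).toNat := by
  have h6 : (⟨g a, hga⟩ : S.M.A t) = ⟨wf S.M.x g S.Γ t a, S.vb.wA t a⟩ *
      ∏ l, (⟨S.M.x t l, S.M.xA t l⟩ : S.M.A t) ^ (S.Γ a l).toNat := by
    apply Subtype.ext
    rw [Subalgebra.coe_mul, SubmonoidClass.coe_finsetProd]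
    change g a = wf S.M.x g S.Γ t a * ∏ l, (S.M.x t l) ^ (S.Γ a l).toNat
    conv_lhs => rw [(wf_eq (M := S.M) (Γ := S.Γ) hg t a).2]
    congr 1
    refine Finset.prod_congr rfl fun l _ => ?_
    rw [← zpow_natCast, Int.toNat_of_nonneg (S.vb.Γ0 a l)]
  rw [h6, map_mul, map_prod]
  congr 1
  exact Finset.prod_congr rfl fun l _ => map_pow _ _ _

lemma tw_zero (hg : ∀ a, g a ≠ 0) (a : G) (hga : g a ∈ S.M.A t) (h : tw S t φ a = 0) :
    φ ⟨g a, hga⟩ = tp S t φ a := by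
  classical
  rw [phi_g S t φ hg a hga, tp]
  congr 1
  refine Finset.prod_congr rfl fun l _ => ?_
  unfold tw at h
  rw [Finset.sum_eq_zero_iff] at h
  have h1 := h l (Finset.mem_univ l)
  split_ifs with h2
  · rw [if_pos h2] at h1
    rw [h1, pow_zero]
  · rfl

lemma tw_pos (hg : ∀ a, g a ≠ 0) (a : G) (hga : g a ∈ S.M.A t) (h : 0 < tw S t φ a) :
    φ ⟨g a, hga⟩ = 0 := by
  classical
  unfold tw at h
  rw [Finset.sum_pos_iff] at h
  obtain ⟨l, -, hl⟩ := h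
  split_ifs at hl with h2
  · rw [phi_g S t φ hg a hga, Finset.prod_eq_zero (Finset.mem_univ l), mul_zero]
    rw [h2, zero_pow (by omega)]
  · exact absurd hl (lt_irrefl _)

lemma tw_pos' (hg : ∀ a, g a ≠ 0) (a : G) (hga : g a ∈ S.M.A t) (h : φ ⟨g a, hga⟩ = 0) :
    0 < tw S t φ a := by
  by_contra hcon
  have h1 : tw S t φ a = 0 := by omega
  rw [tw_zero S t φ hg a hga h1] at h
  exact tp_ne S t φ hg a h

/-- The difference of the weights of two monomials. -/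
lemma tw_co (δ : G → ℤ) : ∑ a, (tw S t φ a : ℤ) * δ a =
    ∑ l, (open Classical in if φ ⟨S.M.x t l, S.M.xA t l⟩ = 0 then co δ S.Γ l else 0) := by
  classical
  unfold tw co
  have h1 : ∀ a, ((∑ l, if φ ⟨S.M.x t l, S.M.xA t l⟩ = 0 then (S.Γ a l).toNat else 0 : ℕ) : ℤ) *
      δ a = ∑ l, if φ ⟨S.M.x t l, S.M.xA t l⟩ = 0 then δ a * S.Γ a l else 0 := by
    intro a
    rw [Nat.cast_sum, Finset.sum_mul]
    refine Finset.sum_congr rfl fun l _ => ?_
    split_ifs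
    · rw [Int.toNat_of_nonneg (S.vb.Γ0 a l)]
      ring
    · simp
  rw [Finset.sum_congr rfl fun a _ => h1 a, Finset.sum_comm]
  refine Finset.sum_congr rfl fun l _ => ?_
  split_ifs
  · rfl
  · simp

/-- The values of the monomials which are regular at the point. -/
lemma phi_mo (hg : ∀ a, g a ≠ 0) {δ : G → ℤ} (hδ : Rg S.M.A S.M.x t (co δ S.Γ)) :
    0 ≤ ∑ a, (tw S t φ a : ℤ) * δ a ∧
    (∑ a, (tw S t φ a : ℤ) * δ a = 0 → φ ⟨mo g δ, mo_mem hg S.vb hδ⟩ = ∏ a, tp S t φ a ^ δ a) ∧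
    (0 < ∑ a, (tw S t φ a : ℤ) * δ a → φ ⟨mo g δ, mo_mem hg S.vb hδ⟩ = 0) := by
  classical
  have hnn : ∀ l, φ ⟨S.M.x t l, S.M.xA t l⟩ = 0 → 0 ≤ co δ S.Γ l := by
    intro l hl
    rcases hδ l with h1 | h1
    · exact h1
    · exfalso
      have h2 : (⟨S.M.x t l, S.M.xA t l⟩ : S.M.A t) * ⟨(S.M.x t l)⁻¹, h1⟩ = 1 :=
        Subtype.ext (mul_inv_cancel₀ (S.M.x0 t l))
      have h3 := congrArg φ h2
      rw [map_mul, map_one, hl, zero_mul] at h3
      exact zero_ne_one h3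
  -- values
  have hzA : ∀ l, S.M.x t l ^ co δ S.Γ l ∈ S.M.A t := fun l => zpow_mem' (S.M.xA t l) _ (hδ l)
  have hwA : ∀ a, wf S.M.x g S.Γ t a ^ δ a ∈ S.M.A t := fun a =>
    zpow_mem' (S.vb.wA t a) _ (Or.inr (S.vb.wA' t a))
  have hval : φ ⟨mo g δ, mo_mem hg S.vb hδ⟩ = (∏ a, φ ⟨_, hwA a⟩) * ∏ l, φ ⟨_, hzA l⟩ := by
    rw [← map_prod, ← map_prod, ← map_mul]
    congr 1
    apply Subtype.ext
    rw [Subalgebra.coe_mul, SubmonoidClass.coe_finsetProd, SubmonoidClass.coe_finsetProd]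
    exact mo_eq (M := S.M) (Γ := S.Γ) hg t δ
  have hzp : ∀ (x : L) (hx : x ∈ S.M.A t) (hx0 : φ ⟨x, hx⟩ ≠ 0) (n : ℤ) (hn : x ^ n ∈ S.M.A t),
      φ ⟨x ^ n, hn⟩ = φ ⟨x, hx⟩ ^ n := by
    intro x hx hx0 n hn
    rcases le_or_gt 0 n with h1 | h1
    · obtain ⟨m, rfl⟩ := Int.eq_ofNat_of_zero_le h1
      have h2 : (⟨x ^ (m : ℤ), hn⟩ : S.M.A t) = ⟨x, hx⟩ ^ m := Subtype.ext (zpow_natCast x m)
      rw [h2, map_pow, zpow_natCast]
    · obtain ⟨m, hm⟩ := Int.eq_ofNat_of_zero_le (show 0 ≤ -n by omega)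
      have h3 : n = -(m : ℤ) := by omega
      subst h3
      have hx1 : x ≠ 0 := by
        rintro rfl
        apply hx0
        have : (⟨0, hx⟩ : S.M.A t) = 0 := rfl
        rw [this, map_zero]
      have h4 : (⟨x ^ (-(m : ℤ)), hn⟩ : S.M.A t) * ⟨x, hx⟩ ^ m = 1 := by
        apply Subtype.ext
        change x ^ (-(m : ℤ)) * x ^ m = 1
        rw [zpow_neg, zpow_natCast, inv_mul_cancel₀ (pow_ne_zero m hx1)]
      have h5 := congrArg φ h4
      rw [map_mul, map_pow, map_one] at h5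
      have h6 : (φ ⟨x, hx⟩ ^ m)⁻¹ = φ ⟨x, hx⟩ ^ (-(m : ℤ)) := by rw [zpow_neg, zpow_natCast]
      rw [← h6]
      exact eq_inv_of_mul_eq_one_left h5
  rw [tw_co]
  refine ⟨Finset.sum_nonneg fun l _ => ?_, ?_, ?_⟩
  · split_ifs with h
    · exact hnn l h
    · exact le_rfl
  · intro h0
    rw [Finset.sum_eq_zero_iff_of_nonneg (fun l _ => by
      split_ifs with h
      · exact hnn l h
      · exact le_rfl)] at h0
    rw [hval]
    have h1 : ∀ a, tp S t φ a ^ δ a = φ ⟨_, hwA a⟩ * ∏ l,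
        if φ ⟨S.M.x t l, S.M.xA t l⟩ = 0 then (1 : κ) else
          φ ⟨S.M.x t l, S.M.xA t l⟩ ^ (δ a * S.Γ a l) := by
      intro a
      unfold tp
      rw [mul_zpow, hzp _ (S.vb.wA t a) (wf_ne S t φ hg a), ← Finset.prod_zpow]
      congr 1
      refine Finset.prod_congr rfl fun l _ => ?_
      split_ifs with h
      · exact one_zpow _
      · rw [← zpow_natCast, ← zpow_mul, Int.toNat_of_nonneg (S.vb.Γ0 a l), mul_comm]
    rw [Finset.prod_congr rfl fun a _ => h1 a, Finset.prod_mul_distrib, Finset.prod_comm]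
    congr 1
    refine Finset.prod_congr rfl fun l _ => ?_
    by_cases h : φ ⟨S.M.x t l, S.M.xA t l⟩ = 0
    · have h2 := h0 l (Finset.mem_univ l)
      rw [if_pos h] at h2
      simp only [if_pos h]
      rw [Finset.prod_const_one]
      have h3 : (⟨S.M.x t l ^ co δ S.Γ l, hzA l⟩ : S.M.A t) = 1 := by
        apply Subtype.ext
        change S.M.x t l ^ co δ S.Γ l = 1
        rw [h2, zpow_zero]
      rw [h3, map_one]
    · simp only [if_neg h]
      rw [hzp _ (S.M.xA t l) h]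
      unfold co
      have h4 : ∀ s : Finset G, φ ⟨S.M.x t l, S.M.xA t l⟩ ^ (∑ a ∈ s, δ a * S.Γ a l) =
          ∏ a ∈ s, φ ⟨S.M.x t l, S.M.xA t l⟩ ^ (δ a * S.Γ a l) := by
        intro s
        induction s using Finset.induction_on with
        | empty => simp
        | insert a s ha ih => rw [Finset.prod_insert ha, Finset.sum_insert ha, zpow_add₀ h, ih]
      exact h4 _
  · intro h0
    obtain ⟨l, -, hl⟩ := Finset.exists_lt_of_sum_lt (s := Finset.univ) (f := fun _ => (0 : ℤ))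
      (g := fun l => if φ ⟨S.M.x t l, S.M.xA t l⟩ = 0 then co δ S.Γ l else 0) (by simpa using h0)
    split_ifs at hl with h
    · rw [hval, Finset.prod_eq_zero (Finset.mem_univ l) (by
        obtain ⟨m, hm⟩ := Int.eq_ofNat_of_zero_le hl.le
        have h3 : (⟨S.M.x t l ^ co δ S.Γ l, hzA l⟩ : S.M.A t) = ⟨S.M.x t l, S.M.xA t l⟩ ^ m := by
          apply Subtype.ext
          change S.M.x t l ^ co δ S.Γ l = S.M.x t l ^ m
          rw [hm, zpow_natCast]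
        rw [h3, map_pow, h, zero_pow]
        omega), mul_zero]
    · exact absurd hl (lt_irrefl _)

end point

/-- The equation of the strict transform. -/
theorem exists_y2 (hg : ∀ a, g a ≠ 0) (h : Nn A0 g t0 f μ N u G0 G1) (S : St A0 g t0) (t : S.T)
    {ν : G → ℤ} (hν : ν = nuN t0 N ∨ ∃ m, ν = fun a => (μ m a : ℤ))
    (h1 : ∀ j, Rg S.M.A S.M.x t (co ((fun a => (μ j a : ℤ)) - ν) S.Γ))
    (h2 : Rg S.M.A S.M.x t (co (nuN t0 N - ν) S.Γ)) :
    ∃ (y : L) (hy : y ∈ S.M.A t), f = y * mo g ν ∧ (∀ a, 0 ≤ ν a) ∧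
      (∀ (κ : Type u) [Field κ] [Algebra k κ] (φ : S.M.A t →ₐ[k] κ), φ ⟨y, hy⟩ = 0 →
        ∃ D : TV φ, D.D ⟨y, hy⟩ ≠ 0) ∧
      (∀ (κ : Type u) [Field κ] [Algebra k κ] (φ : S.M.A t →ₐ[k] κ), φ ⟨y, hy⟩ = 0 →
        φ ⟨g t0, S.vb.base t (h.gA t0)⟩ = 0 →
        ∃ (D : TV φ) (e : S.I → κ), (∀ l, LE D (S.M.x t l) (e l)) ∧ D.D ⟨y, hy⟩ ≠ 0) := by
  classical
  have hν0 : ∀ a, 0 ≤ ν a := by
    rcases hν with rfl | ⟨m, rfl⟩
    · intro a
      unfold nuN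
      split_ifs <;> positivity
    · intro a
      positivity
  let A := S.M.A t
  have hAA : A0 ≤ A := S.vb.base t
  let R : J → A := fun j => ⟨mo g ((fun a => (μ j a : ℤ)) - ν), mo_mem hg S.vb (h1 j)⟩
  let RN : A := ⟨mo g (nuN t0 N - ν), mo_mem hg S.vb h2⟩
  let u' : J → A := fun j => ⟨u j, hAA (h.uA j)⟩
  let s' : A := ⟨g t0, hAA (h.gA t0)⟩
  let G0' : A := ⟨G0, hAA h.G0A⟩
  let G1' : A := ⟨G1, hAA h.G1A⟩
  let y' : A := ∑ j, u' j * R j + RN * (G0' + s' * G1')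
  have hyv : (y' : L) = ∑ j, u j * mo g ((fun a => (μ j a : ℤ)) - ν) +
      mo g (nuN t0 N - ν) * (G0 + g t0 * G1) := by
    simp only [y', Subalgebra.coe_add, Subalgebra.coe_mul]
    congr 1
    rw [AddSubmonoidClass.coe_finsetSum]
    rfl
  have hfy : f = (y' : L) * mo g ν := by
    rw [hyv, add_mul, Finset.sum_mul, h.f_eq]
    congr 1
    · refine Finset.sum_congr rfl fun j _ => ?_
      rw [mul_assoc, mo_sub hg]
    · rw [mul_right_comm, mo_sub hg]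
  -- the value of a tangent vector at `y'`
  have key : ∀ (κ : Type u) [Field κ] [Algebra k κ] (φ : A →ₐ[k] κ), φ y' = 0 → φ s' = 0 →
      ∃ (D : TV φ) (e : S.I → κ), (∀ l, LE D (S.M.x t l) (e l)) ∧ D.D y' ≠ 0 := by
    intro κ _ _ φ hφ hφs
    -- the weight and the torus point
    let w : G → ℕ := tw S t φ
    let c : G → κ := tp S t φ
    have hc0 : ∀ a, c a ≠ 0 := tp_ne S t φ hg
    have hmz : ∃ m : ℕ, (m : ℤ) = ∑ a, (w a : ℤ) * ν a :=
      ⟨(∑ a, (w a : ℤ) * ν a).toNat, Int.toNat_of_nonneg (Finset.sum_nonneg fun a _ =>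
        mul_nonneg (Int.natCast_nonneg _) (hν0 a))⟩
    obtain ⟨m, hm⟩ := hmz
    have hwj : ∀ j, ∑ a, (w a : ℤ) * ((fun a => (μ j a : ℤ)) - ν) a = (wt' w (μ j) : ℤ) - m := by
      intro j
      rw [hm]
      unfold wt'
      push_cast
      rw [← Finset.sum_sub_distrib]
      refine Finset.sum_congr rfl fun a _ => ?_
      rw [Pi.sub_apply]
      ring
    have hwN : ∑ a, (w a : ℤ) * (nuN t0 N - ν) a = ((N * w t0 : ℕ) : ℤ) - m := by
      rw [hm]
      have h3 : ((N * w t0 : ℕ) : ℤ) = ∑ a, (w a : ℤ) * nuN t0 N a := by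
        unfold nuN
        simp only [mul_ite, mul_zero, Finset.sum_ite_eq', Finset.mem_univ, if_true]
        push_cast
        ring
      rw [h3, ← Finset.sum_sub_distrib]
      refine Finset.sum_congr rfl fun a _ => ?_
      rw [Pi.sub_apply]
      ring
    let Cν : κ := ∏ a, c a ^ ν a
    have hCν : Cν ≠ 0 := Finset.prod_ne_zero_iff.2 fun a _ => zpow_ne_zero _ (hc0 a)
    have hRj : ∀ j, m ≤ wt' w (μ j) ∧
        φ (R j) * Cν = if wt' w (μ j) = m then ∏ a, c a ^ μ j a else 0 := by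
      intro j
      obtain ⟨p1, p2, p3⟩ := phi_mo S t φ hg (h1 j)
      have hwj' := hwj j
      change ∑ a, (tw S t φ a : ℤ) * ((fun a => (μ j a : ℤ)) - ν) a = _ at hwj'
      rw [hwj'] at p1 p2 p3
      refine ⟨by omega, ?_⟩
      split_ifs with h3
      · have h4 := p2 (by omega)
        change φ ⟨mo g ((fun a => (μ j a : ℤ)) - ν), _⟩ * Cν = _
        rw [h4, ← Finset.prod_mul_distrib]
        refine Finset.prod_congr rfl fun a _ => ?_
        change c a ^ _ * c a ^ ν a = _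
        rw [← zpow_add₀ (hc0 a), Pi.sub_apply, sub_add_cancel, zpow_natCast]
      · have h4 := p3 (by omega)
        change φ ⟨mo g ((fun a => (μ j a : ℤ)) - ν), _⟩ * Cν = _
        rw [h4, zero_mul]
    have hRNj : m ≤ N * w t0 ∧
        φ RN * Cν = if N * w t0 = m then c t0 ^ N else 0 := by
      obtain ⟨p1, p2, p3⟩ := phi_mo S t φ hg h2
      have hwj' := hwN
      change ∑ a, (tw S t φ a : ℤ) * (nuN t0 N - ν) a = _ at hwj'
      rw [hwj'] at p1 p2 p3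
      refine ⟨by omega, ?_⟩
      split_ifs with h3
      · have h4 := p2 (by omega)
        change φ ⟨mo g (nuN t0 N - ν), _⟩ * Cν = _
        rw [h4, ← Finset.prod_mul_distrib]
        have h5 : ∀ a, tp S t φ a ^ (nuN t0 N - ν) a * c a ^ ν a =
            if a = t0 then c t0 ^ N else 1 := by
          intro a
          change c a ^ _ * c a ^ ν a = _
          rw [← zpow_add₀ (hc0 a), Pi.sub_apply, sub_add_cancel]
          unfold nuN
          by_cases ha : a = t0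
          · rw [if_pos ha, if_pos ha, zpow_natCast, ha]
          · rw [if_neg ha, if_neg ha, zpow_zero]
        rw [Finset.prod_congr rfl fun a _ => h5 a]
        simp
      · have h4 := p3 (by omega)
        change φ ⟨mo g (nuN t0 N - ν), _⟩ * Cν = _
        rw [h4, zero_mul]
    have hex : (∃ j, wt' w (μ j) = m) ∨ N * w t0 = m := by
      rcases hν with h3 | ⟨m', hm'⟩
      · right
        have : ∑ a, (w a : ℤ) * (nuN t0 N - ν) a = 0 := by
          refine Finset.sum_eq_zero fun a _ => ?_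
          rw [h3, Pi.sub_apply, sub_self, mul_zero]
        rw [hwN] at this
        omega
      · left
        refine ⟨m', ?_⟩
        have : ∑ a, (w a : ℤ) * ((fun a => (μ m' a : ℤ)) - ν) a = 0 := by
          refine Finset.sum_eq_zero fun a _ => ?_
          rw [hm', Pi.sub_apply, sub_self, mul_zero]
        rw [hwj m'] at this
        omega
    have hy1 : φ y' = ∑ j, φ (u' j) * φ (R j) + φ RN * φ G0' := by
      have e1 : φ y' = ∑ j, φ (u' j) * φ (R j) + φ RN * (φ G0' + φ s' * φ G1') := by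
        simp only [y', map_add, map_sum, map_mul]
      rw [e1, hφs, zero_mul, add_zero]
    have hface : (∑ j, if wt' w (μ j) = m then φ (u' j) * ∏ a, c a ^ μ j a else 0) +
        (if N * w t0 = m then φ G0' * c t0 ^ N else 0) = 0 := by
      have h3 : φ y' * Cν = 0 := by rw [hφ, zero_mul]
      rw [hy1, add_mul, Finset.sum_mul] at h3
      refine Eq.trans ?_ h3
      congr 1
      · refine Finset.sum_congr rfl fun j _ => ?_
        rw [mul_assoc, (hRj j).2]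
        split_ifs <;> simp
      · rw [mul_right_comm, hRNj.2]
        split_ifs
        · ring
        · simp
    obtain ⟨D0, e0, he0, hD0⟩ := h.hw κ (rs hAA φ) w c hc0
      (fun a ha => tw_zero S t φ hg a _ ha) (fun a ha => tw_pos S t φ hg a _ ha)
      (tw_pos' S t φ hg t0 _ hφs) m (fun j => (hRj j).1) hRNj.1 hex hface
    obtain ⟨D, e, hD, hx, hw⟩ := S.vb.llift t κ φ D0 e0 he0
    refine ⟨D, e, hx, ?_⟩
    have hR : ∀ j, D.D (R j) = φ (R j) *
        (∑ a, (μ j a : κ) * e0 a - ∑ a, (ν a : κ) * e0 a) := by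
      intro j
      obtain ⟨hz, h3⟩ := mo_LE hg S.vb (h1 j) hx hw
      refine h3.trans ?_
      congr 1
      rw [← Finset.sum_sub_distrib]
      refine Finset.sum_congr rfl fun a _ => ?_
      rw [Pi.sub_apply]
      push_cast
      ring
    have hRN : D.D RN = φ RN * (N * e0 t0 - ∑ a, (ν a : κ) * e0 a) := by
      obtain ⟨hz, h3⟩ := mo_LE hg S.vb h2 hx hw
      refine h3.trans ?_
      congr 1
      have h4 : ∑ a, (nuN t0 N a : κ) * e0 a = N * e0 t0 := by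
        unfold nuN
        rw [Finset.sum_eq_single t0]
        · rw [if_pos rfl]; push_cast; rfl
        · intro a _ ha
          rw [if_neg ha]; simp
        · intro h; exact absurd (Finset.mem_univ _) h
      rw [← h4, ← Finset.sum_sub_distrib]
      refine Finset.sum_congr rfl fun a _ => ?_
      rw [Pi.sub_apply]
      push_cast
      ring
    have hu0 : ∀ j, D.D (u' j) = D0.D ⟨u j, h.uA j⟩ := fun j => hD (u j) (h.uA j)
    have hG0 : D.D G0' = D0.D ⟨G0, h.G0A⟩ := hD G0 h.G0A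
    have hs0 : D.D s' = 0 := by
      obtain ⟨hz, h3⟩ := he0 t0
      refine (hD (g t0) (h.gA t0)).trans (h3.trans ?_)
      rw [show rs hAA φ ⟨g t0, hz⟩ = 0 from hφs, zero_mul]
    have hG : D.D (G0' + s' * G1') = D0.D ⟨G0, h.G0A⟩ := by
      rw [map_add, D.leib, hG0, hs0, hφs, zero_mul, mul_zero, add_zero, add_zero]
    have hφG : φ (G0' + s' * G1') = φ G0' := by
      rw [map_add, map_mul, hφs, zero_mul, add_zero]
    have h5 : D.D y' = (∑ j, φ (R j) * (D0.D ⟨u j, h.uA j⟩ + φ (u' j) * ∑ a, (μ j a : κ) * e0 a)) +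
        φ RN * (D0.D ⟨G0, h.G0A⟩ + φ G0' * (N * e0 t0)) := by
      have e1 : D.D y' = (∑ j, φ (R j) * (D0.D ⟨u j, h.uA j⟩ +
          φ (u' j) * ∑ a, (μ j a : κ) * e0 a)) +
          φ RN * (D0.D ⟨G0, h.G0A⟩ + φ G0' * (N * e0 t0)) -
          φ y' * ∑ a, (ν a : κ) * e0 a := by
        rw [hy1]
        change D.D (∑ j, u' j * R j + RN * (G0' + s' * G1')) = _
        rw [map_add, D.leib, hG, hRN, hφG, map_sum]
        have e2 : ∀ j, D.D (u' j * R j) = φ (R j) * (D0.D ⟨u j, h.uA j⟩ +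
            φ (u' j) * ∑ a, (μ j a : κ) * e0 a) -
            φ (u' j) * φ (R j) * ∑ a, (ν a : κ) * e0 a := by
          intro j
          rw [D.leib, hu0, hR]
          ring
        rw [Finset.sum_congr rfl fun j _ => e2 j, Finset.sum_sub_distrib, ← Finset.sum_mul]
        ring
      rw [e1, hφ, zero_mul, sub_zero]
    intro h6
    apply hD0
    have h7 : D.D y' * Cν = 0 := by rw [h6, zero_mul]
    rw [h5, add_mul, Finset.sum_mul] at h7
    refine Eq.trans ?_ h7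
    congr 1
    · refine Finset.sum_congr rfl fun j _ => ?_
      rw [mul_right_comm, (hRj j).2]
      split_ifs
      · rfl
      · rw [zero_mul]
    · rw [mul_right_comm, hRNj.2]
      split_ifs
      · rfl
      · rw [zero_mul]
  refine ⟨y', y'.2, hfy, hν0, ?_, fun κ _ _ φ hφ hφs => key κ φ hφ hφs⟩
  intro κ _ _ φ hφ
  by_cases hφs : φ s' = 0
  · obtain ⟨D, e, -, hD⟩ := key κ φ hφ hφs
    exact ⟨D, hD⟩
  · have hfA := h.fA
    have e1 : (⟨f, hAA hfA⟩ : A) = y' * ⟨mo g ν, hAA (mo_memA0 h.gA hν0)⟩ := Subtype.ext hfy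
    have h3 : rs hAA φ ⟨f, hfA⟩ = 0 := by
      change φ ⟨f, hAA hfA⟩ = 0
      rw [e1, map_mul]
      have : φ y' = 0 := hφ
      rw [this, zero_mul]
    obtain ⟨D0, hD0⟩ := h.hgen κ (rs hAA φ) hfA h3 hφs
    obtain ⟨D, hD⟩ := S.vb.lift t κ φ (hAA (h.gA t0)) hφs D0
    refine ⟨D, fun h4 => hD0 ?_⟩
    rw [← hD f hfA, e1, D.leib]
    have h5 : φ y' = 0 := hφ
    have h6 : D.D y' = 0 := h4
    rw [h5, h6, zero_mul, mul_zero, add_zero]

end

section cut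

variable {k L K : Type u} [Field k] [Field L] [Algebra k L] [Field K] [Algebra k K]
  {A0 : Subalgebra k L} {G J : Type}
  [Fintype G] [DecidableEq G] [Fintype J] {g : G → L} {t0 : G} {f : L} {μ : J → G → ℕ} {N : ℕ}
  {u : J → L} {G0 G1 : L} {Q : Subalgebra k L} (π : Q →ₐ[k] K)

/-- Smooth charts for Newton nondegenerate hypersurfaces. -/
theorem exists_vatl2 (hg : ∀ a, g a ≠ 0) (h : Nn A0 g t0 f μ N u G0 G1) (S0 : St A0 g t0)
    (hA0Q : A0 ≤ Q) (hπg : ∀ a, pq π (g a) ≠ 0) (hf0 : f ≠ 0) (hf : pq π f = 0)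
    (hker0 : ∀ a ∈ A0, pq π a = 0 → ∃ b ∈ A0, a = f * b)
    (hQ : ∀ x : L, x ∈ Q ∨ x⁻¹ ∈ Q) (hQ' : ∀ b ∈ Q, pq π b ≠ 0 → b⁻¹ ∈ Q) :
    ∃ (T : Type) (_ : Finite T) (C : T → Subalgebra k K) (H : T → K),
      VAtl (im π A0 hA0Q) (pq π (g t0)) T C H := by
  classical
  obtain ⟨S, hS⟩ := exists_min hg μ N S0
  let T := {t : S.T // S.M.A t ≤ Q}
  have hgQ : ∀ a, g a ∈ Q := fun a => hA0Q (h.gA a)
  have hHQ : ∀ t : S.T, S.M.H t ∈ Q := fun t => hA0Q (S.M.HR t)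
  have hH0 : ∀ t : T, pq π (S.M.H t.1) ≠ 0 := by
    rintro ⟨t, ht⟩ h0
    obtain ⟨n, hn⟩ := S.vb.vH t
    have h1 : pq π (g t0 ^ n) = pq π (g t0 ^ n / S.M.H t) * pq π (S.M.H t) := by
      rw [← pq_mul π (ht hn) (hHQ t)]
      congr 1
      have := S.M.H0 t
      field_simp
    rw [h0, mul_zero, pq_pow π (hgQ t0)] at h1
    exact pow_ne_zero n (hπg t0) h1
  have hHi : ∀ t : T, (S.M.H t.1)⁻¹ ∈ Q := fun t => hQ' _ (hHQ _) (hH0 t)
  have hHd : ∀ (t : T) (z : L), z ∈ Q → pq π (z / S.M.H t.1) = pq π z / pq π (S.M.H t.1) :=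
    fun t z hz => pq_div π hz (S.M.H0 _) (hHQ _) (hHi t)
  have hK : ∀ x : L, (∃ a b : Q, π b ≠ 0 ∧ x * b = a) ∨ (∃ a b : Q, π b ≠ 0 ∧ x⁻¹ * b = a) := by
    intro x
    rcases hQ x with h1 | h1
    · exact Or.inl ⟨⟨x, h1⟩, 1, by rw [map_one]; exact one_ne_zero, by simp⟩
    · exact Or.inr ⟨⟨x⁻¹, h1⟩, 1, by rw [map_one]; exact one_ne_zero, by simp⟩
  refine ⟨T, inferInstance, fun t => im π (S.M.A t.1) t.2, fun t => pq π (S.M.H t.1),
    { sm := ?_
      base := ?_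
      H0 := hH0
      HA := fun t => pq_mem π hA0Q (S.M.HR t.1)
      rt := ?_
      gl := ?_
      dn := ?_
      cv := ?_
      vs := ?_ }⟩
  · rintro ⟨t, ht⟩
    have hsm := S.M.sm t
    obtain ⟨ν, hν, h1, h2⟩ := hS t
    obtain ⟨y, hy, hfy, hν0, hi, hii⟩ := exists_y2 hg h S t hν h1 h2
    have hmo : mo g ν ∈ A0 := mo_memA0 h.gA hν0
    have hmoπ : pq π (mo g ν) ≠ 0 := by
      unfold mo
      rw [pq_prod π _ _ fun a _ => zpow_mem' (hgQ a) _ (Or.inl (hν0 a))]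
      refine Finset.prod_ne_zero_iff.2 fun a _ => ?_
      obtain ⟨m, hm⟩ := Int.eq_ofNat_of_zero_le (hν0 a)
      rw [hm, zpow_natCast, pq_pow π (hgQ a)]
      exact pow_ne_zero _ (hπg a)
    have hy0 : y ≠ 0 := by
      rintro rfl
      rw [zero_mul] at hfy
      exact hf0 hfy
    have hyπ : pq π y = 0 := by
      rw [hfy, pq_mul π (ht hy) (hA0Q hmo)] at hf
      exact (mul_eq_zero.1 hf).resolve_right hmoπ
    refine smooth_im π ht hy hy0 hyπ ?_ hi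
    intro a ha haπ
    obtain ⟨n, hn⟩ := S.M.dn t a ha
    have h3 : pq π (S.M.H t ^ n * a) = 0 := by
      rw [pq_mul π (Q.pow_mem (hHQ t) n) (ht ha), haπ, mul_zero]
    obtain ⟨b, hb, hb'⟩ := hker0 _ hn h3
    obtain ⟨m, hm⟩ := S.vb.vH t
    have hsA : g t0 ∈ S.M.A t := S.vb.base t (h.gA t0)
    have h4 : (⟨y, hy⟩ : S.M.A t) ∣ ⟨g t0, hsA⟩ ^ (m * n) * ⟨a, ha⟩ := by
      refine ⟨⟨(g t0 ^ m / S.M.H t) ^ n * (mo g ν * b), (S.M.A t).mul_mem
        ((S.M.A t).pow_mem hm n) ((S.M.A t).mul_mem (S.vb.base t hmo) (S.vb.base t hb))⟩,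
        Subtype.ext ?_⟩
      change g t0 ^ (m * n) * a = y * ((g t0 ^ m / S.M.H t) ^ n * (mo g ν * b))
      have h5 := S.M.H0 t
      have h6 : y * ((g t0 ^ m / S.M.H t) ^ n * (mo g ν * b)) =
          (g t0 ^ m / S.M.H t) ^ n * (S.M.H t ^ n * a) := by
        rw [hb', hfy]; ring
      rw [h6, div_pow, pow_mul]
      field_simp
    obtain ⟨c, hc⟩ := cancel_vert hg S t hsA ⟨y, hy⟩ hi hii _ _ h4
    have h5 : a = y * c := congrArg Subtype.val hc
    rw [h5, mul_div_cancel_left₀ _ hy0]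
    exact c.2
  · rintro ⟨t, ht⟩ z hz
    obtain ⟨a, ha, rfl⟩ := (mem_im π).1 hz
    exact pq_mem π ht (S.vb.base t ha)
  · intro t t'
    rw [← hHd t _ (hHQ _)]
    exact pq_mem π t.2 (S.M.rt _ _)
  · intro t t' z hz
    obtain ⟨a, ha, rfl⟩ := (mem_im π).1 hz
    obtain ⟨n, hn⟩ := S.M.gl t.1 t'.1 a ha
    refine ⟨n, ?_⟩
    have h1 : S.M.H t'.1 / S.M.H t.1 ∈ Q := t.2 (S.M.rt _ _)
    rw [← hHd t _ (hHQ _), ← pq_pow π h1, ← pq_mul π (Q.pow_mem h1 n) (t'.2 ha)]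
    exact pq_mem π t.2 hn
  · intro t z hz
    obtain ⟨a, ha, rfl⟩ := (mem_im π).1 hz
    obtain ⟨n, hn⟩ := S.M.dn t.1 a ha
    refine ⟨n, ?_⟩
    rw [← pq_pow π (hHQ _), ← pq_mul π (Q.pow_mem (hHQ _) n) (t.2 ha)]
    exact pq_mem π hA0Q hn
  · intro V hV
    obtain ⟨t, ht⟩ := S.M.cv (pullV π hK V) (by
      intro a ha
      refine ⟨⟨a, hA0Q ha⟩, 1, by rw [map_one]; exact one_ne_zero, by simp, ?_⟩
      rw [map_one, div_one, ← pq_of π (hA0Q ha)]
      exact hV _ (pq_mem π hA0Q ha))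
    have htQ : S.M.A t ≤ Q := by
      intro z hz
      obtain ⟨a, b, hb, h1, -⟩ := ht z hz
      have h2 : (b : L)⁻¹ ∈ Q := hQ' b b.2 (by rw [pq_coe]; exact hb)
      have hb0 : (b : L) ≠ 0 := by
        intro h0
        apply hb
        have : b = 0 := Subtype.ext h0
        rw [this, map_zero]
      have h3 : z = a * (b : L)⁻¹ := by
        rw [← h1]
        field_simp
      rw [h3]
      exact Q.mul_mem a.2 h2
    refine ⟨⟨t, htQ⟩, fun z hz => ?_⟩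
    obtain ⟨a, ha, rfl⟩ := (mem_im π).1 hz
    exact pullV_pq π (htQ ha) (ht a ha)
  · intro t
    obtain ⟨n, hn⟩ := S.vb.vH t.1
    refine ⟨n, ?_⟩
    rw [← pq_pow π (hgQ t0), ← hHd t _ (Q.pow_mem (hgQ t0) n)]
    exact pq_mem π t.2 hn

end cut

end Pool.Agent.K6.H44.VT
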