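import Mathlib

/-!
# The bad points of a family over a curve
-/

set_option autoImplicit false
set_option linter.unusedVariables false
set_option linter.unusedSimpArgs false
set_option linter.unusedSectionVars false

universe u v

open IsDedekindDomain

namespace Pool.Agent.K6.H44.VT

theorem exists_patches {R : Type u} [CommRing R] [IsDedekindDomain R] (h : R) (h0 : h ≠ 0) :
    ∃ (m : ℕ) (v : Fin m → HeightOneSpectrum R) (t g : Fin m → R),
      (∀ i, h ∈ (v i).asIdeal) ∧ (∀ w : HeightOneSpectrum R, h ∈ w.asIdeal → ∃ i, v i = w) ∧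
      (∀ i, t i ∈ (v i).asIdeal) ∧ (∀ i, t i ≠ 0) ∧ (∀ i, g i ∉ (v i).asIdeal) ∧
      (∀ i, ∀ z ∈ (v i).asIdeal, t i ∣ g i * z) ∧ (∀ i j, j ≠ i → g i ∈ (v j).asIdeal) := by
  classical
  have hI : Ideal.span {h} ≠ ⊥ := by
    rw [ne_eq, Ideal.span_singleton_eq_bot]
    exact h0
  have hfin := Ideal.finite_factors hI
  have hdvd : ∀ w : HeightOneSpectrum R, w.asIdeal ∣ Ideal.span {h} ↔ h ∈ w.asIdeal := by
    intro w
    rw [Ideal.dvd_span_singleton]
  let s := hfin.toFinset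
  let m := s.card
  let e : Fin m ≃ s := s.equivFin.symm
  let v : Fin m → HeightOneSpectrum R := fun i => (e i).1
  have hv : ∀ i, h ∈ (v i).asIdeal := by
    intro i
    have h1 : (e i).1 ∈ s := (e i).2
    rw [Set.Finite.mem_toFinset] at h1
    exact (hdvd _).1 h1
  have hv' : ∀ w : HeightOneSpectrum R, h ∈ w.asIdeal → ∃ i, v i = w := by
    intro w hw
    have h1 : w ∈ s := by
      rw [Set.Finite.mem_toFinset]
      exact (hdvd _).2 hw
    exact ⟨e.symm ⟨w, h1⟩, by
      change (e (e.symm ⟨w, h1⟩)).1 = w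
      rw [Equiv.apply_symm_apply]⟩
  have hinj : Function.Injective v := by
    intro i j hij
    exact e.injective (Subtype.ext hij)
  -- uniformizers
  have ht : ∀ i, ∃ t : R, t ∈ (v i).asIdeal ∧ t ∉ (v i).asIdeal ^ 2 := by
    intro i
    obtain ⟨t, h1, h2⟩ := Ideal.exists_mem_pow_notMem_pow_succ (v i).asIdeal (v i).ne_bot
      (v i).isPrime.ne_top 1
    exact ⟨t, by rwa [pow_one] at h1, h2⟩
  choose t ht1 ht2 using ht
  have hw : ∀ i j, j ≠ i → ∃ w : R, w ∈ (v j).asIdeal ∧ w ∉ (v i).asIdeal := by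
    intro i j hij
    by_contra hcon
    push Not at hcon
    have h1 : (v j).asIdeal ≤ (v i).asIdeal := hcon
    have h2 : (v j).asIdeal = (v i).asIdeal :=
      ((v j).isMaximal.eq_of_le (v i).isPrime.ne_top h1)
    exact hij (hinj (HeightOneSpectrum.ext h2))
  have hw' : ∀ i j, ∃ w : R, j ≠ i → w ∈ (v j).asIdeal ∧ w ∉ (v i).asIdeal := by
    intro i j
    by_cases hij : j = i
    · exact ⟨0, fun h => absurd hij h⟩
    · obtain ⟨w, hw⟩ := hw i j hij
      exact ⟨w, fun _ => hw⟩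
  choose w hw' using hw'
  have ha : ∀ i, ∃ a : R, a ∉ (v i).asIdeal ∧ ∀ z ∈ (v i).asIdeal, t i ∣ a * z := by
    intro i
    obtain ⟨𝔞, h𝔞⟩ := Ideal.dvd_span_singleton.2 (ht1 i)
    have h1 : ¬ 𝔞 ≤ (v i).asIdeal := by
      intro hle
      apply ht2 i
      have h2 : t i ∈ Ideal.span {t i} := Ideal.mem_span_singleton_self _
      rw [h𝔞] at h2
      rw [pow_two]
      exact Ideal.mul_mono_right hle h2
    obtain ⟨a, ha1, ha2⟩ := SetLike.not_le_iff_exists.1 h1
    refine ⟨a, ha2, fun z hz => ?_⟩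
    rw [← Ideal.mem_span_singleton, h𝔞, mul_comm]
    exact Ideal.mul_mem_mul ha1 hz
  choose a ha1 ha2 using ha
  refine ⟨m, v, t, fun i => a i * ∏ j ∈ Finset.univ.erase i, w i j, hv, hv', ht1, ?_, ?_, ?_, ?_⟩
  · intro i h1
    apply ht2 i
    rw [h1]
    exact Submodule.zero_mem _
  · intro i h1
    have := (v i).isPrime
    rcases this.mem_or_mem h1 with h2 | h2
    · exact ha1 i h2
    · rw [this.prod_mem_iff] at h2
      obtain ⟨j, hj, h3⟩ := h2
      exact (hw' i j (Finset.ne_of_mem_erase hj)).2 h3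
  · intro i z hz
    obtain ⟨y, hy⟩ := ha2 i z hz
    refine ⟨y * ∏ j ∈ Finset.univ.erase i, w i j, ?_⟩
    linear_combination (∏ j ∈ Finset.univ.erase i, w i j) * hy
  · intro i j hij
    change a i * ∏ j ∈ Finset.univ.erase i, w i j ∈ (v j).asIdeal
    rw [← Finset.mul_prod_erase _ _ (Finset.mem_erase.2 ⟨hij, Finset.mem_univ j⟩)]
    refine Ideal.mul_mem_left _ _ (Ideal.mul_mem_right _ _ (hw' i j hij).1)

end Pool.Agent.K6.H44.VT
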