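import Pool.Agent.K6.H44.VT.Mv

/-!
# Tangent vectors transversal to a divisor with a separable residue field
-/

set_option autoImplicit false
set_option linter.unusedVariables false
set_option linter.unusedSimpArgs false
set_option linter.unusedSectionVars false

universe u v

open Pool.Agent.W558

namespace Pool.Agent.K6.H44.VT

theorem exists_tv_of_smooth {k S : Type u} [Field k] [CommRing S] [IsDomain S] [Algebra k S]
    (t : S) (ht : t ≠ 0) (hfs : Algebra.FormallySmooth k (S ⧸ Ideal.span {t}))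
    (κ : Type u) [Field κ] [Algebra k κ] (φ : S →ₐ[k] κ) (hφ : φ t = 0) :
    ∃ D : TV φ, D.D t ≠ 0 := by
  classical
  let I : Ideal S := Ideal.span {t}
  let m1 : S →ₐ[k] S ⧸ I := Ideal.Quotient.mkₐ k I
  let m2 : S →ₐ[k] S ⧸ I ^ 2 := Ideal.Quotient.mkₐ k (I ^ 2)
  have hI : I ^ 2 ≤ I := Ideal.pow_le_self (by norm_num)
  let q : (S ⧸ I ^ 2) →ₐ[k] S ⧸ I := Ideal.Quotient.factorₐ k hI
  have hq : ∀ s, q (m2 s) = m1 s := fun s => rfl
  have hqs : Function.Surjective q := by
    intro b
    obtain ⟨s, rfl⟩ := Ideal.Quotient.mk_surjective b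
    exact ⟨m2 s, rfl⟩
  have hker : ∀ x, q x = 0 → ∃ r : S, x = m2 (t * r) := by
    intro x hx
    obtain ⟨s, rfl⟩ := Ideal.Quotient.mk_surjective x
    have h1 : m1 s = 0 := hx
    obtain ⟨r, hr⟩ := Ideal.mem_span_singleton.1 (Ideal.Quotient.eq_zero_iff_mem.1 h1)
    exact ⟨r, by rw [← hr]; rfl⟩
  have htt : ∀ r, m2 (t * t * r) = 0 := by
    intro r
    apply Ideal.Quotient.eq_zero_iff_mem.2
    rw [pow_two]
    exact Ideal.mul_mem_right _ _ (Ideal.mul_mem_mul (Ideal.mem_span_singleton_self t)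
      (Ideal.mem_span_singleton_self t))
  have hnil : IsNilpotent (RingHom.ker (q : (S ⧸ I ^ 2) →+* S ⧸ I)) := by
    refine ⟨2, ?_⟩
    rw [pow_two (RingHom.ker (q : (S ⧸ I ^ 2) →+* S ⧸ I))]
    refine le_bot_iff.1 (Ideal.mul_le.2 ?_)
    intro x hx y hy
    obtain ⟨r, rfl⟩ := hker x hx
    obtain ⟨r', rfl⟩ := hker y hy
    rw [← map_mul]
    have : t * r * (t * r') = t * t * (r * r') := by ring
    rw [this, htt]
    exact Submodule.zero_mem _
  let σ : (S ⧸ I) →ₐ[k] S ⧸ I ^ 2 :=
    Algebra.FormallySmooth.liftOfSurjective (AlgHom.id k (S ⧸ I)) q hqs hnil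
  have hσ : ∀ x, q (σ x) = x := fun x =>
    Algebra.FormallySmooth.liftOfSurjective_apply (AlgHom.id k (S ⧸ I)) q hqs hnil x
  have hex : ∀ s : S, ∃ r : S, m2 s - σ (m1 s) = m2 (t * r) := fun s =>
    hker _ (by rw [map_sub, hq, hσ, sub_self])
  choose d hd using hex
  have huniq : ∀ r r' : S, m2 (t * r) = m2 (t * r') → φ r = φ r' := by
    intro r r' h
    have h1 : t * r - t * r' ∈ I ^ 2 := (Ideal.Quotient.eq).1 h
    change t * r - t * r' ∈ (Ideal.span {t}) ^ 2 at h1
    rw [Ideal.span_singleton_pow, Ideal.mem_span_singleton] at h1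
    obtain ⟨z, hz⟩ := h1
    have h2 : r - r' = t * z := by
      apply mul_left_cancel₀ ht
      rw [mul_sub, hz]
      ring
    have h3 : φ (r - r') = 0 := by rw [h2, map_mul, hφ, zero_mul]
    rw [map_sub] at h3
    exact sub_eq_zero.1 h3
  refine ⟨⟨{ toFun := fun s => φ (d s), map_add' := ?_, map_smul' := ?_ }, ?_⟩, ?_⟩
  · intro a b
    rw [← map_add]
    apply huniq
    have e : m2 (t * (d a + d b)) = m2 (t * d a) + m2 (t * d b) := by rw [mul_add, map_add]
    rw [e, ← hd, ← hd, ← hd, map_add, map_add, map_add]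
    ring
  · intro c a
    rw [RingHom.id_apply, ← map_smul]
    apply huniq
    have e : m2 (t * (c • d a)) = c • m2 (t * d a) := by rw [mul_smul_comm, map_smul]
    rw [e, ← hd, ← hd, map_smul, map_smul, map_smul, smul_sub]
  · intro a b
    change φ (d (a * b)) = φ a * φ (d b) + φ b * φ (d a)
    rw [← map_mul, ← map_mul, ← map_add]
    apply huniq
    rw [← hd, map_mul, map_mul, map_mul]
    have e1 : σ (m1 a) = m2 a - m2 (t * d a) := by rw [← hd]; ring
    have e2 : σ (m1 b) = m2 b - m2 (t * d b) := by rw [← hd]; ring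
    rw [e1, e2]
    have e3 : m2 (t * d a) * m2 (t * d b) = 0 := by
      rw [← map_mul]
      have : t * d a * (t * d b) = t * t * (d a * d b) := by ring
      rw [this, htt]
    have e4 : m2 (t * (a * d b + b * d a)) = m2 a * m2 (t * d b) + m2 b * m2 (t * d a) := by
      rw [← map_mul, ← map_mul, ← map_add]
      congr 1
      ring
    rw [e4]
    linear_combination -e3
  · change φ (d t) ≠ 0
    have h1 : φ (d t) = φ 1 := by
      apply huniq
      rw [← hd, mul_one]
      have : m1 t = 0 := Ideal.Quotient.eq_zero_iff_mem.2 (Ideal.mem_span_singleton_self t)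
      rw [this, map_zero, sub_zero]
    rw [h1, map_one]
    exact one_ne_zero

/-- A derivation transversal to a point of a smooth curve. -/
theorem exists_tv {k S : Type u} [Field k] [PerfectField k] [CommRing S] [IsDomain S]
    [Algebra k S] [Algebra.FiniteType k S] (t : S) (ht : t ≠ 0)
    (hm : (Ideal.span {t}).IsMaximal) (κ : Type u) [Field κ] [Algebra k κ] (φ : S →ₐ[k] κ)
    (hφ : φ t = 0) : ∃ D : TV φ, D.D t ≠ 0 := by
  let _ : Field (S ⧸ Ideal.span {t}) := Ideal.Quotient.field _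
  have h1 : Module.Finite k (S ⧸ Ideal.span {t}) := finite_of_finite_type_of_isJacobsonRing k _
  have h2 : Algebra.IsAlgebraic k (S ⧸ Ideal.span {t}) := Algebra.IsAlgebraic.of_finite k _
  have h3 : Algebra.IsSeparable k (S ⧸ Ideal.span {t}) :=
    Algebra.IsAlgebraic.isSeparable_of_perfectField
  have h4 : Algebra.FormallyEtale k (S ⧸ Ideal.span {t}) := Algebra.FormallyEtale.of_isSeparable k _
  exact exists_tv_of_smooth t ht inferInstance κ φ hφ

end Pool.Agent.K6.H44.VT
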