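import Pool.Agent.K6.H44.VT.Away
import Pool.Agent.K6.H44.VT.Ded

/-!
# Families of quadrics over a curve
-/

set_option autoImplicit false
set_option linter.unusedVariables false
set_option linter.unusedSimpArgs false
set_option linter.unusedSectionVars false

universe u v

open Pool.Agent.W558 Pool.Agent.W973.CUT MvPolynomial

namespace Pool.Agent.K6.H44.VT

section patches

variable {k R : Type u} [Field k] [CommRing R] [IsDomain R] [Algebra k R] {σ : Type}
  {L K : Type u} [Field L] [Algebra k L] [Algebra (MvPolynomial σ R) L]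
  [IsFractionRing (MvPolynomial σ R) L] [IsScalarTower k (MvPolynomial σ R) L]
  [Field K] [Algebra k K] {ev : MvPolynomial σ R →ₐ[k] K} {F : MvPolynomial σ R}
  {Q : Subalgebra k L} {π : Q →ₐ[k] K}

lemma away_le (hQ' : ∀ b ∈ Q, pq π b ≠ 0 → b⁻¹ ∈ Q)
    (hev : ∀ p : MvPolynomial σ R, algebraMap _ L p ∈ Q ∧ pq π (algebraMap _ L p) = ev p)
    {g : R} (hg : ev (C g) ≠ 0) {A0 : Subalgebra k L}
    (hA0 : ∀ x, x ∈ A0 ↔ ∃ (n : ℕ) (p : MvPolynomial σ R),
        algebraMap (MvPolynomial σ R) L (C g) ^ n * x = algebraMap _ L p) : A0 ≤ Q := by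
  intro x hx
  obtain ⟨n, p, hp⟩ := (hA0 x).1 hx
  have h1 : algebraMap (MvPolynomial σ R) L (C g) ≠ 0 := by
    intro h0
    have h2 := (hev (C g)).2
    rw [h0, pq_zero] at h2
    exact hg h2.symm
  have h2 : (algebraMap (MvPolynomial σ R) L (C g))⁻¹ ∈ Q := hQ' _ (hev _).1 (by
    rw [(hev _).2]; exact hg)
  have h3 : x = (algebraMap (MvPolynomial σ R) L (C g))⁻¹ ^ n * algebraMap _ L p := by
    rw [← hp, inv_pow, ← mul_assoc, inv_mul_cancel₀ (pow_ne_zero n h1), one_mul]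
  rw [h3]
  exact Q.mul_mem (Q.pow_mem h2 n) (hev p).1

lemma away_ker (hker : ∀ p, ev p = 0 ↔ F ∣ p) (hQ' : ∀ b ∈ Q, pq π b ≠ 0 → b⁻¹ ∈ Q)
    (hev : ∀ p : MvPolynomial σ R, algebraMap _ L p ∈ Q ∧ pq π (algebraMap _ L p) = ev p)
    {g : R} (hg : ev (C g) ≠ 0) {A0 : Subalgebra k L}
    (hA0 : ∀ x, x ∈ A0 ↔ ∃ (n : ℕ) (p : MvPolynomial σ R),
        algebraMap (MvPolynomial σ R) L (C g) ^ n * x = algebraMap _ L p) :
    ∀ x ∈ A0, pq π x = 0 → ∃ y ∈ A0, x = algebraMap (MvPolynomial σ R) L F * y := by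
  intro x hx h0
  have hxQ := away_le hQ' hev hg hA0 hx
  obtain ⟨n, p, hp⟩ := (hA0 x).1 hx
  have h1 : ev p = 0 := by
    rw [← (hev p).2, ← hp, pq_mul π (Q.pow_mem (hev _).1 n) hxQ, h0, mul_zero]
  obtain ⟨p', rfl⟩ := (hker p).1 h1
  have h2 : algebraMap (MvPolynomial σ R) L (C g) ≠ 0 := by
    intro h0
    have h2 := (hev (C g)).2
    rw [h0, pq_zero] at h2
    exact hg h2.symm
  have h3 := pow_ne_zero n h2
  refine ⟨algebraMap _ L p' / algebraMap (MvPolynomial σ R) L (C g) ^ n, (hA0 _).2 ⟨n, p', ?_⟩, ?_⟩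
  · field_simp
  · rw [map_mul] at hp
    field_simp
    rw [← hp]
    ring

lemma away_patch (hQ' : ∀ b ∈ Q, pq π b ≠ 0 → b⁻¹ ∈ Q)
    (hev : ∀ p : MvPolynomial σ R, algebraMap _ L p ∈ Q ∧ pq π (algebraMap _ L p) = ev p)
    {g : R} (hg : ev (C g) ≠ 0) {t : R} (ht : ev (C t) ≠ 0) {A0 : Subalgebra k L}
    (hA0 : ∀ x, x ∈ A0 ↔ ∃ (n : ℕ) (p : MvPolynomial σ R),
        algebraMap (MvPolynomial σ R) L (C g) ^ n * x = algebraMap _ L p) (hA0Q : A0 ≤ Q)
    {T : Type} {C' : T → Subalgebra k K} {H : T → K}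
    (hat : VAtl (im π A0 hA0Q) (ev (C t)) T C' H) :
    Patch ev.range (im π A0 hA0Q) (ev (C g)) (ev (C t)) T C' H where
  gA := ⟨C g, rfl⟩
  g0 := hg
  sA := ⟨C t, rfl⟩
  s0 := ht
  le := by
    rintro _ ⟨p, rfl⟩
    have h1 : algebraMap _ L p ∈ A0 := (hA0 _).2 ⟨0, p, by rw [pow_zero, one_mul]⟩
    have h2 := pq_mem π hA0Q h1
    rw [(hev p).2] at h2
    exact h2
  gi := by
    have h2 : algebraMap (MvPolynomial σ R) L (C g) ≠ 0 := by
      intro h0
      have h2 := (hev (C g)).2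
      rw [h0, pq_zero] at h2
      exact hg h2.symm
    have h1 : (algebraMap (MvPolynomial σ R) L (C g))⁻¹ ∈ A0 := (hA0 _).2 ⟨1, 1, by
      rw [pow_one, mul_inv_cancel₀ h2, map_one]⟩
    have h3 := pq_mem π hA0Q h1
    rw [pq_inv π h2 (hev _).1 (hA0Q h1), (hev _).2] at h3
    exact h3
  loc := by
    intro x hx
    obtain ⟨y, hy, rfl⟩ := (mem_im π).1 hx
    obtain ⟨n, p, hp⟩ := (hA0 y).1 hy
    refine ⟨n, p, ?_⟩
    have h1 : ev p = ev (C g) ^ n * pq π y := by
      rw [← (hev p).2, ← hp, pq_mul π (Q.pow_mem (hev _).1 n) (hA0Q hy), pq_pow π (hev _).1,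
        (hev _).2]
    exact h1
  at' := hat

/-- The smooth part. -/
lemma away_smooth [Algebra.Smooth k R] [Finite σ] (hF : F ≠ 0) (hker : ∀ p, ev p = 0 ↔ F ∣ p)
    (hQ' : ∀ b ∈ Q, pq π b ≠ 0 → b⁻¹ ∈ Q)
    (hev : ∀ p : MvPolynomial σ R, algebraMap _ L p ∈ Q ∧ pq π (algebraMap _ L p) = ev p)
    {h : R} (h0 : h ≠ 0) (hh : C h ∈ Ideal.span ({F} ∪ Set.range fun i => pderiv i F))
    (hg : ev (C h) ≠ 0) {A0 : Subalgebra k L}
    (e : MvPolynomial σ (Localization.Away h) ≃ₐ[k] A0)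
    (he : ∀ p : MvPolynomial σ R, ((e (map (algebraMap R (Localization.Away h)) p) : A0) : L) =
        algebraMap _ L p)
    (hA0 : ∀ x, x ∈ A0 ↔ ∃ (n : ℕ) (p : MvPolynomial σ R),
        algebraMap (MvPolynomial σ R) L (C h) ^ n * x = algebraMap _ L p) (hA0Q : A0 ≤ Q) :
    Algebra.Smooth k (im π A0 hA0Q) := by
  have hs1 : Algebra.Smooth R (Localization.Away h) := Algebra.Smooth.of_isLocalization_Away h
  have hs2 : Algebra.Smooth k (Localization.Away h) := Algebra.Smooth.comp k R _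
  have hs3 : Algebra.Smooth k (MvPolynomial σ (Localization.Away h)) := smooth_mv
  have hs4 : Algebra.Smooth k A0 := Algebra.Smooth.of_equiv e
  have hFA : algebraMap _ L F ∈ A0 := (hA0 _).2 ⟨0, F, by rw [pow_zero, one_mul]⟩
  have hinj : Function.Injective (algebraMap (MvPolynomial σ R) L) := IsFractionRing.injective _ L
  have hF0 : algebraMap _ L F ≠ 0 := fun h1 => hF (hinj (h1.trans (map_zero _).symm))
  have hFπ : pq π (algebraMap _ L F) = 0 := by
    rw [(hev F).2, hker]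
  refine smooth_im π hA0Q hFA hF0 hFπ ?_ ?_
  · intro a ha h1
    obtain ⟨y, hy, rfl⟩ := away_ker hker hQ' hev hg hA0 a ha h1
    rw [mul_div_cancel_left₀ _ hF0]
    exact hy
  · intro κ _ _ φ hφ
    let φ' : MvPolynomial σ (Localization.Away h) →ₐ[k] κ := φ.comp (e : _ →ₐ[k] A0)
    let Fh := map (algebraMap R (Localization.Away h)) F
    have heF : e Fh = ⟨algebraMap _ L F, hFA⟩ := Subtype.ext (he F)
    have h1 : φ' Fh = 0 := by
      change φ (e Fh) = 0
      rw [heF, hφ]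
    have h2 : C (algebraMap R (Localization.Away h) h) ∈
        Ideal.span ({Fh} ∪ Set.range fun i => pderiv i Fh) := by
      have h3 := Ideal.mem_map_of_mem (map (algebraMap R (Localization.Away h))) hh
      rw [map_C, Ideal.map_span] at h3
      refine Ideal.span_mono ?_ h3
      rintro _ ⟨x, hx | ⟨i, rfl⟩, rfl⟩
      · rw [Set.mem_singleton_iff] at hx
        rw [hx]
        exact Or.inl rfl
      · exact Or.inr ⟨i, pderiv_map⟩
    have h4 : φ' (C (algebraMap R (Localization.Away h) h)) ≠ 0 := by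
      have h5 : IsUnit (algebraMap R (Localization.Away h) h) :=
        IsLocalization.Away.algebraMap_isUnit h
      exact ((h5.map C).map φ').ne_zero
    have h6 : ∃ i, φ' (pderiv i Fh) ≠ 0 := by
      by_contra hcon
      push Not at hcon
      apply h4
      have hle : Ideal.span ({Fh} ∪ Set.range fun i => pderiv i Fh) ≤ RingHom.ker φ' := by
        rw [Ideal.span_le]
        rintro x (hx | ⟨i, rfl⟩)
        · rw [Set.mem_singleton_iff] at hx
          rw [hx]
          exact h1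
        · exact hcon i
      exact hle h2
    obtain ⟨i, hi⟩ := h6
    let D' : TV φ' := TV.ofDer φ' (fun p => pderiv i p) (fun _ _ => map_add _ _ _)
      (fun c a => by
        rw [← algebraMap_smul (Localization.Away h) c a,
          ← algebraMap_smul (Localization.Away h) c (pderiv i a), Derivation.map_smul])
      (fun a b => by rw [Derivation.leibniz]; rfl)
    obtain ⟨E, hE⟩ := TV.equiv e φ D'
    refine ⟨E, ?_⟩
    rw [← heF, hE]
    exact hi

end patches

section bad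

variable {k R : Type u} [Field k] [PerfectField k] [CommRing R] [IsDedekindDomain R] [Algebra k R]
  [Algebra.Smooth k R] {ι Λ J : Type} [Fintype ι] [DecidableEq ι] [Fintype Λ] [Fintype J]
  {L K : Type u} [Field L] [Algebra k L] [Algebra (MvPolynomial (ι ⊕ Λ) R) L]
  [IsFractionRing (MvPolynomial (ι ⊕ Λ) R) L] [IsScalarTower k (MvPolynomial (ι ⊕ Λ) R) L]
  [Field K] [Algebra k K] {ev : MvPolynomial (ι ⊕ Λ) R →ₐ[k] K}
  {Q : Subalgebra k L} {π : Q →ₐ[k] K}

lemma map_bigF {R' S : Type u} [CommRing R'] [CommRing S] (f : R' →+* S) (q : MvPolynomial ι R')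
    (c : J → R') (b : J → Λ → ℕ) :
    map f (bigF q c b) = bigF (map f q) (fun j => f (c j)) b := by
  unfold bigF
  simp only [map_add, map_sum, map_mul, map_C, map_prod, map_pow, map_X, map_rename]

lemma totalDegree_map_le {R' S : Type u} [CommRing R'] [CommRing S] (f : R' →+* S)
    (q : MvPolynomial ι R') : (map f q).totalDegree ≤ q.totalDegree := by
  unfold totalDegree
  exact Finset.sup_mono (support_map_subset f q)

theorem bad_vatl (h2k : (2 : k) ≠ 0) (q : MvPolynomial ι R) (hq : q.totalDegree ≤ 2) (c : J → R)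
    (hc : ∀ j, c j ≠ 0) (b : J → Λ → ℕ)
    (hind : ∀ (κ : Type u) [Field κ] [Algebra k κ] (c : J → κ), ∃ w : Λ → κ, ∀ j,
      ∑ i, (b j i : κ) * w i = c j)
    (hker : ∀ p, ev p = 0 ↔ bigF q c b ∣ p) (hconst : ∀ r : R, r ≠ 0 → ev (C r) ≠ 0)
    (hQ : ∀ x : L, x ∈ Q ∨ x⁻¹ ∈ Q)
    (hQ' : ∀ b ∈ Q, pq π b ≠ 0 → b⁻¹ ∈ Q)
    (hev : ∀ p : MvPolynomial (ι ⊕ Λ) R, algebraMap _ L p ∈ Q ∧ pq π (algebraMap _ L p) = ev p)
    {h : R} (h0 : h ≠ 0)
    (hhq : C h ∈ Ideal.span ({q} ∪ Set.range fun i => pderiv i q))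
    (v : IsDedekindDomain.HeightOneSpectrum R) (t g : R) (htv : t ∈ v.asIdeal) (ht0 : t ≠ 0)
    (hgv : g ∉ v.asIdeal) (hgt : ∀ z ∈ v.asIdeal, t ∣ g * z)
    (hgw : ∀ w : IsDedekindDomain.HeightOneSpectrum R, h ∈ w.asIdeal → w ≠ v → g ∈ w.asIdeal) :
    ∃ (A0 : Subalgebra k L) (hA0Q : A0 ≤ Q) (T : Type) (_ : Finite T)
      (C' : T → Subalgebra k K) (H : T → K),
      (∀ x, x ∈ A0 ↔ ∃ (n : ℕ) (p : MvPolynomial (ι ⊕ Λ) R),
        algebraMap (MvPolynomial (ι ⊕ Λ) R) L (C g) ^ n * x = algebraMap _ L p) ∧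
      VAtl (im π A0 hA0Q) (ev (C t)) T C' H := by
  classical
  have hg0 : g ≠ 0 := by
    rintro rfl
    exact hgv v.asIdeal.zero_mem
  obtain ⟨A0, e, he, hA0⟩ := exists_away (k := k) (σ := ι ⊕ Λ) (L := L) g hg0
  have hA0Q := away_le hQ' hev (hconst g hg0) hA0
  let S := Localization.Away g
  have hM : Submonoid.powers g ≤ nonZeroDivisors R := by
    rintro _ ⟨n, rfl⟩
    exact mem_nonZeroDivisors_of_ne_zero (pow_ne_zero n hg0)
  have hdomS : IsDomain S := IsLocalization.isDomain_localization hM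
  have hdedS : IsDedekindDomain S := IsLocalization.isDedekindDomain R hM S
  have hs1 : Algebra.Smooth R S := Algebra.Smooth.of_isLocalization_Away g
  have hs2 : Algebra.Smooth k S := Algebra.Smooth.comp k R S
  have hinjS : Function.Injective (algebraMap R S) := IsLocalization.injective S hM
  have hgu : IsUnit (algebraMap R S g) := IsLocalization.Away.algebraMap_isUnit g
  let t' : S := algebraMap R S t
  have ht'0 : t' ≠ 0 := fun h1 => ht0 (hinjS (h1.trans (map_zero _).symm))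
  have hmap : Ideal.map (algebraMap R S) v.asIdeal = Ideal.span {t'} := by
    apply le_antisymm
    · rw [Ideal.map_le_iff_le_comap]
      intro z hz
      rw [Ideal.mem_comap, Ideal.mem_span_singleton]
      obtain ⟨y, hy⟩ := hgt z hz
      have h1 : t' ∣ algebraMap R S g * algebraMap R S z := ⟨algebraMap R S y, by
        rw [← map_mul, ← map_mul, hy]⟩
      exact (hgu.dvd_mul_left).1 h1
    · rw [Ideal.span_le, Set.singleton_subset_iff]
      exact Ideal.mem_map_of_mem _ htv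
  have hprime : (Ideal.span {t'}).IsPrime := by
    rw [← hmap]
    refine IsLocalization.isPrime_of_isPrime_disjoint (Submonoid.powers g) S v.asIdeal v.isPrime ?_
    rw [Set.disjoint_left]
    rintro _ ⟨n, rfl⟩ h1
    exact hgv (v.isPrime.mem_of_pow_mem n h1)
  have hmax : (Ideal.span {t'}).IsMaximal := hprime.isMaximal (by
    rw [ne_eq, Ideal.span_singleton_eq_bot]; exact ht'0)
  have hh2 : (2 : S) * algebraMap k S (1 / 2) = 1 := by
    have h1 : (2 : S) = algebraMap k S 2 := (map_ofNat _ _).symm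
    rw [h1, ← map_mul, mul_one_div_cancel h2k, map_one]
  have hFm := map_bigF (algebraMap R S) q c b
  have hhS : C (algebraMap R S h) ∈ Ideal.span ({map (algebraMap R S) q} ∪
      Set.range fun i => pderiv i (map (algebraMap R S) q)) := by
    have h3 := Ideal.mem_map_of_mem (map (algebraMap R S)) hhq
    rw [map_C, Ideal.map_span] at h3
    refine Ideal.span_mono ?_ h3
    rintro _ ⟨x, hx | ⟨i, rfl⟩, rfl⟩
    · rw [Set.mem_singleton_iff] at hx
      rw [hx]
      exact Or.inl rfl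
    · exact Or.inr ⟨i, pderiv_map⟩
  obtain ⟨P, Ξ, a, b', u, N, G0, G1, hΞ, hEq, hΞF⟩ := curve_local (k := k) t' ht'0 hmax
    (algebraMap k S (1 / 2)) hh2 (map (algebraMap R S) q)
    ((totalDegree_map_le _ _).trans hq) (fun j => algebraMap R S (c j))
    (fun j h1 => hc j (hinjS (h1.trans (map_zero _).symm))) b hind (algebraMap R S h)
    (fun h1 => h0 (hinjS (h1.trans (map_zero _).symm))) hhS (by
      intro κ _ _ φ hφ
      -- the kernel of the point
      let φR : R →+* κ := (φ : S →+* κ).comp (algebraMap R S)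
      have hp : (RingHom.ker φR).IsPrime := RingHom.ker_isPrime φR
      have hne : RingHom.ker φR ≠ ⊥ := by
        intro h1
        have h2 : h ∈ RingHom.ker φR := hφ
        rw [h1, Ideal.mem_bot] at h2
        exact h0 h2
      let w : IsDedekindDomain.HeightOneSpectrum R := ⟨RingHom.ker φR, hp, hne⟩
      by_cases hwv : w = v
      · have h1 : t ∈ w.asIdeal := by rw [hwv]; exact htv
        exact h1
      · exfalso
        have h1 : g ∈ w.asIdeal := hgw w hφ hwv
        exact (hgu.map φ).ne_zero h1)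
  let e' : MvPolynomial ({i // i ∈ P} ⊕ Λ) (MvPolynomial {i // i ∉ P} S) ≃ₐ[k] A0 :=
    (Ξ.restrictScalars k).trans e
  have hCF : ((e' (eqn (C t') a b' u N G0 G1) : A0) : L) = algebraMap _ L (bigF q c b) := by
    change ((e (Ξ (eqn (C t') a b' u N G0 G1)) : A0) : L) = _
    rw [hΞF, ← hFm, he]
  have hCt : ((e' (C (C t')) : A0) : L) = algebraMap (MvPolynomial (ι ⊕ Λ) R) L (C t) := by
    change ((e (Ξ (C (C t'))) : A0) : L) = _
    rw [hΞ, ← he, map_C]
  have hsmS' : Algebra.Smooth k (MvPolynomial {i // i ∉ P} S) := smooth_mv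
  obtain ⟨T, fT, C', H, hvat⟩ := local_vatl π e' (C t') a b' u N G0 G1 hEq hA0Q (by
      rw [hCt, (hev _).2]
      exact hconst t ht0) (by
      rw [hCF, (hev _).2, hker]) (by
      rw [hCF]
      exact away_ker hker hQ' hev (hconst g hg0) hA0) hQ hQ'
  rw [hCt, (hev _).2] at hvat
  exact ⟨A0, hA0Q, T, fT, C', H, hA0, hvat⟩

end bad

end Pool.Agent.K6.H44.VT
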