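import Pool.Agent.K6.H44.VT.Mv2

/-!
# Resolution of singularities of families of hypersurfaces over a curve
-/

set_option autoImplicit false
set_option linter.unusedVariables false
set_option linter.unusedSimpArgs false
set_option linter.unusedSectionVars false

universe u v

open Pool.Agent.W558 Pool.Agent.W973.CUT MvPolynomial

namespace Pool.Agent.K6.H44.VT

section patches

variable {k R : Type u} [Field k] [CommRing R] [IsDomain R] [Algebra k R] {σ : Type}
  {L K : Type u} [Field L] [Algebra k L] [Algebra (MvPolynomial σ R) L]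
  [IsFractionRing (MvPolynomial σ R) L] [IsScalarTower k (MvPolynomial σ R) L]
  [Field K] [Algebra k K] {ev : MvPolynomial σ R →ₐ[k] K} {F : MvPolynomial σ R}
  {Q : Subalgebra k L} {π : Q →ₐ[k] K}

/-- The smooth part. -/
lemma away_smooth2 [Algebra.Smooth k R] [Finite σ] (hF : F ≠ 0) (hker : ∀ p, ev p = 0 ↔ F ∣ p)
    (hQ' : ∀ b ∈ Q, pq π b ≠ 0 → b⁻¹ ∈ Q)
    (hev : ∀ p : MvPolynomial σ R, algebraMap _ L p ∈ Q ∧ pq π (algebraMap _ L p) = ev p)
    {h : R} (h0 : h ≠ 0)
    (hh : ∀ (κ : Type u) [Field κ] [Algebra k κ]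
      (φ : MvPolynomial σ (Localization.Away h) →ₐ[k] κ),
      φ (map (algebraMap R (Localization.Away h)) F) = 0 →
      φ (C (algebraMap R (Localization.Away h) h)) ≠ 0 →
      ∃ D : TV φ, D.D (map (algebraMap R (Localization.Away h)) F) ≠ 0)
    (hg : ev (C h) ≠ 0) {A0 : Subalgebra k L}
    (e : MvPolynomial σ (Localization.Away h) ≃ₐ[k] A0)
    (he : ∀ p : MvPolynomial σ R, ((e (map (algebraMap R (Localization.Away h)) p) : A0) : L) =
        algebraMap _ L p)
    (hA0 : ∀ x, x ∈ A0 ↔ ∃ (n : ℕ) (p : MvPolynomial σ R),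
        algebraMap (MvPolynomial σ R) L (C h) ^ n * x = algebraMap _ L p) (hA0Q : A0 ≤ Q) :
    Algebra.Smooth k (im π A0 hA0Q) := by
  have hs1 : Algebra.Smooth R (Localization.Away h) := Algebra.Smooth.of_isLocalization_Away h
  have hs2 : Algebra.Smooth k (Localization.Away h) := Algebra.Smooth.comp k R _
  have hs3 : Algebra.Smooth k (MvPolynomial σ (Localization.Away h)) := smooth_mv
  have hs4 : Algebra.Smooth k A0 := Algebra.Smooth.of_equiv e
  have hFA : algebraMap _ L F ∈ A0 := (hA0 _).2 ⟨0, F, by rw [pow_zero, one_mul]⟩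
  have hinj : Function.Injective (algebraMap (MvPolynomial σ R) L) := IsFractionRing.injective _ L
  have hF0 : algebraMap _ L F ≠ 0 := fun h1 => hF (hinj (h1.trans (map_zero _).symm))
  have hFπ : pq π (algebraMap _ L F) = 0 := by
    rw [(hev F).2, hker]
  refine smooth_im π hA0Q hFA hF0 hFπ ?_ ?_
  · intro a ha h1
    obtain ⟨y, hy, rfl⟩ := away_ker hker hQ' hev hg hA0 a ha h1
    rw [mul_div_cancel_left₀ _ hF0]
    exact hy
  · intro κ _ _ φ hφ
    let φ' : MvPolynomial σ (Localization.Away h) →ₐ[k] κ := φ.comp (e : _ →ₐ[k] A0)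
    let Fh := map (algebraMap R (Localization.Away h)) F
    have heF : e Fh = ⟨algebraMap _ L F, hFA⟩ := Subtype.ext (he F)
    have h1 : φ' Fh = 0 := by
      change φ (e Fh) = 0
      rw [heF, hφ]
    have h4 : φ' (C (algebraMap R (Localization.Away h) h)) ≠ 0 := by
      have h5 : IsUnit (algebraMap R (Localization.Away h) h) :=
        IsLocalization.Away.algebraMap_isUnit h
      exact ((h5.map C).map φ').ne_zero
    obtain ⟨D', hi⟩ := hh κ φ' h1 h4
    obtain ⟨E, hE⟩ := TV.equiv e φ D'
    refine ⟨E, ?_⟩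
    rw [← heF, hE]
    exact hi

end patches

section bad

variable {k R : Type u} [Field k] [CommRing R] [IsDedekindDomain R] [Algebra k R]
  [Algebra.Smooth k R] {σ : Type}
  {L K : Type u} [Field L] [Algebra k L] [Algebra (MvPolynomial σ R) L]
  [IsFractionRing (MvPolynomial σ R) L] [IsScalarTower k (MvPolynomial σ R) L]
  [Field K] [Algebra k K] {ev : MvPolynomial σ R →ₐ[k] K}
  {Q : Subalgebra k L} {π : Q →ₐ[k] K}

theorem bad_vatl2 (F : MvPolynomial σ R)
    (hker : ∀ p, ev p = 0 ↔ F ∣ p) (hconst : ∀ r : R, r ≠ 0 → ev (C r) ≠ 0)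
    (hQ : ∀ x : L, x ∈ Q ∨ x⁻¹ ∈ Q)
    (hQ' : ∀ b ∈ Q, pq π b ≠ 0 → b⁻¹ ∈ Q)
    (hev : ∀ p : MvPolynomial σ R, algebraMap _ L p ∈ Q ∧ pq π (algebraMap _ L p) = ev p)
    {h : R} (h0 : h ≠ 0)
    (hloc : ∀ (g : R) (t : Localization.Away g), g ≠ 0 →
      ∀ (hd : IsDomain (Localization.Away g)) (hs : Algebra.Smooth k (Localization.Away g)),
      Function.Injective (algebraMap R (Localization.Away g)) → t ≠ 0 →
      (Ideal.span {t}).IsMaximal →
      (∀ (κ : Type u) [Field κ] [Algebra k κ] (φ : Localization.Away g →ₐ[k] κ),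
        φ (algebraMap R _ h) = 0 → φ t = 0) →
      LocRes k (map (algebraMap R (Localization.Away g)) F) (C t : MvPolynomial σ _))
    (v : IsDedekindDomain.HeightOneSpectrum R) (t g : R) (htv : t ∈ v.asIdeal) (ht0 : t ≠ 0)
    (hgv : g ∉ v.asIdeal) (hgt : ∀ z ∈ v.asIdeal, t ∣ g * z)
    (hgw : ∀ w : IsDedekindDomain.HeightOneSpectrum R, h ∈ w.asIdeal → w ≠ v → g ∈ w.asIdeal) :
    ∃ (A0 : Subalgebra k L) (hA0Q : A0 ≤ Q) (T : Type) (_ : Finite T)
      (C' : T → Subalgebra k K) (H : T → K),
      (∀ x, x ∈ A0 ↔ ∃ (n : ℕ) (p : MvPolynomial σ R),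
        algebraMap (MvPolynomial σ R) L (C g) ^ n * x = algebraMap _ L p) ∧
      VAtl (im π A0 hA0Q) (ev (C t)) T C' H := by
  classical
  have hg0 : g ≠ 0 := by
    rintro rfl
    exact hgv v.asIdeal.zero_mem
  obtain ⟨A0, e, he, hA0⟩ := exists_away (k := k) (σ := σ) (L := L) g hg0
  have hA0Q := away_le hQ' hev (hconst g hg0) hA0
  let S := Localization.Away g
  have hM : Submonoid.powers g ≤ nonZeroDivisors R := by
    rintro _ ⟨n, rfl⟩
    exact mem_nonZeroDivisors_of_ne_zero (pow_ne_zero n hg0)
  have hdomS : IsDomain S := IsLocalization.isDomain_localization hM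
  have hdedS : IsDedekindDomain S := IsLocalization.isDedekindDomain R hM S
  have hs1 : Algebra.Smooth R S := Algebra.Smooth.of_isLocalization_Away g
  have hs2 : Algebra.Smooth k S := Algebra.Smooth.comp k R S
  have hinjS : Function.Injective (algebraMap R S) := IsLocalization.injective S hM
  have hgu : IsUnit (algebraMap R S g) := IsLocalization.Away.algebraMap_isUnit g
  let t' : S := algebraMap R S t
  have ht'0 : t' ≠ 0 := fun h1 => ht0 (hinjS (h1.trans (map_zero _).symm))
  have hmap : Ideal.map (algebraMap R S) v.asIdeal = Ideal.span {t'} := by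
    apply le_antisymm
    · rw [Ideal.map_le_iff_le_comap]
      intro z hz
      rw [Ideal.mem_comap, Ideal.mem_span_singleton]
      obtain ⟨y, hy⟩ := hgt z hz
      have h1 : t' ∣ algebraMap R S g * algebraMap R S z := ⟨algebraMap R S y, by
        rw [← map_mul, ← map_mul, hy]⟩
      exact (hgu.dvd_mul_left).1 h1
    · rw [Ideal.span_le, Set.singleton_subset_iff]
      exact Ideal.mem_map_of_mem _ htv
  have hprime : (Ideal.span {t'}).IsPrime := by
    rw [← hmap]
    refine IsLocalization.isPrime_of_isPrime_disjoint (Submonoid.powers g) S v.asIdeal v.isPrime ?_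
    rw [Set.disjoint_left]
    rintro _ ⟨n, rfl⟩ h1
    exact hgv (v.isPrime.mem_of_pow_mem n h1)
  have hmax : (Ideal.span {t'}).IsMaximal := hprime.isMaximal (by
    rw [ne_eq, Ideal.span_singleton_eq_bot]; exact ht'0)
  have hlr := hloc g t' hg0 hdomS hs2 hinjS ht'0 hmax (by
      intro κ _ _ φ hφ
      -- the kernel of the point
      let φR : R →+* κ := (φ : S →+* κ).comp (algebraMap R S)
      have hp : (RingHom.ker φR).IsPrime := RingHom.ker_isPrime φR
      have hne : RingHom.ker φR ≠ ⊥ := by
        intro h1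
        have h2 : h ∈ RingHom.ker φR := hφ
        rw [h1, Ideal.mem_bot] at h2
        exact h0 h2
      let w : IsDedekindDomain.HeightOneSpectrum R := ⟨RingHom.ker φR, hp, hne⟩
      by_cases hwv : w = v
      · have h1 : t ∈ w.asIdeal := by rw [hwv]; exact htv
        exact h1
      · exfalso
        have h1 : g ∈ w.asIdeal := hgw w hφ hwv
        exact (hgu.map φ).ne_zero h1)
  have hCt : ((e (C t' : MvPolynomial σ S) : A0) : L) =
      algebraMap (MvPolynomial σ R) L (C t) := by
    rw [← he, map_C]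
  obtain ⟨T, fT, C', H, hvat⟩ := hlr L K A0 Q π e hA0Q (by
      rw [hCt, (hev _).2]
      exact hconst t ht0) (by
      rw [he, (hev _).2, hker]) (by
      rw [he]
      exact away_ker hker hQ' hev (hconst g hg0) hA0) hQ hQ'
  rw [hCt, (hev _).2] at hvat
  exact ⟨A0, hA0Q, T, fT, C', H, hA0, hvat⟩

end bad

open IsDedekindDomain in
/-- Resolution of singularities for families of hypersurfaces over a curve. -/
theorem global_main {k R : Type u} [Field k] [CommRing R]
    [IsDedekindDomain R] [Algebra k R] [Algebra.Smooth k R] {σ : Type} [Finite σ]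
    (F : MvPolynomial σ R)
    (hprime : (Ideal.span {F}).IsPrime) (hcst : ∀ r : R, F ≠ C r)
    (h : R) (h0 : h ≠ 0)
    (hsm : ∀ (κ : Type u) [Field κ] [Algebra k κ]
      (φ : MvPolynomial σ (Localization.Away h) →ₐ[k] κ),
      φ (map (algebraMap R (Localization.Away h)) F) = 0 →
      φ (C (algebraMap R (Localization.Away h) h)) ≠ 0 →
      ∃ D : TV φ, D.D (map (algebraMap R (Localization.Away h)) F) ≠ 0)
    (hloc : ∀ (g : R) (t : Localization.Away g), g ≠ 0 →
      ∀ (hd : IsDomain (Localization.Away g)) (hs : Algebra.Smooth k (Localization.Away g)),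
      Function.Injective (algebraMap R (Localization.Away g)) → t ≠ 0 →
      (Ideal.span {t}).IsMaximal →
      (∀ (κ : Type u) [Field κ] [Algebra k κ] (φ : Localization.Away g →ₐ[k] κ),
        φ (algebraMap R _ h) = 0 → φ t = 0) →
      LocRes k (map (algebraMap R (Localization.Away g)) F) (C t : MvPolynomial σ _)) :
    Pool.Agent.H920R2.HasResolution
      (X := AlgebraicGeometry.Spec (CommRingCat.of (MvPolynomial σ R ⧸ Ideal.span {F})))
      (AlgebraicGeometry.Spec.map (CommRingCat.ofHom (algebraMap k _))) := by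
  classical
  let Pol := MvPolynomial σ R
  let A := Pol ⧸ Ideal.span {F}
  have hdA : IsDomain A := Ideal.Quotient.isDomain _
  let K := FractionRing A
  let L := FractionRing Pol
  have hRn : IsNoetherianRing R := inferInstance
  have hPn : IsNoetherianRing Pol := inferInstance
  let fA : A →ₐ[k] K := IsScalarTower.toAlgHom k A K
  have hfA : Function.Injective fA := IsFractionRing.injective A K
  let ev : Pol →ₐ[k] K := fA.comp (Ideal.Quotient.mkₐ k (Ideal.span {F}))
  have hF0 : F ≠ 0 := by
    intro h1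
    exact hcst 0 (by rw [map_zero]; exact h1)
  have hker : ∀ p, ev p = 0 ↔ F ∣ p := by
    intro p
    change fA (Ideal.Quotient.mk _ p) = 0 ↔ _
    rw [map_eq_zero_iff _ hfA, Ideal.Quotient.eq_zero_iff_mem, Ideal.mem_span_singleton]
  have hconst : ∀ r : R, r ≠ 0 → ev (C r) ≠ 0 := by
    intro r hr h1
    obtain ⟨G, hG⟩ := (hker _).1 h1
    have hG0 : G ≠ 0 := by
      rintro rfl
      rw [mul_zero, C_eq_zero] at hG
      exact hr hG
    have h2 : (C r : Pol).totalDegree = F.totalDegree + G.totalDegree := by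
      rw [hG]
      exact totalDegree_mul_of_isDomain hF0 hG0
    rw [totalDegree_C] at h2
    have h3 : F.totalDegree = 0 := by omega
    rw [totalDegree_eq_zero_iff_eq_C] at h3
    exact hcst _ h3
  obtain ⟨Q, π, hQ, hQ', hev⟩ := exists_loc (K' := L) ev F hF0 hker
  obtain ⟨m, v, t, g, hv, hv', htv, ht0, hgv, hgt, hgw⟩ := exists_patches h h0
  have hg0 : ∀ i, g i ≠ 0 := by
    intro i h1
    apply hgv i
    rw [h1]
    exact Submodule.zero_mem _
  have hbad := fun i => bad_vatl2 (L := L) (K := K) (ev := ev) (Q := Q) (π := π) F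
    hker hconst hQ hQ' hev h0 hloc (v i) (t i) (g i) (htv i) (ht0 i) (hgv i) (hgt i) (by
      intro w hw hne
      obtain ⟨j, rfl⟩ := hv' w hw
      exact hgw i j (fun h1 => hne (by rw [h1])))
  choose A0 hA0Q T fT C' H hA0 hvat using hbad
  obtain ⟨An, en, hen, hAn⟩ := exists_away (k := k) (σ := σ) (L := L) h h0
  have hAnQ := away_le hQ' hev (hconst h h0) hAn
  have hsm := away_smooth2 hF0 hker hQ' hev h0 hsm (hconst h h0) en hen hAn hAnQ
  obtain ⟨T', fT', C'', H', hatl⟩ := glue' ev.range (Ω := Option (Fin m))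
    (fun ω => ω.elim (im π An hAnQ) (fun i => im π (A0 i) (hA0Q i)))
    (fun ω => ω.elim (ev (C h)) (fun i => ev (C (g i))))
    (fun ω => ω.elim (ev (C 1)) (fun i => ev (C (t i)))) (by
      rintro (_ | i)
      · exact ⟨Unit, inferInstance, _, _, away_patch hQ' hev (hconst h h0)
          (hconst 1 one_ne_zero) hAn hAnQ (vatl_triv _ _)⟩
      · exact ⟨T i, fT i, C' i, H i, away_patch hQ' hev (hconst _ (hg0 i))
          (hconst _ (ht0 i)) (hA0 i) (hA0Q i) (hvat i)⟩) (by
      intro V hV
      by_contra hcon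
      push Not at hcon
      -- the ideal generated by the functions of the patches
      let I : Ideal R := Ideal.span (Set.range fun ω : Option (Fin m) => ω.elim h g)
      have hI : I = ⊤ := by
        by_contra hne
        obtain ⟨M, hM, hle⟩ := Ideal.exists_le_maximal I hne
        have h1 : ∀ ω : Option (Fin m), ω.elim h g ∈ M := fun ω =>
          hle (Ideal.subset_span ⟨ω, rfl⟩)
        have hMb : M ≠ ⊥ := by
          intro h2
          have h3 := h1 none
          rw [h2, Ideal.mem_bot] at h3
          exact h0 h3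
        obtain ⟨i, hi⟩ := hv' ⟨M, hM.isPrime, hMb⟩ (h1 none)
        apply hgv i
        rw [hi]
        exact h1 (some i)
      have hval : ∀ x ∈ I, V.valuation (ev (C x)) < 1 := by
        intro x hx
        refine Submodule.span_induction ?_ ?_ ?_ ?_ hx
        · rintro _ ⟨ω, rfl⟩
          have h1 := hcon ω
          have h2 : ω.elim (ev (C h)) (fun i => ev (C (g i))) = ev (C (ω.elim h g)) := by
            cases ω <;> rfl
          rw [h2, ← V.valuation_le_one_iff, map_inv₀, not_le] at h1
          have h4 : V.valuation (ev (C (ω.elim h g))) ≠ 0 := by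
            rw [ne_eq, map_eq_zero]
            intro h5
            rw [h5, map_zero, inv_zero] at h1
            exact absurd h1 (by simp)
          exact (one_lt_inv₀ (zero_lt_iff.2 h4)).1 h1
        · rw [map_zero, map_zero, map_zero]
          exact zero_lt_one
        · intro x y _ _ hx hy
          rw [map_add, map_add]
          exact Valuation.map_add_lt _ hx hy
        · intro a x _ hx
          rw [smul_eq_mul, map_mul, map_mul, map_mul]
          exact (mul_le_of_le_one_left' ((V.valuation_le_one_iff _).2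
            (hV _ ⟨C a, rfl⟩))).trans_lt hx
      have h1 := hval 1 (by rw [hI]; trivial)
      rw [map_one, map_one, map_one] at h1
      exact lt_irrefl _ h1) (by
      rintro (_ | i) ω hne
      · refine ⟨0, ?_⟩
        change _ / ev (C 1) ∈ _
        rw [pow_zero, map_one, map_one, div_one]
        exact Subalgebra.one_mem _
      · refine ⟨1, ?_⟩
        have h1 : ∀ z ∈ (v i).asIdeal, (ev (C (g i)) * ev (C z)) ^ 1 / ev (C (t i)) ∈ ev.range := by
          intro z hz
          obtain ⟨y, hy⟩ := hgt i z hz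
          refine ⟨C y, ?_⟩
          have h2 := hconst _ (ht0 i)
          have h3 : ev (C (g i)) * ev (C z) = ev (C (t i)) * ev (C y) := by
            rw [← map_mul, ← map_mul, ← map_mul, ← map_mul, hy]
          rw [pow_one, h3, mul_div_cancel_left₀ _ h2]
          rfl
        rcases ω with _ | j
        · exact h1 h (hv i)
        · refine h1 (g j) (hgw j i ?_)
          intro h2
          exact hne (by rw [h2]))
  have hrange : fA.range = ev.range := by
    ext x
    constructor
    · rintro ⟨a, rfl⟩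
      obtain ⟨p, rfl⟩ := Ideal.Quotient.mk_surjective a
      exact ⟨p, rfl⟩
    · rintro ⟨p, rfl⟩
      exact ⟨_, rfl⟩
  exact hasResolution_of_atl fA hfA (atl_of_range fA _ hrange hatl)

end Pool.Agent.K6.H44.VT
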