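import Pool.Agent.K6.H44.VT.Cut

/-!
# Glueing vertical modifications
-/

set_option autoImplicit false
set_option linter.unusedVariables false
set_option linter.unusedSimpArgs false
set_option linter.unusedSectionVars false

universe u v

open Pool.Agent.W558

namespace Pool.Agent.K6.H44.VT

section

variable {k K : Type u} [Field k] [Field K] [Algebra k K]

/-- A patch of an atlas: a localization `B` of `A` with a vertical modification of `Spec B`. -/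
structure Patch (A B : Subalgebra k K) (g s : K) (T : Type) (C : T → Subalgebra k K)
    (H : T → K) : Prop where
  gA : g ∈ A
  g0 : g ≠ 0
  sA : s ∈ A
  s0 : s ≠ 0
  le : A ≤ B
  gi : g⁻¹ ∈ B
  loc : ∀ x ∈ B, ∃ n : ℕ, g ^ n * x ∈ A
  at' : VAtl B s T C H

lemma pow_mono {A : Subalgebra k K} {g x : K} (hg : g ∈ A) {n m : ℕ} (h : g ^ n * x ∈ A)
    (hnm : n ≤ m) : g ^ m * x ∈ A := by
  obtain ⟨e, rfl⟩ := Nat.exists_eq_add_of_le hnm
  rw [add_comm, pow_add, mul_assoc]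
  exact A.mul_mem (A.pow_mem hg e) h

/-- The glueing of vertical modifications over the patches of a cover of `Spec A`. -/
theorem glue (A : Subalgebra k K) {Ω : Type} [Finite Ω] (B : Ω → Subalgebra k K) (g s : Ω → K)
    (T : Ω → Type) [∀ ω, Finite (T ω)] (C : ∀ ω, T ω → Subalgebra k K) (H : ∀ ω, T ω → K)
    (h : ∀ ω, Patch A (B ω) (g ω) (s ω) (T ω) (C ω) (H ω))
    (hcov : ∀ V : ValuationSubring K, (∀ a ∈ A, a ∈ V) → ∃ ω, (g ω)⁻¹ ∈ V)
    (hov : ∀ ω ω', ω ≠ ω' → ∃ N : ℕ, (g ω * g ω') ^ N / s ω ∈ A) :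
    ∃ (H' : (Σ ω, T ω) → K), Atl (A.val) (fun p : Σ ω, T ω => C p.1 p.2) H' := by
  classical
  have : Fintype Ω := Fintype.ofFinite Ω
  have : ∀ ω, Fintype (T ω) := fun ω => Fintype.ofFinite _
  let Ω2 := Σ ω, T ω
  have : Fintype Ω2 := inferInstance
  -- the exponents
  choose M1 hM1 using fun p : Ω2 => (h p.1).loc _ ((h p.1).at'.HA p.2)
  choose n hn using fun p : Ω2 => (h p.1).at'.vs p.2
  have hov' : ∀ ω ω', ∃ N : ℕ, ω ≠ ω' → (g ω * g ω') ^ N / s ω ∈ A := by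
    intro ω ω'
    by_cases hw : ω = ω'
    · exact ⟨0, fun h => absurd hw h⟩
    · obtain ⟨N, hN⟩ := hov ω ω' hw
      exact ⟨N, fun _ => hN⟩
  choose N hN using hov'
  let m1 : ℕ := Finset.univ.sup M1
  let nn : ℕ := Finset.univ.sup n
  let NN : ℕ := Finset.univ.sup fun q : Ω × Ω => N q.1 q.2
  have hm1 : ∀ p, M1 p ≤ m1 := fun p => Finset.le_sup (Finset.mem_univ p)
  have hnn : ∀ p, n p ≤ nn := fun p => Finset.le_sup (Finset.mem_univ p)
  have hNN : ∀ ω ω', N ω ω' ≤ NN := fun ω ω' =>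
    Finset.le_sup (f := fun q : Ω × Ω => N q.1 q.2) (Finset.mem_univ (ω, ω'))
  let M : ℕ := m1 + NN * nn + 1
  -- basic facts
  have hAC : ∀ p : Ω2, A ≤ C p.1 p.2 := fun p => (h p.1).le.trans ((h p.1).at'.base p.2)
  have hgC : ∀ p : Ω2, g p.1 ∈ C p.1 p.2 := fun p => hAC p (h p.1).gA
  have hgiC : ∀ p : Ω2, (g p.1)⁻¹ ∈ C p.1 p.2 := fun p => (h p.1).at'.base p.2 (h p.1).gi
  have hHM : ∀ p : Ω2, g p.1 ^ m1 * H p.1 p.2 ∈ A := fun p => pow_mono (h p.1).gA (hM1 p) (hm1 p)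
  have hs : ∀ p : Ω2, s p.1 ^ nn / H p.1 p.2 ∈ C p.1 p.2 := by
    intro p
    obtain ⟨e, he⟩ := Nat.exists_eq_add_of_le (hnn p)
    have h1 : s p.1 ^ nn / H p.1 p.2 = s p.1 ^ e * (s p.1 ^ n p / H p.1 p.2) := by
      rw [he, pow_add]; ring
    rw [h1]
    exact (C p.1 p.2).mul_mem ((C p.1 p.2).pow_mem (hAC p (h p.1).sA) e) (hn p)
  have hNs : ∀ ω ω', ω ≠ ω' → (g ω * g ω') ^ NN / s ω ∈ A := by
    intro ω ω' hw
    obtain ⟨e, he⟩ := Nat.exists_eq_add_of_le (hNN ω ω')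
    have h1 : (g ω * g ω') ^ NN / s ω = (g ω * g ω') ^ e * ((g ω * g ω') ^ N ω ω' / s ω) := by
      rw [he, pow_add]; ring
    rw [h1]
    exact A.mul_mem (A.pow_mem (A.mul_mem (h ω).gA (h ω').gA) e) (hN ω ω' hw)
  -- the key element
  have key : ∀ (p : Ω2) (ω' : Ω), p.1 ≠ ω' →
      g ω' ^ (NN * nn) / H p.1 p.2 ∈ C p.1 p.2 := by
    intro p ω' hw
    have h1 : g ω' ^ (NN * nn) / H p.1 p.2 =
        ((g p.1 * g ω') ^ NN / s p.1) ^ nn * (s p.1 ^ nn / H p.1 p.2) *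
          ((g p.1)⁻¹) ^ (NN * nn) := by
      have e1 := (h p.1).g0
      have e2 := (h p.1).s0
      have e3 := (h p.1).at'.H0 p.2
      rw [div_pow, ← pow_mul, mul_pow, inv_pow]
      field_simp
    rw [h1]
    exact (C p.1 p.2).mul_mem ((C p.1 p.2).mul_mem ((C p.1 p.2).pow_mem
      (hAC p (hNs _ _ hw)) _) (hs p)) ((C p.1 p.2).pow_mem (hgiC p) _)
  let H' : Ω2 → K := fun p => g p.1 ^ M * H p.1 p.2
  have hH'A : ∀ p, H' p ∈ A := by
    intro p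
    have h1 : H' p = g p.1 ^ (NN * nn + 1) * (g p.1 ^ m1 * H p.1 p.2) := by
      change g p.1 ^ (m1 + NN * nn + 1) * _ = _
      ring
    rw [h1]
    exact A.mul_mem (A.pow_mem (h p.1).gA _) (hHM p)
  have hH'0 : ∀ p, H' p ≠ 0 := fun p => mul_ne_zero (pow_ne_zero _ (h p.1).g0)
    ((h p.1).at'.H0 p.2)
  have hsame : ∀ (ω : Ω) (t t' : T ω), H' ⟨ω, t'⟩ / H' ⟨ω, t⟩ = H ω t' / H ω t := by
    intro ω t t'
    change g ω ^ M * H ω t' / (g ω ^ M * H ω t) = _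
    exact mul_div_mul_left _ _ (pow_ne_zero _ (h ω).g0)
  -- the ratio divided by the function of the other patch
  have hdiff : ∀ (p q : Ω2), p.1 ≠ q.1 → H' q / H' p / g q.1 ∈ C p.1 p.2 := by
    intro p q hpq
    have h1 : H' q / H' p / g q.1 = (g q.1 ^ m1 * H q.1 q.2) *
        (g q.1 ^ (NN * nn) / H p.1 p.2) * ((g p.1)⁻¹) ^ M := by
      change g q.1 ^ (m1 + NN * nn + 1) * H q.1 q.2 / (g p.1 ^ M * H p.1 p.2) / g q.1 = _
      have e1 := (h p.1).g0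
      have e2 := (h q.1).g0
      have e3 := (h p.1).at'.H0 p.2
      rw [inv_pow, pow_succ, pow_add]
      field_simp
    rw [h1]
    exact (C p.1 p.2).mul_mem ((C p.1 p.2).mul_mem (hAC p (hHM q)) (key p q.1 hpq))
      ((C p.1 p.2).pow_mem (hgiC p) _)
  have hrt : ∀ p q : Ω2, H' q / H' p ∈ C p.1 p.2 := by
    rintro ⟨ω, t⟩ ⟨ω', t'⟩
    by_cases hw : ω = ω'
    · subst hw
      rw [hsame]
      exact (h ω).at'.rt t t'
    · have h1 : H' ⟨ω', t'⟩ / H' ⟨ω, t⟩ = H' ⟨ω', t'⟩ / H' ⟨ω, t⟩ / g ω' * g ω' := by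
        rw [div_mul_cancel₀ _ (h ω').g0]
      rw [h1]
      exact (C ω t).mul_mem (hdiff ⟨ω, t⟩ ⟨ω', t'⟩ hw) (hAC ⟨ω, t⟩ (h ω').gA)
  have hdn : ∀ (p : Ω2), ∀ x ∈ C p.1 p.2, ∃ n : ℕ, H' p ^ n * x ∈ A := by
    intro p x hx
    obtain ⟨a, ha⟩ := (h p.1).at'.dn p.2 x hx
    obtain ⟨e, he⟩ := (h p.1).loc _ ha
    -- the exponent `a + e`
    have h1 : H' p ^ (a + e) * x = (g p.1 ^ m1 * H p.1 p.2) ^ e * (g p.1) ^ ((NN * nn + 1) * e - e) *
        g p.1 ^ (M * a) * (g p.1 ^ e * (H p.1 p.2 ^ a * x)) := by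
      have h2 : (NN * nn + 1) * e = ((NN * nn + 1) * e - e) + e := by
        have : e ≤ (NN * nn + 1) * e := Nat.le_mul_of_pos_left e (by omega)
        omega
      change (g p.1 ^ (m1 + NN * nn + 1) * H p.1 p.2) ^ (a + e) * x = _
      have h3 : (g p.1 ^ (m1 + NN * nn + 1) * H p.1 p.2) ^ (a + e) =
          (g p.1 ^ m1 * H p.1 p.2) ^ e * g p.1 ^ ((NN * nn + 1) * e) *
            (g p.1 ^ (M * a) * H p.1 p.2 ^ a) := by
        rw [pow_add, mul_pow, mul_pow, mul_pow, ← pow_mul, ← pow_mul, ← pow_mul]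
        have : (m1 + NN * nn + 1) * e = m1 * e + (NN * nn + 1) * e := by ring
        rw [this, pow_add]
        ring
      rw [h3]
      conv_lhs => rw [h2, pow_add]
      ring
    refine ⟨a + e, ?_⟩
    rw [h1]
    exact A.mul_mem (A.mul_mem (A.mul_mem (A.pow_mem (hHM p) _) (A.pow_mem (h p.1).gA _))
      (A.pow_mem (h p.1).gA _)) he
  refine ⟨H',
    { sm := fun p => (h p.1).at'.sm p.2
      aa := fun p a => hAC p a.2
      H0 := hH'0
      hA := fun p => ⟨⟨H' p, hH'A p⟩, rfl⟩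
      rt := hrt
      gl := ?_
      dn := fun p x hx => by
        obtain ⟨n, hn⟩ := hdn p x hx
        exact ⟨n, ⟨_, hn⟩, rfl⟩
      cv := ?_ }⟩
  · rintro ⟨ω, t⟩ ⟨ω', t'⟩ x hx
    by_cases hw : ω = ω'
    · subst hw
      rw [hsame]
      exact (h ω).at'.gl t t' x hx
    · obtain ⟨m, hm⟩ := hdn ⟨ω', t'⟩ x hx
      have e1 := (h ω).g0
      have e2 := (h ω').g0
      have e3 := (h ω).at'.H0 t
      have e4 := hH'0 ⟨ω, t⟩
      have e5 := hH'0 ⟨ω', t'⟩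
      -- the inverse of `H' ⟨ω, t⟩` times a power of the ratio
      have h1 : (H' ⟨ω', t'⟩ / H' ⟨ω, t⟩) ^ (NN * nn) / H' ⟨ω, t⟩ ∈ C ω t := by
        have h2 : (H' ⟨ω', t'⟩ / H' ⟨ω, t⟩) ^ (NN * nn) / H' ⟨ω, t⟩ =
            (H' ⟨ω', t'⟩ / H' ⟨ω, t⟩ / g ω') ^ (NN * nn) *
              (g ω' ^ (NN * nn) / H ω t) * ((g ω)⁻¹) ^ M := by
          rw [div_pow _ (g ω')]
          change _ / (g ω ^ M * H ω t) = _
          rw [inv_pow]
          field_simp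
        rw [h2]
        exact (C ω t).mul_mem ((C ω t).mul_mem ((C ω t).pow_mem (hdiff ⟨ω, t⟩ ⟨ω', t'⟩ hw) _)
          (key ⟨ω, t⟩ ω' hw)) ((C ω t).pow_mem (hgiC ⟨ω, t⟩) _)
      refine ⟨m + NN * nn * m, ?_⟩
      have h3 : (H' ⟨ω', t'⟩ / H' ⟨ω, t⟩) ^ (m + NN * nn * m) * x =
          ((H' ⟨ω', t'⟩ / H' ⟨ω, t⟩) ^ (NN * nn) / H' ⟨ω, t⟩) ^ m * (H' ⟨ω', t'⟩ ^ m * x) := by
        rw [div_pow (_ ^ (NN * nn)), ← pow_mul, pow_add, div_pow _ _ m]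
        field_simp
      change (H' ⟨ω', t'⟩ / H' ⟨ω, t⟩) ^ (m + NN * nn * m) * x ∈ C ω t
      rw [h3]
      exact (C ω t).mul_mem ((C ω t).pow_mem h1 m) (hAC ⟨ω, t⟩ hm)
  · intro V hV
    obtain ⟨ω, hω⟩ := hcov V (fun a ha => hV ⟨a, ha⟩)
    obtain ⟨t, ht⟩ := (h ω).at'.cv V (by
      intro b hb
      obtain ⟨n, hn⟩ := (h ω).loc b hb
      have h1 : b = (g ω)⁻¹ ^ n * (g ω ^ n * b) := by
        have := (h ω).g0
        rw [inv_pow]
        field_simp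
      rw [h1]
      exact V.mul_mem _ _ (V.toSubring.pow_mem hω n) (hV ⟨_, hn⟩))
    exact ⟨⟨ω, t⟩, ht⟩

/-- A smooth algebra as an atlas. -/
lemma vatl_triv (B : Subalgebra k K) [Algebra.Smooth k B] (s : K) :
    VAtl B s Unit (fun _ => B) (fun _ => 1) where
  sm := fun _ => inferInstance
  base := fun _ => le_rfl
  H0 := fun _ => one_ne_zero
  HA := fun _ => B.one_mem
  rt := fun _ _ => by rw [div_one]; exact B.one_mem
  gl := fun _ _ x hx => ⟨0, by rwa [pow_zero, one_mul]⟩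
  dn := fun _ x hx => ⟨0, by rwa [pow_zero, one_mul]⟩
  cv := fun V hV => ⟨(), hV⟩
  vs := fun _ => ⟨0, by rw [pow_zero, div_one]; exact B.one_mem⟩

end

end Pool.Agent.K6.H44.VT
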