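import Mathlib

/-!
# Linear independence modulo a prime
-/

set_option autoImplicit false

universe u v

namespace Pool.Agent.K6.H44.VT

/-- Systems of linear equations with linearly independent rows modulo `p` are solvable in
characteristic `p`. -/
theorem exists_w {p : ℕ} [Fact p.Prime] {J Λ : Type} [Fintype J] [Fintype Λ] (b : J → Λ → ℕ)
    (hb : LinearIndependent (ZMod p) fun j => fun l => (b j l : ZMod p)) (κ : Type u) [Field κ]
    [CharP κ p] (c : J → κ) : ∃ w : Λ → κ, ∀ j, ∑ i, (b j i : κ) * w i = c j := by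
  classical
  let f : (J → ZMod p) →ₗ[ZMod p] (Λ → ZMod p) :=
    Fintype.linearCombination (ZMod p) (fun j => fun l => (b j l : ZMod p))
  have hf : LinearMap.ker f = ⊥ := by
    rw [LinearMap.ker_eq_bot]
    exact linearIndependent_iff_injective_fintypeLinearCombination.1 hb
  obtain ⟨g, hg⟩ := LinearMap.exists_leftInverse_of_injective f hf
  have hfe : ∀ j, f (Pi.single j 1) = fun l => (b j l : ZMod p) := by
    intro j
    change Fintype.linearCombination _ _ _ = _
    rw [Fintype.linearCombination_apply, Finset.sum_eq_single j]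
    · rw [Pi.single_eq_same, one_smul]
    · intro j' _ hj'
      rw [Pi.single_eq_of_ne hj', zero_smul]
    · intro h; exact absurd (Finset.mem_univ _) h
  have hW : ∀ j j', ∑ l, (b j l : ZMod p) * g (Pi.single l 1) j' = (Pi.single j 1 : J → ZMod p) j' := by
    intro j j'
    have h1 : g (f (Pi.single j 1)) = Pi.single j 1 := LinearMap.congr_fun hg _
    rw [hfe] at h1
    have h2 : (fun l => (b j l : ZMod p)) = ∑ l, (b j l : ZMod p) • (Pi.single l 1 : Λ → ZMod p) := by
      funext l
      rw [Finset.sum_apply, Finset.sum_eq_single l]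
      · simp
      · intro l' _ hl'
        rw [Pi.smul_apply, Pi.single_eq_of_ne hl'.symm, smul_zero]
      · intro h; exact absurd (Finset.mem_univ _) h
    rw [h2, map_sum] at h1
    rw [← h1, Finset.sum_apply]
    refine Finset.sum_congr rfl fun l _ => ?_
    rw [map_smul, Pi.smul_apply, smul_eq_mul]
  let φ : ZMod p →+* κ := ZMod.castHom dvd_rfl κ
  refine ⟨fun l => ∑ j', φ (g (Pi.single l 1) j') * c j', fun j => ?_⟩
  have h1 : ∀ l, (b j l : κ) * ∑ j', φ (g (Pi.single l 1) j') * c j' =
      ∑ j', φ ((b j l : ZMod p) * g (Pi.single l 1) j') * c j' := by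
    intro l
    rw [Finset.mul_sum]
    refine Finset.sum_congr rfl fun j' _ => ?_
    rw [map_mul, map_natCast]
    ring
  rw [Finset.sum_congr rfl fun l _ => h1 l, Finset.sum_comm]
  have h2 : ∀ j', ∑ l, φ ((b j l : ZMod p) * g (Pi.single l 1) j') * c j' =
      φ ((Pi.single j 1 : J → ZMod p) j') * c j' := by
    intro j'
    rw [← hW, map_sum, Finset.sum_mul]
  rw [Finset.sum_congr rfl fun j' _ => h2 j', Finset.sum_eq_single j]
  · rw [Pi.single_eq_same, map_one, one_mul]
  · intro j' _ hj'
    rw [Pi.single_eq_of_ne hj', map_zero, zero_mul]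
  · intro h; exact absurd (Finset.mem_univ _) h

end Pool.Agent.K6.H44.VT
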