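import Pool.Agent.K6.H44.VT.Glue

/-!
# The local ring of a prime element
-/

set_option autoImplicit false
set_option linter.unusedVariables false
set_option linter.unusedSimpArgs false
set_option linter.unusedSectionVars false

universe u v

open Pool.Agent.W558 Pool.Agent.W973.CUT

namespace Pool.Agent.K6.H44.VT

/-- The local ring of the kernel of a homomorphism to a field. -/
theorem exists_Q {k R0 K K' : Type u} [Field k] [CommRing R0] [IsDomain R0] [Algebra k R0]
    [Field K] [Algebra k K] [Field K'] [Algebra R0 K'] [IsFractionRing R0 K'] [Algebra k K']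
    [IsScalarTower k R0 K'] (ev : R0 →ₐ[k] K) :
    ∃ (Q : Subalgebra k K') (π : Q →ₐ[k] K),
      (∀ y, y ∈ Q ↔ ∃ a s : R0, ev s ≠ 0 ∧ y = algebraMap R0 K' a * (algebraMap R0 K' s)⁻¹) ∧
      ∀ (g : R0) (h : algebraMap R0 K' g ∈ Q), π ⟨_, h⟩ = ev g := by
  let S : Submonoid R0 := (nonZeroDivisors K).comap (ev : R0 →+* K)
  have hSm : ∀ s, s ∈ S ↔ ev s ≠ 0 := fun s => by
    change ev s ∈ nonZeroDivisors K ↔ _
    rw [mem_nonZeroDivisors_iff_ne_zero]
  have hS : S ≤ nonZeroDivisors R0 := by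
    intro s hs
    rw [mem_nonZeroDivisors_iff_ne_zero]
    rintro rfl
    exact (hSm 0).1 hs (map_zero _)
  have hu : ∀ s : S, IsUnit ((ev : R0 →+* K) s) := fun s =>
    isUnit_iff_ne_zero.2 ((hSm s).1 s.2)
  let π0 : Localization.subalgebra.ofField K' S hS →+* K :=
    IsLocalization.lift (M := S) (S := Localization.subalgebra.ofField K' S hS) hu
  have hπ0 : ∀ a, π0 (algebraMap R0 _ a) = ev a := fun a => IsLocalization.lift_eq hu a
  refine ⟨(Localization.subalgebra.ofField K' S hS).restrictScalars k,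
    { π0 with commutes' := fun r => ?_ }, ?_, ?_⟩
  · change π0 (algebraMap k _ r) = _
    rw [IsScalarTower.algebraMap_apply k R0 (Localization.subalgebra.ofField K' S hS), hπ0]
    exact ev.commutes r
  · intro y
    constructor
    · rintro ⟨a, s, hs, rfl⟩
      exact ⟨a, s, (hSm s).1 hs, rfl⟩
    · rintro ⟨a, s, hs, rfl⟩
      exact ⟨a, s, (hSm s).2 hs, rfl⟩
  · intro g h
    exact hπ0 g

/-- The local ring of a prime element of a noetherian domain. -/
theorem exists_loc {k R0 K K' : Type u} [Field k] [CommRing R0] [IsDomain R0] [IsNoetherianRing R0]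
    [Algebra k R0] [Field K] [Algebra k K] [Field K'] [Algebra R0 K'] [IsFractionRing R0 K']
    [Algebra k K'] [IsScalarTower k R0 K'] (ev : R0 →ₐ[k] K) (f : R0) (hf : f ≠ 0)
    (hker : ∀ g, ev g = 0 ↔ f ∣ g) :
    ∃ (Q : Subalgebra k K') (π : Q →ₐ[k] K),
      (∀ y : K', y ∈ Q ∨ y⁻¹ ∈ Q) ∧ (∀ b : K', b ∈ Q → pq π b ≠ 0 → b⁻¹ ∈ Q) ∧
      (∀ g : R0, algebraMap _ K' g ∈ Q ∧ pq π (algebraMap _ K' g) = ev g) := by
  classical
  obtain ⟨Q, π, hQ0, hπ⟩ := exists_Q (K' := K') ev
  have hgQ : ∀ g : R0, algebraMap R0 K' g ∈ Q := fun g => (hQ0 _).2 ⟨g, 1, by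
    rw [map_one]; exact one_ne_zero, by rw [map_one, inv_one, mul_one]⟩
  have hπg : ∀ g : R0, pq π (algebraMap R0 K' g) = ev g := by
    intro g
    rw [pq_of π (hgQ g)]
    exact hπ g (hgQ g)
  have hinj : Function.Injective (algebraMap R0 K') := IsFractionRing.injective R0 K'
  have hne : ∀ s : R0, s ≠ 0 → algebraMap R0 K' s ≠ 0 := fun s hs h =>
    hs (hinj (h.trans (map_zero _).symm))
  have hfrac : ∀ r s : R0, ev s ≠ 0 →
      algebraMap R0 K' r * (algebraMap R0 K' s)⁻¹ ∈ Q := fun r s hs =>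
    (hQ0 _).2 ⟨r, s, hs, rfl⟩
  have hrep : ∀ q ∈ Q, ∃ r s : R0, ev s ≠ 0 ∧
      q = algebraMap R0 K' r * (algebraMap R0 K' s)⁻¹ := by
    intro q hq
    obtain ⟨r, s, hs, rfl⟩ := (hQ0 q).1 hq
    exact ⟨r, s, hs, rfl⟩
  have hs0 : ∀ s : R0, ev s ≠ 0 → s ≠ 0 := by
    rintro s hs rfl
    exact hs (map_zero _)
  have hval : ∀ r s : R0, ev s ≠ 0 →
      pq π (algebraMap R0 K' r * (algebraMap R0 K' s)⁻¹) * ev s = ev r := by
    intro r s hs
    rw [← hπg s, ← pq_mul π (hfrac r s hs) (hgQ s), mul_assoc,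
      inv_mul_cancel₀ (hne s (hs0 s hs)), mul_one, hπg]
  have hfu : ¬ IsUnit f := by
    intro hu
    have h1 := (hker 1).2 (hu.dvd)
    rw [map_one] at h1
    exact one_ne_zero h1
  refine ⟨Q, π, ?_, ?_, fun g => ⟨hgQ g, hπg g⟩⟩
  · -- totality
    have key : ∀ (a b : R0), a ≠ 0 → b ≠ 0 →
        algebraMap R0 K' a * (algebraMap R0 K' b)⁻¹ ∈ Q ∨
        algebraMap R0 K' b * (algebraMap R0 K' a)⁻¹ ∈ Q := by
      intro a b ha hb
      obtain ⟨i, a', ha', rfl⟩ := WfDvdMonoid.max_power_factor' ha hfu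
      obtain ⟨j, b', hb', rfl⟩ := WfDvdMonoid.max_power_factor' hb hfu
      have hf0 := hne f hf
      have ha1 : ev a' ≠ 0 := fun h => ha' ((hker _).1 h)
      have hb1 : ev b' ≠ 0 := fun h => hb' ((hker _).1 h)
      have ha2 := hne a' (hs0 _ ha1)
      have hb2 := hne b' (hs0 _ hb1)
      rcases le_total j i with h | h
      · left
        have e : algebraMap R0 K' (f ^ i * a') * (algebraMap R0 K' (f ^ j * b'))⁻¹ =
            algebraMap R0 K' (f ^ (i - j) * a') * (algebraMap R0 K' b')⁻¹ := by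
          rw [map_mul, map_mul, map_mul, map_pow, map_pow, map_pow, mul_inv]
          have : algebraMap R0 K' f ^ i = algebraMap R0 K' f ^ (i - j) * algebraMap R0 K' f ^ j := by
            rw [← pow_add, Nat.sub_add_cancel h]
          rw [this]
          field_simp
        rw [e]
        exact hfrac _ _ hb1
      · right
        have e : algebraMap R0 K' (f ^ j * b') * (algebraMap R0 K' (f ^ i * a'))⁻¹ =
            algebraMap R0 K' (f ^ (j - i) * b') * (algebraMap R0 K' a')⁻¹ := by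
          rw [map_mul, map_mul, map_mul, map_pow, map_pow, map_pow, mul_inv]
          have : algebraMap R0 K' f ^ j = algebraMap R0 K' f ^ (j - i) * algebraMap R0 K' f ^ i := by
            rw [← pow_add, Nat.sub_add_cancel h]
          rw [this]
          field_simp
        rw [e]
        exact hfrac _ _ ha1
    intro y
    by_cases hy : y = 0
    · left
      rw [hy]
      exact Q.zero_mem
    obtain ⟨a, b, hb, hab⟩ := IsFractionRing.div_surjective R0 y
    have hb0 := nonZeroDivisors.ne_zero hb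
    have ha0 : a ≠ 0 := by
      rintro rfl
      apply hy
      rw [← hab, map_zero, zero_div]
    rcases key a b ha0 hb0 with h | h
    · left
      rw [← hab, div_eq_mul_inv]
      exact h
    · right
      rw [← hab, inv_div, div_eq_mul_inv]
      exact h
  · intro b hb hb0
    obtain ⟨r, s, hs, rfl⟩ := hrep b hb
    have h1 := hval r s hs
    have hr : ev r ≠ 0 := by
      rw [← h1]
      exact mul_ne_zero hb0 hs
    have e : (algebraMap R0 K' r * (algebraMap R0 K' s)⁻¹)⁻¹ =
        algebraMap R0 K' s * (algebraMap R0 K' r)⁻¹ := by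
      rw [mul_inv, inv_inv, mul_comm]
    rw [e]
    exact hfrac _ _ hr

end Pool.Agent.K6.H44.VT
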