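import Mathlib

/-!
# Normal forms of quadratic polynomials near a point of a curve
-/

set_option autoImplicit false
set_option linter.unusedVariables false
set_option linter.unusedSimpArgs false
set_option linter.unusedSectionVars false

universe u v

open MvPolynomial

namespace Pool.Agent.K6.H44.VT

section forms

variable {R : Type u} [CommRing R] {ι : Type} [Fintype ι] [DecidableEq ι]

/-- A quadratic form. -/
def qf (A : ι → ι → R) (x : ι → R) : R := ∑ i, ∑ j, A i j * x i * x j

/-- A linear form. -/
def lf (B : ι → R) (x : ι → R) : R := ∑ i, B i * x i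

lemma lf_shift (B : ι → R) (x : ι → R) (j : ι) (c : R) :
    lf B (fun k => x k + if k = j then c else 0) = lf B x + c * B j := by
  unfold lf
  have h1 : ∀ k, B k * (x k + if k = j then c else 0) =
      B k * x k + if k = j then B k * c else 0 := by
    intro k
    split_ifs <;> ring
  rw [Finset.sum_congr rfl fun k _ => h1 k, Finset.sum_add_distrib, Finset.sum_ite_eq' Finset.univ,
    if_pos (Finset.mem_univ _)]
  ring

lemma qf_shift (A : ι → ι → R) (x : ι → R) (j : ι) (c : R) :
    qf A (fun k => x k + if k = j then c else 0) =
      qf A x + c * lf (fun k => A k j + A j k) x + c ^ 2 * A j j := by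
  have h0 : ∀ y : ι → R, qf A y = ∑ i, lf (A i) y * y i := by
    intro y
    unfold qf lf
    refine Finset.sum_congr rfl fun i _ => ?_
    rw [Finset.sum_mul]
    exact Finset.sum_congr rfl fun k _ => by ring
  have h1 : ∀ i, (lf (A i) x + c * A i j) * (x i + if i = j then c else 0) =
      lf (A i) x * x i + c * (A i j * x i) + if i = j then (lf (A i) x + c * A i j) * c else 0 := by
    intro i
    split_ifs <;> ring
  rw [h0, h0, Finset.sum_congr rfl fun i _ => by rw [lf_shift, h1 i], Finset.sum_add_distrib,
    Finset.sum_add_distrib, Finset.sum_ite_eq' Finset.univ, if_pos (Finset.mem_univ _),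
    ← Finset.mul_sum]
  have h2 : lf (fun k => A k j + A j k) x = ∑ i, A i j * x i + lf (A j) x := by
    unfold lf
    rw [← Finset.sum_add_distrib]
    exact Finset.sum_congr rfl fun k _ => by ring
  rw [h2]
  ring

lemma qf_mul (m : ι → R) (s : R) (A : ι → ι → R) (x : ι → R) :
    qf (fun k l => A k l - s * (m k * m l)) x = qf A x - s * lf m x ^ 2 := by
  unfold qf lf
  rw [pow_two, Finset.sum_mul_sum, Finset.mul_sum, ← Finset.sum_sub_distrib]
  refine Finset.sum_congr rfl fun i _ => ?_
  rw [Finset.mul_sum, ← Finset.sum_sub_distrib]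
  exact Finset.sum_congr rfl fun j _ => by ring

lemma lf_mul (m B : ι → R) (s : R) (x : ι → R) :
    lf (fun k => B k - s * m k) x = lf B x - s * lf m x := by
  unfold lf
  rw [Finset.mul_sum, ← Finset.sum_sub_distrib]
  exact Finset.sum_congr rfl fun j _ => by ring

/-- The variable `i0` is omitted. -/
def om (x : ι → R) (i0 : ι) : ι → R := fun k => if k = i0 then 0 else x k

lemma om_shift (x : ι → R) (i0 : ι) :
    x = fun k => om x i0 k + if k = i0 then x i0 else 0 := by
  funext k
  unfold om
  split_ifs with h
  · rw [h, zero_add]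
  · rw [add_zero]

lemma qf_om (A : ι → ι → R) (x : ι → R) (i0 : ι) :
    qf (fun k l => if k = i0 ∨ l = i0 then 0 else A k l) x = qf A (om x i0) := by
  unfold qf om
  refine Finset.sum_congr rfl fun k _ => Finset.sum_congr rfl fun l _ => ?_
  by_cases h1 : k = i0
  · simp [h1]
  · by_cases h2 : l = i0
    · simp [h2]
    · simp [h1, h2]

lemma lf_om (B : ι → R) (x : ι → R) (i0 : ι) :
    lf (fun k => if k = i0 then 0 else B k) x = lf B (om x i0) := by
  unfold lf om
  refine Finset.sum_congr rfl fun k _ => ?_
  by_cases h1 : k = i0 <;> simp [h1]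

lemma qf_symm (A : ι → ι → R) (x : ι → R) :
    qf (fun k l => A k l + A l k) x = 2 * qf A x := by
  unfold qf
  have h1 : ∑ i, ∑ j, A j i * x i * x j = ∑ i, ∑ j, A i j * x i * x j := by
    rw [Finset.sum_comm]
    exact Finset.sum_congr rfl fun i _ => Finset.sum_congr rfl fun j _ => by ring
  have h2 : ∀ i j, (A i j + A j i) * x i * x j = A i j * x i * x j + A j i * x i * x j := by
    intro i j
    ring
  rw [Finset.sum_congr rfl fun i _ => Finset.sum_congr rfl fun j _ => h2 i j,
    Finset.sum_congr rfl fun i _ => Finset.sum_add_distrib, Finset.sum_add_distrib, h1]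
  ring

lemma qf_smul (A : ι → ι → R) (s : R) (x : ι → R) :
    qf (fun k l => s * A k l) x = s * qf A x := by
  unfold qf
  rw [Finset.mul_sum]
  refine Finset.sum_congr rfl fun i _ => ?_
  rw [Finset.mul_sum]
  exact Finset.sum_congr rfl fun j _ => by ring

lemma lf_smul (B : ι → R) (s : R) (x : ι → R) :
    lf (fun k => s * B k) x = s * lf B x := by
  unfold lf
  rw [Finset.mul_sum]
  exact Finset.sum_congr rfl fun j _ => by ring

/-- The change of the coefficients under `x j ↦ x j - x i`. -/
lemma qf_beta (A : ι → ι → R) (x : ι → R) (i j : ι) :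
    qf (fun k l => A k l - (if l = i then A k j + A j k else 0) +
      (if k = i then if l = i then A j j else 0 else 0)) x =
      qf A x + (-x i) * lf (fun k => A k j + A j k) x + (-x i) ^ 2 * A j j := by
  unfold qf lf
  have h1 : ∀ k l, (A k l - (if l = i then A k j + A j k else 0) +
      (if k = i then if l = i then A j j else 0 else 0)) * x k * x l = A k l * x k * x l -
      (if l = i then (A k j + A j k) * x k * x l else 0) +
      (if k = i then if l = i then A j j * x k * x l else 0 else 0) := by
    intro k l
    split_ifs <;> ring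
  rw [Finset.sum_congr rfl fun k _ => Finset.sum_congr rfl fun l _ => h1 k l]
  have h2 : ∀ k, ∑ l, (A k l * x k * x l -
      (if l = i then (A k j + A j k) * x k * x l else 0) +
      (if k = i then if l = i then A j j * x k * x l else 0 else 0)) =
      ∑ l, A k l * x k * x l - (A k j + A j k) * x k * x i +
        (if k = i then A j j * x k * x i else 0) := by
    intro k
    rw [Finset.sum_add_distrib, Finset.sum_sub_distrib, Finset.sum_ite_eq' Finset.univ,
      if_pos (Finset.mem_univ _)]
    congr 1
    split_ifs with h
    · rw [Finset.sum_ite_eq' Finset.univ, if_pos (Finset.mem_univ _)]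
    · simp
  rw [Finset.sum_congr rfl fun k _ => h2 k, Finset.sum_add_distrib, Finset.sum_sub_distrib,
    Finset.sum_ite_eq' Finset.univ, if_pos (Finset.mem_univ _), ← Finset.sum_mul]
  ring

end forms

section el

variable {S : Type u} [CommRing S] {ι : Type} [Fintype ι] [DecidableEq ι]

/-- The elementary substitution `X i0 ↦ X i0 + p`. -/
noncomputable def el (i0 : ι) (p : MvPolynomial ι S) : MvPolynomial ι S →ₐ[S] MvPolynomial ι S :=
  aeval fun i => X i + if i = i0 then p else 0

lemma el_X (i0 : ι) (p : MvPolynomial ι S) (i : ι) :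
    el i0 p (X i) = X i + if i = i0 then p else 0 := by
  rw [el, aeval_X]

lemma el_C (i0 : ι) (p : MvPolynomial ι S) (a : S) : el i0 p (C a) = C a := by
  rw [el, ← algebraMap_eq]
  exact AlgHom.commutes _ a

/-- The polynomial does not involve the variable `i0`. -/
def NI (i0 : ι) (q : MvPolynomial ι S) : Prop := ∀ p, el i0 p q = q

lemma NI.add {i0 : ι} {p q : MvPolynomial ι S} (hp : NI i0 p) (hq : NI i0 q) : NI i0 (p + q) :=
  fun r => by rw [map_add, hp, hq]

lemma NI.neg {i0 : ι} {p : MvPolynomial ι S} (hp : NI i0 p) : NI i0 (-p) :=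
  fun r => by rw [map_neg, hp]

lemma NI.mul {i0 : ι} {p q : MvPolynomial ι S} (hp : NI i0 p) (hq : NI i0 q) : NI i0 (p * q) :=
  fun r => by rw [map_mul, hp, hq]

lemma NI.cst (i0 : ι) (a : S) : NI i0 (C a : MvPolynomial ι S) := fun r => el_C _ _ _

lemma NI.var {i0 i : ι} (h : i ≠ i0) : NI i0 (X i : MvPolynomial ι S) := fun r => by
  rw [el_X, if_neg h, add_zero]

lemma NI.om (i0 i : ι) : NI i0 (om (X : ι → MvPolynomial ι S) i0 i) := by
  unfold VT.om
  split_ifs with h
  · intro r
    rw [map_zero]
  · exact NI.var h

lemma NI.lf {i0 : ι} {B x : ι → MvPolynomial ι S} (hB : ∀ i, NI i0 (B i))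
    (hx : ∀ i, NI i0 (x i)) : NI i0 (lf B x) := fun r => by
  unfold VT.lf
  rw [map_sum]
  exact Finset.sum_congr rfl fun i _ => ((hB i).mul (hx i)) r

lemma NI.qf {i0 : ι} {A : ι → ι → MvPolynomial ι S} {x : ι → MvPolynomial ι S}
    (hA : ∀ i j, NI i0 (A i j)) (hx : ∀ i, NI i0 (x i)) : NI i0 (qf A x) := fun r => by
  unfold VT.qf
  rw [map_sum]
  refine Finset.sum_congr rfl fun i _ => ?_
  rw [map_sum]
  exact Finset.sum_congr rfl fun j _ => (((hA i j).mul (hx i)).mul (hx j)) r

/-- Elementary automorphisms. -/
noncomputable def elE (i0 : ι) (p : MvPolynomial ι S) (hp : NI i0 p) :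
    MvPolynomial ι S ≃ₐ[S] MvPolynomial ι S :=
  AlgEquiv.ofAlgHom (el i0 p) (el i0 (-p)) (by
    apply algHom_ext
    intro i
    rw [AlgHom.comp_apply, el_X, AlgHom.id_apply]
    split_ifs with h
    · rw [map_add, el_X, if_pos h, map_neg, hp]
      ring
    · rw [add_zero, el_X, if_neg h, add_zero]) (by
    apply algHom_ext
    intro i
    rw [AlgHom.comp_apply, el_X, AlgHom.id_apply]
    split_ifs with h
    · rw [map_add, el_X, if_pos h, hp]
      ring
    · rw [add_zero, el_X, if_neg h, add_zero])

lemma elE_apply (i0 : ι) (p : MvPolynomial ι S) (hp : NI i0 p) (q : MvPolynomial ι S) :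
    elE i0 p hp q = el i0 p q := rfl

/-- A quadratic polynomial. -/
noncomputable def qd (A : ι → ι → S) (B : ι → S) (c : S) : MvPolynomial ι S :=
  qf (fun i j => C (A i j)) X + lf (fun i => C (B i)) X + C c

/-- A sum of squares. -/
noncomputable def sq (t : S) (P : Finset ι) (u : ι → S) (e : ι → ℕ) : MvPolynomial ι S :=
  ∑ i ∈ P, C (u i * t ^ e i) * X i ^ 2

/-- The normal form, or a sum of squares modulo `t ^ M`. -/
def NFm (t : S) (M : ℕ) (q : MvPolynomial ι S) : Prop :=
  ∃ (θ : MvPolynomial ι S ≃ₐ[S] MvPolynomial ι S) (P : Finset ι) (u : ι → S) (e : ι → ℕ),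
    (∀ i ∈ P, ¬ t ∣ u i) ∧ ((∃ (s : ℕ) (B : ι → S) (c : S) (E : MvPolynomial ι S),
      (∀ i ∈ P, B i = 0) ∧ (¬ t ∣ c ∨ ∃ i, ¬ t ∣ B i) ∧
      q = θ (sq t P u e + C (t ^ s) * ((lf (fun i => C (B i)) X + C c) + C t * E))) ∨
      ∃ E : MvPolynomial ι S, q = θ (sq t P u e + C (t ^ M) * E))

lemma map_sq (t : S) (P : Finset ι) (u : ι → S) (e : ι → ℕ) {i0 : ι} (hi0 : i0 ∉ P)
    (p : MvPolynomial ι S) : el i0 p (sq t P u e) = sq t P u e := by
  unfold sq
  rw [map_sum]
  refine Finset.sum_congr rfl fun i hi => ?_
  rw [map_mul, map_pow, el_C, el_X, if_neg, add_zero]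
  rintro rfl
  exact hi0 hi

lemma map_lf (f : MvPolynomial ι S →ₐ[S] MvPolynomial ι S) (B : ι → S) :
    f (lf (fun i => C (B i)) X) = lf (fun i => C (B i)) (fun i => f (X i)) := by
  unfold lf
  rw [map_sum]
  refine Finset.sum_congr rfl fun i _ => ?_
  rw [map_mul]
  congr 1
  rw [← algebraMap_eq]
  exact AlgHom.commutes _ _

lemma map_qf (f : MvPolynomial ι S →ₐ[S] MvPolynomial ι S) (A : ι → ι → S) :
    f (qf (fun i j => C (A i j)) X) = qf (fun i j => C (A i j)) (fun i => f (X i)) := by
  unfold qf
  rw [map_sum]
  refine Finset.sum_congr rfl fun i _ => ?_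
  rw [map_sum]
  refine Finset.sum_congr rfl fun j _ => ?_
  rw [map_mul, map_mul]
  congr 2
  rw [← algebraMap_eq]
  exact AlgHom.commutes _ _

/-- Completing the square. -/
lemma alpha (t : S) (M : ℕ) (A : ι → ι → S) (B : ι → S) (c : S) (i0 : ι) (l v : S)
    (hl : 2 * A i0 i0 * l = 1 - v * t ^ M) :
    ∃ (A' : ι → ι → S) (B' : ι → S) (c' : S) (p E : MvPolynomial ι S) (hp : NI i0 p),
      (∀ i j, (i = i0 ∨ j = i0) → A' i j = 0) ∧ B' i0 = 0 ∧
      (∀ i, (∀ j, A i j = 0 ∧ A j i = 0) → ∀ j, A' i j = 0 ∧ A' j i = 0) ∧
      (∀ i, (∀ j, A i j = 0 ∧ A j i = 0) → B i = 0 → B' i = 0) ∧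
      qd A B c = elE i0 p hp (C (A i0 i0) * X i0 ^ 2 + qd A' B' c' + C (t ^ M) * E) := by
  let a := A i0 i0
  let m : ι → S := fun k => A k i0 + A i0 k
  let x : ι → MvPolynomial ι S := om X i0
  let L : MvPolynomial ι S := lf (fun k => C (m k)) x + C (B i0)
  have hL : NI i0 L := (NI.lf (fun i => NI.cst _ _) (fun i => NI.om _ _)).add (NI.cst _ _)
  let r : MvPolynomial ι S := qf (fun i j => C (A i j)) x + lf (fun i => C (B i)) x + C c
  have hr : NI i0 r := ((NI.qf (fun i j => NI.cst _ _) (fun i => NI.om _ _)).add
    (NI.lf (fun i => NI.cst _ _) (fun i => NI.om _ _))).add (NI.cst _ _)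
  have h1 : qd A B c = C a * X i0 ^ 2 + X i0 * L + r := by
    unfold qd
    conv_lhs => rw [om_shift (X : ι → MvPolynomial ι S) i0]
    rw [qf_shift, lf_shift]
    change _ = C (A i0 i0) * X i0 ^ 2 + X i0 * (lf (fun k => C (m k)) x + C (B i0)) + (_ + _ + _)
    have h2 : (fun k => (C (A k i0) + C (A i0 k) : MvPolynomial ι S)) = fun k => C (m k) := by
      funext k
      rw [← map_add]
    rw [h2]
    ring
  let A' : ι → ι → S := fun k l' => if k = i0 ∨ l' = i0 then 0 else
    A k l' - a * l ^ 2 * (m k * m l')
  let B' : ι → S := fun k => if k = i0 then 0 else B k - 2 * (a * l ^ 2) * B i0 * m k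
  let c' : S := c - a * l ^ 2 * B i0 ^ 2
  have h2 : qd A' B' c' = r - C (a * l ^ 2) * L ^ 2 := by
    have e1 : qf (fun i j => (C (A' i j) : MvPolynomial ι S)) X =
        qf (fun i j => C (A i j)) x - C (a * l ^ 2) * lf (fun k => C (m k)) x ^ 2 := by
      have e2 : (fun i j => (C (A' i j) : MvPolynomial ι S)) = fun i j =>
          if i = i0 ∨ j = i0 then 0 else C (A i j) - C (a * l ^ 2) * (C (m i) * C (m j)) := by
        funext i j
        change C (if i = i0 ∨ j = i0 then 0 else A i j - a * l ^ 2 * (m i * m j)) = _
        split_ifs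
        · rw [map_zero]
        · rw [map_sub, map_mul, map_mul C (m i)]
      rw [e2, qf_om (fun i j => C (A i j) - C (a * l ^ 2) * (C (m i) * C (m j))), qf_mul]
    have e3 : lf (fun i => (C (B' i) : MvPolynomial ι S)) X =
        lf (fun i => C (B i)) x - C (2 * (a * l ^ 2) * B i0) * lf (fun k => C (m k)) x := by
      have e2 : (fun i => (C (B' i) : MvPolynomial ι S)) = fun i =>
          if i = i0 then 0 else C (B i) - C (2 * (a * l ^ 2) * B i0) * C (m i) := by
        funext i
        change C (if i = i0 then 0 else B i - 2 * (a * l ^ 2) * B i0 * m i) = _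
        split_ifs
        · rw [map_zero]
        · rw [map_sub, map_mul]
      rw [e2, lf_om (fun i => C (B i) - C (2 * (a * l ^ 2) * B i0) * C (m i)), lf_mul]
    change qf _ _ + lf _ _ + C (c - a * l ^ 2 * B i0 ^ 2) = (_ + _ + _) -
      C (a * l ^ 2) * (lf (fun k => C (m k)) x + C (B i0)) ^ 2
    rw [e1, e3]
    simp only [map_sub, map_mul, map_pow, map_ofNat]
    ring
  refine ⟨A', B', c', C l * L, C v * el i0 (-(C l * L)) (X i0) * L, (NI.cst _ _).mul hL, ?_, ?_, ?_,
    ?_, ?_⟩
  · intro i j hij
    exact if_pos hij
  · exact if_pos rfl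
  · intro i hi j
    have hm : m i = 0 := by
      change A i i0 + A i0 i = 0
      rw [(hi i0).1, (hi i0).2, add_zero]
    constructor
    · change (if i = i0 ∨ j = i0 then 0 else A i j - a * l ^ 2 * (m i * m j)) = 0
      rw [(hi j).1, hm]
      simp
    · change (if j = i0 ∨ i = i0 then 0 else A j i - a * l ^ 2 * (m j * m i)) = 0
      rw [(hi j).2, hm]
      simp
  · intro i hi hBi
    have hm : m i = 0 := by
      change A i i0 + A i0 i = 0
      rw [(hi i0).1, (hi i0).2, add_zero]
    change (if i = i0 then 0 else B i - 2 * (a * l ^ 2) * B i0 * m i) = 0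
    rw [hBi, hm]
    simp
  · rw [h2, elE_apply]
    have e2 : el i0 (C l * L) (X i0) = X i0 + C l * L := by rw [el_X, if_pos rfl]
    have e3 : el i0 (C l * L) L = L := hL _
    have e4 : el i0 (C l * L) r = r := hr _
    have e5 : el i0 (C l * L) (el i0 (-(C l * L)) (X i0)) = X i0 := by
      rw [el_X, if_pos rfl, map_add, e2, map_neg, map_mul, e3, el_C]
      ring
    simp only [map_add, map_sub, map_mul, map_pow, e2, e3, e4, e5, el_C]
    rw [h1]
    have e6 : (C 2 * C a * C l : MvPolynomial ι S) = 1 - C v * C t ^ M := by
      rw [← map_mul, ← map_mul, ← map_pow, ← map_mul, ← map_one C, ← map_sub]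
      congr 1
    have e7 : (C 2 : MvPolynomial ι S) = 2 := map_ofNat _ _
    rw [e7] at e6
    change C a * X i0 ^ 2 + X i0 * L + r = C a * (X i0 + C l * L) ^ 2 +
      (r - C a * C l ^ 2 * L ^ 2) + C t ^ M * (C v * X i0 * L)
    linear_combination (-(X i0 * L)) * e6

/-- The substitution `X j ↦ X j - X i`. -/
lemma beta (A : ι → ι → S) (B : ι → S) (c : S) {i j : ι} (hij : i ≠ j) :
    el j (-(X i)) (qd A B c) = qd (fun k l => A k l - (if l = i then A k j + A j k else 0) +
      (if k = i then if l = i then A j j else 0 else 0)) (fun l => B l - if l = i then B j else 0)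
      c := by
  unfold qd
  rw [map_add, map_add, map_qf, map_lf, el_C]
  have h1 : (fun k => el j (-(X i)) (X k) : ι → MvPolynomial ι S) =
      fun k => X k + if k = j then -(X i) else 0 := by
    funext k
    rw [el_X]
  rw [h1, qf_shift, lf_shift]
  congr 1
  have h2 : (fun k l => (C (A k l - (if l = i then A k j + A j k else 0) +
      (if k = i then if l = i then A j j else 0 else 0)) : MvPolynomial ι S)) =
      fun k l => C (A k l) - (if l = i then C (A k j) + C (A j k) else 0) +
      (if k = i then if l = i then C (A j j) else 0 else 0) := by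
    funext k l
    rw [map_add, map_sub]
    congr 1
    · congr 1
      split_ifs
      · rw [map_add]
      · rw [map_zero]
    · split_ifs
      · rfl
      · rw [map_zero]
      · rw [map_zero]
  rw [h2, qf_beta (fun k l => (C (A k l) : MvPolynomial ι S)) X i j]
  have h3 : lf (fun l => (C (B l - if l = i then B j else 0) : MvPolynomial ι S)) X =
      lf (fun l => C (B l)) X + -(X i) * C (B j) := by
    unfold lf
    have h4 : ∀ l, (C (B l - if l = i then B j else 0) : MvPolynomial ι S) * X l =
        C (B l) * X l - if l = i then C (B j) * X l else 0 := by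
      intro l
      rw [map_sub, sub_mul]
      congr 1
      split_ifs
      · rfl
      · rw [map_zero, zero_mul]
    rw [Finset.sum_congr rfl fun l _ => h4 l, Finset.sum_sub_distrib, Finset.sum_ite_eq'
      Finset.univ, if_pos (Finset.mem_univ _)]
    ring
  rw [h3]

/-- The induction for the normal form. -/
theorem nf_aux [IsDomain S] (t : S) (ht0 : t ≠ 0) (hmax : ∀ a : S, ¬ t ∣ a → ∃ b, t ∣ 1 - a * b)
    (h2 : S) (hh : 2 * h2 = 1) (M : ℕ) (q : MvPolynomial ι S) :
    ∀ (n : ℕ) (P : Finset ι) (m : ℕ) (A : ι → ι → S) (B : ι → S) (c : S) (E : MvPolynomial ι S)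
      (u : ι → S) (e : ι → ℕ) (θ : MvPolynomial ι S ≃ₐ[S] MvPolynomial ι S),
      Pᶜ.card + (M - m) ≤ n → (∀ i ∈ P, ∀ j, A i j = 0 ∧ A j i = 0) → (∀ i ∈ P, B i = 0) →
      (∀ i ∈ P, ¬ t ∣ u i) →
      q = θ (sq t P u e + (C (t ^ m) * qd A B c + C (t ^ M) * E)) → NFm t M q := by
  intro n
  induction n with
  | zero =>
    intro P m A B c E u e θ hn hA hB hu hq
    have hm : M ≤ m := by omega
    refine ⟨θ, P, u, e, hu, Or.inr ⟨C (t ^ (m - M)) * qd A B c + E, ?_⟩⟩
    have h1 : t ^ m = t ^ M * t ^ (m - M) := by rw [← pow_add, Nat.add_sub_cancel' hm]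
    have h5 : C (t ^ m) * qd A B c + C (t ^ M) * E =
        C (t ^ M) * (C (t ^ (m - M)) * qd A B c + E) := by
      rw [h1, map_mul]
      ring
    rw [hq, h5]
  | succ n ih =>
    intro P m A B c E u e θ hn hA hB hu hq
    by_cases hm : M ≤ m
    · refine ⟨θ, P, u, e, hu, Or.inr ⟨C (t ^ (m - M)) * qd A B c + E, ?_⟩⟩
      have h1 : t ^ m = t ^ M * t ^ (m - M) := by rw [← pow_add, Nat.add_sub_cancel' hm]
      have h5 : C (t ^ m) * qd A B c + C (t ^ M) * E =
          C (t ^ M) * (C (t ^ (m - M)) * qd A B c + E) := by
        rw [h1, map_mul]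
        ring
      rw [hq, h5]
    · -- completing a square
      have hstep : ∀ (A : ι → ι → S) (B : ι → S) (E : MvPolynomial ι S)
          (θ : MvPolynomial ι S ≃ₐ[S] MvPolynomial ι S),
          (∀ i ∈ P, ∀ j, A i j = 0 ∧ A j i = 0) → (∀ i ∈ P, B i = 0) →
          q = θ (sq t P u e + (C (t ^ m) * qd A B c + C (t ^ M) * E)) →
          (∃ i0, ¬ t ∣ A i0 i0) → NFm t M q := by
        intro A B E θ hA hB hq hex
        obtain ⟨i0, hi0⟩ := hex
        have hi0P : i0 ∉ P := fun h => hi0 (by rw [(hA i0 h i0).1]; exact dvd_zero t)
        obtain ⟨b, hb⟩ := hmax _ hi0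
        have hcop : IsCoprime (A i0 i0) t := by
          obtain ⟨z, hz⟩ := hb
          exact ⟨b, z, by linear_combination -hz⟩
        obtain ⟨w, v, hwv⟩ := (IsCoprime.pow_right hcop : IsCoprime (A i0 i0) (t ^ M))
        obtain ⟨A', B', c', p, E', hp, hA', hB', hA'', hB'', heq⟩ := alpha t M A B c i0 (h2 * w) v
          (by linear_combination A i0 i0 * w * hh + hwv)
        refine ih (insert i0 P) m A' B' c' (C (t ^ m) * E' + (elE i0 p hp).symm E)
          (fun i => if i = i0 then A i0 i0 else u i) (fun i => if i = i0 then m else e i)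
          ((elE i0 p hp).trans θ) ?_ ?_ ?_ ?_ ?_
        · have h3 : (insert i0 P)ᶜ.card < Pᶜ.card := by
            apply Finset.card_lt_card
            rw [Finset.ssubset_iff_of_subset]
            · exact ⟨i0, by simpa using hi0P, by simp⟩
            · intro x hx
              simp only [Finset.mem_compl, Finset.mem_insert, not_or] at hx ⊢
              exact hx.2
          omega
        · intro i hi j
          rcases Finset.mem_insert.1 hi with rfl | hi
          · exact ⟨hA' _ _ (Or.inl rfl), hA' _ _ (Or.inr rfl)⟩
          · exact hA'' i (hA i hi) j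
        · intro i hi
          rcases Finset.mem_insert.1 hi with rfl | hi
          · exact hB'
          · exact hB'' i (hA i hi) (hB i hi)
        · intro i hi
          rcases Finset.mem_insert.1 hi with h | hi'
          · rw [if_pos h]
            exact hi0
          · rw [if_neg]
            · exact hu i hi'
            · intro h
              exact hi0P (h ▸ hi')
        · have h3 : sq t (insert i0 P) (fun i => if i = i0 then A i0 i0 else u i)
              (fun i => if i = i0 then m else e i) =
              C (t ^ m) * (C (A i0 i0) * X i0 ^ 2) + sq t P u e := by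
            unfold sq
            rw [Finset.sum_insert hi0P]
            beta_reduce
            rw [if_pos rfl, if_pos rfl]
            congr 1
            · rw [map_mul]
              ring
            · refine Finset.sum_congr rfl fun i hi => ?_
              have : i ≠ i0 := by
                rintro rfl
                exact hi0P hi
              rw [if_neg this, if_neg this]
          rw [h3, AlgEquiv.trans_apply, hq, heq]
          congr 1
          have h4 : elE i0 p hp (sq t P u e) = sq t P u e := map_sq t P u e hi0P p
          have h5 : ∀ a : S, elE i0 p hp (C a) = C a := fun a => el_C _ _ a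
          have h6 : elE i0 p hp ((elE i0 p hp).symm E) = E := AlgEquiv.apply_symm_apply _ _
          rw [map_add (elE i0 p hp), map_add (elE i0 p hp), map_mul (elE i0 p hp), h5,
            map_mul (elE i0 p hp) (C (t ^ M)), h5]
          simp only [map_add, map_mul, map_pow, h4, h5, h6]
          ring
      by_cases hα : ∃ i0, ¬ t ∣ A i0 i0
      · exact hstep A B E θ hA hB hq hα
      · push Not at hα
        by_cases hβ : ∃ i j, ¬ t ∣ A i j + A j i
        · obtain ⟨i, j, hij⟩ := hβ
          have hne : i ≠ j := by
            rintro rfl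
            exact hij (dvd_add (hα i) (hα i))
          have hiP : i ∉ P := fun h => hij (by rw [(hA i h j).1, (hA i h j).2]; simp)
          have hjP : j ∉ P := fun h => hij (by rw [(hA j h i).1, (hA j h i).2]; simp)
          have hNI : NI j (X i : MvPolynomial ι S) := NI.var hne
          refine hstep (fun k l => A k l - (if l = i then A k j + A j k else 0) +
            (if k = i then if l = i then A j j else 0 else 0))
            (fun l => B l - if l = i then B j else 0) ((elE j (X i) hNI).symm E)
            ((elE j (X i) hNI).trans θ) ?_ ?_ ?_ ⟨i, ?_⟩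
          · intro k hk l
            have hki : k ≠ i := by
              rintro rfl
              exact hiP hk
            constructor
            · change A k l - (if l = i then A k j + A j k else 0) +
                (if k = i then if l = i then A j j else 0 else 0) = 0
              rw [(hA k hk l).1, (hA k hk j).1, (hA k hk j).2, if_neg hki]
              simp
            · change A l k - (if k = i then A l j + A j l else 0) +
                (if l = i then if k = i then A j j else 0 else 0) = 0
              rw [(hA k hk l).2, if_neg hki, if_neg hki]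
              simp
          · intro k hk
            have hki : k ≠ i := by
              rintro rfl
              exact hiP hk
            change B k - (if k = i then B j else 0) = 0
            rw [if_neg hki, hB k hk, sub_zero]
          · rw [← beta A B c hne, AlgEquiv.trans_apply, hq]
            congr 1
            have h4 : elE j (X i) hNI (sq t P u e) = sq t P u e := map_sq t P u e hjP _
            have h5 : ∀ a : S, elE j (X i) hNI (C a) = C a := fun a => el_C _ _ a
            have h6 : elE j (X i) hNI ((elE j (X i) hNI).symm E) = E :=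
              AlgEquiv.apply_symm_apply _ _
            have h7 : elE j (X i) hNI (el j (-(X i)) (qd A B c)) = qd A B c :=
              (elE j (X i) hNI).apply_symm_apply _
            simp only [map_add, map_mul, h4, h5, h6, h7]
          · change ¬ t ∣ A i i - (if i = i then A i j + A j i else 0) +
              (if i = i then if i = i then A j j else 0 else 0)
            rw [if_pos rfl, if_pos rfl, if_pos rfl]
            intro h
            apply hij
            have h1 := dvd_sub (dvd_add (hα i) (hα j)) h
            have h3 : A i i + A j j - (A i i - (A i j + A j i) + A j j) = A i j + A j i := by ring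
            rwa [h3] at h1
        · push Not at hβ
          choose A1 hA1 using hβ
          have hA1P : ∀ i ∈ P, ∀ j, A1 i j = 0 ∧ A1 j i = 0 := by
            intro i hi j
            constructor
            · have h1 := hA1 i j
              rw [(hA i hi j).1, (hA i hi j).2, add_zero] at h1
              exact (mul_eq_zero.1 h1.symm).resolve_left ht0
            · have h1 := hA1 j i
              rw [(hA i hi j).1, (hA i hi j).2, add_zero] at h1
              exact (mul_eq_zero.1 h1.symm).resolve_left ht0
          have hqf : qf (fun i j => (C (A i j) : MvPolynomial ι S)) X =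
              C t * qf (fun i j => C (h2 * A1 i j)) X := by
            have e1 : (fun i j => (C (A i j) + C (A j i) : MvPolynomial ι S)) =
                fun i j => C t * C (A1 i j) := by
              funext i j
              rw [← map_add, hA1, map_mul]
            have e2 := qf_symm (fun i j => (C (A i j) : MvPolynomial ι S)) X
            rw [e1, qf_smul] at e2
            have e3 : (fun i j => (C (h2 * A1 i j) : MvPolynomial ι S)) =
                fun i j => C h2 * C (A1 i j) := by
              funext i j
              rw [map_mul]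
            rw [e3, qf_smul]
            have e4 : (2 * C h2 : MvPolynomial ι S) = 1 := by
              rw [← map_ofNat (C : S →+* MvPolynomial ι S) 2, ← map_mul, ← map_one C]
              congr 1
            linear_combination (-qf (fun i j => (C (A i j) : MvPolynomial ι S)) X) * e4 -
              C h2 * e2
          by_cases hγ : t ∣ c ∧ ∀ i, t ∣ B i
          · obtain ⟨⟨c1, hc1⟩, hB1⟩ := hγ
            choose B1 hB1 using hB1
            refine ih P (m + 1) (fun i j => h2 * A1 i j) B1 c1 E u e θ (by omega) ?_ ?_ hu ?_
            · intro i hi j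
              rw [(hA1P i hi j).1, (hA1P i hi j).2, mul_zero]
              exact ⟨rfl, rfl⟩
            · intro i hi
              have h1 := hB1 i
              rw [hB i hi] at h1
              exact (mul_eq_zero.1 h1.symm).resolve_left ht0
            · have h1 : qd A B c = C t * qd (fun i j => h2 * A1 i j) B1 c1 := by
                unfold qd
                rw [hqf]
                have e1 : lf (fun i => (C (B i) : MvPolynomial ι S)) X =
                    C t * lf (fun i => C (B1 i)) X := by
                  rw [← lf_smul]
                  congr 1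
                  funext i
                  rw [hB1, map_mul]
                rw [e1, hc1, map_mul]
                ring
              have h5 : C (t ^ m) * qd A B c =
                  C (t ^ (m + 1)) * qd (fun i j => h2 * A1 i j) B1 c1 := by
                rw [h1, pow_succ, map_mul]
                ring
              rw [hq, h5]
          · refine ⟨θ, P, u, e, hu, Or.inl ⟨m, B, c, qf (fun i j => C (h2 * A1 i j)) X +
              C (t ^ (M - m - 1)) * E, hB, ?_, ?_⟩⟩
            · by_cases hc : t ∣ c
              · right
                by_contra hcon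
                push Not at hcon
                exact hγ ⟨hc, hcon⟩
              · exact Or.inl hc
            · have h1 : t ^ M = t ^ m * (t * t ^ (M - m - 1)) := by
                rw [← pow_succ', ← pow_add]
                congr 1
                omega
              have h5 : C (t ^ m) * qd A B c + C (t ^ M) * E = C (t ^ m) *
                  ((lf (fun i => C (B i)) X + C c) + C t * (qf (fun i j => C (h2 * A1 i j)) X +
                    C (t ^ (M - m - 1)) * E)) := by
                rw [h1, qd, hqf]
                simp only [map_mul]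
                ring
              rw [hq, h5]

lemma qd_add (A A' : ι → ι → S) (B B' : ι → S) (c c' : S) :
    qd A B c + qd A' B' c' = qd (fun i j => A i j + A' i j) (fun i => B i + B' i) (c + c') := by
  unfold qd qf lf
  have h1 : ∀ i j, (C (A i j + A' i j) : MvPolynomial ι S) * X i * X j =
      C (A i j) * X i * X j + C (A' i j) * X i * X j := by
    intro i j
    rw [map_add]; ring
  have h2 : ∀ i, (C (B i + B' i) : MvPolynomial ι S) * X i = C (B i) * X i + C (B' i) * X i := by
    intro i
    rw [map_add]; ring
  rw [Finset.sum_congr rfl fun i _ => Finset.sum_congr rfl fun j _ => h1 i j,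
    Finset.sum_congr rfl fun i _ => h2 i, Finset.sum_congr rfl fun i _ => Finset.sum_add_distrib,
    Finset.sum_add_distrib, Finset.sum_add_distrib, map_add]
  ring

lemma qd_zero (c : S) : qd (fun _ _ => 0) (fun _ => 0) c = (C c : MvPolynomial ι S) := by
  unfold qd qf lf
  simp

/-- Polynomials of degree at most two. -/
theorem exists_qd (q : MvPolynomial ι S) (hq : q.totalDegree ≤ 2) :
    ∃ (A : ι → ι → S) (B : ι → S) (c : S), q = qd A B c := by
  classical
  have key : ∀ (s : Finset (ι →₀ ℕ)), (∀ d ∈ s, (d.sum fun _ e => e) ≤ 2) →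
      ∃ (A : ι → ι → S) (B : ι → S) (c : S), ∑ d ∈ s, monomial d (q.coeff d) = qd A B c := by
    intro s
    induction s using Finset.induction_on with
    | empty => exact fun _ => ⟨_, _, 0, by rw [Finset.sum_empty, qd_zero, map_zero]⟩
    | insert d s hd ih =>
      intro hs
      obtain ⟨A, B, c, h1⟩ := ih fun d' hd' => hs d' (Finset.mem_insert_of_mem hd')
      have h2 : ∃ (A' : ι → ι → S) (B' : ι → S) (c' : S), monomial d (q.coeff d) = qd A' B' c' := by
        have hd2 := hs d (Finset.mem_insert_self d s)
        have hX : ∀ i, (X i : MvPolynomial ι S) = monomial (Finsupp.single i 1) 1 := fun i => rfl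
        have hsub : ∀ (d : ι →₀ ℕ) (i : ι), d i ≠ 0 → ∃ d', d = Finsupp.single i 1 + d' ∧
            (d.sum fun _ e => e) = 1 + d'.sum fun _ e => e := by
          intro d i hi
          refine ⟨d - Finsupp.single i 1, ?_, ?_⟩
          · rw [add_tsub_cancel_of_le]
            rw [Finsupp.single_le_iff]
            omega
          · conv_lhs => rw [show d = Finsupp.single i 1 + (d - Finsupp.single i 1) by
              rw [add_tsub_cancel_of_le]
              rw [Finsupp.single_le_iff]
              omega]
            rw [Finsupp.sum_add_index' (fun _ => rfl) (fun _ _ _ => rfl),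
              Finsupp.sum_single_index rfl]
        have hzero : ∀ d : ι →₀ ℕ, (d.sum fun _ e => e) = 0 → d = 0 := by
          intro d h
          ext i
          by_contra hi
          obtain ⟨d', h3, h4⟩ := hsub d i hi
          omega
        by_cases h0 : d = 0
        · refine ⟨fun _ _ => 0, fun _ => 0, q.coeff d, ?_⟩
          rw [qd_zero, h0]
          rfl
        · obtain ⟨i, hi⟩ : ∃ i, d i ≠ 0 := by
            by_contra hcon
            push Not at hcon
            exact h0 (Finsupp.ext hcon)
          obtain ⟨d', hd', hs'⟩ := hsub d i hi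
          by_cases h0' : d' = 0
          · refine ⟨fun _ _ => 0, fun k => if k = i then q.coeff d else 0, 0, ?_⟩
            have e1 : (monomial d (q.coeff d) : MvPolynomial ι S) = C (q.coeff d) * X i := by
              rw [hX, C_mul_monomial, mul_one]
              congr 1
              rw [hd', h0', add_zero]
            rw [e1]
            unfold qd qf lf
            have e2 : ∀ k, (C (if k = i then q.coeff d else 0) : MvPolynomial ι S) * X k =
                if k = i then C (q.coeff d) * X k else 0 := by
              intro k
              split_ifs <;> simp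
            rw [Finset.sum_congr rfl fun k _ => e2 k, Finset.sum_ite_eq' Finset.univ,
              if_pos (Finset.mem_univ _)]
            simp
          · obtain ⟨j, hj⟩ : ∃ j, d' j ≠ 0 := by
              by_contra hcon
              push Not at hcon
              exact h0' (Finsupp.ext hcon)
            obtain ⟨d'', hd'', hs''⟩ := hsub d' j hj
            have h0'' : d'' = 0 := hzero _ (by omega)
            refine ⟨fun k l => if k = i then if l = j then q.coeff d else 0 else 0, fun _ => 0, 0,
              ?_⟩
            have e1 : (monomial d (q.coeff d) : MvPolynomial ι S) =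
                C (q.coeff d) * X i * X j := by
              rw [hX, hX, C_mul_monomial, mul_one, monomial_mul, mul_one]
              congr 1
              rw [hd', hd'', h0'', add_zero]
            rw [e1]
            unfold qd qf lf
            have e2 : ∀ k l, (C (if k = i then if l = j then q.coeff d else 0 else 0) :
                MvPolynomial ι S) * X k * X l =
                if l = j then if k = i then C (q.coeff d) * X k * X l else 0 else 0 := by
              intro k l
              split_ifs <;> simp
            rw [Finset.sum_congr rfl fun k _ => Finset.sum_congr rfl fun l _ => e2 k l,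
              Finset.sum_congr rfl fun k _ => Finset.sum_ite_eq' Finset.univ j _]
            simp
      obtain ⟨A', B', c', h2⟩ := h2
      exact ⟨_, _, _, by rw [Finset.sum_insert hd, h1, h2, qd_add]⟩
  obtain ⟨A, B, c, h⟩ := key q.support fun d hd => (le_totalDegree hd).trans hq
  exact ⟨A, B, c, by rw [← h]; exact q.as_sum⟩

/-- The normal form of a polynomial of degree at most two. -/
theorem exists_nf [IsDomain S] (t : S) (ht0 : t ≠ 0)
    (hmax : ∀ a : S, ¬ t ∣ a → ∃ b, t ∣ 1 - a * b) (h2 : S) (hh : 2 * h2 = 1) (M : ℕ)
    (q : MvPolynomial ι S) (hq : q.totalDegree ≤ 2) : NFm t M q := by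
  obtain ⟨A, B, c, rfl⟩ := exists_qd q hq
  refine nf_aux t ht0 hmax h2 hh M _ _ ∅ 0 A B c 0 (fun _ => 0) (fun _ => 0) AlgEquiv.refl le_rfl
    (by simp) (by simp) (by simp) ?_
  rw [sq, Finset.sum_empty, pow_zero, map_one, one_mul, mul_zero, add_zero, zero_add]
  rfl

end el

end Pool.Agent.K6.H44.VT
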