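import Pool.Agent.K6.H44.VT.Der
import Pool.Agent.K6.H44.VT.Quad

/-!
# The vertical modification of a nondegenerate hypersurface
-/

set_option autoImplicit false
set_option linter.unusedVariables false
set_option linter.unusedSimpArgs false
set_option linter.unusedSectionVars false

universe u v

open Pool.Agent.W558 Pool.Agent.W973.CUT

namespace Pool.Agent.K6.H44.VT

section local'

variable {k L K S : Type u} [Field k] [Field L] [Algebra k L] [Field K] [Algebra k K]
  [CommRing S] [IsDomain S] [Algebra k S] [Algebra.Smooth k S]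
  {I J : Type} [Fintype I] [Fintype J] {A0 : Subalgebra k L} {Q : Subalgebra k L} (π : Q →ₐ[k] K)

/-- The hypotheses on the equation. -/
structure EqH (t : S) (a : J → ℕ) (b : J → I → ℕ) (u : J → S) (N : ℕ) (G0 : S)
    (G1 : MvPolynomial I S) : Prop where
  t0 : t ≠ 0
  tu : ¬ IsUnit t
  hT : ∀ (κ : Type u) [Field κ] [Algebra k κ] (φ : S →ₐ[k] κ), φ t = 0 → ∃ D : TV φ, D.D t ≠ 0
  hu : ∀ (κ : Type u) [Field κ] [Algebra k κ] (φ : S →ₐ[k] κ), φ t = 0 → ∀ j, φ (u j) ≠ 0
  hG : ∀ (κ : Type u) [Field κ] [Algebra k κ] (φ : S →ₐ[k] κ), φ t = 0 → φ G0 = 0 →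
      ∃ D : TV φ, D.D t = 0 ∧ D.D G0 ≠ 0
  hind : ∀ (κ : Type u) [Field κ] [Algebra k κ] (c : J → κ), ∃ w : I → κ, ∀ j,
      ∑ i, (b j i : κ) * w i = c j
  hgen : ∀ (κ : Type u) [Field κ] [Algebra k κ] (φ : MvPolynomial I S →ₐ[k] κ),
      φ (eqn t a b u N G0 G1) = 0 → φ (MvPolynomial.C t) ≠ 0 →
      ∃ D : TV φ, D.D (eqn t a b u N G0 G1) ≠ 0

lemma eqn_zero {t : S} {a : J → ℕ} {b : J → I → ℕ} {u : J → S} {N : ℕ} {G0 : S}
    {G1 : MvPolynomial I S} (h : EqH (k := k) t a b u N G0 G1) :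
    MvPolynomial.aeval (fun _ : I => (0 : S)) (eqn t a b u N G0 G1) ≠ 0 := by
  classical
  have hb : ∀ j, ∃ i, b j i ≠ 0 := by
    intro j
    by_contra hcon
    push Not at hcon
    obtain ⟨w, hw⟩ := h.hind k (fun _ => 1)
    have := hw j
    rw [Finset.sum_eq_zero] at this
    · exact zero_ne_one this
    · intro i _
      rw [hcon i]
      simp
  have h1 : MvPolynomial.aeval (fun _ : I => (0 : S)) (eqn t a b u N G0 G1) =
      t ^ N * (G0 + t * MvPolynomial.aeval (fun _ : I => (0 : S)) G1) := by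
    unfold eqn
    rw [map_add, map_sum, Finset.sum_eq_zero, zero_add, map_mul, map_add, map_mul]
    · simp only [MvPolynomial.aeval_C, Algebra.algebraMap_self, RingHom.id_apply]
    · intro j _
      obtain ⟨i, hi⟩ := hb j
      rw [map_mul, map_prod, Finset.prod_eq_zero (Finset.mem_univ i), mul_zero]
      rw [map_pow, MvPolynomial.aeval_X, zero_pow hi]
  rw [h1]
  intro h2
  have h3 := (mul_eq_zero.1 h2).resolve_left (pow_ne_zero N h.t0)
  -- a point of the divisor
  obtain ⟨m, hm, htm⟩ := exists_max_ideal_of_mem_nonunits h.tu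
  let _ : Field (S ⧸ m) := Ideal.Quotient.field m
  let φ : S →ₐ[k] S ⧸ m := Ideal.Quotient.mkₐ k m
  have hφ : φ t = 0 := Ideal.Quotient.eq_zero_iff_mem.2 htm
  have hφG : φ G0 = 0 := by
    have h4 : G0 = -(t * MvPolynomial.aeval (fun _ : I => (0 : S)) G1) :=
      eq_neg_of_add_eq_zero_left h3
    rw [h4, map_neg, map_mul, hφ, zero_mul, neg_zero]
  obtain ⟨D, hD1, hD2⟩ := h.hG (S ⧸ m) φ hφ hφG
  apply hD2
  have h4 : G0 = -(t * MvPolynomial.aeval (fun _ : I => (0 : S)) G1) :=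
    eq_neg_of_add_eq_zero_left h3
  rw [h4, map_neg, D.leib, hφ, hD1]
  simp

/-- The vertical modification of a nondegenerate hypersurface. -/
theorem local_vatl (e : MvPolynomial I S ≃ₐ[k] A0) (t : S) (a : J → ℕ) (b : J → I → ℕ)
    (u : J → S) (N : ℕ) (G0 : S) (G1 : MvPolynomial I S)
    (h : EqH (k := k) t a b u N G0 G1) (hA0Q : A0 ≤ Q)
    (ht : pq π ((e (MvPolynomial.C t) : A0) : L) ≠ 0)
    (hf : pq π ((e (eqn t a b u N G0 G1) : A0) : L) = 0)
    (hker0 : ∀ x ∈ A0, pq π x = 0 → ∃ y ∈ A0, x = ((e (eqn t a b u N G0 G1) : A0) : L) * y)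
    (hQ : ∀ x : L, x ∈ Q ∨ x⁻¹ ∈ Q) (hQ' : ∀ b ∈ Q, pq π b ≠ 0 → b⁻¹ ∈ Q) :
    ∃ (T : Type) (_ : Finite T) (C : T → Subalgebra k K) (H : T → K),
      VAtl (im π A0 hA0Q) (pq π ((e (MvPolynomial.C t) : A0) : L)) T C H := by
  classical
  obtain ⟨S0⟩ := exists_base e t h.t0 h.hT
  have hnd := nd_of (L := L) e t h.t0 a b u N G0 G1 h.hu h.hG h.hind h.hgen
  have hF0 := eqn_zero h
  have hFne : eqn t a b u N G0 G1 ≠ 0 := by
    intro h0
    rw [h0, map_zero] at hF0
    exact hF0 rfl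
  have hg0 : ∀ o, gg e t o ≠ 0 := by
    rintro (_ | i)
    · intro h0
      have h1 : e (MvPolynomial.C t) = 0 := Subtype.ext h0
      rw [map_eq_zero_iff _ e.injective, MvPolynomial.C_eq_zero] at h1
      exact h.t0 h1
    · intro h0
      have h1 : e (MvPolynomial.X i) = 0 := Subtype.ext h0
      rw [map_eq_zero_iff _ e.injective] at h1
      exact MvPolynomial.X_ne_zero i h1
  refine exists_vatl π hg0 hnd S0 hA0Q ?_ ?_ hf hker0 hQ hQ'
  · rintro (_ | i)
    · exact ht
    · intro h0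
      obtain ⟨y, hy, hxy⟩ := hker0 _ (e (MvPolynomial.X i)).2 h0
      obtain ⟨z, hz⟩ : ∃ z, e z = ⟨y, hy⟩ := e.surjective _
      have h1 : MvPolynomial.X i = eqn t a b u N G0 G1 * z := by
        apply e.injective
        apply Subtype.ext
        rw [map_mul, hz]
        exact hxy
      have hp : Prime (MvPolynomial.X i : MvPolynomial I S) := MvPolynomial.X_prime
      rcases hp.2.2 _ _ (dvd_of_eq h1) with h2 | h2
      · obtain ⟨w, hw⟩ := h2
        apply hF0
        rw [hw, map_mul, MvPolynomial.aeval_X, zero_mul]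
      · obtain ⟨w, hw⟩ := h2
        have h3 : eqn t a b u N G0 G1 * w = 1 := by
          apply mul_left_cancel₀ hp.ne_zero
          rw [mul_one]
          conv_rhs => rw [h1]
          rw [hw]
          ring
        have h4 : (((e (eqn t a b u N G0 G1) : A0) : L)) * ((e w : A0) : L) = 1 := by
          have := congrArg (fun z => ((e z : A0) : L)) h3
          simpa using this
        have h5 := pq_mul π (hA0Q (e (eqn t a b u N G0 G1)).2) (hA0Q (e w).2)
        rw [h4, hf, zero_mul, pq_one] at h5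
        exact one_ne_zero h5
  · intro h0
    have h1 : e (eqn t a b u N G0 G1) = 0 := Subtype.ext h0
    rw [map_eq_zero_iff _ e.injective] at h1
    exact hFne h1

end local'

end Pool.Agent.K6.H44.VT
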