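import Pool.Agent.K6.H44.VT.Global

/-!
# Resolution of singularities of families of quadrics over a curve
-/

set_option autoImplicit false
set_option linter.unusedVariables false
set_option linter.unusedSimpArgs false
set_option linter.unusedSectionVars false

universe u v

open Pool.Agent.W558 Pool.Agent.W973.CUT MvPolynomial

namespace Pool.Agent.K6.H44.VT

section glue'

variable {k K : Type u} [Field k] [Field K] [Algebra k K]

theorem glue' (A : Subalgebra k K) {Ω : Type} [Finite Ω] (B : Ω → Subalgebra k K) (g s : Ω → K)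
    (h : ∀ ω, ∃ (T : Type) (_ : Finite T) (C : T → Subalgebra k K) (H : T → K),
      Patch A (B ω) (g ω) (s ω) T C H)
    (hcov : ∀ V : ValuationSubring K, (∀ a ∈ A, a ∈ V) → ∃ ω, (g ω)⁻¹ ∈ V)
    (hov : ∀ ω ω', ω ≠ ω' → ∃ N : ℕ, (g ω * g ω') ^ N / s ω ∈ A) :
    ∃ (T : Type) (_ : Finite T) (C : T → Subalgebra k K) (H : T → K), Atl (A.val) C H := by
  choose T fT C H hP using h
  obtain ⟨H', hH'⟩ := glue A B g s T C H hP hcov hov
  exact ⟨_, inferInstance, _, H', hH'⟩

lemma atl_of_range {A' : Type u} [CommRing A'] [Algebra k A'] (f : A' →ₐ[k] K) (A : Subalgebra k K)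
    (hA : f.range = A) {T : Type} {C : T → Subalgebra k K} {H : T → K} (h : Atl (A.val) C H) :
    Atl f C H where
  sm := h.sm
  aa := fun t a => by
    have h1 : f a ∈ A := by rw [← hA]; exact ⟨a, rfl⟩
    exact h.aa t ⟨f a, h1⟩
  H0 := h.H0
  hA := fun t => by
    obtain ⟨⟨b, hb⟩, h1⟩ := h.hA t
    rw [← hA] at hb
    obtain ⟨a, rfl⟩ := hb
    exact ⟨a, h1⟩
  rt := h.rt
  gl := h.gl
  dn := fun t x hx => by
    obtain ⟨n, ⟨b, hb⟩, h1⟩ := h.dn t x hx
    rw [← hA] at hb
    obtain ⟨a, rfl⟩ := hb
    exact ⟨n, a, h1⟩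
  cv := fun V hV => h.cv V fun a => by
    have h1 : (a : K) ∈ f.range := by rw [hA]; exact a.2
    obtain ⟨b, hb⟩ := h1
    have h2 := hV b
    rw [show f b = (a : K) from hb] at h2
    exact h2

end glue'

open IsDedekindDomain in
/-- Resolution of singularities for families of quadrics over a curve. -/
theorem quadric_main {k R : Type u} [Field k] [PerfectField k] (h2k : (2 : k) ≠ 0) [CommRing R]
    [IsDedekindDomain R] [Algebra k R] [Algebra.Smooth k R] {ι Λ J : Type} [Fintype ι]
    [Fintype Λ] [Fintype J] (q : MvPolynomial ι R) (hq : q.totalDegree ≤ 2) (c : J → R)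
    (hc : ∀ j, c j ≠ 0) (b : J → Λ → ℕ)
    (hind : ∀ (κ : Type u) [Field κ] [Algebra k κ] (c : J → κ), ∃ w : Λ → κ, ∀ j,
      ∑ i, (b j i : κ) * w i = c j)
    (hprime : (Ideal.span {bigF q c b}).IsPrime) (hcst : ∀ r : R, bigF q c b ≠ C r)
    (h : R) (h0 : h ≠ 0) (hhq : C h ∈ Ideal.span ({q} ∪ Set.range fun i => pderiv i q)) :
    Pool.Agent.H920R2.HasResolution
      (X := AlgebraicGeometry.Spec (CommRingCat.of (MvPolynomial (ι ⊕ Λ) R ⧸
        Ideal.span {bigF q c b})))
      (AlgebraicGeometry.Spec.map (CommRingCat.ofHom (algebraMap k _))) := by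
  classical
  have hh : C h ∈ Ideal.span ({bigF q c b} ∪ Set.range fun i => pderiv i (bigF q c b)) := by
    have h1 := mem_bigF (k := k) q c b (hind k) _ hhq
    rwa [rename_C] at h1
  let F := bigF q c b
  let Pol := MvPolynomial (ι ⊕ Λ) R
  let A := Pol ⧸ Ideal.span {F}
  have hdA : IsDomain A := Ideal.Quotient.isDomain _
  let K := FractionRing A
  let L := FractionRing Pol
  have hRn : IsNoetherianRing R := inferInstance
  have hPn : IsNoetherianRing Pol := inferInstance
  let fA : A →ₐ[k] K := IsScalarTower.toAlgHom k A K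
  have hfA : Function.Injective fA := IsFractionRing.injective A K
  let ev : Pol →ₐ[k] K := fA.comp (Ideal.Quotient.mkₐ k (Ideal.span {F}))
  have hF0 : F ≠ 0 := by
    intro h1
    exact hcst 0 (by rw [map_zero]; exact h1)
  have hker : ∀ p, ev p = 0 ↔ F ∣ p := by
    intro p
    change fA (Ideal.Quotient.mk _ p) = 0 ↔ _
    rw [map_eq_zero_iff _ hfA, Ideal.Quotient.eq_zero_iff_mem, Ideal.mem_span_singleton]
  have hconst : ∀ r : R, r ≠ 0 → ev (C r) ≠ 0 := by
    intro r hr h1
    obtain ⟨G, hG⟩ := (hker _).1 h1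
    have hG0 : G ≠ 0 := by
      rintro rfl
      rw [mul_zero, C_eq_zero] at hG
      exact hr hG
    have h2 : (C r : Pol).totalDegree = F.totalDegree + G.totalDegree := by
      rw [hG]
      exact totalDegree_mul_of_isDomain hF0 hG0
    rw [totalDegree_C] at h2
    have h3 : F.totalDegree = 0 := by omega
    rw [totalDegree_eq_zero_iff_eq_C] at h3
    exact hcst _ h3
  obtain ⟨Q, π, hQ, hQ', hev⟩ := exists_loc (K' := L) ev F hF0 hker
  obtain ⟨m, v, t, g, hv, hv', htv, ht0, hgv, hgt, hgw⟩ := exists_patches h h0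
  have hg0 : ∀ i, g i ≠ 0 := by
    intro i h1
    apply hgv i
    rw [h1]
    exact Submodule.zero_mem _
  have hbad := fun i => bad_vatl (L := L) (K := K) (ev := ev) (Q := Q) (π := π) h2k q hq c hc b
    hind hker hconst hQ hQ' hev h0 hhq (v i) (t i) (g i) (htv i) (ht0 i) (hgv i) (hgt i) (by
      intro w hw hne
      obtain ⟨j, rfl⟩ := hv' w hw
      exact hgw i j (fun h1 => hne (by rw [h1])))
  choose A0 hA0Q T fT C' H hA0 hvat using hbad
  obtain ⟨An, en, hen, hAn⟩ := exists_away (k := k) (σ := ι ⊕ Λ) (L := L) h h0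
  have hAnQ := away_le hQ' hev (hconst h h0) hAn
  have hsm := away_smooth hF0 hker hQ' hev h0 hh (hconst h h0) en hen hAn hAnQ
  obtain ⟨T', fT', C'', H', hatl⟩ := glue' ev.range (Ω := Option (Fin m))
    (fun ω => ω.elim (im π An hAnQ) (fun i => im π (A0 i) (hA0Q i)))
    (fun ω => ω.elim (ev (C h)) (fun i => ev (C (g i))))
    (fun ω => ω.elim (ev (C 1)) (fun i => ev (C (t i)))) (by
      rintro (_ | i)
      · exact ⟨Unit, inferInstance, _, _, away_patch hQ' hev (hconst h h0)
          (hconst 1 one_ne_zero) hAn hAnQ (vatl_triv _ _)⟩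
      · exact ⟨T i, fT i, C' i, H i, away_patch hQ' hev (hconst _ (hg0 i))
          (hconst _ (ht0 i)) (hA0 i) (hA0Q i) (hvat i)⟩) (by
      intro V hV
      by_contra hcon
      push Not at hcon
      -- the ideal generated by the functions of the patches
      let I : Ideal R := Ideal.span (Set.range fun ω : Option (Fin m) => ω.elim h g)
      have hI : I = ⊤ := by
        by_contra hne
        obtain ⟨M, hM, hle⟩ := Ideal.exists_le_maximal I hne
        have h1 : ∀ ω : Option (Fin m), ω.elim h g ∈ M := fun ω =>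
          hle (Ideal.subset_span ⟨ω, rfl⟩)
        have hMb : M ≠ ⊥ := by
          intro h2
          have h3 := h1 none
          rw [h2, Ideal.mem_bot] at h3
          exact h0 h3
        obtain ⟨i, hi⟩ := hv' ⟨M, hM.isPrime, hMb⟩ (h1 none)
        apply hgv i
        rw [hi]
        exact h1 (some i)
      have hval : ∀ x ∈ I, V.valuation (ev (C x)) < 1 := by
        intro x hx
        refine Submodule.span_induction ?_ ?_ ?_ ?_ hx
        · rintro _ ⟨ω, rfl⟩
          have h1 := hcon ω
          have h2 : ω.elim (ev (C h)) (fun i => ev (C (g i))) = ev (C (ω.elim h g)) := by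
            cases ω <;> rfl
          rw [h2, ← V.valuation_le_one_iff, map_inv₀, not_le] at h1
          have h4 : V.valuation (ev (C (ω.elim h g))) ≠ 0 := by
            rw [ne_eq, map_eq_zero]
            intro h5
            rw [h5, map_zero, inv_zero] at h1
            exact absurd h1 (by simp)
          exact (one_lt_inv₀ (zero_lt_iff.2 h4)).1 h1
        · rw [map_zero, map_zero, map_zero]
          exact zero_lt_one
        · intro x y _ _ hx hy
          rw [map_add, map_add]
          exact Valuation.map_add_lt _ hx hy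
        · intro a x _ hx
          rw [smul_eq_mul, map_mul, map_mul, map_mul]
          exact (mul_le_of_le_one_left' ((V.valuation_le_one_iff _).2
            (hV _ ⟨C a, rfl⟩))).trans_lt hx
      have h1 := hval 1 (by rw [hI]; trivial)
      rw [map_one, map_one, map_one] at h1
      exact lt_irrefl _ h1) (by
      rintro (_ | i) ω hne
      · refine ⟨0, ?_⟩
        change _ / ev (C 1) ∈ _
        rw [pow_zero, map_one, map_one, div_one]
        exact Subalgebra.one_mem _
      · refine ⟨1, ?_⟩
        have h1 : ∀ z ∈ (v i).asIdeal, (ev (C (g i)) * ev (C z)) ^ 1 / ev (C (t i)) ∈ ev.range := by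
          intro z hz
          obtain ⟨y, hy⟩ := hgt i z hz
          refine ⟨C y, ?_⟩
          have h2 := hconst _ (ht0 i)
          have h3 : ev (C (g i)) * ev (C z) = ev (C (t i)) * ev (C y) := by
            rw [← map_mul, ← map_mul, ← map_mul, ← map_mul, hy]
          rw [pow_one, h3, mul_div_cancel_left₀ _ h2]
          rfl
        rcases ω with _ | j
        · exact h1 h (hv i)
        · refine h1 (g j) (hgw j i ?_)
          intro h2
          exact hne (by rw [h2]))
  have hrange : fA.range = ev.range := by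
    ext x
    constructor
    · rintro ⟨a, rfl⟩
      obtain ⟨p, rfl⟩ := Ideal.Quotient.mk_surjective a
      exact ⟨p, rfl⟩
    · rintro ⟨p, rfl⟩
      exact ⟨_, rfl⟩
  exact hasResolution_of_atl fA hfA (atl_of_range fA _ hrange hatl)

end Pool.Agent.K6.H44.VT
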