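import Pool.Agent.K6.H44.VT.Loc

/-!
# Nondegenerate hypersurfaces in affine spaces over a smooth base
-/

set_option autoImplicit false
set_option linter.unusedVariables false
set_option linter.unusedSimpArgs false
set_option linter.unusedSectionVars false

universe u v

open Pool.Agent.W558 Pool.Agent.W973.CUT

namespace Pool.Agent.K6.H44.VT

section tv

variable {k S κ : Type u} [Field k] [CommRing S] [Algebra k S] [Field κ] [Algebra k κ]
  {σ : Type}

/-- The inclusion of the constants. -/
noncomputable def cS (k : Type u) [Field k] (S : Type u) [CommRing S] [Algebra k S] (σ : Type) :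
    S →ₐ[k] MvPolynomial σ S := IsScalarTower.toAlgHom k S (MvPolynomial σ S)

lemma cS_apply (s : S) : cS k S σ s = MvPolynomial.C s := rfl

/-- Extension of tangent vectors to polynomials. -/
theorem TV.mv (φ : MvPolynomial σ S →ₐ[k] κ) (D : TV (φ.comp (cS k S σ))) (c : σ → κ) :
    ∃ E : TV φ, (∀ s, E.D (MvPolynomial.C s) = D.D s) ∧ ∀ i, E.D (MvPolynomial.X i) = c i := by
  let ψ : MvPolynomial σ S →+* TrivSqZeroExt κ κ :=
    MvPolynomial.eval₂Hom (D.dual : S →+* TrivSqZeroExt κ κ)
      (fun i => TrivSqZeroExt.inl (φ (MvPolynomial.X i)) + TrivSqZeroExt.inr (c i))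
  let ψ' : MvPolynomial σ S →ₐ[k] TrivSqZeroExt κ κ :=
    { ψ with
      commutes' := by
        intro r
        change ψ (MvPolynomial.C (algebraMap k S r)) = _
        change MvPolynomial.eval₂Hom _ _ _ = _
        rw [MvPolynomial.eval₂Hom_C]
        exact D.dual.commutes r }
  have hC : ∀ s, ψ' (MvPolynomial.C s) = D.dual s := fun s => MvPolynomial.eval₂Hom_C _ _ s
  have hX : ∀ i, ψ' (MvPolynomial.X i) = TrivSqZeroExt.inl (φ (MvPolynomial.X i)) +
    TrivSqZeroExt.inr (c i) := fun i => MvPolynomial.eval₂Hom_X' _ _ i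
  have h1 : ∀ p, (ψ' p).fst = φ p := by
    have h2 : (TrivSqZeroExt.fstHom k κ κ).toRingHom.comp (ψ : MvPolynomial σ S →+* _) =
        (φ : MvPolynomial σ S →+* κ) := by
      apply MvPolynomial.ringHom_ext
      · intro s
        change (ψ' (MvPolynomial.C s)).fst = φ (MvPolynomial.C s)
        rw [hC, TV.dual_fst]
        rfl
      · intro i
        change (ψ' (MvPolynomial.X i)).fst = φ (MvPolynomial.X i)
        rw [hX]
        simp
    exact fun p => congrArg (fun f : MvPolynomial σ S →+* κ => f p) h2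
  refine ⟨TV.ofDual φ ψ' h1, fun s => ?_, fun i => ?_⟩
  · rw [TV.ofDual_D, hC, TV.dual_snd]
  · rw [TV.ofDual_D, hX]
    simp

/-- Derivations as tangent vectors. -/
def TV.ofDer {A : Type u} [CommRing A] [Algebra k A] (φ : A →ₐ[k] κ) (d : A → A)
    (h1 : ∀ a b, d (a + b) = d a + d b) (h2 : ∀ (c : k) a, d (c • a) = c • d a)
    (h3 : ∀ a b, d (a * b) = a * d b + b * d a) : TV φ where
  D := { toFun := fun a => φ (d a)
         map_add' := fun a b => by rw [h1, map_add]
         map_smul' := fun c a => by rw [h2, map_smul]; rfl }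
  leib := fun a b => by
    change φ (d (a * b)) = φ a * φ (d b) + φ b * φ (d a)
    rw [h3, map_add, map_mul, map_mul]

/-- Transport along an isomorphism. -/
theorem TV.equiv {A B : Type u} [CommRing A] [Algebra k A] [CommRing B] [Algebra k B]
    (e : A ≃ₐ[k] B) (φ : B →ₐ[k] κ) (D : TV (φ.comp (e : A →ₐ[k] B))) :
    ∃ E : TV φ, ∀ a, E.D (e a) = D.D a := by
  refine ⟨(TV.restr (e.symm : B →ₐ[k] A) D).cast ?_, fun a => ?_⟩
  · intro b
    change φ (e (e.symm b)) = φ b
    rw [AlgEquiv.apply_symm_apply]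
  · rw [TV.cast_D, TV.restr_D]
    change D.D (e.symm (e a)) = D.D a
    rw [AlgEquiv.symm_apply_apply]

end tv

lemma smooth_mv {k S : Type u} [Field k] [CommRing S] [Algebra k S] [Algebra.Smooth k S]
    {I : Type} [Finite I] : Algebra.Smooth k (MvPolynomial I S) := by
  have hsm1 : Algebra.Smooth S (MvPolynomial I S) := ⟨inferInstance, inferInstance⟩
  exact Algebra.Smooth.comp k S (MvPolynomial I S)

section nd

variable {k L S : Type u} [Field k] [Field L] [Algebra k L] [CommRing S] [IsDomain S] [Algebra k S]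
  {I J : Type} [Fintype I] [Fintype J] {A0 : Subalgebra k L}

/-- The boundary: the function `t` and the coordinates. -/
noncomputable def gg (e : MvPolynomial I S ≃ₐ[k] A0) (t : S) : Option I → L
  | none => e (MvPolynomial.C t)
  | some i => e (MvPolynomial.X i)

/-- The exponents. -/
def mu (a : J → ℕ) (b : J → I → ℕ) : J → Option I → ℕ
  | j, none => a j
  | j, some i => b j i

open Classical in
/-- The modification of the affine space over `S` which is trivial. -/
theorem exists_base [Algebra.Smooth k S] (e : MvPolynomial I S ≃ₐ[k] A0) (t : S) (ht0 : t ≠ 0)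
    (hT : ∀ (κ : Type u) [Field κ] [Algebra k κ] (φ : S →ₐ[k] κ), φ t = 0 →
      ∃ D : TV φ, D.D t ≠ 0) : Nonempty (St A0 (gg e t) none) := by
  have hsm2 : Algebra.Smooth k (MvPolynomial I S) := smooth_mv
  have hsm : Algebra.Smooth k A0 := Algebra.Smooth.of_equiv e
  have hgA : ∀ o, gg e t o ∈ A0 := by
    rintro (_ | i)
    · exact (e (MvPolynomial.C t)).2
    · exact (e (MvPolynomial.X i)).2
  have hg0 : ∀ o, gg e t o ≠ 0 := by
    rintro (_ | i)
    · intro h0
      have h1 : e (MvPolynomial.C t) = 0 := Subtype.ext h0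
      rw [map_eq_zero_iff _ e.injective, MvPolynomial.C_eq_zero] at h1
      exact ht0 h1
    · intro h0
      have h1 : e (MvPolynomial.X i) = 0 := Subtype.ext h0
      rw [map_eq_zero_iff _ e.injective] at h1
      exact MvPolynomial.X_ne_zero i h1
  have hsnc : SNC A0 (gg e t) := by
    intro κ _ _ φ o ho hφ
    let φ' : MvPolynomial I S →ₐ[k] κ := φ.comp (e : MvPolynomial I S →ₐ[k] A0)
    cases o with
    | none =>
      obtain ⟨D, hD⟩ := hT κ (φ'.comp (cS k S I)) (by
        change φ (e (MvPolynomial.C t)) = 0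
        exact hφ)
      obtain ⟨E, hE1, hE2⟩ := TV.mv φ' (TV.comb (D.D t)⁻¹ 0 D D) (fun _ => 0)
      obtain ⟨E', hE'⟩ := TV.equiv e φ E
      refine ⟨E', ?_, ?_⟩
      · change E'.D (e (MvPolynomial.C t)) = 1
        rw [hE', hE1, TV.comb_D]
        field_simp
        ring
      · rintro (_ | i) hj hne hφj
        · exact absurd rfl hne
        · change E'.D (e (MvPolynomial.X i)) = 0
          rw [hE', hE2]
    | some i =>
      obtain ⟨E, hE1, hE2⟩ := TV.mv φ' (TV.zero _) (Pi.single i 1)
      obtain ⟨E', hE'⟩ := TV.equiv e φ E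
      refine ⟨E', ?_, ?_⟩
      · change E'.D (e (MvPolynomial.X i)) = 1
        rw [hE', hE2, Pi.single_eq_same]
      · rintro (_ | j) hj hne hφj
        · change E'.D (e (MvPolynomial.C t)) = 0
          rw [hE', hE1, TV.zero_D]
        · change E'.D (e (MvPolynomial.X j)) = 0
          rw [hE', hE2, Pi.single_eq_of_ne]
          intro h
          exact hne (by rw [h])
  let M : LM A0 A0 Unit (Option I) :=
    { A := fun _ => A0
      H := fun _ => 1
      x := fun _ => gg e t
      sm := fun _ => hsm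
      base := fun _ => le_rfl
      H0 := fun _ => one_ne_zero
      HR := fun _ => A0.one_mem
      rt := fun _ _ => by rw [div_one]; exact A0.one_mem
      gl := fun _ _ f hf => ⟨0, by rwa [pow_zero, one_mul]⟩
      dn := fun _ f hf => ⟨0, by rwa [pow_zero, one_mul]⟩
      cv := fun V hV => ⟨(), hV⟩
      xA := fun _ i => hgA i
      x0 := fun _ i => hg0 i
      gi := fun _ _ i => ⟨0, by rw [div_self (hg0 i), mul_one, pow_zero]; exact A0.one_mem⟩
      snc := fun _ => hsnc }
  let Γ : Option I → Option I → ℤ := fun a i => if i = a then 1 else 0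
  have hwf : ∀ (t' : Unit) a, wf M.x (gg e t) Γ t' a = 1 := by
    intro t' a
    have h1 : ∏ i, M.x t' i ^ Γ a i = gg e t a := by
      rw [Finset.prod_eq_single a]
      · change gg e t a ^ (if a = a then (1 : ℤ) else 0) = _
        rw [if_pos rfl, zpow_one]
      · intro b _ hb
        change gg e t b ^ (if b = a then (1 : ℤ) else 0) = 1
        rw [if_neg hb, zpow_zero]
      · intro h; exact absurd (Finset.mem_univ _) h
    rw [wf, h1, mul_inv_cancel₀ (hg0 a)]
  refine ⟨⟨Unit, Option I, inferInstance, inferInstance, inferInstance, M, Γ,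
    { base := fun _ => le_rfl
      wA := fun t' a => by rw [hwf]; exact A0.one_mem
      wA' := fun t' a => by rw [hwf, inv_one]; exact A0.one_mem
      Γ0 := fun a i => by
        change 0 ≤ if i = a then (1 : ℤ) else 0
        split_ifs <;> norm_num
      vH := fun _ => ⟨0, by
        change _ / (1 : L) ∈ A0
        rw [pow_zero, div_one]; exact A0.one_mem⟩
      lift := fun t' κ _ _ φ hg hφ D0 => ⟨D0.cast (fun a => rfl), fun a ha => rfl⟩
      llift := fun t' κ _ _ φ D0 e0 he0 => ⟨D0.cast (fun a => rfl), e0, fun a ha => rfl,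
        fun i => he0 i, fun a => by
          rw [hwf]
          have h1 : ∑ i, ((Γ a i : ℤ) : κ) * e0 i = e0 a := by
            rw [Finset.sum_eq_single a]
            · change (((if a = a then (1 : ℤ) else 0 : ℤ)) : κ) * _ = _
              rw [if_pos rfl]
              simp
            · intro b _ hb
              change (((if b = a then (1 : ℤ) else 0 : ℤ)) : κ) * _ = _
              rw [if_neg hb]
              simp
            · intro h; exact absurd (Finset.mem_univ _) h
          rw [h1, sub_self]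
          exact LE.one⟩ }⟩⟩

/-- The equation in terms of the coordinates. -/
noncomputable def eqn (t : S) (a : J → ℕ) (b : J → I → ℕ) (u : J → S) (N : ℕ) (G0 : S)
    (G1 : MvPolynomial I S) : MvPolynomial I S :=
  ∑ j, MvPolynomial.C (u j * t ^ a j) * ∏ i, MvPolynomial.X i ^ b j i +
    MvPolynomial.C (t ^ N) * (MvPolynomial.C G0 + MvPolynomial.C t * G1)

/-- The nondegeneracy of the equation. -/
theorem nd_of [DecidableEq I] (e : MvPolynomial I S ≃ₐ[k] A0) (t : S) (ht0 : t ≠ 0)
    (a : J → ℕ) (b : J → I → ℕ) (u : J → S) (N : ℕ) (G0 : S) (G1 : MvPolynomial I S)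
    (hu : ∀ (κ : Type u) [Field κ] [Algebra k κ] (φ : S →ₐ[k] κ), φ t = 0 → ∀ j, φ (u j) ≠ 0)
    (hG : ∀ (κ : Type u) [Field κ] [Algebra k κ] (φ : S →ₐ[k] κ), φ t = 0 → φ G0 = 0 →
      ∃ D : TV φ, D.D t = 0 ∧ D.D G0 ≠ 0)
    (hind : ∀ (κ : Type u) [Field κ] [Algebra k κ] (c : J → κ), ∃ w : I → κ, ∀ j,
      ∑ i, (b j i : κ) * w i = c j)
    (hgen : ∀ (κ : Type u) [Field κ] [Algebra k κ] (φ : MvPolynomial I S →ₐ[k] κ),
      φ (eqn t a b u N G0 G1) = 0 → φ (MvPolynomial.C t) ≠ 0 →
      ∃ D : TV φ, D.D (eqn t a b u N G0 G1) ≠ 0) :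
    Nd A0 (gg e t) none ((e (eqn t a b u N G0 G1) : A0) : L) (mu a b) N
      (fun j => ((e (MvPolynomial.C (u j)) : A0) : L)) ((e (MvPolynomial.C G0) : A0) : L)
      ((e G1 : A0) : L) := by
  have hgA : ∀ o, gg e t o ∈ A0 := by
    rintro (_ | i)
    · exact (e (MvPolynomial.C t)).2
    · exact (e (MvPolynomial.X i)).2
  refine
    { gA := hgA
      uA := fun j => (e (MvPolynomial.C (u j))).2
      G0A := (e (MvPolynomial.C G0)).2
      G1A := (e G1).2
      f_eq := ?_
      hu := ?_
      ha := ?_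
      hb := ?_
      hgen := ?_ }
  · let E : MvPolynomial I S →ₐ[k] L := A0.val.comp (e : MvPolynomial I S →ₐ[k] A0)
    change E _ = ∑ j, E _ * mo (gg e t) _ + mo (gg e t) _ * (E _ + gg e t none * E _)
    have h1 : ∀ j, mo (gg e t) (fun o => (mu a b j o : ℤ)) =
        E (MvPolynomial.C (t ^ a j) * ∏ i, MvPolynomial.X i ^ b j i) := by
      intro j
      unfold mo
      rw [Fintype.prod_option, map_mul, map_prod]
      congr 1
      · rw [map_pow, map_pow]
        change _ ^ ((a j : ℕ) : ℤ) = _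
        rw [zpow_natCast]
        rfl
      · refine Finset.prod_congr rfl fun i _ => ?_
        rw [map_pow]
        change _ ^ ((b j i : ℕ) : ℤ) = _
        rw [zpow_natCast]
        rfl
    have h2 : mo (gg e t) (nuN none N) = E (MvPolynomial.C (t ^ N)) := by
      unfold mo nuN
      rw [Fintype.prod_option, if_pos rfl, zpow_natCast, map_pow, map_pow,
        Finset.prod_eq_one (fun i _ => by rw [if_neg (by simp), zpow_zero]), mul_one]
      rfl
    have h3 : gg e t none = E (MvPolynomial.C t) := rfl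
    rw [h2, h3, Finset.sum_congr rfl fun j _ => by rw [h1 j]]
    simp only [eqn, map_add, map_mul, map_sum, map_pow, map_prod, mul_assoc]
  · intro κ _ _ φ hφ j
    exact hu κ ((φ.comp (e : MvPolynomial I S →ₐ[k] A0)).comp (cS k S I)) hφ j
  · intro κ _ _ φ hφ c
    obtain ⟨w, hw⟩ := hind κ c
    let φ' : MvPolynomial I S →ₐ[k] κ := φ.comp (e : MvPolynomial I S →ₐ[k] A0)
    obtain ⟨E, hE1, hE2⟩ := TV.mv φ' (TV.zero _) (fun i => φ' (MvPolynomial.X i) * w i)
    obtain ⟨E', hE'⟩ := TV.equiv e φ E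
    refine ⟨E', fun o => o.elim 0 w, ?_, rfl, ?_, ?_, ?_⟩
    · rintro (_ | i)
      · refine ⟨hgA none, ?_⟩
        change E'.D (e (MvPolynomial.C t)) = _ * (0 : κ)
        rw [hE', hE1, TV.zero_D, mul_zero]
      · refine ⟨hgA (some i), ?_⟩
        change E'.D (e (MvPolynomial.X i)) = φ (e (MvPolynomial.X i)) * w i
        rw [hE', hE2]
        rfl
    · intro j
      rw [Fintype.sum_option]
      change _ * (0 : κ) + ∑ i, ((b j i : ℕ) : κ) * w i = c j
      rw [mul_zero, zero_add, hw]
    · intro j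
      change E'.D (e (MvPolynomial.C (u j))) = 0
      rw [hE', hE1, TV.zero_D]
    · change E'.D (e (MvPolynomial.C G0)) = 0
      rw [hE', hE1, TV.zero_D]
  · intro κ _ _ φ hφ hφG
    let φ' : MvPolynomial I S →ₐ[k] κ := φ.comp (e : MvPolynomial I S →ₐ[k] A0)
    obtain ⟨D, hD1, hD2⟩ := hG κ (φ'.comp (cS k S I)) hφ hφG
    obtain ⟨E, hE1, hE2⟩ := TV.mv φ' D (fun i => 0)
    obtain ⟨E', hE'⟩ := TV.equiv e φ E
    refine ⟨E', fun o => 0, ?_, rfl, ?_⟩
    · rintro (_ | i)
      · refine ⟨hgA none, ?_⟩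
        change E'.D (e (MvPolynomial.C t)) = _ * (0 : κ)
        rw [hE', hE1, hD1, mul_zero]
      · refine ⟨hgA (some i), ?_⟩
        change E'.D (e (MvPolynomial.X i)) = _ * (0 : κ)
        rw [hE', hE2, mul_zero]
    · change E'.D (e (MvPolynomial.C G0)) ≠ 0
      rw [hE', hE1]
      exact hD2
  · intro κ _ _ φ hf hφ hφt
    let φ' : MvPolynomial I S →ₐ[k] κ := φ.comp (e : MvPolynomial I S →ₐ[k] A0)
    obtain ⟨E, hE⟩ := hgen κ φ' hφ hφt
    obtain ⟨E', hE'⟩ := TV.equiv e φ E
    refine ⟨E', ?_⟩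
    change E'.D (e (eqn t a b u N G0 G1)) ≠ 0
    rw [hE']
    exact hE

end nd

end Pool.Agent.K6.H44.VT
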