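import Pool.Agent.K6.H44.VT.Cut2
import Pool.Agent.K6.H44.VT.Der
import Pool.Agent.K6.H44.VT.Main

/-!
# Newton nondegenerate hypersurfaces in affine spaces over a smooth base
-/

set_option autoImplicit false
set_option linter.unusedVariables false
set_option linter.unusedSimpArgs false
set_option linter.unusedSectionVars false

universe u v

open Pool.Agent.W558 Pool.Agent.W973.CUT

namespace Pool.Agent.K6.H44.VT

/-- Local resolutions: for every embedding of the ring as a subring of a field. -/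
def LocRes (k : Type u) [Field k] {P : Type u} [CommRing P] [Algebra k P] (f t : P) : Prop :=
  ∀ (L K : Type u) [Field L] [Field K] [Algebra k L] [Algebra k K] (A0 Q : Subalgebra k L)
    (π : Q →ₐ[k] K) (e : P ≃ₐ[k] A0) (hA0Q : A0 ≤ Q),
    pq π ((e t : A0) : L) ≠ 0 → pq π ((e f : A0) : L) = 0 →
    (∀ x ∈ A0, pq π x = 0 → ∃ y ∈ A0, x = ((e f : A0) : L) * y) →
    (∀ x : L, x ∈ Q ∨ x⁻¹ ∈ Q) → (∀ b ∈ Q, pq π b ≠ 0 → b⁻¹ ∈ Q) →
    ∃ (T : Type) (_ : Finite T) (C : T → Subalgebra k K) (H : T → K),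
      VAtl (im π A0 hA0Q) (pq π ((e t : A0) : L)) T C H

lemma LocRes.equiv {k : Type u} [Field k] {P P' : Type u} [CommRing P] [Algebra k P] [CommRing P']
    [Algebra k P'] {f t : P} (h : LocRes k f t) (Ξ : P ≃ₐ[k] P') : LocRes k (Ξ f) (Ξ t) := by
  intro L K _ _ _ _ A0 Q π e hA0Q h1 h2 h3 h4 h5
  exact h L K A0 Q π (Ξ.trans e) hA0Q h1 h2 h3 h4 h5

section nn

variable {k S : Type u} [Field k] [CommRing S] [IsDomain S] [Algebra k S]
  {I J : Type} [Fintype I] [Fintype J]

/-- The hypotheses on the equation. -/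
structure EqN (t : S) (a : J → ℕ) (b : J → I → ℕ) (u : J → S) (N : ℕ) (G0 : S)
    (G1 : MvPolynomial I S) : Prop where
  t0 : t ≠ 0
  hT : ∀ (κ : Type u) [Field κ] [Algebra k κ] (φ : S →ₐ[k] κ), φ t = 0 → ∃ D : TV φ, D.D t ≠ 0
  hw : ∀ (κ : Type u) [Field κ] [Algebra k κ] (φ : S →ₐ[k] κ), φ t = 0 →
    ∀ (w0 : ℕ) (w : I → ℕ) (c0 : κ) (c : I → κ), 0 < w0 → c0 ≠ 0 → (∀ i, c i ≠ 0) →
    ∀ m : ℕ, (∀ j, m ≤ w0 * a j + ∑ i, w i * b j i) → m ≤ N * w0 →
    ((∃ j, w0 * a j + ∑ i, w i * b j i = m) ∨ N * w0 = m) →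
    (∑ j, if w0 * a j + ∑ i, w i * b j i = m then φ (u j) * (c0 ^ a j * ∏ i, c i ^ b j i) else 0) +
      (if N * w0 = m then φ G0 * c0 ^ N else 0) = 0 →
    ∃ (D : TV φ) (e0 : κ) (e : I → κ), D.D t = 0 ∧
      (∑ j, if w0 * a j + ∑ i, w i * b j i = m then (c0 ^ a j * ∏ i, c i ^ b j i) *
        (D.D (u j) + φ (u j) * ((a j : κ) * e0 + ∑ i, (b j i : κ) * e i)) else 0) +
      (if N * w0 = m then c0 ^ N * (D.D G0 + φ G0 * (N * e0)) else 0) ≠ 0
  hF0 : MvPolynomial.aeval (fun _ : I => (0 : S)) (eqn t a b u N G0 G1) ≠ 0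
  hgen : ∀ (κ : Type u) [Field κ] [Algebra k κ] (φ : MvPolynomial I S →ₐ[k] κ),
      φ (eqn t a b u N G0 G1) = 0 → φ (MvPolynomial.C t) ≠ 0 →
      ∃ D : TV φ, D.D (eqn t a b u N G0 G1) ≠ 0

/-- The nondegeneracy of the equation. -/
theorem nn_of {L : Type u} [Field L] [Algebra k L] {A0 : Subalgebra k L} [DecidableEq I]
    (e : MvPolynomial I S ≃ₐ[k] A0) (t : S)
    (a : J → ℕ) (b : J → I → ℕ) (u : J → S) (N : ℕ) (G0 : S) (G1 : MvPolynomial I S)
    (h : EqN (k := k) t a b u N G0 G1) :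
    Nn A0 (gg e t) none ((e (eqn t a b u N G0 G1) : A0) : L) (mu a b) N
      (fun j => ((e (MvPolynomial.C (u j)) : A0) : L)) ((e (MvPolynomial.C G0) : A0) : L)
      ((e G1 : A0) : L) := by
  have hgA : ∀ o, gg e t o ∈ A0 := by
    rintro (_ | i)
    · exact (e (MvPolynomial.C t)).2
    · exact (e (MvPolynomial.X i)).2
  refine
    { gA := hgA
      uA := fun j => (e (MvPolynomial.C (u j))).2
      G0A := (e (MvPolynomial.C G0)).2
      G1A := (e G1).2
      f_eq := ?_
      hw := ?_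
      hgen := ?_ }
  · let E : MvPolynomial I S →ₐ[k] L := A0.val.comp (e : MvPolynomial I S →ₐ[k] A0)
    change E _ = ∑ j, E _ * mo (gg e t) _ + mo (gg e t) _ * (E _ + gg e t none * E _)
    have h1 : ∀ j, mo (gg e t) (fun o => (mu a b j o : ℤ)) =
        E (MvPolynomial.C (t ^ a j) * ∏ i, MvPolynomial.X i ^ b j i) := by
      intro j
      unfold mo
      rw [Fintype.prod_option, map_mul, map_prod]
      congr 1
      · rw [map_pow, map_pow]
        change _ ^ ((a j : ℕ) : ℤ) = _
        rw [zpow_natCast]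
        rfl
      · refine Finset.prod_congr rfl fun i _ => ?_
        rw [map_pow]
        change _ ^ ((b j i : ℕ) : ℤ) = _
        rw [zpow_natCast]
        rfl
    have h2 : mo (gg e t) (nuN none N) = E (MvPolynomial.C (t ^ N)) := by
      unfold mo nuN
      rw [Fintype.prod_option, if_pos rfl, zpow_natCast, map_pow, map_pow,
        Finset.prod_eq_one (fun i _ => by rw [if_neg (by simp), zpow_zero]), mul_one]
      rfl
    have h3 : gg e t none = E (MvPolynomial.C t) := rfl
    rw [h2, h3, Finset.sum_congr rfl fun j _ => by rw [h1 j]]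
    simp only [eqn, map_add, map_mul, map_sum, map_pow, map_prod, mul_assoc]
  · intro κ _ _ φ w c hc hw0 hwp hw m hm1 hm2 hm3 hsum
    let φ' : MvPolynomial I S →ₐ[k] κ := φ.comp (e : MvPolynomial I S →ₐ[k] A0)
    have hwt : ∀ j, wt' w (mu a b j) = w none * a j + ∑ i, w (some i) * b j i := by
      intro j
      unfold wt'
      rw [Fintype.sum_option]
      rfl
    have hpr : ∀ j, ∏ o, c o ^ mu a b j o = c none ^ a j * ∏ i, c (some i) ^ b j i := by
      intro j
      rw [Fintype.prod_option]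
      rfl
    simp only [hwt, hpr] at hm1 hm3 hsum
    have ht0 : φ ⟨gg e t none, hgA none⟩ = 0 := hwp none hw
    obtain ⟨D, e0, e1, hDt, hD⟩ := h.hw κ (φ'.comp (cS k S I)) ht0 (w none) (fun i => w (some i))
      (c none) (fun i => c (some i)) hw (hc none) (fun i => hc (some i)) m hm1 hm2 hm3 hsum
    obtain ⟨E, hE1, hE2⟩ := TV.mv φ' D (fun i => φ' (MvPolynomial.X i) * e1 i)
    obtain ⟨E', hE'⟩ := TV.equiv e φ E
    refine ⟨E', fun o => o.elim e0 e1, ?_, ?_⟩
    · rintro (_ | i)
      · refine ⟨hgA none, ?_⟩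
        change E'.D (e (MvPolynomial.C t)) = _
        rw [hE', hE1, hDt, ht0, zero_mul]
      · refine ⟨hgA (some i), ?_⟩
        change E'.D (e (MvPolynomial.X i)) = φ (e (MvPolynomial.X i)) * e1 i
        rw [hE', hE2]
        rfl
    · simp only [hwt, hpr]
      have h1 : ∀ j, ∑ o, (mu a b j o : κ) * (fun o : Option I => o.elim e0 e1) o =
          (a j : κ) * e0 + ∑ i, (b j i : κ) * e1 i := by
        intro j
        rw [Fintype.sum_option]
        rfl
      have h2 : ∀ j, E'.D (e (MvPolynomial.C (u j))) = D.D (u j) := by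
        intro j
        rw [hE', hE1]
      have h3 : E'.D (e (MvPolynomial.C G0)) = D.D G0 := by
        rw [hE', hE1]
      intro h4
      apply hD
      refine Eq.trans ?_ h4
      congr 1
      · refine Finset.sum_congr rfl fun j _ => ?_
        split_ifs
        · rw [h1 j]
          congr 2
          exact (h2 j).symm
        · rfl
      · split_ifs
        · congr 2
          exact h3.symm
        · rfl
  · intro κ _ _ φ hf hφ hφt
    let φ' : MvPolynomial I S →ₐ[k] κ := φ.comp (e : MvPolynomial I S →ₐ[k] A0)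
    obtain ⟨E, hE⟩ := h.hgen κ φ' hφ hφt
    obtain ⟨E', hE'⟩ := TV.equiv e φ E
    refine ⟨E', ?_⟩
    change E'.D (e (eqn t a b u N G0 G1)) ≠ 0
    rw [hE']
    exact hE

/-- The vertical modification of a Newton nondegenerate hypersurface. -/
theorem EqN.locRes [Algebra.Smooth k S] (t : S) (a : J → ℕ) (b : J → I → ℕ)
    (u : J → S) (N : ℕ) (G0 : S) (G1 : MvPolynomial I S)
    (h : EqN (k := k) t a b u N G0 G1) :
    LocRes k (eqn t a b u N G0 G1) (MvPolynomial.C t) := by
  classical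
  intro L K _ _ _ _ A0 Q π e hA0Q ht hf hker0 hQ hQ'
  obtain ⟨S0⟩ := exists_base e t h.t0 h.hT
  have hnd := nn_of (L := L) e t a b u N G0 G1 h
  have hF0 := h.hF0
  have hFne : eqn t a b u N G0 G1 ≠ 0 := by
    intro h0
    rw [h0, map_zero] at hF0
    exact hF0 rfl
  have hg0 : ∀ o, gg e t o ≠ 0 := by
    rintro (_ | i)
    · intro h0
      have h1 : e (MvPolynomial.C t) = 0 := Subtype.ext h0
      rw [map_eq_zero_iff _ e.injective, MvPolynomial.C_eq_zero] at h1
      exact h.t0 h1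
    · intro h0
      have h1 : e (MvPolynomial.X i) = 0 := Subtype.ext h0
      rw [map_eq_zero_iff _ e.injective] at h1
      exact MvPolynomial.X_ne_zero i h1
  refine exists_vatl2 π hg0 hnd S0 hA0Q ?_ ?_ hf hker0 hQ hQ'
  · rintro (_ | i)
    · exact ht
    · intro h0
      obtain ⟨y, hy, hxy⟩ := hker0 _ (e (MvPolynomial.X i)).2 h0
      obtain ⟨z, hz⟩ : ∃ z, e z = ⟨y, hy⟩ := e.surjective _
      have h1 : MvPolynomial.X i = eqn t a b u N G0 G1 * z := by
        apply e.injective
        apply Subtype.ext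
        rw [map_mul, hz]
        exact hxy
      have hp : Prime (MvPolynomial.X i : MvPolynomial I S) := MvPolynomial.X_prime
      rcases hp.2.2 _ _ (dvd_of_eq h1) with h2 | h2
      · obtain ⟨w, hw⟩ := h2
        apply hF0
        rw [hw, map_mul, MvPolynomial.aeval_X, zero_mul]
      · obtain ⟨w, hw⟩ := h2
        have h3 : eqn t a b u N G0 G1 * w = 1 := by
          apply mul_left_cancel₀ hp.ne_zero
          rw [mul_one]
          conv_rhs => rw [h1]
          rw [hw]
          ring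
        have h4 : (((e (eqn t a b u N G0 G1) : A0) : L)) * ((e w : A0) : L) = 1 := by
          have := congrArg (fun z => ((e z : A0) : L)) h3
          simpa using this
        have h5 := pq_mul π (hA0Q (e (eqn t a b u N G0 G1)).2) (hA0Q (e w).2)
        rw [h4, hf, zero_mul, pq_one] at h5
        exact one_ne_zero h5
  · intro h0
    have h1 : e (eqn t a b u N G0 G1) = 0 := Subtype.ext h0
    rw [map_eq_zero_iff _ e.injective] at h1
    exact hFne h1

end nn

end Pool.Agent.K6.H44.VT
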