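import Pool.Agent.K6.H44.VT.ASMain

/-!
# Purely inseparable covers of quadratic type over a curve
-/

set_option autoImplicit false
set_option linter.unusedVariables false
set_option linter.unusedSimpArgs false
set_option linter.unusedSectionVars false

universe u v

open Pool.Agent.W558 Pool.Agent.W973.CUT MvPolynomial

namespace Pool.Agent.K6.H44.VT

/-- Extension of points with values in the dual numbers to localizations. -/
lemma ext_ring {R S : Type*} [CommRing R] [CommRing S] [Algebra R S] {σ : Type*} (g : R)
    [IsLocalization.Away g S] {W : Type*} [CommRing W] (χ : MvPolynomial σ S →+* W)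
    (f : MvPolynomial σ R →+* TrivSqZeroExt W W)
    (hf : ∀ a, (f a).fst = χ (map (algebraMap R S) a)) :
    ∃ Ψ : MvPolynomial σ S →+* TrivSqZeroExt W W, (∀ a, Ψ (map (algebraMap R S) a) = f a) ∧
      ∀ a, (Ψ a).fst = χ a := by
  have hu : IsUnit ((f.comp C) g) := by
    rw [TrivSqZeroExt.isUnit_iff_isUnit_fst]
    change IsUnit (f (C g)).fst
    rw [hf, map_C]
    exact ((IsLocalization.Away.algebraMap_isUnit (S := S) g).map C).map χ
  let Ψ : MvPolynomial σ S →+* TrivSqZeroExt W W :=
    eval₂Hom (IsLocalization.Away.lift g hu) (fun i => f (X i))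
  have h1 : Ψ.comp (map (algebraMap R S)) = f := by
    apply ringHom_ext
    · intro r
      rw [RingHom.comp_apply, map_C]
      change eval₂Hom _ _ _ = _
      rw [eval₂Hom_C, IsLocalization.Away.lift_eq]
      rfl
    · intro i
      rw [RingHom.comp_apply, map_X]
      exact eval₂Hom_X' _ _ _
  have h2 : ∀ a, Ψ (map (algebraMap R S) a) = f a := fun a => by rw [← h1]; rfl
  refine ⟨Ψ, h2, ?_⟩
  let fs : TrivSqZeroExt W W →+* W := (TrivSqZeroExt.fstHom ℤ W W : TrivSqZeroExt W W →+* W)
  have hfs : ∀ x, fs x = x.fst := fun x => rfl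
  have h3 : fs.comp Ψ = χ := by
    apply ringHom_ext
    · intro s
      have h4 : (fs.comp Ψ).comp (C : S →+* MvPolynomial σ S) = χ.comp C := by
        refine IsLocalization.ringHom_ext (Submonoid.powers g) ?_
        ext r
        change fs (Ψ (C (algebraMap R S r))) = χ (C (algebraMap R S r))
        rw [← map_C, h2, hfs, hf]
      exact RingHom.congr_fun h4 s
    · intro i
      change fs (Ψ (X i)) = χ (X i)
      have h5 : (X i : MvPolynomial σ S) = map (algebraMap R S) (X i) := (map_X _ _).symm
      rw [h5, h2, hfs, hf]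
  intro a
  rw [← hfs, ← h3]
  rfl

section pi

variable {S : Type u} [CommRing S] {ι Λ J : Type} [Fintype ι] [DecidableEq ι] [Fintype Λ]
  [Fintype J]

/-- The polynomial `e z ^ p + q (x)`. -/
noncomputable def piG (p : ℕ) (e : S) (q : MvPolynomial ι S) : MvPolynomial (Option ι) S :=
  C e * X none ^ p + rename some q

/-- The Jacobian ideal over `k`. -/
def jac (k : Type u) {A : Type u} [Field k] [CommRing A] [Algebra k A] (G : A) : Ideal A :=
  Ideal.span ({G} ∪ Set.range fun D : Derivation k A A => D G)

theorem pi_pure {k R : Type u} [Field k] [CommRing R] [Algebra k R] [Algebra R S] (g : R)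
    [IsLocalization.Away g S] (p : ℕ) [hp : Fact p.Prime] [CharP S p] (e : R)
    (q : MvPolynomial ι R) (h : R)
    (hh : C h ∈ jac k (piG p e q)) (t : S) (M : ℕ) (P : Finset ι) (u : ι → S) (ex : ι → ℕ)
    (θ : MvPolynomial ι S ≃ₐ[S] MvPolynomial ι S) (E : MvPolynomial ι S) (β : S)
    (hqE : map (algebraMap R S) q + C (algebraMap R S e * β ^ p) =
      θ (sq t P u ex + C (t ^ (M + 1)) * E)) :
    t ^ M ∣ algebraMap R S h := by
  classical
  let W := S ⧸ Ideal.span {t ^ M}
  let mk : S →+* W := Ideal.Quotient.mk _
  have htW : mk (t ^ M) = 0 :=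
    Ideal.Quotient.eq_zero_iff_mem.2 (Ideal.mem_span_singleton_self _)
  let χ : MvPolynomial (Option ι) S →+* W := eval₂Hom mk (fun o => o.elim (mk β)
    (fun i => mk (aeval (fun _ => (0 : S)) (θ.symm (X i)))))
  have hχC : ∀ s, χ (C s) = mk s := fun s => eval₂Hom_C _ _ _
  have hχz : χ (X none) = mk β := eval₂Hom_X' _ _ _
  have hχq : ∀ r : MvPolynomial ι S, χ (rename some r) =
      mk (aeval (fun _ => (0 : S)) (θ.symm r)) := by
    have h1 : χ.comp ((rename some : MvPolynomial ι S →ₐ[S] MvPolynomial (Option ι) S) :
        MvPolynomial ι S →+* _) = mk.comp (((aeval (fun _ => (0 : S)) : MvPolynomial ι S →ₐ[S] S) :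
        MvPolynomial ι S →+* S).comp (θ.symm : MvPolynomial ι S →+* MvPolynomial ι S)) := by
      apply ringHom_ext
      · intro s
        change χ (rename some (C s)) = mk (aeval (fun _ => (0 : S)) (θ.symm (C s)))
        have h2 : θ.symm (C s) = C s := AlgEquiv.commutes θ.symm s
        rw [rename_C, hχC, h2, aeval_C]
        rfl
      · intro i
        change χ (rename some (X i)) = mk (aeval (fun _ => (0 : S)) (θ.symm (X i)))
        rw [rename_X]
        exact eval₂Hom_X' _ _ _
    exact fun r => RingHom.congr_fun h1 r
  -- the values of the equation and of its derivatives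
  have key : ∀ D : Derivation k (MvPolynomial (Option ι) R) (MvPolynomial (Option ι) R),
      χ (map (algebraMap R S) (piG p e q)) = 0 ∧
        χ (map (algebraMap R S) (D (piG p e q))) = 0 := by
    intro D
    let f : MvPolynomial (Option ι) R →+* TrivSqZeroExt W W :=
      { toFun := fun a => TrivSqZeroExt.inl (χ (map (algebraMap R S) a)) +
          TrivSqZeroExt.inr (χ (map (algebraMap R S) (D a)))
        map_one' := by
          rw [Derivation.map_one_eq_zero, map_zero, map_zero, map_one, map_one,
            TrivSqZeroExt.inr_zero, add_zero, TrivSqZeroExt.inl_one]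
        map_mul' := fun a b => by
          rw [Derivation.leibniz, smul_eq_mul, smul_eq_mul]
          simp only [map_mul, map_add]
          ext
          · simp
            try ring
          · simp
            try ring
        map_zero' := by simp
        map_add' := fun a b => by
          simp only [map_add]
          ext
          · simp
            try ring
          · simp
            try ring }
    have hf1 : ∀ a, (f a).fst = χ (map (algebraMap R S) a) := by
      intro a
      change (TrivSqZeroExt.inl (χ (map (algebraMap R S) a)) +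
          TrivSqZeroExt.inr (χ (map (algebraMap R S) (D a)))).fst = _
      simp
    have hf2 : ∀ a, (f a).snd = χ (map (algebraMap R S) (D a)) := by
      intro a
      change (TrivSqZeroExt.inl (χ (map (algebraMap R S) a)) +
          TrivSqZeroExt.inr (χ (map (algebraMap R S) (D a)))).snd = _
      simp
    obtain ⟨Ψ, hΨ1, hΨ2⟩ := ext_ring g χ f hf1
    have hsq : ∀ x : TrivSqZeroExt W W, x.fst = 0 → ∀ n, 2 ≤ n → x ^ n = 0 := by
      intro x hx n hn
      obtain ⟨m, rfl⟩ := Nat.exists_eq_add_of_le hn
      have h1 : x ^ 2 = 0 := by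
        rw [pow_two]
        ext
        · simp [hx]
        · simp [hx]
      rw [pow_add, h1, zero_mul]
    have hΨt : Ψ (C (t ^ (M + 1))) = 0 := by
      have h1 : mk t ^ M = 0 := by rw [← map_pow]; exact htW
      have h2 : (Ψ (C t)).fst = mk t := by rw [hΨ2, hχC]
      rw [map_pow, map_pow]
      ext
      · rw [TrivSqZeroExt.fst_pow, h2, pow_succ, h1, zero_mul]
        rfl
      · rw [TrivSqZeroExt.snd_pow, h2, Nat.pred_succ, h1, zero_smul, smul_zero]
        rfl
    have hΨi : ∀ i, (Ψ (rename some (θ (X i)))).fst = 0 := by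
      intro i
      rw [hΨ2, hχq, AlgEquiv.symm_apply_apply, aeval_X, map_zero]
    have hθC : ∀ a : S, θ (C a) = C a := fun a => AlgEquiv.commutes θ a
    have hΨsq : Ψ (rename some (θ (sq t P u ex))) = 0 := by
      unfold sq
      simp only [map_sum, map_mul, map_pow, hθC, rename_C]
      refine Finset.sum_eq_zero fun i _ => ?_
      rw [hsq _ (hΨi i) 2 le_rfl, mul_zero]
    have hΨG : Ψ (map (algebraMap R S) (piG p e q)) = 0 := by
      have h1 : map (algebraMap R S) (piG p e q) = C (algebraMap R S e) *
          (X none - C β) ^ p + rename some (θ (sq t P u ex)) +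
            C (t ^ (M + 1)) * rename some (θ E) := by
        have h2 : rename some (map (algebraMap R S) q) =
            (rename some (θ (sq t P u ex + C (t ^ (M + 1)) * E)) : MvPolynomial (Option ι) S) -
              C (algebraMap R S e * β ^ p) := by
          rw [← hqE, map_add, rename_C]
          ring
        unfold piG
        rw [map_add, map_mul, map_C, map_pow, map_X, map_rename, h2, sub_pow_char]
        simp only [map_add, map_mul, hθC, rename_C, map_pow]
        ring
      rw [h1, map_add, map_add, map_mul, map_mul, map_pow, hΨsq, hΨt, hsq _ ?_ p hp.out.two_le]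
      · ring
      · rw [hΨ2, map_sub, hχz, hχC, sub_self]
    rw [hΨ1] at hΨG
    constructor
    · rw [← hf1, hΨG]
      rfl
    · rw [← hf2, hΨG]
      rfl
  have hle : jac k (piG p e q) ≤ RingHom.ker (χ.comp (map (algebraMap R S))) := by
    unfold jac
    rw [Ideal.span_le]
    rintro x (hx | ⟨D, rfl⟩)
    · rw [Set.mem_singleton_iff] at hx
      rw [hx]
      exact (key 0).1
    · exact (key D).2
  have h1 : χ (map (algebraMap R S) (C h)) = 0 := hle hh
  rw [map_C, hχC] at h1
  exact Ideal.mem_span_singleton.1 (Ideal.Quotient.eq_zero_iff_mem.1 h1)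

end pi

end Pool.Agent.K6.H44.VT
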