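import Pool.Agent.K6.H44.VT.PI

/-!
# Resolution of singularities for purely inseparable covers of quadratic type over a curve
-/

set_option autoImplicit false
set_option linter.unusedVariables false
set_option linter.unusedSimpArgs false
set_option linter.unusedSectionVars false

universe u v

open Pool.Agent.W558 Pool.Agent.W973.CUT MvPolynomial

namespace Pool.Agent.K6.H44.VT

section smooth

variable {k R S : Type u} [Field k] [CommRing R] [Algebra k R] [CommRing S] [Algebra k S]
  [Algebra R S] [IsScalarTower k R S] {ι Λ J : Type} [Fintype ι] [DecidableEq ι] [Fintype Λ]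
  [Fintype J]

/-- The monomials `y ^ b_j` vanish at the critical points. -/
theorem as_mon (p : ℕ) [Fact p.Prime] [CharP k p] (e g : S)
    (q : MvPolynomial ι S) (c : J → S) (b : J → Λ → ℕ)
    (hind : ∀ (κ : Type u) [Field κ] [Algebra k κ] (c : J → κ), ∃ w : Λ → κ, ∀ j,
      ∑ i, (b j i : κ) * w i = c j) (κ : Type u) [Field κ] [Algebra k κ]
    (φ : MvPolynomial (ι ⊕ Option Λ) S →ₐ[k] κ) (hD : ∀ D : TV φ, D.D (asF p e g q c b) = 0) :
    ∀ j, φ (C (c j) * ∏ l, X (Sum.inr (some l)) ^ b j l) = 0 := by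
  classical
  let mon : J → MvPolynomial (ι ⊕ Option Λ) S := fun j =>
    C (c j) * ∏ l, X (Sum.inr (some l)) ^ b j l
  let ex : J → (ι ⊕ Option Λ →₀ ℕ) := fun j => ∑ l, Finsupp.single (Sum.inr (some l)) (b j l)
  have hmon : ∀ j, mon j = monomial (ex j) (c j) := by
    intro j
    change C (c j) * ∏ l, X (Sum.inr (some l)) ^ b j l = _
    rw [monomial_sum_index]
    congr 1
    exact Finset.prod_congr rfl fun l _ => X_pow_eq_monomial
  have hexr : ∀ j l, ex j (Sum.inr (some l)) = b j l := by
    intro j l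
    change (∑ l', Finsupp.single (Sum.inr (some l')) (b j l')) (Sum.inr (some l)) = _
    rw [Finsupp.finsetSum_apply, Finset.sum_eq_single l]
    · rw [Finsupp.single_eq_same]
    · intro l' _ hl'
      rw [Finsupp.single_eq_of_ne]
      intro h
      exact hl' (Option.some_injective _ (Sum.inr_injective h)).symm
    · intro h; exact absurd (Finset.mem_univ _) h
  have hFq : asF p e g q c b = C e * X (Sum.inr none) ^ p + C g * X (Sum.inr none) +
      rename Sum.inl q + ∑ j, mon j := rfl
  have hdr : ∀ l, X (Sum.inr (some l)) * pderiv (Sum.inr (some l)) (asF p e g q c b) =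
      ∑ j, C ((b j l : ℕ) : S) * mon j := by
    intro l
    have h1 : pderiv (Sum.inr (some l)) (X (Sum.inr none) : MvPolynomial (ι ⊕ Option Λ) S) = 0 :=
      pderiv_X_of_ne (by simp)
    rw [hFq, map_add, map_add, map_add, pderiv_inr, pderiv_C_mul, pderiv_C_mul, pderiv_pow, h1,
      map_sum]
    have h2 : C e * ((p : MvPolynomial (ι ⊕ Option Λ) S) * X (Sum.inr none) ^ (p - 1) * 0) +
        C g * 0 + 0 + ∑ j, pderiv (Sum.inr (some l)) (mon j) =
        ∑ j, pderiv (Sum.inr (some l)) (mon j) := by ring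
    rw [h2, Finset.mul_sum]
    refine Finset.sum_congr rfl fun j _ => ?_
    rw [hmon, X_mul_pderiv_monomial, hexr, nsmul_eq_mul]
    simp
  have hpd : ∀ l, φ (pderiv (Sum.inr (some l)) (asF p e g q c b)) = 0 := by
    intro l
    exact hD (TV.ofDer φ (fun a => pderiv (Sum.inr (some l)) a) (fun _ _ => map_add _ _ _)
      (fun c a => by
        rw [← algebraMap_smul S c a, ← algebraMap_smul S c (pderiv (Sum.inr (some l)) a),
          Derivation.map_smul])
      (fun a b => by rw [Derivation.leibniz]; rfl))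
  intro j0
  obtain ⟨w, hw⟩ := hind κ (Pi.single j0 1)
  have h1 : ∀ l, ∑ j, (b j l : κ) * φ (mon j) = 0 := by
    intro l
    have h2 := congrArg φ (hdr l)
    rw [map_mul, hpd, mul_zero, map_sum] at h2
    rw [h2]
    refine Finset.sum_congr rfl fun j _ => ?_
    have h3 : (C ((b j l : ℕ) : S) : MvPolynomial (ι ⊕ Option Λ) S) = ((b j l : ℕ) : _) :=
      map_natCast _ _
    have h4 : φ (C ((b j l : ℕ) : S) * mon j) = φ (C ((b j l : ℕ) : S)) * φ (mon j) :=
      map_mul _ _ _
    rw [h4, h3, map_natCast]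
  change φ (mon j0) = 0
  have h2 : φ (mon j0) = ∑ j, (∑ l, (b j l : κ) * w l) * φ (mon j) := by
    rw [Finset.sum_eq_single j0]
    · rw [hw, Pi.single_eq_same, one_mul]
    · intro j _ hj
      rw [hw, Pi.single_eq_of_ne hj, zero_mul]
    · intro h; exact absurd (Finset.mem_univ _) h
  rw [h2]
  have h3 : ∀ j, (∑ l, (b j l : κ) * w l) * φ (mon j) = ∑ l, w l * ((b j l : κ) * φ (mon j)) := by
    intro j
    rw [Finset.sum_mul]
    exact Finset.sum_congr rfl fun l _ => by ring
  rw [Finset.sum_congr rfl fun j _ => h3 j, Finset.sum_comm]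
  refine Finset.sum_eq_zero fun l _ => ?_
  rw [← Finset.mul_sum, h1, mul_zero]

/-- The smooth points. -/
theorem pi_smooth (g : R) [IsLocalization.Away g S] (p : ℕ) [Fact p.Prime] [CharP k p] (e : R)
    (q : MvPolynomial ι R) (c : J → R) (b : J → Λ → ℕ)
    (hind : ∀ (κ : Type u) [Field κ] [Algebra k κ] (c : J → κ), ∃ w : Λ → κ, ∀ j,
      ∑ i, (b j i : κ) * w i = c j) (h : R) (hh : C h ∈ jac k (piG p e q)) (κ : Type u) [Field κ]
    [Algebra k κ] (φ : MvPolynomial (ι ⊕ Option Λ) S →ₐ[k] κ)
    (hφ : φ (map (algebraMap R S) (asF p e 0 q c b)) = 0)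
    (hφh : φ (C (algebraMap R S (h * ∏ j, c j))) ≠ 0) :
    ∃ D : TV φ, D.D (map (algebraMap R S) (asF p e 0 q c b)) ≠ 0 := by
  classical
  by_contra hcon
  push Not at hcon
  have hF := map_asF (algebraMap R S) p e 0 q c b
  have hmon := as_mon p _ _ _ _ b hind κ φ (fun D => by
    rw [← hF]
    exact hcon D)
  have hφh' : φ (C (algebraMap R S h)) ≠ 0 ∧ ∀ j, φ (C (algebraMap R S (c j))) ≠ 0 := by
    rw [map_mul, map_mul, map_mul, map_prod, map_prod, map_prod] at hφh
    exact ⟨left_ne_zero_of_mul hφh, fun j =>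
      (Finset.prod_ne_zero_iff.1 (right_ne_zero_of_mul hφh)) j (Finset.mem_univ j)⟩
  have hmon' : ∀ j, φ (∏ l, X (Sum.inr (some l)) ^ b j l) = 0 := by
    intro j
    have h1 := hmon j
    rw [map_mul] at h1
    exact (mul_eq_zero.1 h1).resolve_left (hφh'.2 j)
  -- the embedding
  let ε : Option ι → ι ⊕ Option Λ := fun o => o.elim (Sum.inr none) Sum.inl
  have hG : asF p e 0 q c b = rename ε (piG p e q) +
      ∑ j, C (c j) * ∏ l, X (Sum.inr (some l)) ^ b j l := by
    unfold asF piG
    rw [map_add, map_mul, rename_C, map_pow, rename_X, rename_rename, map_zero, zero_mul, add_zero]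
    rfl
  let emb : MvPolynomial (Option ι) R →ₐ[k] MvPolynomial (ι ⊕ Option Λ) S :=
    { (map (algebraMap R S)).comp ((rename ε : MvPolynomial (Option ι) R →ₐ[R] _) :
        MvPolynomial (Option ι) R →+* MvPolynomial (ι ⊕ Option Λ) R) with
      commutes' := by
        intro r
        change map (algebraMap R S) (rename ε (algebraMap k _ r)) = _
        rw [IsScalarTower.algebraMap_apply k R (MvPolynomial (Option ι) R), algebraMap_eq,
          rename_C, map_C, ← IsScalarTower.algebraMap_apply k R S,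
          IsScalarTower.algebraMap_apply k S (MvPolynomial (ι ⊕ Option Λ) S), algebraMap_eq] }
  have hemb : ∀ a, emb a = map (algebraMap R S) (rename ε a) := fun a => rfl
  let φ1 : MvPolynomial (Option ι) R →ₐ[k] κ := φ.comp emb
  have hφ1 : φ1 (piG p e q) = 0 := by
    change φ (map (algebraMap R S) (rename ε (piG p e q))) = 0
    rw [hG, map_add, map_add, map_sum, map_sum, Finset.sum_eq_zero, add_zero] at hφ
    · exact hφ
    · intro j _
      have h1 := hmon j
      rw [← h1]
      congr 1
      rw [map_mul, map_C, map_prod]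
      simp only [map_pow, map_X]
  have key : ∀ D : Derivation k (MvPolynomial (Option ι) R) (MvPolynomial (Option ι) R),
      φ1 (D (piG p e q)) = 0 := by
    intro D
    let D1 : TV φ1 := TV.ofDer φ1 (fun a => D a) (fun _ _ => map_add _ _ _)
      (fun c a => Derivation.map_smul _ _ _) (fun a b => by rw [Derivation.leibniz]; rfl)
    let f1 : MvPolynomial (Option ι) R →ₐ[k] TrivSqZeroExt κ κ := D1.dual
    let f2 : MvPolynomial (ι ⊕ Option Λ) R →+* TrivSqZeroExt κ κ :=
      eval₂Hom ((f1 : MvPolynomial (Option ι) R →+* TrivSqZeroExt κ κ).comp C)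
        (Sum.elim (fun i => f1 (X (some i))) (fun o => o.elim (f1 (X none))
          (fun l => TrivSqZeroExt.inl (φ (X (Sum.inr (some l)))))))
    have hf2C : ∀ r, f2 (C r) = f1 (C r) := fun r => eval₂Hom_C _ _ _
    have hf2y : ∀ l, f2 (X (Sum.inr (some l))) =
        TrivSqZeroExt.inl (φ (X (Sum.inr (some l)))) := fun l => eval₂Hom_X' _ _ _
    have hf21 : ∀ a, f2 (rename ε a) = f1 a := by
      have h1 : f2.comp ((rename ε : MvPolynomial (Option ι) R →ₐ[R] _) :
          MvPolynomial (Option ι) R →+* MvPolynomial (ι ⊕ Option Λ) R) =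
          (f1 : MvPolynomial (Option ι) R →+* TrivSqZeroExt κ κ) := by
        apply ringHom_ext
        · intro r
          change f2 (rename ε (C r)) = f1 (C r)
          rw [rename_C, hf2C]
        · rintro (_ | i)
          · change f2 (rename ε (X none)) = f1 (X none)
            rw [rename_X]
            exact eval₂Hom_X' _ _ _
          · change f2 (rename ε (X (some i))) = f1 (X (some i))
            rw [rename_X]
            exact eval₂Hom_X' _ _ _
      exact fun a => RingHom.congr_fun h1 a
    have hf1f : ∀ a, (f1 a).fst = φ1 a := fun a => TV.dual_fst D1 a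
    have hf2f : ∀ a, (f2 a).fst = (φ : MvPolynomial (ι ⊕ Option Λ) S →+* κ)
        (map (algebraMap R S) a) := by
      let fs : TrivSqZeroExt κ κ →+* κ := (TrivSqZeroExt.fstHom k κ κ : TrivSqZeroExt κ κ →+* κ)
      have hfs : ∀ x, fs x = x.fst := fun x => rfl
      have h1 : fs.comp f2 = (φ : MvPolynomial (ι ⊕ Option Λ) S →+* κ).comp
          (map (algebraMap R S)) := by
        apply ringHom_ext
        · intro r
          change fs (f2 (C r)) = φ (map (algebraMap R S) (C r))
          rw [hfs, hf2C, hf1f]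
          change φ (map (algebraMap R S) (rename ε (C r))) = _
          rw [rename_C]
        · rintro (i | _ | l)
          · change fs (f2 (X (Sum.inl i))) = φ (map (algebraMap R S) (X (Sum.inl i)))
            have h2 : (X (Sum.inl i) : MvPolynomial (ι ⊕ Option Λ) R) =
                rename ε (X (some i)) := by rw [rename_X]; rfl
            rw [h2, hfs, hf21, hf1f]
            rfl
          · change fs (f2 (X (Sum.inr none))) = φ (map (algebraMap R S) (X (Sum.inr none)))
            have h2 : (X (Sum.inr none) : MvPolynomial (ι ⊕ Option Λ) R) =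
                rename ε (X none) := by rw [rename_X]; rfl
            rw [h2, hfs, hf21, hf1f]
            rfl
          · change fs (f2 (X (Sum.inr (some l)))) =
              φ (map (algebraMap R S) (X (Sum.inr (some l))))
            rw [hfs, hf2y, map_X, TrivSqZeroExt.fst_inl]
      exact fun a => RingHom.congr_fun h1 a
    obtain ⟨Ψ, hΨ1, hΨ2⟩ := ext_ring g (φ : MvPolynomial (ι ⊕ Option Λ) S →+* κ) f2 hf2f
    let Ψ' : MvPolynomial (ι ⊕ Option Λ) S →ₐ[k] TrivSqZeroExt κ κ :=
      { Ψ with
        commutes' := by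
          intro r
          change Ψ (algebraMap k _ r) = _
          have h1 : algebraMap k (MvPolynomial (ι ⊕ Option Λ) S) r =
              map (algebraMap R S) (rename ε (algebraMap k _ r)) :=
            (emb.commutes r).symm
          rw [h1, hΨ1, hf21]
          exact f1.commutes r }
    have h3 := hcon (TV.ofDual φ Ψ' (fun a => hΨ2 a))
    change (Ψ (map (algebraMap R S) (asF p e 0 q c b))).snd = 0 at h3
    rw [hΨ1, hG, map_add, map_sum, Finset.sum_eq_zero, add_zero, hf21] at h3
    · exact (TV.dual_snd D1 _).symm.trans h3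
    · intro j _
      have h4 : f2 (∏ l, X (Sum.inr (some l)) ^ b j l) =
          TrivSqZeroExt.inl (φ (∏ l, X (Sum.inr (some l)) ^ b j l)) := by
        rw [map_prod, map_prod]
        simp only [map_pow, hf2y]
        rw [← TrivSqZeroExt.inlHom_apply, map_prod]
        exact Finset.prod_congr rfl fun l _ => (map_pow (TrivSqZeroExt.inlHom κ κ) _ _).symm
      rw [map_mul, h4, hmon', TrivSqZeroExt.inl_zero, mul_zero]
  apply hφh'.1
  have hle : jac k (piG p e q) ≤ RingHom.ker φ1 := by
    unfold jac
    rw [Ideal.span_le]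
    rintro x (hx | ⟨D, rfl⟩)
    · rw [Set.mem_singleton_iff] at hx
      rw [hx]
      exact hφ1
    · exact key D
  have h1 : φ1 (C h) = 0 := hle hh
  change φ (map (algebraMap R S) (rename ε (C h))) = 0 at h1
  rwa [rename_C, map_C] at h1

end smooth

/-- The equation is not a constant. -/
lemma asF_ne_C {R : Type u} [CommRing R] {ι Λ J : Type} [Fintype ι] [Fintype Λ] [Fintype J]
    (p : ℕ) (hp : p ≠ 0) (e : R) (he : e ≠ 0) (q : MvPolynomial ι R) (c : J → R) (b : J → Λ → ℕ)
    (hb : ∀ j, ∃ l, b j l ≠ 0) (r : R) : asF p e 0 q c b ≠ C r := by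
  classical
  intro hr
  let f : MvPolynomial (ι ⊕ Option Λ) R →ₐ[R] Polynomial R :=
    aeval (Sum.elim (fun _ => 0) (fun o => o.elim Polynomial.X (fun _ => 0)))
  have hfz : f (X (Sum.inr none)) = Polynomial.X := aeval_X _ _
  have hfy : ∀ l, f (X (Sum.inr (some l))) = 0 := fun l => aeval_X _ _
  have hfC : ∀ a, f (C a) = Polynomial.C a := fun a => aeval_C _ _
  have hfq : f (rename Sum.inl q) = Polynomial.C (aeval (fun _ => (0 : R)) q) := by
    have h1 : f.comp (rename (Sum.inl : ι → ι ⊕ Option Λ)) =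
        (Polynomial.CAlgHom : R →ₐ[R] Polynomial R).comp (aeval (fun _ => (0 : R))) := by
      apply algHom_ext
      intro i
      change f (rename Sum.inl (X i)) = Polynomial.C (aeval (fun _ => (0 : R)) (X i))
      have h2 : (aeval (fun _ => (0 : R)) (X i : MvPolynomial ι R) : R) = 0 := aeval_X _ _
      rw [h2, map_zero, rename_X]
      exact aeval_X _ _
    exact AlgHom.congr_fun h1 q
  have h1 := congrArg f hr
  unfold asF at h1
  rw [map_add, map_add, map_add, map_mul, map_mul, map_pow, hfz, hfC, hfC, hfC, hfq, map_sum,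
    Finset.sum_eq_zero, map_zero, zero_mul, add_zero, add_zero] at h1
  · have h2 := congrArg (fun P : Polynomial R => P.coeff p) h1
    simp only [Polynomial.coeff_add, Polynomial.coeff_C_mul, Polynomial.coeff_X_pow,
      Polynomial.coeff_C, if_neg hp, if_true, mul_one, add_zero] at h2
    exact he h2
  · intro j _
    obtain ⟨l, hl⟩ := hb j
    rw [map_mul, map_prod, Finset.prod_eq_zero (Finset.mem_univ l), mul_zero]
    rw [map_pow, hfy, zero_pow hl]

/-- Resolution of singularities for purely inseparable covers of quadratic type over a curve. -/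
theorem pi_main {k R : Type u} [Field k] [PerfectField k] (p : ℕ) [Fact p.Prime] [CharP k p]
    (h2k : (2 : k) ≠ 0) [CommRing R]
    [IsDedekindDomain R] [Algebra k R] [Algebra.Smooth k R] {ι Λ J : Type} [Fintype ι]
    [Fintype Λ] [Fintype J] (e : R) (he : e ≠ 0) (q : MvPolynomial ι R)
    (hq : q.totalDegree ≤ 2) (c : J → R)
    (hc : ∀ j, c j ≠ 0) (b : J → Λ → ℕ)
    (hind : ∀ (κ : Type u) [Field κ] [Algebra k κ] (c : J → κ), ∃ w : Λ → κ, ∀ j,
      ∑ i, (b j i : κ) * w i = c j)
    (h : R) (h0 : h ≠ 0) (hh : C h ∈ jac k (piG p e q))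
    (hprime : (Ideal.span {asF p e 0 q c b}).IsPrime) :
    Pool.Agent.H920R2.HasResolution
      (X := AlgebraicGeometry.Spec (CommRingCat.of (MvPolynomial (ι ⊕ Option Λ) R ⧸
        Ideal.span {asF p e 0 q c b})))
      (AlgebraicGeometry.Spec.map (CommRingCat.ofHom (algebraMap k _))) := by
  classical
  have hp : p.Prime := Fact.out
  have hcR : CharP R p := charP_of_injective_algebraMap (algebraMap k R).injective p
  have hb : ∀ j, ∃ l, b j l ≠ 0 := by
    intro j
    by_contra hcon
    push Not at hcon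
    obtain ⟨w, hw⟩ := hind k (fun _ => 1)
    have := hw j
    rw [Finset.sum_eq_zero] at this
    · exact zero_ne_one this
    · intro i _
      rw [hcon i]
      simp
  have hh0 : h * ∏ j, c j ≠ 0 := mul_ne_zero h0 (Finset.prod_ne_zero_iff.2 fun j _ => hc j)
  refine global_main (asF p e 0 q c b) hprime
    (asF_ne_C p hp.ne_zero e he q c b hb) (h * ∏ j, c j) hh0 ?_ ?_
  · intro κ _ _ φ hφ1 hφ2
    exact pi_smooth (h * ∏ j, c j) p e q c b hind h hh κ φ hφ1 hφ2
  · intro g0 t hg0 hd hs hinj ht0 hmax' hht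
    let S := Localization.Away g0
    have hcS : CharP S p := charP_of_injective_algebraMap hinj p
    have hnoeth : IsNoetherianRing S := Algebra.FiniteType.isNoetherianRing k S
    have htu : ¬ IsUnit t := fun hu => hmax'.ne_top (Ideal.span_singleton_eq_top.2 hu)
    have hmax : ∀ a : S, ¬ t ∣ a → ∃ b, t ∣ 1 - a * b := by
      intro a ha
      obtain ⟨y, i, hi, hy⟩ := hmax'.exists_inv (x := a)
        (fun h => ha (Ideal.mem_span_singleton.1 h))
      obtain ⟨z, rfl⟩ := Ideal.mem_span_singleton.1 hi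
      exact ⟨y, z, by linear_combination -hy⟩
    have hh2 : (2 : S) * algebraMap k S (1 / 2) = 1 := by
      have h1 : (2 : S) = algebraMap k S 2 := (map_ofNat _ _).symm
      rw [h1, ← map_mul, mul_one_div_cancel h2k, map_one]
    have hgen : ∀ (κ : Type u) [Field κ] [Algebra k κ]
        (φ : MvPolynomial (ι ⊕ Option Λ) S →ₐ[k] κ),
        φ (map (algebraMap R S) (asF p e 0 q c b)) = 0 → φ (C t) ≠ 0 →
        ∃ D : TV φ, D.D (map (algebraMap R S) (asF p e 0 q c b)) ≠ 0 := by
      intro κ _ _ φ hφ hφt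
      refine pi_smooth g0 p e q c b hind h hh κ φ hφ ?_
      intro h1
      exact hφt (hht κ (φ.comp (cS k S _)) h1)
    rw [map_asF, map_zero] at hgen ⊢
    have he1 : algebraMap R S e ≠ 0 := fun h1 => he (hinj (h1.trans (map_zero _).symm))
    have h01 : algebraMap R S h ≠ 0 := fun h1 => h0 (hinj (h1.trans (map_zero _).symm))
    obtain ⟨ae, e', he', hee⟩ := WfDvdMonoid.max_power_factor' he1 htu
    obtain ⟨M0, h', hh', hM0⟩ := WfDvdMonoid.max_power_factor' h01 htu
    have hM : ¬ t ^ (M0 + 1) ∣ algebraMap R S h := by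
      rintro ⟨z, hz⟩
      apply hh'
      refine ⟨z, ?_⟩
      apply mul_left_cancel₀ (pow_ne_zero M0 ht0)
      rw [← hM0, hz, pow_succ]
      ring
    obtain ⟨δ, θ, P, u, ex, ⟨β, hδ⟩, hu, hcase⟩ := exists_nfz t ht0 hmax
      (algebraMap k S (1 / 2)) hh2 (M0 + 1 + 1) (asZ p (algebraMap R S e) 0)
      (fun m => ∀ n, m = ae + p * n → ¬ t ^ (m + 1) ∣ 0 * t ^ n)
      (as_hZ (k := k) p t hmax' (algebraMap R S e) 0 ae e' hee he' _)
      ⟨0, by rw [zero_pow hp.ne_zero]; ring⟩ (map (algebraMap R S) q)
      ((totalDegree_map_le _ _).trans hq)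
    rcases hcase with ⟨s, B, c0, E, hBP, hBc, hqE⟩ | ⟨E, hqE⟩
    · rw [hδ] at hqE
      exact as_locRes p h2k t ht0 hmax' (algebraMap R S e) 0 _ _
        (fun j h1 => hc j (hinj (h1.trans (map_zero _).symm))) b hind ae e' hee he' β θ P u ex s
        B c0 E hu hBP hBc hqE hgen
    · exfalso
      apply hM
      rw [hδ, zero_mul, add_zero] at hqE
      exact pi_pure g0 p e q h hh t (M0 + 1) P u ex θ E β hqE

end Pool.Agent.K6.H44.VT
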