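import Pool.Agent.K6.H44.VT.Blow

/-!
# Vertical principalization
-/

set_option autoImplicit false
set_option linter.unusedVariables false
set_option linter.unusedSimpArgs false
set_option linter.unusedSectionVars false

universe u v

open Polynomial Pool.Agent.W558

namespace Pool.Agent.K6.H44.VT

/-- Vertical toroidal modifications. -/
structure St {k L : Type u} [Field k] [Field L] [Algebra k L] (A0 : Subalgebra k L) {G : Type}
    (g : G → L) (t0 : G) where
  T : Type
  I : Type
  fT : Finite T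
  fI : Fintype I
  dI : DecidableEq I
  M : LM A0 A0 T I
  Γ : G → I → ℤ
  vb : VB A0 M.A M.x M.H g t0 Γ

attribute [instance] St.fT St.fI St.dI

section

variable {k L : Type u} [Field k] [Field L] [Algebra k L] {A0 : Subalgebra k L} {G : Type}
  [Fintype G] {g : G → L} {t0 : G}

/-- The exponent of the component `l` in the monomial with the exponents `δ`. -/
def co {I : Type} (δ : G → ℤ) (Γ : G → I → ℤ) (l : I) : ℤ := ∑ a, δ a * Γ a l

/-- The exponents of a monomial, or their restriction to the vertical components. -/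
def cv (b : Bool) (t0 : G) {I : Type} (δ : G → ℤ) (Γ : G → I → ℤ) (l : I) : ℤ :=
  if b = true ∨ 0 < Γ t0 l then co δ Γ l else 0

/-- On each chart the exponents are nonnegative, or they are nonpositive. -/
def Sg {T I : Type} (A : T → Subalgebra k L) (x : T → I → L) (c : I → ℤ) : Prop :=
  ∀ t, (∀ l, 0 ≤ c l ∨ (x t l)⁻¹ ∈ A t) ∨ (∀ l, c l ≤ 0 ∨ (x t l)⁻¹ ∈ A t)

lemma co_blow {I : Type} (i j : I) (δ : G → ℤ) (Γ : G → I → ℤ) :
    co δ (fun a => bΓ i j (Γ a)) none = co δ Γ i + co δ Γ j ∧
    ∀ l, co δ (fun a => bΓ i j (Γ a)) (some l) = co δ Γ l := by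
  constructor
  · unfold co
    rw [← Finset.sum_add_distrib]
    refine Finset.sum_congr rfl fun a _ => ?_
    change δ a * (Γ a i + Γ a j) = _
    ring
  · intro l
    rfl

lemma cv_blow {I : Type} (b : Bool) {i j : I} (δ : G → ℤ) (Γ : G → I → ℤ)
    (h : b = true ∨ (0 < Γ t0 i ∧ 0 < Γ t0 j)) :
    cv b t0 δ (fun a => bΓ i j (Γ a)) none = cv b t0 δ Γ i + cv b t0 δ Γ j ∧
    ∀ l, cv b t0 δ (fun a => bΓ i j (Γ a)) (some l) = cv b t0 δ Γ l := by
  obtain ⟨h1, h2⟩ := co_blow i j δ Γ
  constructor
  · unfold cv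
    rcases h with h | ⟨h3, h4⟩
    · rw [if_pos (Or.inl h), if_pos (Or.inl h), if_pos (Or.inl h), h1]
    · rw [if_pos (Or.inr (by change 0 < Γ t0 i + Γ t0 j; omega)), if_pos (Or.inr h3), if_pos (Or.inr h4), h1]
  · intro l
    unfold cv
    rw [h2 l]
    rfl

lemma Sg.blow {T I : Type} [Fintype I] [DecidableEq I] {M : LM A0 A0 T I} {i j : I} (hij : i ≠ j)
    {c : I → ℤ} {c' : Option I → ℤ} (h1 : c' none = c i + c j) (h2 : ∀ l, c' (some l) = c l)
    (h : Sg M.A M.x c) : Sg (bA M i j) (bX M i j) c' := by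
  intro p
  rcases h p.1 with h3 | h3
  · left
    rintro (_ | l)
    · rcases h3 i with h4 | h4
      · rcases h3 j with h5 | h5
        · left; rw [h1]; omega
        · right; exact (unit_bX M hij h5).2 (Or.inr rfl)
      · right; exact (unit_bX M hij h4).2 (Or.inl rfl)
    · rcases h3 l with h4 | h4
      · left; rw [h2]; exact h4
      · right; exact (unit_bX M hij h4).1
  · right
    rintro (_ | l)
    · rcases h3 i with h4 | h4
      · rcases h3 j with h5 | h5
        · left; rw [h1]; omega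
        · right; exact (unit_bX M hij h5).2 (Or.inr rfl)
      · right; exact (unit_bX M hij h4).2 (Or.inl rfl)
    · rcases h3 l with h4 | h4
      · left; rw [h2]; exact h4
      · right; exact (unit_bX M hij h4).1

/-- Comparisons are preserved by the modification. -/
structure Rel (b : Bool) (S S' : St A0 g t0) : Prop where
  full : ∀ δ, Sg S.M.A S.M.x (cv true t0 δ S.Γ) → Sg S'.M.A S'.M.x (cv true t0 δ S'.Γ)
  vert : b = false → ∀ δ, Sg S.M.A S.M.x (cv false t0 δ S.Γ) →
    Sg S'.M.A S'.M.x (cv false t0 δ S'.Γ)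

lemma Rel.refl (b : Bool) (S : St A0 g t0) : Rel b S S := ⟨fun _ => id, fun _ _ => id⟩

lemma Rel.trans {b : Bool} {S S' S'' : St A0 g t0} (h : Rel b S S') (h' : Rel b S' S'') :
    Rel b S S'' :=
  ⟨fun δ x => h'.full δ (h.full δ x), fun hb δ x => h'.vert hb δ (h.vert hb δ x)⟩

/-- No bad pairs. -/
lemma pr_fin (hg : ∀ a, g a ≠ 0) (b : Bool) (δ : G → ℤ) (S : St A0 g t0)
    (h : ∀ p, ¬ Bad S.M (cv b t0 δ S.Γ) p) :
    ∃ S' : St A0 g t0, Rel b S S' ∧ Sg S'.M.A S'.M.x (cv b t0 δ S'.Γ) := by
  classical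
  obtain ⟨T, I, fT, fI, dI, M, Γ, vb⟩ := S
  simp only at h ⊢
  let c : I → ℤ := cv b t0 δ Γ
  let s : Bool → Finset I := fun e =>
    if e then Finset.univ.filter (fun l => c l < 0) else
      Finset.univ.filter (fun l => 0 < c l)
  let h' : T → Bool → L := fun t e => ∏ l ∈ s e, M.x t l
  have hmem : ∀ t e, h' t e ∈ M.A t := fun t e => (M.A t).prod_mem fun l _ => M.xA t l
  have hne : ∀ t e, h' t e ≠ 0 := fun t e => Finset.prod_ne_zero_iff.2 fun l _ => M.x0 t l
  have hcop : ∀ t, ∃ α ∈ M.A t, ∃ β ∈ M.A t, α * h' t true + β * h' t false = 1 := by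
    intro t
    have key : IsCoprime (∏ l ∈ s true, (⟨M.x t l, M.xA t l⟩ : M.A t))
        (∏ l ∈ s false, (⟨M.x t l, M.xA t l⟩ : M.A t)) := by
      refine IsCoprime.prod_left fun l hl => IsCoprime.prod_right fun m hm => ?_
      have hl' : c l < 0 := by simpa [s] using hl
      have hm' : 0 < c m := by simpa [s] using hm
      have h1 : Sep M m l := by
        by_contra h2
        exact h (m, l) ⟨wt_pos.2 ⟨hm', hl'⟩, h2⟩
      obtain ⟨α, hα, β, hβ, h3⟩ := h1.symm t
      exact ⟨⟨α, hα⟩, ⟨β, hβ⟩, Subtype.ext h3⟩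
    obtain ⟨α, β, hαβ⟩ := key
    refine ⟨α, α.2, β, β.2, ?_⟩
    have := congrArg (Subtype.val : M.A t → L) hαβ
    simpa [h'] using this
  obtain ⟨M', hA, hx, hH⟩ := exists_refine M h' hmem hne (by
    intro t V hV
    obtain ⟨α, hα, β, hβ, h1⟩ := hcop t
    have hV1 : h' t true ∈ V := hV _ (hmem _ _)
    have hV2 : h' t false ∈ V := hV _ (hmem _ _)
    by_contra hcon
    push Not at hcon
    have h2 : ∀ e, V.valuation (h' t e) < 1 := by
      intro e
      have h3 : (h' t e)⁻¹ ∉ V := hcon e
      rw [← V.valuation_le_one_iff, map_inv₀, not_le] at h3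
      have h4 : V.valuation (h' t e) ≠ 0 := by
        rw [ne_eq, map_eq_zero]; exact hne t e
      exact (one_lt_inv₀ (zero_lt_iff.2 h4)).1 h3
    have h5 : V.valuation (α * h' t true + β * h' t false) < 1 := by
      refine Valuation.map_add_lt _ ?_ ?_
      · rw [map_mul]
        exact (mul_le_of_le_one_left' ((V.valuation_le_one_iff _).2 (hV _ hα))).trans_lt (h2 _)
      · rw [map_mul]
        exact (mul_le_of_le_one_left' ((V.valuation_le_one_iff _).2 (hV _ hβ))).trans_lt (h2 _)
    rw [h1, map_one] at h5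
    exact lt_irrefl _ h5)
  have hvb : VB A0 M'.A M'.x M'.H g t0 Γ := by
    have h1 := vb.refine hg h' hmem hne M'.H hH
    rw [hA, hx]
    exact h1
  have hsg : ∀ c : I → ℤ, Sg M.A M.x c → Sg M'.A M'.x c := by
    intro c hc p
    rw [hA, hx]
    exact (hc p.1).imp (fun h1 l => (h1 l).imp_right fun h2 => le_rA M h' p h2)
      (fun h1 l => (h1 l).imp_right fun h2 => le_rA M h' p h2)
  refine ⟨⟨T × Bool, I, inferInstance, fI, dI, M', Γ, hvb⟩, ⟨fun δ hδ => hsg _ hδ,
    fun _ δ hδ => hsg _ hδ⟩, ?_⟩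
  rintro ⟨t, e⟩
  change (∀ l, 0 ≤ c l ∨ (M'.x (t, e) l)⁻¹ ∈ M'.A (t, e)) ∨
    (∀ l, c l ≤ 0 ∨ (M'.x (t, e) l)⁻¹ ∈ M'.A (t, e))
  rw [hA, hx]
  have hu : ∀ l ∈ s e, (M.x t l)⁻¹ ∈ rA M h' (t, e) := by
    intro l hl
    have h1 : (M.x t l)⁻¹ = (∏ m ∈ (s e).erase l, M.x t m) * (h' t e)⁻¹ := by
      have h2 : h' t e = M.x t l * ∏ m ∈ (s e).erase l, M.x t m :=
        (Finset.mul_prod_erase _ _ hl).symm
      rw [h2]
      have h3 := M.x0 t l
      have h4 : ∏ m ∈ (s e).erase l, M.x t m ≠ 0 :=
        Finset.prod_ne_zero_iff.2 fun l _ => M.x0 t l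
      field_simp
    rw [h1]
    exact (rA M h' (t, e)).mul_mem
      (le_rA M h' (t, e) ((M.A t).prod_mem fun m _ => M.xA t m)) (inv_mem_rA M h' (t, e))
  cases e
  · right
    intro l
    by_cases hl : 0 < c l
    · right
      exact hu l (by simpa [s] using hl)
    · left
      omega
  · left
    intro l
    by_cases hl : c l < 0
    · right
      exact hu l (by simpa [s] using hl)
    · left
      omega

theorem pr_aux (hg : ∀ a, g a ≠ 0) (b : Bool) (δ : G → ℤ)
    (hδ : b = true → ∀ a, a ≠ t0 → δ a ≤ 0) : ∀ (W n : ℕ) (S : St A0 g t0),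
    (∀ p, Bad S.M (cv b t0 δ S.Γ) p → wt (cv b t0 δ S.Γ) p ≤ W) →
    {p | Bad S.M (cv b t0 δ S.Γ) p ∧ wt (cv b t0 δ S.Γ) p = W}.ncard ≤ n →
    ∃ S' : St A0 g t0, Rel b S S' ∧ Sg S'.M.A S'.M.x (cv b t0 δ S'.Γ) := by
  intro W
  induction W with
  | zero =>
    intro n S hW hn
    refine pr_fin hg b δ S ?_
    intro p hp
    have := hW p hp
    have := hp.1
    omega
  | succ W ihW =>
    intro n
    induction n with
    | zero =>
      intro S hW hn
      refine ihW _ S ?_ le_rfl
      intro p hp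
      have h1 := hW p hp
      rcases h1.lt_or_eq with h2 | h2
      · omega
      · exfalso
        have h3 : {p | Bad S.M (cv b t0 δ S.Γ) p ∧ wt (cv b t0 δ S.Γ) p = W + 1} = ∅ := by
          rw [← Set.ncard_eq_zero (Set.toFinite _)]
          omega
        have h4 : p ∈ {p | Bad S.M (cv b t0 δ S.Γ) p ∧ wt (cv b t0 δ S.Γ) p = W + 1} := ⟨hp, h2⟩
        rw [h3] at h4
        exact h4
    | succ n ihn =>
      intro S hW hn
      by_cases hex : ∃ p, Bad S.M (cv b t0 δ S.Γ) p ∧ wt (cv b t0 δ S.Γ) p = W + 1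
      · obtain ⟨⟨i, j⟩, hb, hwt⟩ := hex
        have hpos := wt_pos.1 hb.1
        simp only at hpos
        have hij : i ≠ j := by
          rintro rfl
          omega
        obtain ⟨T, I, fT, fI, dI, M, Γ, vb⟩ := S
        simp only at i j hb hwt hpos hij hW hn
        -- one of the components is vertical
        have hvert : (b = true ∧ 0 < Γ t0 i) ∨ (b = false ∧ 0 < Γ t0 i ∧ 0 < Γ t0 j) := by
          cases b
          · right
            refine ⟨rfl, ?_, ?_⟩
            · by_contra hcon
              have h1 : cv false t0 δ Γ i = 0 := if_neg (by simpa using hcon)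
              omega
            · by_contra hcon
              have h1 : cv false t0 δ Γ j = 0 := if_neg (by simpa using hcon)
              omega
          · left
            refine ⟨rfl, ?_⟩
            by_contra hcon
            have h0 : Γ t0 i = 0 := le_antisymm (by omega) (vb.Γ0 t0 i)
            have h1 : cv true t0 δ Γ i = co δ Γ i := if_pos (Or.inl rfl)
            have h2 : co δ Γ i ≤ 0 := by
              refine Finset.sum_nonpos fun a _ => ?_
              by_cases ha : a = t0
              · rw [ha, h0, mul_zero]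
              · exact mul_nonpos_of_nonpos_of_nonneg (hδ rfl a ha) (vb.Γ0 a i)
            omega
        obtain ⟨M', hA, hx, hH⟩ := exists_blowup M hij
        have hcv := cv_blow (t0 := t0) b (i := i) (j := j) δ Γ (by
          rcases hvert with h1 | h1
          · exact Or.inl h1.1
          · exact Or.inr h1.2)
        have hvb : VB A0 M'.A M'.x M'.H g t0 (fun a => bΓ i j (Γ a)) := by
          have h1 := vb.blow hg hij (by
            rcases hvert with h1 | h1
            · exact Or.inl h1.2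
            · exact Or.inl h1.2.1) M'.H hH
          rw [hA, hx]
          exact h1
        let S' : St A0 g t0 := ⟨T × Bool, Option I, inferInstance, inferInstance,
          inferInstance, M', fun a => bΓ i j (Γ a), hvb⟩
        have hrel : Rel b ⟨T, I, fT, fI, dI, M, Γ, vb⟩ S' := by
          constructor
          · intro δ' h1
            have h2 := cv_blow (t0 := t0) true (i := i) (j := j) δ' Γ (Or.inl rfl)
            have h3 := Sg.blow hij h2.1 h2.2 h1
            change Sg M'.A M'.x _
            rw [hA, hx]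
            exact h3
          · intro hbf δ' h1
            have h2 := cv_blow (t0 := t0) false (i := i) (j := j) δ' Γ (by
              rcases hvert with h4 | h4
              · rw [h4.1] at hbf
                exact absurd hbf (by simp)
              · exact Or.inr h4.2)
            have h3 := Sg.blow hij h2.1 h2.2 h1
            change Sg M'.A M'.x _
            rw [hA, hx]
            exact h3
        have key := bad_blowup M hij M' hA hx _ _ hcv.1 hcv.2 (W + 1) hW hb
        obtain ⟨S'', hR, hC⟩ := ihn S' (by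
          intro q hq
          rcases key q hq with h1 | ⟨l, l', h1, h2, h3, h4⟩
          · exact h1.le
          · change wt (cv b t0 δ fun a => bΓ i j (Γ a)) q ≤ W + 1
            rw [← h3]
            exact hW _ h2) (by
          have h5 : {q | Bad M' (cv b t0 δ fun a => bΓ i j (Γ a)) q ∧
              wt (cv b t0 δ fun a => bΓ i j (Γ a)) q = W + 1} ⊆
              (fun q : I × I => (some q.1, some q.2)) ''
                ({p | Bad M (cv b t0 δ Γ) p ∧ wt (cv b t0 δ Γ) p = W + 1} \ {(i, j)}) := by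
            rintro q ⟨hq, hq'⟩
            rcases key q hq with h1 | ⟨l, l', h1, h2, h3, h4⟩
            · omega
            · exact ⟨(l, l'), ⟨⟨h2, by rw [h3, hq']⟩, h4⟩, h1.symm⟩
          have h6 := Set.ncard_le_ncard h5 (Set.toFinite _)
          have h7 := Set.ncard_image_le (f := fun q : I × I => (some q.1, some q.2))
            (s := {p | Bad M (cv b t0 δ Γ) p ∧ wt (cv b t0 δ Γ) p = W + 1} \ {(i, j)})
            (Set.toFinite _)
          have h8 := Set.ncard_sdiff_singleton_lt_of_mem
            (s := {p | Bad M (cv b t0 δ Γ) p ∧ wt (cv b t0 δ Γ) p = W + 1}) (a := (i, j))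
            ⟨hb, hwt⟩ (Set.toFinite _)
          change {q | Bad M' (cv b t0 δ fun a => bΓ i j (Γ a)) q ∧
              wt (cv b t0 δ fun a => bΓ i j (Γ a)) q = W + 1}.ncard ≤ n
          omega)
        exact ⟨S'', hrel.trans hR, hC⟩
      · refine ihW _ S ?_ le_rfl
        intro p hp
        have h1 := hW p hp
        rcases h1.lt_or_eq with h2 | h2
        · omega
        · exact absurd ⟨p, hp, h2⟩ hex

theorem pr_pair (hg : ∀ a, g a ≠ 0) (b : Bool) (δ : G → ℤ)
    (hδ : b = true → ∀ a, a ≠ t0 → δ a ≤ 0) (S : St A0 g t0) :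
    ∃ S' : St A0 g t0, Rel b S S' ∧ Sg S'.M.A S'.M.x (cv b t0 δ S'.Γ) := by
  refine pr_aux hg b δ hδ (Finset.univ.sup (wt (cv b t0 δ S.Γ))) _ S ?_ le_rfl
  intro p _
  exact Finset.le_sup (Finset.mem_univ p)

theorem pr_list (hg : ∀ a, g a ≠ 0) (b : Bool) {J : Type} (s : Finset J) (δ : J → G → ℤ)
    (hδ : b = true → ∀ j a, a ≠ t0 → δ j a ≤ 0) (S : St A0 g t0) :
    ∃ S' : St A0 g t0, Rel b S S' ∧ ∀ j ∈ s, Sg S'.M.A S'.M.x (cv b t0 (δ j) S'.Γ) := by
  classical
  induction s using Finset.induction_on with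
  | empty => exact ⟨S, Rel.refl b S, by simp⟩
  | insert j s hj ih =>
    obtain ⟨S1, hR1, hS1⟩ := ih
    obtain ⟨S2, hR2, hS2⟩ := pr_pair hg b (δ j) (fun hb a ha => hδ hb j a ha) S1
    refine ⟨S2, hR1.trans hR2, ?_⟩
    intro j' hj'
    rcases Finset.mem_insert.1 hj' with rfl | hj'
    · exact hS2
    · cases b
      · exact hR2.vert rfl _ (hS1 j' hj')
      · exact hR2.full _ (hS1 j' hj')

end

end Pool.Agent.K6.H44.VT
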