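import Pool.Agent.W558.Princ

/-!
# Vertical toroidal modifications

Modifications of a smooth affine variety `Spec A0` by blowups of intersections of two components of
a divisor with simple normal crossings, one of which lies over the divisor of `s = g t0`. The
logarithmic tangent vectors of `Spec A0` can be lifted, and so can all tangent vectors at the points
where `s` is invertible.
-/

set_option autoImplicit false
set_option linter.unusedVariables false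
set_option linter.unusedSimpArgs false
set_option linter.unusedSectionVars false

universe u v

open Polynomial Pool.Agent.W558

namespace Pool.Agent.K6.H44.VT

section le

variable {k L : Type u} [Field k] [Field L] [Algebra k L]

/-- The restriction of a point to a smaller subalgebra. -/
noncomputable abbrev rs {A B : Subalgebra k L} (h : A ≤ B) {κ : Type u} [Field κ] [Algebra k κ]
    (φ : B →ₐ[k] κ) : A →ₐ[k] κ := φ.comp (Subalgebra.inclusion h)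

/-- The tangent vector `D` has the logarithmic value `e` at `z`. -/
def LE {A : Subalgebra k L} {κ : Type u} [Field κ] [Algebra k κ] {φ : A →ₐ[k] κ} (D : TV φ)
    (z : L) (e : κ) : Prop :=
  ∃ hz : z ∈ A, D.D ⟨z, hz⟩ = φ ⟨z, hz⟩ * e

variable {A : Subalgebra k L} {κ : Type u} [Field κ] [Algebra k κ] {φ : A →ₐ[k] κ} {D : TV φ}

lemma LE.one : LE D 1 0 := ⟨A.one_mem, by
  have : (⟨1, A.one_mem⟩ : A) = 1 := rfl
  rw [this, D.D_one, mul_zero]⟩

lemma LE.mul {z z' : L} {e e' : κ} (h : LE D z e) (h' : LE D z' e') : LE D (z * z') (e + e') := by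
  obtain ⟨hz, h1⟩ := h
  obtain ⟨hz', h2⟩ := h'
  refine ⟨A.mul_mem hz hz', ?_⟩
  have : (⟨z * z', A.mul_mem hz hz'⟩ : A) = ⟨z, hz⟩ * ⟨z', hz'⟩ := rfl
  rw [this, D.leib, h1, h2, map_mul]
  ring

lemma LE.pow {z : L} {e : κ} (h : LE D z e) (n : ℕ) : LE D (z ^ n) (n * e) := by
  induction n with
  | zero => simpa using (LE.one : LE D 1 0)
  | succ n ih =>
    rw [pow_succ]
    have := ih.mul h
    push_cast
    rwa [add_mul, one_mul]

lemma LE.inv {z : L} {e : κ} (h : LE D z e) (h0 : z ≠ 0) (hz' : z⁻¹ ∈ A) : LE D z⁻¹ (-e) := by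
  obtain ⟨hz, h1⟩ := h
  refine ⟨hz', ?_⟩
  have h2 : (⟨z, hz⟩ : A) * ⟨z⁻¹, hz'⟩ = 1 := Subtype.ext (mul_inv_cancel₀ h0)
  have h3 : φ ⟨z, hz⟩ * φ ⟨z⁻¹, hz'⟩ = 1 := by rw [← map_mul, h2, map_one]
  have h4 : D.D ((⟨z, hz⟩ : A) * ⟨z⁻¹, hz'⟩) = 0 := by rw [h2, D.D_one]
  rw [D.leib, h1] at h4
  have h5 : φ ⟨z, hz⟩ ≠ 0 := left_ne_zero_of_mul_eq_one h3
  have h6 : φ ⟨z, hz⟩ * (D.D ⟨z⁻¹, hz'⟩ + φ ⟨z⁻¹, hz'⟩ * e) = 0 := by
    rw [← h4]; ring
  have h7 := (mul_eq_zero.1 h6).resolve_left h5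
  rw [mul_neg]
  exact eq_neg_of_add_eq_zero_left h7

lemma LE.zpow {z : L} {e : κ} (h : LE D z e) (h0 : z ≠ 0) (n : ℤ) (hn : 0 ≤ n ∨ z⁻¹ ∈ A) :
    LE D (z ^ n) (n * e) := by
  rcases le_or_gt 0 n with h1 | h1
  · obtain ⟨m, rfl⟩ := Int.eq_ofNat_of_zero_le h1
    rw [zpow_natCast]
    simpa using h.pow m
  · have h2 := hn.resolve_left (by omega)
    obtain ⟨m, hm⟩ := Int.eq_ofNat_of_zero_le (show 0 ≤ -n by omega)
    have h3 : n = -(m : ℤ) := by omega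
    rw [h3, zpow_neg, zpow_natCast, ← inv_pow]
    have := (h.inv h0 h2).pow m
    push_cast
    rwa [neg_mul, ← mul_neg]

lemma LE.prod {J : Type*} (s : Finset J) (z : J → L) (e : J → κ) (h : ∀ j ∈ s, LE D (z j) (e j)) :
    LE D (∏ j ∈ s, z j) (∑ j ∈ s, e j) := by
  classical
  induction s using Finset.induction_on with
  | empty => simpa using (LE.one : LE D 1 0)
  | insert a s ha ih =>
    rw [Finset.prod_insert ha, Finset.sum_insert ha]
    exact (h a (Finset.mem_insert_self a s)).mul (ih fun i hi => h i (Finset.mem_insert_of_mem hi))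

lemma LE.congr {z : L} {e e' : κ} (h : LE D z e) (he : e = e') : LE D z e' := he ▸ h

/-- The logarithmic values are preserved by extensions of tangent vectors. -/
lemma LE.ext {B : Subalgebra k L} (hAB : A ≤ B) {ψ : B →ₐ[k] κ} {E : TV ψ} {D : TV (rs hAB ψ)}
    (hE : ∀ a (ha : a ∈ A), E.D ⟨a, hAB ha⟩ = D.D ⟨a, ha⟩) {z : L} {e : κ} (h : LE D z e) :
    LE E z e := by
  obtain ⟨hz, h1⟩ := h
  refine ⟨hAB hz, ?_⟩
  rw [hE z hz, h1]
  rfl

end le

section vb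

variable {k L : Type u} [Field k] [Field L] [Algebra k L] {A0 : Subalgebra k L} {T I G : Type}
  [Fintype I]

/-- The unit part of the function `g a` on the chart `t`. -/
noncomputable def wf (x : T → I → L) (g : G → L) (Γ : G → I → ℤ) (t : T) (a : G) : L :=
  g a * (∏ i, x t i ^ Γ a i)⁻¹

/-- The properties of vertical toroidal modifications. -/
structure VB (A0 : Subalgebra k L) (A : T → Subalgebra k L) (x : T → I → L) (H : T → L)
    (g : G → L) (t0 : G) (Γ : G → I → ℤ) : Prop where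
  base : ∀ t, A0 ≤ A t
  wA : ∀ t a, wf x g Γ t a ∈ A t
  wA' : ∀ t a, (wf x g Γ t a)⁻¹ ∈ A t
  Γ0 : ∀ a i, 0 ≤ Γ a i
  vH : ∀ t, ∃ n : ℕ, g t0 ^ n / H t ∈ A t
  lift : ∀ t (κ : Type u) [Field κ] [Algebra k κ] (φ : A t →ₐ[k] κ)
    (hg : g t0 ∈ A t), φ ⟨g t0, hg⟩ ≠ 0 → ∀ D0 : TV (rs (base t) φ), ∃ D : TV φ,
      ∀ a (ha : a ∈ A0), D.D ⟨a, base t ha⟩ = D0.D ⟨a, ha⟩
  llift : ∀ t (κ : Type u) [Field κ] [Algebra k κ] (φ : A t →ₐ[k] κ) (D0 : TV (rs (base t) φ))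
    (e0 : G → κ), (∀ a, LE D0 (g a) (e0 a)) → ∃ (D : TV φ) (e : I → κ),
      (∀ a (ha : a ∈ A0), D.D ⟨a, base t ha⟩ = D0.D ⟨a, ha⟩) ∧
      (∀ i, LE D (x t i) (e i)) ∧ ∀ a, LE D (wf x g Γ t a) (e0 a - ∑ i, Γ a i * e i)

variable {M : LM A0 A0 T I} {g : G → L} {t0 : G} {Γ : G → I → ℤ}

lemma wf_eq (hg : ∀ a, g a ≠ 0) (t : T) (a : G) :
    wf M.x g Γ t a ≠ 0 ∧ g a = wf M.x g Γ t a * ∏ i, M.x t i ^ Γ a i := by
  have h1 : ∏ i, M.x t i ^ Γ a i ≠ 0 := Finset.prod_ne_zero_iff.2 fun i _ =>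
    zpow_ne_zero _ (M.x0 t i)
  refine ⟨mul_ne_zero (hg a) (inv_ne_zero h1), ?_⟩
  rw [wf]
  field_simp

/-- The vertical components divide the function `g t0`. -/
lemma vx (hg : ∀ a, g a ≠ 0) (h : VB A0 M.A M.x M.H g t0 Γ) {i : I} (hi : 0 < Γ t0 i) (t : T) :
    g t0 / M.x t i ∈ M.A t := by
  classical
  obtain ⟨h1, h2⟩ := wf_eq (M := M) (Γ := Γ) hg t t0
  have h3 : g t0 / M.x t i = wf M.x g Γ t t0 * (M.x t i ^ (Γ t0 i - 1) *
      ∏ l ∈ Finset.univ.erase i, M.x t l ^ Γ t0 l) := by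
    have h4 : ∏ l, M.x t l ^ Γ t0 l = M.x t i ^ Γ t0 i *
        ∏ l ∈ Finset.univ.erase i, M.x t l ^ Γ t0 l :=
      (Finset.mul_prod_erase _ _ (Finset.mem_univ i)).symm
    have h5 := M.x0 t i
    conv_lhs => rw [h2, h4]
    rw [zpow_sub_one₀ h5]
    field_simp
  rw [h3]
  have h6 : ∀ l, ∀ n : ℤ, 0 ≤ n → M.x t l ^ n ∈ M.A t := by
    intro l n hn
    obtain ⟨m, rfl⟩ := Int.eq_ofNat_of_zero_le hn
    rw [zpow_natCast]
    exact (M.A t).pow_mem (M.xA t l) m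
  refine (M.A t).mul_mem (h.wA t t0) ((M.A t).mul_mem (h6 _ _ (by omega)) ?_)
  exact (M.A t).prod_mem fun l _ => h6 _ _ (h.Γ0 _ _)

end vb

end Pool.Agent.K6.H44.VT
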