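import Pool.Agent.K6.H44.VT.Pr

/-!
# The strict transform of a nondegenerate hypersurface
-/

set_option autoImplicit false
set_option linter.unusedVariables false
set_option linter.unusedSimpArgs false
set_option linter.unusedSectionVars false

universe u v

open Polynomial Pool.Agent.W558

namespace Pool.Agent.K6.H44.VT

section mono

variable {k L : Type u} [Field k] [Field L] [Algebra k L] {A0 : Subalgebra k L} {T I G : Type}
  [Fintype I] [Fintype G] {M : LM A0 A0 T I} {g : G → L} {t0 : G} {Γ : G → I → ℤ}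

/-- The monomial with the exponents `δ`. -/
noncomputable def mo (g : G → L) (δ : G → ℤ) : L := ∏ a, g a ^ δ a

/-- The monomial is regular on the chart `t`. -/
def Rg (A : T → Subalgebra k L) (x : T → I → L) (t : T) (c : I → ℤ) : Prop :=
  ∀ l, 0 ≤ c l ∨ (x t l)⁻¹ ∈ A t

lemma Rg.add {A : T → Subalgebra k L} {x : T → I → L} {t : T} {c c' c'' : I → ℤ}
    (h : Rg A x t c) (h' : Rg A x t c') (hc : ∀ l, c'' l = c l + c' l) : Rg A x t c'' := by
  intro l
  rcases h l with h1 | h1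
  · rcases h' l with h2 | h2
    · left; rw [hc]; omega
    · exact Or.inr h2
  · exact Or.inr h1

lemma mo_zero : mo g (0 : G → ℤ) = 1 := by simp [mo]

lemma mo_ne (hg : ∀ a, g a ≠ 0) (δ : G → ℤ) : mo g δ ≠ 0 :=
  Finset.prod_ne_zero_iff.2 fun a _ => zpow_ne_zero _ (hg a)

lemma mo_add (hg : ∀ a, g a ≠ 0) (δ δ' : G → ℤ) : mo g (δ + δ') = mo g δ * mo g δ' := by
  unfold mo
  rw [← Finset.prod_mul_distrib]
  exact Finset.prod_congr rfl fun a _ => zpow_add₀ (hg a) _ _

lemma mo_sub (hg : ∀ a, g a ≠ 0) (δ δ' : G → ℤ) : mo g (δ - δ') * mo g δ' = mo g δ := by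
  rw [← mo_add hg, sub_add_cancel]

lemma co_sub {I : Type} (δ δ' : G → ℤ) (Γ : G → I → ℤ) (l : I) :
    co (δ - δ') Γ l = co δ Γ l - co δ' Γ l := by
  unfold co
  rw [← Finset.sum_sub_distrib]
  exact Finset.sum_congr rfl fun a _ => by rw [Pi.sub_apply]; ring

/-- The monomial in terms of the local equations. -/
lemma mo_eq (hg : ∀ a, g a ≠ 0) (t : T) (δ : G → ℤ) :
    mo g δ = (∏ a, wf M.x g Γ t a ^ δ a) * ∏ l, M.x t l ^ co δ Γ l := by
  unfold mo
  have h1 : ∀ a, g a ^ δ a = wf M.x g Γ t a ^ δ a * ∏ l, M.x t l ^ (δ a * Γ a l) := by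
    intro a
    conv_lhs => rw [(wf_eq (M := M) (Γ := Γ) hg t a).2]
    rw [mul_zpow, ← Finset.prod_zpow]
    congr 1
    refine Finset.prod_congr rfl fun l _ => ?_
    rw [← zpow_mul, mul_comm]
  rw [Finset.prod_congr rfl fun a _ => h1 a, Finset.prod_mul_distrib, Finset.prod_comm]
  congr 1
  refine Finset.prod_congr rfl fun l _ => ?_
  have h2 : ∀ s : Finset G, ∏ a ∈ s, M.x t l ^ (δ a * Γ a l) =
      M.x t l ^ (∑ a ∈ s, δ a * Γ a l) := by
    classical
    intro s
    induction s using Finset.induction_on with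
    | empty => simp
    | insert a s ha ih =>
      rw [Finset.prod_insert ha, Finset.sum_insert ha, ih, zpow_add₀ (M.x0 t l)]
  exact h2 _

lemma zpow_mem' {A : Subalgebra k L} {z : L} (hz : z ∈ A) (n : ℤ) (hn : 0 ≤ n ∨ z⁻¹ ∈ A) :
    z ^ n ∈ A := by
  rcases le_or_gt 0 n with h1 | h1
  · obtain ⟨m, rfl⟩ := Int.eq_ofNat_of_zero_le h1
    rw [zpow_natCast]
    exact A.pow_mem hz m
  · have h2 := hn.resolve_left (by omega)
    obtain ⟨m, hm⟩ := Int.eq_ofNat_of_zero_le (show 0 ≤ -n by omega)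
    have h3 : n = -(m : ℤ) := by omega
    rw [h3, zpow_neg, zpow_natCast, ← inv_pow]
    exact A.pow_mem h2 m

lemma mo_mem (hg : ∀ a, g a ≠ 0) (h : VB A0 M.A M.x M.H g t0 Γ) {t : T} {δ : G → ℤ}
    (hδ : Rg M.A M.x t (co δ Γ)) : mo g δ ∈ M.A t := by
  rw [mo_eq (M := M) (Γ := Γ) hg t]
  refine (M.A t).mul_mem ((M.A t).prod_mem fun a _ => zpow_mem' (h.wA t a) _
    (Or.inr (h.wA' t a))) ((M.A t).prod_mem fun l _ => zpow_mem' (M.xA t l) _ (hδ l))

/-- Logarithmic values of monomials. -/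
lemma mo_LE (hg : ∀ a, g a ≠ 0) (h : VB A0 M.A M.x M.H g t0 Γ) {t : T} {δ : G → ℤ}
    (hδ : Rg M.A M.x t (co δ Γ)) {κ : Type u} [Field κ] [Algebra k κ] {φ : M.A t →ₐ[k] κ}
    {D : TV φ} {e : I → κ} {e0 : G → κ} (hx : ∀ l, LE D (M.x t l) (e l))
    (hw : ∀ a, LE D (wf M.x g Γ t a) (e0 a - ∑ i, Γ a i * e i)) :
    LE D (mo g δ) (∑ a, δ a * e0 a) := by
  rw [mo_eq (M := M) (Γ := Γ) hg t]
  have h1 : LE D (∏ a, wf M.x g Γ t a ^ δ a) (∑ a, δ a * (e0 a - ∑ i, Γ a i * e i)) :=
    LE.prod _ _ _ fun a _ => (hw a).zpow (wf_eq (M := M) (Γ := Γ) hg t a).1 _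
      (Or.inr (h.wA' t a))
  have h2 : LE D (∏ l, M.x t l ^ co δ Γ l) (∑ l, (co δ Γ l : κ) * e l) :=
    LE.prod _ _ _ fun l _ => (hx l).zpow (M.x0 t l) _ (hδ l)
  refine (h1.mul h2).congr ?_
  have h3 : ∀ a, (δ a : κ) * (e0 a - ∑ i, Γ a i * e i) =
      δ a * e0 a - ∑ i, δ a * (Γ a i * e i) := by
    intro a
    rw [mul_sub, Finset.mul_sum]
  rw [Finset.sum_congr rfl fun a _ => h3 a, Finset.sum_sub_distrib, Finset.sum_comm]
  have h4 : ∀ l, (co δ Γ l : κ) * e l = ∑ a, (δ a : κ) * (Γ a l * e l) := by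
    intro l
    unfold co
    push_cast
    rw [Finset.sum_mul]
    exact Finset.sum_congr rfl fun a _ => by ring
  rw [Finset.sum_congr rfl fun l _ => h4 l]
  ring

end mono

section min

lemma exists_least {J : Type} (s : Finset J) (hs : s.Nonempty) (R : J → J → Prop)
    (hr : ∀ a ∈ s, R a a) (htot : ∀ a ∈ s, ∀ b ∈ s, R a b ∨ R b a)
    (htr : ∀ a b c, R a b → R b c → R a c) : ∃ m ∈ s, ∀ b ∈ s, R m b := by
  classical
  induction hs using Finset.Nonempty.cons_induction with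
  | singleton a => exact ⟨a, by simp, fun b hb => by
      rw [Finset.mem_singleton] at hb
      rw [hb]
      exact hr a (by simp)⟩
  | cons a s ha hs ih =>
    obtain ⟨m, hm, hm'⟩ := ih (fun b hb => hr b (Finset.mem_cons_of_mem hb))
      (fun b hb c hc => htot b (Finset.mem_cons_of_mem hb) c (Finset.mem_cons_of_mem hc))
    rcases htot a (Finset.mem_cons_self a s) m (Finset.mem_cons_of_mem hm) with h | h
    · refine ⟨a, Finset.mem_cons_self a s, fun b hb => ?_⟩
      rcases Finset.mem_cons.1 hb with rfl | hb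
      · exact hr _ (Finset.mem_cons_self _ _)
      · exact htr _ _ _ h (hm' b hb)
    · refine ⟨m, Finset.mem_cons_of_mem hm, fun b hb => ?_⟩
      rcases Finset.mem_cons.1 hb with rfl | hb
      · exact h
      · exact hm' b hb

variable {k L : Type u} [Field k] [Field L] [Algebra k L] {A0 : Subalgebra k L} {G J : Type}
  [Fintype G] [DecidableEq G] [Fintype J] {g : G → L} {t0 : G}

/-- The exponents of `g t0 ^ N`. -/
def nuN (t0 : G) (N : ℕ) : G → ℤ := fun a => if a = t0 then N else 0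

/-- A vertical modification on which, on every chart, one of the monomials `μ j`, `g t0 ^ N` divides
all the others. -/
theorem exists_min (hg : ∀ a, g a ≠ 0) (μ : J → G → ℕ) (N : ℕ) (S : St A0 g t0) :
    ∃ S' : St A0 g t0, ∀ t, ∃ ν : G → ℤ, (ν = nuN t0 N ∨ ∃ m, ν = fun a => (μ m a : ℤ)) ∧
      (∀ j, Rg S'.M.A S'.M.x t (co ((fun a => (μ j a : ℤ)) - ν) S'.Γ)) ∧
      Rg S'.M.A S'.M.x t (co (nuN t0 N - ν) S'.Γ) := by
  classical
  obtain ⟨S1, -, h1⟩ := pr_list hg true (Finset.univ : Finset J)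
    (fun j => nuN t0 N - fun a => (μ j a : ℤ)) (by
      intro _ j a ha
      simp [nuN, ha]) S
  obtain ⟨S2, hR, h2⟩ := pr_list hg false (Finset.univ : Finset (J × J))
    (fun q => (fun a => (μ q.1 a : ℤ)) - fun a => (μ q.2 a : ℤ)) (by simp) S1
  refine ⟨S2, fun t => ?_⟩
  have hvb := S2.vb
  have hful : ∀ (δ : G → ℤ) l, cv true t0 δ S2.Γ l = co δ S2.Γ l := fun δ l => if_pos (Or.inl rfl)
  -- comparison with `g t0 ^ N`
  have hN : ∀ j, Rg S2.M.A S2.M.x t (co (nuN t0 N - fun a => (μ j a : ℤ)) S2.Γ) ∨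
      Rg S2.M.A S2.M.x t (co ((fun a => (μ j a : ℤ)) - nuN t0 N) S2.Γ) := by
    intro j
    rcases hR.full _ (h1 j (Finset.mem_univ j)) t with h3 | h3
    · left
      intro l
      rw [← hful]
      exact h3 l
    · right
      intro l
      refine (h3 l).imp_left fun h4 => ?_
      rw [hful, co_sub] at h4
      rw [co_sub]
      omega
  by_cases hA : ∀ j, Rg S2.M.A S2.M.x t (co ((fun a => (μ j a : ℤ)) - nuN t0 N) S2.Γ)
  · refine ⟨nuN t0 N, Or.inl rfl, hA, ?_⟩
    rw [sub_self]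
    intro l
    left
    simp [co]
  · push Not at hA
    obtain ⟨j0, hj0⟩ := hA
    have hj0' := (hN j0).resolve_right hj0
    let s : Finset J := Finset.univ.filter fun j =>
      Rg S2.M.A S2.M.x t (co (nuN t0 N - fun a => (μ j a : ℤ)) S2.Γ)
    have hs : ∀ j, j ∈ s ↔ Rg S2.M.A S2.M.x t (co (nuN t0 N - fun a => (μ j a : ℤ)) S2.Γ) := by
      intro j
      simp [s]
    have hpos : ∀ (j : J) l, 0 ≤ co (fun a => (μ j a : ℤ)) S2.Γ l := fun j l =>
      Finset.sum_nonneg fun a _ => mul_nonneg (by positivity) (hvb.Γ0 a l)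
    have hhor : ∀ j ∈ s, ∀ l, S2.Γ t0 l = 0 → (S2.M.x t l)⁻¹ ∉ S2.M.A t →
        co (fun a => (μ j a : ℤ)) S2.Γ l = 0 := by
      intro j hj l hl hu
      have h3 := ((hs j).1 hj l).resolve_right hu
      rw [co_sub] at h3
      have h4 : co (nuN t0 N) S2.Γ l = 0 := by
        unfold co nuN
        rw [Finset.sum_eq_single t0]
        · rw [if_pos rfl, hl, mul_zero]
        · intro a _ ha
          rw [if_neg ha, zero_mul]
        · intro h; exact absurd (Finset.mem_univ _) h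
      have h5 := hpos j l
      omega
    obtain ⟨m, hm, hm'⟩ := exists_least s ⟨j0, (hs j0).2 hj0'⟩ (fun a b =>
      Rg S2.M.A S2.M.x t (co ((fun c => (μ b c : ℤ)) - fun c => (μ a c : ℤ)) S2.Γ)) (by
        intro a _ l
        left
        rw [sub_self]
        simp [co]) (by
        intro a ha b hb
        have h3 := h2 (b, a) (Finset.mem_univ _) t
        have key : ∀ a ∈ s, ∀ b ∈ s, (∀ l, 0 ≤ cv false t0 ((fun c => (μ b c : ℤ)) -
            fun c => (μ a c : ℤ)) S2.Γ l ∨ (S2.M.x t l)⁻¹ ∈ S2.M.A t) →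
            Rg S2.M.A S2.M.x t (co ((fun c => (μ b c : ℤ)) - fun c => (μ a c : ℤ)) S2.Γ) := by
          intro a ha b hb h4 l
          by_cases hu : (S2.M.x t l)⁻¹ ∈ S2.M.A t
          · exact Or.inr hu
          · left
            by_cases hl : 0 < S2.Γ t0 l
            · have h5 := (h4 l).resolve_right hu
              unfold cv at h5
              rwa [if_pos (Or.inr hl)] at h5
            · have hl' : S2.Γ t0 l = 0 := le_antisymm (by omega) (hvb.Γ0 t0 l)
              rw [co_sub, hhor a ha l hl' hu, hhor b hb l hl' hu]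
              omega
        rcases h3 with h3 | h3
        · exact Or.inl (key a ha b hb h3)
        · right
          refine key b hb a ha fun l => (h3 l).imp_left fun h4 => ?_
          unfold cv at h4 ⊢
          by_cases hl : 0 < S2.Γ t0 l
          · rw [if_pos (Or.inr hl), co_sub] at h4
            rw [if_pos (Or.inr hl), co_sub]
            change co (fun c => (μ b c : ℤ)) _ l - co (fun c => (μ a c : ℤ)) _ l ≤ 0 at h4
            omega
          · rw [if_neg (by simpa using hl)]) (by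
        intro a b c h3 h4
        refine Rg.add h3 h4 fun l => ?_
        rw [co_sub, co_sub, co_sub]
        ring)
    refine ⟨fun a => (μ m a : ℤ), Or.inr ⟨m, rfl⟩, fun j => ?_, (hs m).1 hm⟩
    by_cases hj : j ∈ s
    · exact hm' j hj
    · have h3 := (hN j).resolve_left fun h => hj ((hs j).2 h)
      refine Rg.add h3 ((hs m).1 hm) fun l => ?_
      rw [co_sub, co_sub, co_sub]
      ring

end min

end Pool.Agent.K6.H44.VT
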