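import Pool.Agent.K6.H44.VT.Main
import Pool.Agent.K6.H44.VT.Indep

/-!
# Families of quadrics over a curve: the constant case
-/

set_option autoImplicit false
set_option linter.unusedVariables false
set_option linter.unusedSimpArgs false
set_option linter.unusedSectionVars false

universe u v

open Pool.Agent.W558 Pool.Agent.W973.CUT MvPolynomial

namespace Pool.Agent.K6.H44.VT

/-- Smooth affine varieties. -/
theorem hasResolution_of_smooth {k A : Type u} [Field k] [CommRing A] [IsDomain A] [Algebra k A]
    [Algebra.Smooth k A] : Pool.Agent.H920R2.HasResolution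
      (X := AlgebraicGeometry.Spec (CommRingCat.of A))
      (AlgebraicGeometry.Spec.map (CommRingCat.ofHom (algebraMap k A))) := by
  let K := FractionRing A
  let fA : A →ₐ[k] K := IsScalarTower.toAlgHom k A K
  have hfA : Function.Injective fA := IsFractionRing.injective A K
  have hsm : Algebra.Smooth k fA.range := Algebra.Smooth.of_equiv (AlgEquiv.ofInjective fA hfA)
  refine hasResolution_of_atl fA hfA (T := Unit) (C := fun _ => fA.range) (H := fun _ => 1)
    { sm := fun _ => hsm
      aa := fun _ a => ⟨a, rfl⟩
      H0 := fun _ => one_ne_zero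
      hA := fun _ => ⟨1, by rw [map_one]⟩
      rt := fun _ _ => by rw [div_one]; exact Subalgebra.one_mem _
      gl := fun _ _ x hx => ⟨0, by rwa [pow_zero, one_mul]⟩
      dn := fun _ x hx => by
        obtain ⟨a, rfl⟩ := hx
        exact ⟨0, a, by rw [pow_zero, one_mul]; rfl⟩
      cv := fun V hV => ⟨(), by
        rintro _ ⟨a, rfl⟩
        exact hV a⟩ }

open Classical in
theorem const_case {k R : Type u} [Field k] [PerfectField k] [CommRing R]
    [IsDedekindDomain R] [Algebra k R] [Algebra.Smooth k R] {σ : Type} [Finite σ] (a : R)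
    (hprime : (Ideal.span {(C a : MvPolynomial σ R)}).IsPrime) :
    Pool.Agent.H920R2.HasResolution
      (X := AlgebraicGeometry.Spec (CommRingCat.of (MvPolynomial σ R ⧸
        Ideal.span {(C a : MvPolynomial σ R)})))
      (AlgebraicGeometry.Spec.map (CommRingCat.ofHom (algebraMap k _))) := by
  have hdA : IsDomain (MvPolynomial σ R ⧸ Ideal.span {(C a : MvPolynomial σ R)}) :=
    Ideal.Quotient.isDomain _
  have hsm : Algebra.Smooth k (MvPolynomial σ R ⧸ Ideal.span {(C a : MvPolynomial σ R)}) := by
    by_cases ha : a = 0
    · subst ha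
      have h1 : Ideal.span {(C 0 : MvPolynomial σ R)} = ⊥ := by simp
      have h2 : Algebra.Smooth k (MvPolynomial σ R) := smooth_mv
      rw [h1]
      exact Algebra.Smooth.of_equiv (AlgEquiv.quotientBot k (MvPolynomial σ R)).symm
    · have h1 : Ideal.map (C : R →+* MvPolynomial σ R) (Ideal.span {a}) = Ideal.span {C a} := by
        rw [Ideal.map_span, Set.image_singleton]
      have h2 : Ideal.comap (C : R →+* MvPolynomial σ R) (Ideal.span {C a}) = Ideal.span {a} := by
        apply le_antisymm
        · intro x hx
          rw [Ideal.mem_comap, Ideal.mem_span_singleton, C_dvd_iff_dvd_coeff] at hx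
          have h3 := hx 0
          rw [coeff_C, if_pos rfl] at h3
          exact Ideal.mem_span_singleton.2 h3
        · rw [← Ideal.map_le_iff_le_comap, h1]
      have h3 : (Ideal.span {a}).IsPrime := by
        rw [← h2]
        exact hprime.comap _
      have h4 : (Ideal.span {a}).IsMaximal := h3.isMaximal (by
        rw [ne_eq, Ideal.span_singleton_eq_bot]; exact ha)
      let _ : Field (R ⧸ Ideal.span {a}) := Ideal.Quotient.field _
      have h5 : Module.Finite k (R ⧸ Ideal.span {a}) := finite_of_finite_type_of_isJacobsonRing k _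
      have h6 : Algebra.IsAlgebraic k (R ⧸ Ideal.span {a}) := Algebra.IsAlgebraic.of_finite k _
      have h7 : Algebra.IsSeparable k (R ⧸ Ideal.span {a}) :=
        Algebra.IsAlgebraic.isSeparable_of_perfectField
      have h8 : Algebra.FormallyEtale k (R ⧸ Ideal.span {a}) :=
        Algebra.FormallyEtale.of_isSeparable k _
      have h9 : Algebra.FinitePresentation k (R ⧸ Ideal.span {a}) :=
        Algebra.FinitePresentation.of_finiteType.1 inferInstance
      have h10 : Algebra.Smooth k (R ⧸ Ideal.span {a}) := ⟨inferInstance, h9⟩
      have h11 : Algebra.Smooth k (MvPolynomial σ (R ⧸ Ideal.span {a})) := smooth_mv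
      rw [← h1]
      exact Algebra.Smooth.of_equiv
        ((quotientEquivQuotientMvPolynomial (σ := σ) (Ideal.span {a})).restrictScalars k)
  exact hasResolution_of_smooth

end Pool.Agent.K6.H44.VT
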